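import Mathlib
import Pool.Agent.Helper947.Crv.Sch

set_option autoImplicit false

open MvPolynomial
open Pool.Agent.Helper947.Crv

namespace Pool.Agent.Helper947.Hil

/-- base change of a submodule of a free module -/
def bcK {A B : Type} [CommRing A] [CommRing B] {s : Type} (φ : A →+* B)
    (K : Submodule A (s → A)) : Submodule B (s → B) :=
  Submodule.span B {w | ∃ v ∈ K, w = fun i => φ (v i)}

/-- the ideal of minors of size `t` of the elements of a submodule of a free module -/
def Fit {A : Type} [CommRing A] {s : Type} (K : Submodule A (s → A)) (t : ℕ) : Ideal A :=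
  Ideal.span {δ | ∃ (k : Fin t → s → A) (e : Fin t → s), (∀ i, k i ∈ K) ∧
    δ = (Matrix.of fun i j => k i (e j)).det}

/-- the quotient by a submodule is projective of rank `r` -/
def PR {A : Type} [CommRing A] {s : Type} [Fintype s] (K : Submodule A (s → A)) (r : ℕ) : Prop :=
  Module.Projective A ((s → A) ⧸ K) ∧
    ∀ 𝔭 : PrimeSpectrum A, Module.rankAtStalk (R := A) ((s → A) ⧸ K) 𝔭 = r

/-- the quotient by a submodule is projective of rank `r`, in terms of minors -/
def FR {A : Type} [CommRing A] {s : Type} [Fintype s] (K : Submodule A (s → A)) (r : ℕ) : Prop :=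
  r ≤ Fintype.card s ∧ Fit K (Fintype.card s - r) = ⊤ ∧ Fit K (Fintype.card s - r + 1) = ⊥

/-- monomials of degree `n` in four variables -/
abbrev Mon (n : ℕ) : Type := ↥(Finset.finsuppAntidiag (Finset.univ : Finset (Fin 4)) n)

/-- the form of degree `n` with given coefficients -/
noncomputable def pol {A : Type} [CommRing A] (n : ℕ) : (Mon n → A) →ₗ[A] Pl A :=
  Fintype.linearCombination A (fun u : Mon n => (monomial u.1 (1 : A) : Pl A))

/-- coefficient vectors of the elements of degree `n` of an ideal -/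
noncomputable def Kn {A : Type} [CommRing A] (I : Ideal (Pl A)) (n : ℕ) :
    Submodule A (Mon n → A) :=
  (I.restrictScalars A).comap (pol n)

/-- extension of an ideal along a ring homomorphism of the coefficients -/
noncomputable abbrev ext {A B : Type} [CommRing A] [CommRing B] (φ : A →+* B)
    (I : Ideal (Pl A)) : Ideal (Pl B) := I.map (MvPolynomial.map φ)

/-- saturated ideals -/
def IsSat {A : Type} [CommRing A] (I : Ideal (Pl A)) : Prop :=
  ∀ f : Pl A, (∃ n, ∀ p ∈ Fm A n, p * f ∈ I) → f ∈ I

/-- the ideal generated by the degree `n` part of an ideal -/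
noncomputable def gen {A : Type} [CommRing A] (I : Ideal (Pl A)) (n : ℕ) : Ideal (Pl A) :=
  Ideal.span {g | g ∈ I ∧ g ∈ Fm A n}

theorem exists_le_degree (n : ℕ) : ∀ (n' : ℕ) (_ : n ≤ n') (u : Fin 4 →₀ ℕ) (_ : u.degree = n'),
    ∃ v ≤ u, v.degree = n := by
  intro n' h
  induction n', h using Nat.le_induction with
  | base => exact fun u hu => ⟨u, le_rfl, hu⟩
  | succ k hk ih =>
    intro u hu
    have hne : ∃ i, u i ≠ 0 := by
      by_contra hcon
      push Not at hcon
      have : u = 0 := Finsupp.ext hcon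
      rw [this, map_zero] at hu
      omega
    obtain ⟨i, hi⟩ := hne
    have hle : Finsupp.single i 1 ≤ u := by
      rw [Finsupp.single_le_iff]
      omega
    obtain ⟨v, hv, hvd⟩ := ih (u - Finsupp.single i 1) (by
      have h1 : u - Finsupp.single i 1 + Finsupp.single i 1 = u := tsub_add_cancel_of_le hle
      have h2 := congrArg Finsupp.degree h1
      rw [map_add, Finsupp.degree_single, hu] at h2
      omega)
    exact ⟨v, hv.trans tsub_le_self, hvd⟩

theorem Fm_mul_step {A : Type} [CommRing A] {I : Ideal (Pl A)} {f : Pl A} {n n' : ℕ} (h : n ≤ n')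
    (hf : ∀ p ∈ Fm A n, p * f ∈ I) : ∀ p ∈ Fm A n', p * f ∈ I := by
  intro p hp
  rw [p.as_sum, Finset.sum_mul]
  refine I.sum_mem fun u hu => ?_
  have hd : u.degree = n' := by
    have h2 := hp (mem_support_iff.1 hu)
    have h3 := DFunLike.congr_fun (Finsupp.degree_eq_weight_one (R := ℕ) (σ := Fin 4)) u
    rw [h3]
    exact h2
  obtain ⟨v, hv, hvd⟩ := exists_le_degree n n' h u hd
  have h1 : (monomial u (coeff u p) : Pl A) = monomial (u - v) (coeff u p) * monomial v 1 := by
    rw [monomial_mul, tsub_add_cancel_of_le hv, mul_one]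
  rw [h1, mul_assoc]
  refine I.mul_mem_left _ (hf _ ?_)
  rw [mem_homogeneousSubmodule]
  exact isHomogeneous_monomial _ hvd

/-- the saturation of an ideal -/
noncomputable def satI {A : Type} [CommRing A] (I : Ideal (Pl A)) : Ideal (Pl A) where
  carrier := {f | ∃ n, ∀ p ∈ Fm A n, p * f ∈ I}
  add_mem' := by
    rintro a b ⟨n, hn⟩ ⟨m, hm⟩
    refine ⟨max n m, fun p hp => ?_⟩
    rw [mul_add]
    exact I.add_mem (Fm_mul_step (le_max_left _ _) hn p hp)
      (Fm_mul_step (le_max_right _ _) hm p hp)
  zero_mem' := ⟨0, fun p _ => by simp⟩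
  smul_mem' := by
    rintro c x ⟨n, hn⟩
    refine ⟨n, fun p hp => ?_⟩
    rw [smul_eq_mul, mul_left_comm]
    exact I.mul_mem_left c (hn p hp)

/-- the degree from which on everything behaves well -/
def mst (d c : ℕ) : ℕ := d * d + d + c + 1

/-- reduction modulo the maximal ideal -/
noncomputable abbrev Ir {A : Type} [CommRing A] [IsLocalRing A] (I : Ideal (Pl A)) :
    Ideal (Pl (IsLocalRing.ResidueField A)) := ext (IsLocalRing.residue A) I

/-- reduction modulo a prime ideal -/
noncomputable abbrev fib {A : Type} [CommRing A] (p : PrimeSpectrum A) (I : Ideal (Pl A)) :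
    Ideal (Pl p.asIdeal.ResidueField) := ext (algebraMap A p.asIdeal.ResidueField) I

/-- the ideal generated by `r - ∑ c (r, b) b`, `r` a monomial of degree `m` outside `B` -/
noncomputable def JB {A : Type} [CommRing A] {m : ℕ} (B : Finset (Mon m))
    (c : {r : Mon m // r ∉ B} × {b : Mon m // b ∈ B} → A) : Ideal (Pl A) :=
  Ideal.span (Set.range fun r : {r : Mon m // r ∉ B} =>
    (monomial r.1.1 (1 : A) - ∑ b : {b : Mon m // b ∈ B}, monomial b.1.1 (c (r, b)) : Pl A))

/-- the coordinate ring of the affine space of the matrices `c (r, b)` -/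
abbrev RB {m : ℕ} (B : Finset (Mon m)) : Type :=
  MvPolynomial ({r : Mon m // r ∉ B} × {b : Mon m // b ∈ B}) ℤ

/-- the graph of a matrix -/
def gr {A : Type} [CommRing A] {s : Type} [DecidableEq s] (B : Finset s)
    (c : {i : s // i ∉ B} × {i : s // i ∈ B} → A) : Submodule A (s → A) :=
  Submodule.span A (Set.range fun i : {i : s // i ∉ B} =>
    (Pi.single i.1 1 - ∑ b : {i : s // i ∈ B}, Pi.single b.1 (c (i, b)) : s → A))

/-- the condition on a matrix to define a point of the Hilbert functor -/
def CC (d c : ℕ) {A : Type} [CommRing A] (B : Finset (Mon (mst d c)))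
    (x : {r : Mon (mst d c) // r ∉ B} × {b : Mon (mst d c) // b ∈ B} → A) : Prop :=
  ∀ n ≥ mst d c, FR (Kn (JB B x) n) (d * n + c)

end Pool.Agent.Helper947.Hil
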