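import Mathlib
import Pool.Agent.Helper947.Hil.Defs

set_option autoImplicit false

open MvPolynomial CategoryTheory CategoryTheory.Limits AlgebraicGeometry

namespace Pool.Agent.Helper947.Hil.La1

open Pool.Agent.Helper947.Crv

theorem Fit_bcK_aux {B : Type} [CommRing B] {s : Type} {t : ℕ} (S : Set (s → B)) (I : Ideal B)
    (e : Fin t → s)
    (hS : ∀ k : Fin t → s → B, (∀ i, k i ∈ S) → (Matrix.of fun i j => k i (e j)).det ∈ I)
    (k : Fin t → s → B) (hk : ∀ i, k i ∈ Submodule.span B S) :
    (Matrix.of fun i j => k i (e j)).det ∈ I := by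
  classical
  have key : ∀ T : Finset (Fin t), ∀ k : Fin t → s → B, (∀ i ∈ T, k i ∈ Submodule.span B S) →
      (∀ i ∉ T, k i ∈ S) → (Matrix.of fun i j => k i (e j)).det ∈ I := by
    intro T
    induction T using Finset.induction_on with
    | empty => intro k _ h2; exact hS k (fun i => h2 i (by simp))
    | insert a T ha ih =>
      intro k h1 h2
      have hup : ∀ x : s → B, (Matrix.of fun i j => (Function.update k a x) i (e j)) =
          (Matrix.of fun i j => k i (e j)).updateRow a (fun j => x (e j)) := by
        intro x
        ext i j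
        by_cases hia : i = a
        · subst hia; simp
        · simp [Matrix.updateRow_ne hia, Function.update_of_ne hia]
      have h3 : ∀ x ∈ Submodule.span B S,
          (Matrix.of fun i j => (Function.update k a x) i (e j)).det ∈ I := by
        intro x hx
        induction hx using Submodule.span_induction with
        | mem x hx =>
          apply ih
          · intro i hi
            have hia : i ≠ a := fun h => ha (h ▸ hi)
            rw [Function.update_of_ne hia]
            exact h1 i (Finset.mem_insert_of_mem hi)
          · intro i hi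
            by_cases hia : i = a
            · subst hia; simpa using hx
            · rw [Function.update_of_ne hia]
              exact h2 i (by simp [hia, hi])
        | zero =>
          rw [hup]
          have : (fun j => (0 : s → B) (e j)) = (0 : Fin t → B) := rfl
          rw [this, Matrix.det_eq_zero_of_row_eq_zero a (by intro j; simp)]
          exact I.zero_mem
        | add x y _ _ hx hy =>
          rw [hup] at hx hy ⊢
          have : (fun j => (x + y) (e j)) = (fun j => x (e j)) + fun j => y (e j) := rfl
          rw [this, Matrix.det_updateRow_add]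
          exact I.add_mem hx hy
        | smul c x _ hx =>
          rw [hup] at hx ⊢
          have : (fun j => (c • x) (e j)) = c • (fun j => x (e j)) := rfl
          rw [this, Matrix.det_updateRow_smul]
          exact I.mul_mem_left c hx
      have h4 := h3 (k a) (h1 a (Finset.mem_insert_self a T))
      rwa [Function.update_eq_self] at h4
  exact key Finset.univ k (fun i _ => hk i) (fun i hi => absurd (Finset.mem_univ i) hi)

theorem _root_.Pool.Agent.Helper947.Hil.Fit_bcK {A B : Type} [CommRing A] [CommRing B] {s : Type} (φ : A →+* B)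
    (K : Submodule A (s → A)) (t : ℕ) : Fit (bcK φ K) t = (Fit K t).map φ := by
  apply le_antisymm
  · rw [Fit, Ideal.span_le]
    rintro _ ⟨k, e, hk, rfl⟩
    refine Fit_bcK_aux _ _ e ?_ k hk
    intro k' hk'
    choose v hv hvk using hk'
    have h1 : (Matrix.of fun i j => k' i (e j)) = φ.mapMatrix (Matrix.of fun i j => v i (e j)) := by
      ext i j
      simp [hvk]
    rw [h1, ← RingHom.map_det]
    exact Ideal.mem_map_of_mem φ (Ideal.subset_span ⟨v, e, hv, rfl⟩)
  · rw [Fit, Ideal.map_span, Ideal.span_le]
    rintro _ ⟨_, ⟨k, e, hk, rfl⟩, rfl⟩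
    refine Ideal.subset_span ⟨fun i j => φ (k i j), e, fun i =>
      Submodule.subset_span ⟨k i, hk i, rfl⟩, ?_⟩
    rw [RingHom.map_det]
    congr 1

theorem _root_.Pool.Agent.Helper947.Hil.bcK_bcK {A B C : Type} [CommRing A] [CommRing B] [CommRing C] {s : Type} (φ : A →+* B)
    (ψ : B →+* C) (K : Submodule A (s → A)) : bcK ψ (bcK φ K) = bcK (ψ.comp φ) K := by
  apply le_antisymm
  · refine Submodule.span_le.2 ?_
    rintro _ ⟨w, hw, rfl⟩
    rw [SetLike.mem_coe]
    unfold bcK at hw
    induction hw using Submodule.span_induction with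
    | mem w hw =>
      obtain ⟨v, hv, rfl⟩ := hw
      exact Submodule.subset_span ⟨v, hv, rfl⟩
    | zero =>
      have : (fun i => ψ ((0 : s → B) i)) = 0 := by ext i; simp
      rw [this]
      exact Submodule.zero_mem _
    | add x y _ _ hx hy =>
      have : (fun i => ψ ((x + y) i)) = (fun i => ψ (x i)) + fun i => ψ (y i) := by
        ext i; simp
      rw [this]
      exact Submodule.add_mem _ hx hy
    | smul c x _ hx =>
      have : (fun i => ψ ((c • x) i)) = ψ c • (fun i => ψ (x i)) := by
        ext i; simp
      rw [this]
      exact Submodule.smul_mem _ _ hx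
  · refine Submodule.span_le.2 ?_
    rintro _ ⟨v, hv, rfl⟩
    exact Submodule.subset_span ⟨fun i => φ (v i), Submodule.subset_span ⟨v, hv, rfl⟩, rfl⟩

theorem _root_.Pool.Agent.Helper947.Hil.FR_bcK {A B : Type} [CommRing A] [CommRing B] {s : Type} [Fintype s] (φ : A →+* B)
    {K : Submodule A (s → A)} {r : ℕ} (h : FR K r) : FR (bcK φ K) r := by
  obtain ⟨h1, h2, h3⟩ := h
  refine ⟨h1, ?_, ?_⟩
  · rw [Fit_bcK, h2, Ideal.map_top]
  · rw [Fit_bcK, h3, Ideal.map_bot]

end Pool.Agent.Helper947.Hil.La1

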