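import Mathlib
import Pool.Agent.Helper947.Hil.Defs

set_option autoImplicit false

open MvPolynomial CategoryTheory CategoryTheory.Limits AlgebraicGeometry

namespace Pool.Agent.Helper947.Hil.La2

open Pool.Agent.Helper947.Crv

theorem a2_minor {L : Type} [Field L] {s : Type} [Fintype s] {m : ℕ} (v : Fin m → s → L)
    (hv : LinearIndependent L v) : ∃ e : Fin m → s, (Matrix.of fun i j => v i (e j)).det ≠ 0 := by
  classical
  let M : Matrix (Fin m) s L := Matrix.of v
  have hr : M.rank = m := by
    have : LinearIndependent L M.row := hv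
    simpa using this.rank_matrix
  let cols : s → (Fin m → L) := fun j i => v i j
  obtain ⟨κ, a, ha, hsp, hli⟩ := exists_linearIndependent' L cols
  have hfin : Module.finrank L (Submodule.span L (Set.range cols)) = m := by
    have := Matrix.rank_eq_finrank_span_cols M
    rw [hr] at this
    exact this.symm
  have hκ : Finite κ := Finite.of_injective a ha
  cases nonempty_fintype κ
  have hcard : Fintype.card κ = m := by
    rw [← hfin, ← hsp, finrank_span_eq_card hli]
  let eq : Fin m ≃ κ := (Fintype.equivFinOfCardEq hcard).symm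
  refine ⟨fun j => a (eq j), ?_⟩
  have h1 : LinearIndependent L (Matrix.of fun i j => v i (a (eq j))).col := by
    exact hli.comp eq eq.injective
  rw [Matrix.linearIndependent_cols_iff_isUnit, Matrix.isUnit_iff_isUnit_det] at h1
  exact h1.ne_zero

theorem a2_det_zero {R : Type} [CommRing R] {m : ℕ} (C : Fin (m + 1) → Fin m → R)
    (B : Fin m → Fin (m + 1) → R) :
    (Matrix.of fun i j => ∑ l, C i l * B l j : Matrix (Fin (m + 1)) (Fin (m + 1)) R).det = 0 := by
  let C' : Matrix (Fin (m + 1)) (Fin (m + 1)) R :=
    Matrix.of fun i l => Fin.lastCases (motive := fun _ => R) 0 (fun l => C i l) l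
  let B' : Matrix (Fin (m + 1)) (Fin (m + 1)) R :=
    Matrix.of fun l j => Fin.lastCases (motive := fun _ => R) 0 (fun l => B l j) l
  have h : (Matrix.of fun i j => ∑ l, C i l * B l j : Matrix (Fin (m + 1)) (Fin (m + 1)) R) =
      C' * B' := by
    ext i j
    rw [Matrix.mul_apply, Fin.sum_univ_castSucc]
    simp [C', B']
  rw [h, Matrix.det_mul]
  have : C'.det = 0 := Matrix.det_eq_zero_of_column_eq_zero (Fin.last m) (fun i => by simp [C'])
  rw [this, zero_mul]

theorem a2_proj {A : Type} [CommRing A] {s : Type} [Fintype s] {K : Submodule A (s → A)}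
    [Module.Projective A ((s → A) ⧸ K)] :
    Module.Projective A K ∧ Module.Finite A K ∧ Nonempty ((s → A) ≃ₗ[A] (K × ((s → A) ⧸ K))) := by
  obtain ⟨σ, hσ⟩ := Module.projective_lifting_property K.mkQ LinearMap.id K.mkQ_surjective
  -- the projection onto `K`
  have hmem : ∀ x : s → A, x - σ (K.mkQ x) ∈ K := by
    intro x
    have h : x - σ (K.mkQ x) ∈ LinearMap.ker K.mkQ := by
      rw [LinearMap.mem_ker, map_sub, sub_eq_zero]
      exact (LinearMap.congr_fun hσ (K.mkQ x)).symm
    rwa [Submodule.ker_mkQ] at h
  let π : (s → A) →ₗ[A] K := LinearMap.codRestrict K (LinearMap.id - σ ∘ₗ K.mkQ) hmem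
  have hπ : ∀ k : K, π k = k := by
    intro k
    apply Subtype.ext
    change (k : s → A) - σ (K.mkQ k) = k
    rw [Submodule.mkQ_apply, (Submodule.Quotient.mk_eq_zero K).mpr k.2, map_zero, sub_zero]
  have hsurj : Function.Surjective π := fun k => ⟨k, hπ k⟩
  have hP : Module.Projective A K := Module.Projective.of_split K.subtype π (by
    ext k
    simp [hπ])
  have hF : Module.Finite A K := Module.Finite.of_surjective π hsurj
  refine ⟨hP, hF, ⟨LinearEquiv.ofBijective (π.prod K.mkQ) ⟨?_, ?_⟩⟩⟩
  · rw [injective_iff_map_eq_zero]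
    intro x hx
    have h1 : π x = 0 := congrArg Prod.fst hx
    have h2 : K.mkQ x = 0 := congrArg Prod.snd hx
    have h3 : x - σ (K.mkQ x) = 0 := congrArg Subtype.val h1
    rw [h2, map_zero, sub_zero] at h3
    exact h3
  · rintro ⟨k, q⟩
    have hq : K.mkQ (σ q) = q := LinearMap.congr_fun hσ q
    have hkq : K.mkQ (k : s → A) = 0 := by
      rw [Submodule.mkQ_apply, Submodule.Quotient.mk_eq_zero]
      exact k.2
    refine ⟨k + σ q, ?_⟩
    have e1 : π (σ q) = 0 := by
      apply Subtype.ext
      change σ q - σ (K.mkQ (σ q)) = 0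
      rw [hq, sub_self]
    apply Prod.ext
    · change π (k + σ q) = k
      rw [map_add, e1, add_zero, hπ]
    · change K.mkQ (k + σ q) = q
      rw [map_add, hq, hkq, zero_add]

theorem a2_rank {A : Type} [CommRing A] [Nontrivial A] {s : Type} [Fintype s]
    {K : Submodule A (s → A)} {r : ℕ} (h : PR K r) (p : PrimeSpectrum A) :
    Module.rankAtStalk (R := A) K p + r = Fintype.card s := by
  obtain ⟨h1, h2⟩ := h
  obtain ⟨hP, hF, ⟨e⟩⟩ := a2_proj (K := K)
  have e1 := congrFun (Module.rankAtStalk_eq_of_equiv e) p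
  rw [Module.rankAtStalk_prod, Module.rankAtStalk_eq_finrank_of_free, Pi.add_apply, h2 p] at e1
  simp only [Module.finrank_fintype_fun_eq_card] at e1
  simpa using e1.symm

theorem a2_proj' {A : Type} [CommRing A] {s : Type} [Fintype s] {K : Submodule A (s → A)}
    (h : Module.Projective A ((s → A) ⧸ K)) :
    Module.Projective A K ∧ Module.Finite A K ∧ Nonempty ((s → A) ≃ₗ[A] (K × ((s → A) ⧸ K))) :=
  a2_proj

open scoped TensorProduct in
theorem _root_.Pool.Agent.Helper947.Hil.FR_of_PR {A : Type} [CommRing A] {s : Type} [Fintype s] {K : Submodule A (s → A)} {r : ℕ}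
    (h : PR K r) (hr : r ≤ Fintype.card s) : FR K r := by
  classical
  refine ⟨hr, ?_, ?_⟩
  · -- top
    by_contra hne
    obtain ⟨𝔪, hmax, hle⟩ := Ideal.exists_le_maximal _ hne
    have hnt : Nontrivial A := by
      by_contra hcon
      rw [not_nontrivial_iff_subsingleton] at hcon
      exact hne (Subsingleton.elim _ _)
    have hprime : 𝔪.IsPrime := hmax.isPrime
    let κ := 𝔪.ResidueField
    let φ : A →+* κ := algebraMap A κ
    let Φ : (s → A) →ₗ[A] (s → κ) := LinearMap.compLeft (Algebra.linearMap A κ) s
    have hΦ : ∀ v j, Φ v j = φ (v j) := fun v j => rfl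
    let v : K → (s → κ) := fun k => Φ k
    let W : Submodule κ (s → κ) := Submodule.span κ (Set.range v)
    have hdim : Fintype.card s - r ≤ Module.finrank κ W := by
      obtain ⟨h1, h2⟩ := h
      let g0 : (s → A) →ₗ[A] ((s → κ) ⧸ W) := (W.mkQ.restrictScalars A) ∘ₗ Φ
      have hg0 : K ≤ LinearMap.ker g0 := by
        intro k hk
        rw [LinearMap.mem_ker]
        change W.mkQ (Φ k) = 0
        rw [Submodule.mkQ_apply, Submodule.Quotient.mk_eq_zero]
        exact Submodule.subset_span ⟨⟨k, hk⟩, rfl⟩
      let g : ((s → A) ⧸ K) →ₗ[A] ((s → κ) ⧸ W) := K.liftQ g0 hg0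
      let G : (κ ⊗[A] ((s → A) ⧸ K)) →ₗ[κ] ((s → κ) ⧸ W) := g.liftBaseChange κ
      have hG : Function.Surjective G := by
        intro x
        obtain ⟨w, rfl⟩ := W.mkQ_surjective x
        refine ⟨∑ j, (w j) ⊗ₜ[A] (K.mkQ (Pi.single j 1)), ?_⟩
        rw [map_sum]
        have e1 : w = ∑ j, w j • (Pi.single j 1 : s → κ) := by
          ext i
          simp [Finset.sum_apply, Pi.single_apply]
        conv_rhs => rw [e1, map_sum]
        refine Finset.sum_congr rfl fun j _ => ?_
        rw [LinearMap.liftBaseChange_tmul, map_smul]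
        congr 1
        change W.mkQ (Φ (Pi.single j 1)) = _
        congr 1
        ext i
        rw [hΦ]
        by_cases hij : i = j
        · subst hij; simp
        · simp [Pi.single_apply, hij]
      have hfr := LinearMap.finrank_le_finrank_of_surjective hG
      have hrk : Module.finrank κ (κ ⊗[A] ((s → A) ⧸ K)) = r := by
        have := Ideal.finrank_fiber_eq_rankAtStalk (M := (s → A) ⧸ K) 𝔪
        rw [h2] at this
        exact this
      have hq := W.finrank_quotient_add_finrank
      rw [Module.finrank_fintype_fun_eq_card] at hq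
      omega
    obtain ⟨ι, a, ha, hsp, hli⟩ := exists_linearIndependent' κ v
    have hι : Finite ι := hli.finite
    cases nonempty_fintype ι
    have hcard : Fintype.card ι = Module.finrank κ W := by
      rw [← finrank_span_eq_card hli, hsp]
    obtain ⟨em⟩ : Nonempty (Fin (Fintype.card s - r) ↪ ι) := by
      apply Function.Embedding.nonempty_of_card_le
      rw [Fintype.card_fin, hcard]
      exact hdim
    have hli2 : LinearIndependent κ (fun i => v (a (em i))) := hli.comp em em.injective
    obtain ⟨e, he⟩ := a2_minor _ hli2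
    apply he
    have hδ : (Matrix.of fun i j => (a (em i) : s → A) (e j)).det ∈ 𝔪 := by
      apply hle
      exact Ideal.subset_span ⟨fun i => (a (em i) : s → A), e, fun i => (a (em i)).2, rfl⟩
    have h0 : φ (Matrix.of fun i j => (a (em i) : s → A) (e j)).det = 0 :=
      Ideal.algebraMap_residueField_eq_zero.mpr hδ
    rw [RingHom.map_det] at h0
    exact h0
  · -- bot
    rw [eq_bot_iff]
    refine Ideal.span_le.mpr ?_
    rintro δ ⟨k, e, hk, rfl⟩
    rw [SetLike.mem_coe, Ideal.mem_bot]
    refine eq_zero_of_localization _ fun J hJ => ?_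
    have hnt : Nontrivial A := by
      by_contra hcon
      rw [not_nontrivial_iff_subsingleton] at hcon
      exact hJ.ne_top (Subsingleton.elim _ _)
    have hprime : J.IsPrime := hJ.isPrime
    obtain ⟨hP, hF, -⟩ := a2_proj' h.1
    have hrk := a2_rank h ⟨J, hprime⟩
    rw [Module.rankAtStalk_eq_finrank_tensorProduct] at hrk
    have hrk2 : Module.finrank (Localization.AtPrime J) (Localization.AtPrime J ⊗[A] K) =
        Fintype.card s - r := by
      have h5 : Module.finrank (Localization.AtPrime J) (Localization.AtPrime J ⊗[A] K) + r =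
        Fintype.card s := hrk
      omega
    have hfree : Module.Free (Localization.AtPrime J) (Localization.AtPrime J ⊗[A] K) :=
      Module.free_of_flat_of_isLocalRing
    let b := Module.finBasisOfFinrankEq (Localization.AtPrime J)
      (Localization.AtPrime J ⊗[A] K) hrk2
    let φ : A →+* Localization.AtPrime J := algebraMap A _
    let Φ : (s → A) →ₗ[A] (s → Localization.AtPrime J) :=
      LinearMap.compLeft (Algebra.linearMap A (Localization.AtPrime J)) s
    have hΦ : ∀ v j, Φ v j = φ (v j) := fun v j => rfl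
    let f : (Localization.AtPrime J ⊗[A] K) →ₗ[Localization.AtPrime J]
      (s → Localization.AtPrime J) := (Φ ∘ₗ K.subtype).liftBaseChange (Localization.AtPrime J)
    have hf : ∀ (x : K) j, φ ((x : s → A) j) =
        ∑ l, b.repr ((1 : Localization.AtPrime J) ⊗ₜ[A] x) l * f (b l) j := by
      intro x j
      have h1 : f ((1 : Localization.AtPrime J) ⊗ₜ[A] x) j = φ ((x : s → A) j) := by
        change (Φ ∘ₗ K.subtype).liftBaseChange (Localization.AtPrime J) _ j = _
        rw [LinearMap.liftBaseChange_tmul, one_smul]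
        rfl
      rw [← h1]
      conv_lhs => rw [← b.sum_repr ((1 : Localization.AtPrime J) ⊗ₜ[A] x)]
      rw [map_sum, Finset.sum_apply]
      refine Finset.sum_congr rfl fun l _ => ?_
      rw [map_smul, Pi.smul_apply, smul_eq_mul]
    change φ _ = 0
    rw [RingHom.map_det]
    have h6 : φ.mapMatrix (Matrix.of fun i j => k i (e j)) =
        Matrix.of fun i j => ∑ l, b.repr ((1 : Localization.AtPrime J) ⊗ₜ[A]
          (⟨k i, hk i⟩ : K)) l * f (b l) (e j) := by
      ext i j
      exact hf ⟨k i, hk i⟩ (e j)
    rw [h6]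
    exact a2_det_zero (fun i l => b.repr ((1 : Localization.AtPrime J) ⊗ₜ[A]
          (⟨k i, hk i⟩ : K)) l) (fun l j => f (b l) (e j))

theorem _root_.Pool.Agent.Helper947.Hil.PR_le_card {A : Type} [CommRing A] [Nontrivial A] {s : Type} [Fintype s]
    {K : Submodule A (s → A)} {r : ℕ} (h : PR K r) : r ≤ Fintype.card s := by
  obtain ⟨p⟩ : Nonempty (PrimeSpectrum A) := inferInstance
  have := a2_rank h p
  omega

end Pool.Agent.Helper947.Hil.La2

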