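import Mathlib
import Pool.Agent.Helper947.Hil.Defs

set_option autoImplicit false

open MvPolynomial CategoryTheory CategoryTheory.Limits AlgebraicGeometry

namespace Pool.Agent.Helper947.Hil.La3

open Pool.Agent.Helper947.Crv

/-- the reduced rows attached to an invertible minor -/
theorem lf_rows {A : Type} [CommRing A] {s : Type} {K : Submodule A (s → A)} {t : ℕ}
    (k : Fin t → s → A) (e : Fin t → s) (hk : ∀ i, k i ∈ K)
    (hu : IsUnit (Matrix.of fun i j => k i (e j)).det) :
    ∃ k' : Fin t → s → A, (∀ i, k' i ∈ K) ∧ ∀ i l, k' i (e l) = if i = l then 1 else 0 := by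
  classical
  set M : Matrix (Fin t) (Fin t) A := Matrix.of fun i j => k i (e j) with hM
  refine ⟨fun i => ∑ j, M⁻¹ i j • k j, fun i => K.sum_mem fun j _ => K.smul_mem _ (hk j), ?_⟩
  intro i l
  have h1 : M⁻¹ * M = 1 := Matrix.nonsing_inv_mul M hu
  have h2 := congrFun (congrFun h1 i) l
  rw [Matrix.mul_apply, Matrix.one_apply] at h2
  rw [← h2]
  show (∑ j, M⁻¹ i j • k j) (e l) = _
  rw [Finset.sum_apply]
  rfl

theorem lf_minor {A : Type} [CommRing A] {s : Type} {K : Submodule A (s → A)} {t : ℕ}
    (hF : Fit K (t + 1) = ⊥)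
    (k' : Fin t → s → A) (e : Fin t → s) (hk : ∀ i, k' i ∈ K)
    (hd : ∀ i l, k' i (e l) = if i = l then 1 else 0) (v : s → A) (hv : v ∈ K)
    (hv0 : ∀ l, v (e l) = 0) : v = 0 := by
  funext j
  have h1 : (Matrix.of fun i l => (Fin.snoc k' v : Fin (t + 1) → s → A) i
      ((Fin.snoc e j : Fin (t + 1) → s) l)).det ∈ Fit K (t + 1) := by
    refine Ideal.subset_span ⟨Fin.snoc k' v, Fin.snoc e j, ?_, rfl⟩
    intro i
    refine Fin.lastCases ?_ (fun i => ?_) i
    · rw [Fin.snoc_last]; exact hv
    · rw [Fin.snoc_castSucc]; exact hk i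
  rw [hF, Ideal.mem_bot, Matrix.det_of_isUpperTriangular, Fin.prod_univ_castSucc] at h1
  · simpa [hd] using h1
  · intro a b hab
    simp only [id] at hab
    revert hab
    refine Fin.lastCases ?_ (fun b => ?_) b
    · intro hab
      exact absurd (Fin.le_last a) (not_le.2 hab)
    · refine Fin.lastCases ?_ (fun a => ?_) a
      · intro _
        simp [hv0]
      · intro hab
        have : a ≠ b := by
          rintro rfl
          exact lt_irrefl _ hab
        simp [hd, this]

theorem lf_forward {A : Type} [CommRing A] [IsLocalRing A] {s : Type} [Fintype s]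
    (K : Submodule A (s → A)) (t : ℕ) (h1 : Fit K t = ⊤) (h2 : Fit K (t + 1) = ⊥) :
    Module.Free A ((s → A) ⧸ K) ∧ Module.finrank A ((s → A) ⧸ K) = Fintype.card s - t := by
  classical
  obtain ⟨k, e, hk, hu⟩ : ∃ (k : Fin t → s → A) (e : Fin t → s), (∀ i, k i ∈ K) ∧
      IsUnit (Matrix.of fun i j => k i (e j)).det := by
    by_contra hcon
    push Not at hcon
    have h3 : Fit K t ≤ IsLocalRing.maximalIdeal A := by
      refine Ideal.span_le.2 ?_
      rintro _ ⟨k, e, hk, rfl⟩
      exact (IsLocalRing.mem_maximalIdeal _).2 (hcon k e hk)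
    rw [h1] at h3
    exact (IsLocalRing.maximalIdeal.isMaximal A).ne_top (top_le_iff.1 h3)
  obtain ⟨k', hk', hd⟩ := lf_rows k e hk hu
  have he : Function.Injective e := by
    intro l l' hll
    by_contra hne
    have h3 := hd l l
    have h4 := hd l l'
    rw [← hll, h3, if_pos rfl, if_neg hne] at h4
    exact one_ne_zero h4
  let φ : (s → A) →ₗ[A] (s → A) :=
    LinearMap.id - ∑ i, (LinearMap.proj (e i)).smulRight (k' i)
  have hφ : ∀ v, φ v = v - ∑ i, v (e i) • k' i := by
    intro v
    simp [φ, LinearMap.sum_apply]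
  have hφe : ∀ v l, φ v (e l) = 0 := by
    intro v l
    rw [hφ, Pi.sub_apply, Finset.sum_apply]
    simp [hd]
  have hφK : ∀ v, φ v ∈ K ↔ v ∈ K := by
    intro v
    have h5 : ∑ i, v (e i) • k' i ∈ K := K.sum_mem fun i _ => K.smul_mem _ (hk' i)
    rw [hφ]
    exact K.sub_mem_iff_left h5
  let ψ : (s → A) →ₗ[A] ({j : s // j ∉ Set.range e} → A) :=
    (LinearMap.funLeft A A (Subtype.val : {j : s // j ∉ Set.range e} → s)).comp φ
  have hψ : ∀ v j, ψ v j = φ v j.1 := fun v j => rfl
  have hker : LinearMap.ker ψ = K := by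
    ext v
    rw [LinearMap.mem_ker]
    constructor
    · intro h
      have h5 : φ v = 0 := by
        funext j
        by_cases hj : j ∈ Set.range e
        · obtain ⟨l, rfl⟩ := hj
          exact hφe v l
        · have := congrFun h ⟨j, hj⟩
          rw [hψ] at this
          exact this
      rw [← hφK, h5]
      exact K.zero_mem
    · intro h
      have h5 : φ v = 0 := lf_minor h2 k' e hk' hd (φ v) ((hφK v).2 h) (hφe v)
      funext j
      rw [hψ, h5]; rfl
  have hsurj : Function.Surjective ψ := by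
    intro w
    refine ⟨fun j => if h : j ∉ Set.range e then w ⟨j, h⟩ else 0, ?_⟩
    funext j
    rw [hψ, hφ]
    have h6 : ∀ i, (if h : e i ∉ Set.range e then w ⟨e i, h⟩ else 0) = 0 := fun i =>
      dif_neg (fun h => h ⟨i, rfl⟩)
    simp only [h6, zero_smul, Finset.sum_const_zero, sub_zero]
    rw [dif_pos j.2]
  have eqv : ((s → A) ⧸ K) ≃ₗ[A] ({j : s // j ∉ Set.range e} → A) :=
    (Submodule.quotEquivOfEq K (LinearMap.ker ψ) hker.symm).trans
      (ψ.quotKerEquivOfSurjective hsurj)
  refine ⟨Module.Free.of_equiv eqv.symm, ?_⟩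
  rw [eqv.finrank_eq, Module.finrank_fintype_fun_eq_card, Fintype.card_subtype_compl,
    Set.card_range_of_injective he, Fintype.card_fin]

theorem lf_basis {A : Type} [CommRing A] [IsLocalRing A] {s : Type} [Fintype s]
    (K : Submodule A (s → A)) [DecidableEq s] (hfree : Module.Free A ((s → A) ⧸ K)) :
    ∃ (κ : Type) (a : κ → s) (b : Module.Basis κ A ((s → A) ⧸ K)),
      ∀ i, b i = K.mkQ (Pi.single (a i) 1) := by
  have : Module.FinitePresentation A ((s → A) ⧸ K) :=
    Module.finitePresentation_of_projective _ _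
  refine Module.exists_basis_of_span_of_flat (fun c : s => K.mkQ (Pi.single c (1 : A))) ?_
  have h1 : Submodule.span A (Set.range fun c : s => (Pi.single c (1 : A) : s → A)) = ⊤ := by
    have := (Pi.basisFun A s).span_eq
    convert this using 3
    ext c
    simp
  have h2 : (Set.range fun c : s => K.mkQ (Pi.single c (1 : A))) =
      K.mkQ '' (Set.range fun c : s => (Pi.single c (1 : A) : s → A)) := by
    rw [← Set.range_comp]; rfl
  rw [h2, Submodule.span_image, h1, Submodule.map_top, Submodule.range_mkQ]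

/-- backward direction -/
theorem lf_backward {A : Type} [CommRing A] [IsLocalRing A] {s : Type} [Fintype s]
    (K : Submodule A (s → A)) (hfree : Module.Free A ((s → A) ⧸ K)) :
    FR K (Module.finrank A ((s → A) ⧸ K)) := by
  classical
  obtain ⟨κ, a, b, hb⟩ := lf_basis K hfree
  have ha : Function.Injective a := by
    intro i j hij
    apply b.injective
    rw [hb, hb, hij]
  have : Finite κ := Finite.of_injective a ha
  have : Fintype κ := Fintype.ofFinite κ
  have hrank : Module.finrank A ((s → A) ⧸ K) = Fintype.card κ :=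
    Module.finrank_eq_card_basis b
  have hle : Fintype.card κ ≤ Fintype.card s := Fintype.card_le_of_injective a ha
  have hcT : Fintype.card {c : s // c ∉ Set.range a} = Fintype.card s - Fintype.card κ := by
    rw [Fintype.card_subtype_compl, Set.card_range_of_injective ha]
  obtain ⟨ε⟩ : Nonempty (Fin (Fintype.card s - Fintype.card κ) ≃ {c : s // c ∉ Set.range a}) :=
    ⟨(Fintype.equivFinOfCardEq hcT).symm⟩
  set t := Fintype.card s - Fintype.card κ with ht
  -- the distinguished elements of `K`
  let k : Fin t → s → A := fun l => Pi.single (ε l).1 1 -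
    ∑ i : κ, b.repr (K.mkQ (Pi.single (ε l).1 1)) i • Pi.single (a i) 1
  have hk : ∀ l, k l ∈ K := by
    intro l
    rw [← Submodule.Quotient.mk_eq_zero, ← Submodule.mkQ_apply]
    show K.mkQ (Pi.single (ε l).1 1 -
      ∑ i : κ, b.repr (K.mkQ (Pi.single (ε l).1 1)) i • Pi.single (a i) 1) = 0
    rw [map_sub, map_sum]
    simp only [map_smul, ← hb]
    rw [b.sum_repr, sub_self]
  have hkd : ∀ l l', k l (ε l').1 = if l = l' then 1 else 0 := by
    intro l l'
    show (Pi.single (ε l).1 1 - ∑ i : κ, b.repr (K.mkQ (Pi.single (ε l).1 1)) i •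
      Pi.single (a i) 1 : s → A) (ε l').1 = _
    rw [Pi.sub_apply, Finset.sum_apply, Finset.sum_eq_zero, sub_zero, Pi.single_apply]
    · refine if_congr ?_ rfl rfl
      constructor
      · intro h
        exact ε.injective (Subtype.ext h.symm)
      · rintro rfl; rfl
    · intro i _
      have : (ε l').1 ≠ a i := fun h => (ε l').2 ⟨i, h.symm⟩
      rw [Pi.smul_apply, Pi.single_eq_of_ne this, smul_zero]
  have hK : ∀ v ∈ K, v = ∑ l, v (ε l).1 • k l := by
    intro v hv
    have hw : v - ∑ l, v (ε l).1 • k l ∈ K :=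
      K.sub_mem hv (K.sum_mem fun l _ => K.smul_mem _ (hk l))
    generalize hwd : v - ∑ l, v (ε l).1 • k l = w at hw
    have hw0 : ∀ c, c ∉ Set.range a → w c = 0 := by
      intro c hc
      obtain ⟨l, hl⟩ := ε.surjective ⟨c, hc⟩
      have hc' : c = (ε l).1 := by rw [hl]
      rw [← hwd, Pi.sub_apply, Finset.sum_apply, hc']
      simp [hkd]
    have hwsum : w = ∑ i : κ, w (a i) • Pi.single (a i) 1 := by
      funext c
      rw [Finset.sum_apply]
      by_cases hc : c ∈ Set.range a
      · obtain ⟨i, rfl⟩ := hc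
        rw [Finset.sum_eq_single i]
        · simp
        · intro j _ hj
          rw [Pi.smul_apply, Pi.single_eq_of_ne (fun h => hj (ha h).symm), smul_zero]
        · intro h
          exact absurd (Finset.mem_univ i) h
      · rw [hw0 c hc, Finset.sum_eq_zero]
        intro j _
        rw [Pi.smul_apply, Pi.single_eq_of_ne (fun h => hc ⟨j, h.symm⟩), smul_zero]
    have hq : K.mkQ w = 0 := (Submodule.Quotient.mk_eq_zero K).2 hw
    rw [hwsum, map_sum] at hq
    simp only [map_smul, ← hb] at hq
    have hz := Fintype.linearIndependent_iff.1 b.linearIndependent (fun i => w (a i)) hq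
    have hw' : w = 0 := by
      rw [hwsum]
      refine Finset.sum_eq_zero fun i _ => ?_
      rw [hz i, zero_smul]
    rw [hw'] at hwd
    exact sub_eq_zero.1 hwd
  refine ⟨hrank ▸ hle, ?_, ?_⟩
  · rw [hrank, ← ht, Ideal.eq_top_iff_one]
    refine Ideal.subset_span ⟨k, fun l => (ε l).1, hk, ?_⟩
    have : (Matrix.of fun i j => k i (ε j).1) = (1 : Matrix (Fin t) (Fin t) A) := by
      ext i j
      rw [Matrix.of_apply, hkd, Matrix.one_apply]
    rw [this, Matrix.det_one]
  · rw [hrank, ← ht, eq_bot_iff]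
    refine Ideal.span_le.2 ?_
    rintro _ ⟨v, e, hv, rfl⟩
    have hfac : (Matrix.of fun i j => v i (e j)) =
        (Matrix.of fun (i : Fin (t + 1)) (j : Fin (t + 1)) =>
          (Fin.snoc (fun l => v i (ε l).1) 0 : Fin (t + 1) → A) j) *
        (Matrix.of fun (i : Fin (t + 1)) (j : Fin (t + 1)) =>
          (Fin.snoc (fun l => k l (e j)) 0 : Fin (t + 1) → A) i) := by
      ext i j
      rw [Matrix.mul_apply, Fin.sum_univ_castSucc]
      simp only [Matrix.of_apply, Fin.snoc_castSucc, Fin.snoc_last, zero_mul, add_zero]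
      conv_lhs => rw [hK (v i) (hv i)]
      rw [Finset.sum_apply]
      rfl
    rw [hfac, Matrix.det_mul, Matrix.det_eq_zero_of_column_eq_zero (Fin.last t), zero_mul]
    · exact Submodule.zero_mem _
    · intro i
      simp

theorem _root_.Pool.Agent.Helper947.Hil.FR_iff_free_local {A : Type} [CommRing A] [IsLocalRing A] {s : Type} [Fintype s]
    (K : Submodule A (s → A)) (r : ℕ) :
    FR K r ↔ Module.Free A ((s → A) ⧸ K) ∧ Module.finrank A ((s → A) ⧸ K) = r := by
  classical
  constructor
  · rintro ⟨h0, h1, h2⟩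
    obtain ⟨h3, h4⟩ := lf_forward K _ h1 h2
    refine ⟨h3, ?_⟩
    rw [h4]
    omega
  · rintro ⟨hfree, hr⟩
    rw [← hr]
    exact lf_backward K hfree

end Pool.Agent.Helper947.Hil.La3

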