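import Mathlib
import Pool.Agent.Helper947.Hil.Defs
import Pool.Agent.Helper947.Hil.A1
import Pool.Agent.Helper947.Hil.A3

set_option autoImplicit false

open MvPolynomial CategoryTheory CategoryTheory.Limits AlgebraicGeometry

namespace Pool.Agent.Helper947.Hil.La4

open Pool.Agent.Helper947.Crv

theorem a4_minor_smul {A : Type} [CommRing A] {s : Type} {K : Submodule A (s → A)} {t : ℕ}
    (h : Fit K (t + 1) = ⊥) (k : Fin t → s → A) (hk : ∀ i, k i ∈ K) (e : Fin t → s)
    (v : s → A) (hv : v ∈ K) :
    (Matrix.of fun i j => k i (e j)).det • v ∈ Submodule.span A (Set.range k) := by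
  let w : Fin (t + 1) → s → A := Fin.cons v k
  have hw : ∀ i, w i ∈ K := by
    intro i
    refine Fin.cases ?_ (fun j => ?_) i
    · exact hv
    · exact hk j
  have key : ∀ x : s,
      (Matrix.of fun i j => w i ((Fin.cons x e : Fin (t + 1) → s) j)).det = 0 := by
    intro x
    have h1 : (Matrix.of fun i j => w i ((Fin.cons x e : Fin (t + 1) → s) j)).det ∈
        Fit K (t + 1) := Ideal.subset_span ⟨w, Fin.cons x e, hw, rfl⟩
    rwa [h, Ideal.mem_bot] at h1
  let c : Fin (t + 1) → A := fun i =>
    (-1) ^ (i : ℕ) * (Matrix.of fun a b => w (i.succAbove a) (e b)).det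
  have hsum : ∑ i, c i • w i = 0 := by
    funext x
    rw [Finset.sum_apply]
    have h1 := key x
    rw [Matrix.det_succ_column_zero] at h1
    rw [Pi.zero_apply, ← h1]
    refine Finset.sum_congr rfl fun i _ => ?_
    show c i * w i x = _
    have h2 : ((Matrix.of fun i j => w i ((Fin.cons x e : Fin (t + 1) → s) j)).submatrix
        i.succAbove Fin.succ) = Matrix.of fun a b => w (i.succAbove a) (e b) := by
      ext a b
      simp
    rw [h2]
    simp only [c, Matrix.of_apply, Fin.cons_zero]
    ring
  rw [Fin.sum_univ_succ] at hsum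
  have hc0 : c 0 = (Matrix.of fun i j => k i (e j)).det := by
    simp only [c, Fin.val_zero, pow_zero, one_mul]
    congr 1
  have h3 : (Matrix.of fun i j => k i (e j)).det • v = - ∑ i : Fin t, c i.succ • k i := by
    rw [← hc0]
    exact eq_neg_of_add_eq_zero_left hsum
  rw [h3]
  exact neg_mem (sum_mem fun i _ => Submodule.smul_mem _ _ (Submodule.subset_span ⟨i, rfl⟩))

theorem _root_.Pool.Agent.Helper947.Hil.FR_fg {A : Type} [CommRing A] {s : Type} [Fintype s] {K : Submodule A (s → A)} {r : ℕ}
    (h : FR K r) : K.FG := by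
  classical
  obtain ⟨_, h1, h2⟩ := h
  have h3 : (1 : A) ∈ Fit K (Fintype.card s - r) := by rw [h1]; trivial
  obtain ⟨T, hT, hT1⟩ := Submodule.mem_span_finite_of_mem_span h3
  have h4 : ∀ δ : T, ∃ k : Fin (Fintype.card s - r) → s → A, (∀ i, k i ∈ K) ∧
      ∀ v ∈ K, δ.1 • v ∈ Submodule.span A (Set.range k) := by
    intro δ
    obtain ⟨k, e, hk, hδ⟩ := hT δ.2
    refine ⟨k, hk, fun v hv => ?_⟩
    rw [hδ]
    exact a4_minor_smul h2 k hk e v hv
  choose k hk hk' using h4
  let G : Set (s → A) := ⋃ δ : T, Set.range (k δ)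
  have hG : G.Finite := Set.finite_iUnion fun δ => Set.finite_range _
  have hKG : K = Submodule.span A G := by
    refine le_antisymm (fun v hv => ?_) (Submodule.span_le.2 ?_)
    · let J : Ideal A := {
        carrier := {a | a • v ∈ Submodule.span A G}
        add_mem' := fun {a b} ha hb => by
          show (a + b) • v ∈ Submodule.span A G
          rw [add_smul]; exact add_mem ha hb
        zero_mem' := by
          show (0 : A) • v ∈ Submodule.span A G
          rw [zero_smul]; exact zero_mem _
        smul_mem' := fun c a ha => by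
          show (c • a) • v ∈ Submodule.span A G
          rw [smul_assoc]; exact Submodule.smul_mem _ _ ha }
      have hJ : Submodule.span A (T : Set A) ≤ J := by
        rw [Submodule.span_le]
        intro δ hδ
        show δ • v ∈ Submodule.span A G
        exact Submodule.span_mono (Set.subset_iUnion (fun δ : T => Set.range (k δ)) ⟨δ, hδ⟩)
          (hk' ⟨δ, hδ⟩ v hv)
      have h5 : (1 : A) • v ∈ Submodule.span A G := hJ hT1
      rwa [one_smul] at h5
    · rintro x ⟨_, ⟨δ, rfl⟩, i, rfl⟩
      exact hk δ i
  rw [hKG]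
  exact Submodule.fg_span hG

theorem a4_loc {A : Type} [CommRing A] {s : Type} [Fintype s] (K : Submodule A (s → A))
    (p : Ideal A) [p.IsPrime] : Nonempty (LocalizedModule p.primeCompl ((s → A) ⧸ K)
      ≃ₗ[Localization.AtPrime p] ((s → Localization.AtPrime p) ⧸
        bcK (algebraMap A (Localization.AtPrime p)) K)) := by
  let f : (s → A) →ₗ[A] (s → Localization.AtPrime p) :=
    LinearMap.pi fun i => Algebra.linearMap A (Localization.AtPrime p) ∘ₗ LinearMap.proj i
  haveI : IsLocalizedModule p.primeCompl f := IsLocalizedModule.pi _ _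
  have hb : bcK (algebraMap A (Localization.AtPrime p)) K =
      K.localized' (Localization.AtPrime p) p.primeCompl f := by
    rw [Submodule.localized'_eq_span]
    unfold bcK
    congr 1
    ext w
    constructor
    · rintro ⟨v, hv, rfl⟩
      exact ⟨v, hv, rfl⟩
    · rintro ⟨v, hv, rfl⟩
      exact ⟨v, hv, rfl⟩
  rw [hb]
  exact ⟨(IsLocalizedModule.linearEquiv p.primeCompl
    (LocalizedModule.mkLinearMap p.primeCompl ((s → A) ⧸ K))
    (K.toLocalizedQuotient' (Localization.AtPrime p) p.primeCompl f)).extendScalarsOfIsLocalization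
      p.primeCompl (Localization.AtPrime p)⟩

theorem _root_.Pool.Agent.Helper947.Hil.PR_of_FR {A : Type} [CommRing A] {s : Type} [Fintype s] {K : Submodule A (s → A)} {r : ℕ}
    (h : FR K r) : PR K r := by
  have hloc : ∀ (p : Ideal A) [p.IsPrime],
      Module.Free (Localization.AtPrime p) (LocalizedModule p.primeCompl ((s → A) ⧸ K)) ∧
      Module.finrank (Localization.AtPrime p)
        (LocalizedModule p.primeCompl ((s → A) ⧸ K)) = r := by
    intro p hp
    obtain ⟨e⟩ := a4_loc K p
    obtain ⟨h1, h2⟩ := (FR_iff_free_local (bcK (algebraMap A (Localization.AtPrime p)) K) r).1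
      (FR_bcK _ h)
    exact ⟨Module.Free.of_equiv e.symm, by rw [e.finrank_eq, h2]⟩
  refine ⟨?_, fun 𝔭 => (hloc 𝔭.asIdeal).2⟩
  haveI : Module.FinitePresentation A ((s → A) ⧸ K) :=
    Module.finitePresentation_of_surjective K.mkQ K.mkQ_surjective
      (by rw [Submodule.ker_mkQ]; exact FR_fg h)
  refine Module.projective_of_localization_maximal fun I hI => ?_
  haveI := (hloc I).1
  infer_instance

end Pool.Agent.Helper947.Hil.La4

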