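import Mathlib
import Pool.Agent.Helper947.Hil.Defs
import Pool.Agent.Helper947.Hil.A3

set_option autoImplicit false

open MvPolynomial CategoryTheory CategoryTheory.Limits AlgebraicGeometry

namespace Pool.Agent.Helper947.Hil.La5

open Pool.Agent.Helper947.Crv

theorem _root_.Pool.Agent.Helper947.Hil.FR_iff_field {k : Type} [Field k] {s : Type} [Fintype s] (K : Submodule k (s → k))
    (r : ℕ) : FR K r ↔ Module.finrank k ((s → k) ⧸ K) = r := by
  rw [FR_iff_free_local K r]
  exact ⟨fun h => h.2, fun h => ⟨Module.Free.of_divisionRing k _, h⟩⟩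

theorem _root_.Pool.Agent.Helper947.Hil.exists_basis_field {k : Type} [Field k] {s : Type} [Fintype s] [DecidableEq s]
    (K : Submodule k (s → k)) (r : ℕ) (hK : FR K r) :
    ∃ B : Finset s, B.card = r ∧ ∀ v ∈ K, (∀ i ∉ B, v i = 0) → v = 0 := by
  have hr := (FR_iff_field K r).1 hK
  obtain ⟨κ, a, ha, hspan, hli⟩ :=
    exists_linearIndependent' k (fun b : s => K.mkQ (Pi.single b (1 : k)))
  have : Finite κ := Finite.of_injective a ha
  cases nonempty_fintype κ
  have hfun : ∀ v : s → k, v = ∑ i, v i • (Pi.single i (1 : k) : s → k) := by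
    intro v
    ext j
    simp [Finset.sum_apply, Pi.single_apply]
  have htop : Submodule.span k (Set.range (fun b : s => K.mkQ (Pi.single b (1 : k)))) = ⊤ := by
    rw [eq_top_iff]
    rintro x -
    obtain ⟨v, rfl⟩ := K.mkQ_surjective x
    rw [hfun v, map_sum]
    apply Submodule.sum_mem
    intro i _
    rw [map_smul]
    exact Submodule.smul_mem _ _ (Submodule.subset_span ⟨i, rfl⟩)
  refine ⟨Finset.univ.image a, ?_, ?_⟩
  · rw [Finset.card_image_of_injective _ ha, Finset.card_univ, ← hr]
    have h1 := finrank_span_eq_card hli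
    rw [hspan, htop, finrank_top] at h1
    exact h1.symm
  · intro v hv hB
    have h0 : K.mkQ v = 0 := by
      rw [Submodule.mkQ_apply, Submodule.Quotient.mk_eq_zero]
      exact hv
    rw [hfun v, map_sum] at h0
    have h1 : ∑ i, K.mkQ (v i • (Pi.single i (1 : k) : s → k)) =
        ∑ i ∈ Finset.univ.image a, K.mkQ (v i • (Pi.single i (1 : k) : s → k)) := by
      symm
      apply Finset.sum_subset (Finset.subset_univ _)
      intro i _ hi
      rw [hB i hi, zero_smul, map_zero]
    rw [h1, Finset.sum_image (fun x _ y _ h => ha h)] at h0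
    have h2 := Fintype.linearIndependent_iff.1 hli (fun j => v (a j)) (by
      rw [← h0]
      apply Finset.sum_congr rfl
      intro j _
      rw [map_smul]
      rfl)
    ext i
    by_cases hi : i ∈ Finset.univ.image a
    · obtain ⟨j, _, rfl⟩ := Finset.mem_image.1 hi
      exact h2 j
    · exact hB i hi

end Pool.Agent.Helper947.Hil.La5

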