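import Mathlib
import Pool.Agent.Helper947.Hil.Defs
import Pool.Agent.Helper947.Hil.A1

set_option autoImplicit false

open MvPolynomial CategoryTheory CategoryTheory.Limits AlgebraicGeometry

namespace Pool.Agent.Helper947.Hil.La6

open Pool.Agent.Helper947.Crv

theorem eq_of_le_FR_cramer {A : Type} [CommRing A] {s : Type} {t : ℕ} (k : Fin t → s → A)
    (v : s → A) (e : Fin t → s)
    (h : ∀ e' : Fin (t + 1) → s,
      (Matrix.of fun i j => (Fin.cons v k : Fin (t + 1) → s → A) i (e' j)).det = 0) :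
    (Matrix.of fun i j => k i (e j)).det • v ∈ Submodule.span A (Set.range k) := by
  set D : Fin (t + 1) → A := fun i =>
    (Matrix.of fun a b => (Fin.cons v k : Fin (t + 1) → s → A) (i.succAbove a) (e b)).det with hD
  have h1 : ∀ c : s, ∑ i : Fin (t + 1),
      (-1) ^ (i : ℕ) * (Fin.cons v k : Fin (t + 1) → s → A) i c * D i = 0 := by
    intro c
    have h2 := h (Fin.cons c e)
    rw [Matrix.det_succ_column_zero] at h2
    rw [← h2]
    apply Finset.sum_congr rfl
    intro i _
    rfl
  have h3 : (Matrix.of fun i j => k i (e j)).det • v =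
      ∑ i : Fin t, (-((-1) ^ ((i : ℕ) + 1) * D i.succ)) • k i := by
    funext c
    have h4 := h1 c
    rw [Fin.sum_univ_succ] at h4
    simp only [Fin.val_zero, pow_zero, one_mul, Fin.cons_zero, Fin.cons_succ, Fin.val_succ] at h4
    have h5 : D 0 = (Matrix.of fun i j => k i (e j)).det := by
      simp only [hD, Fin.zero_succAbove, Fin.cons_succ]
    rw [h5] at h4
    rw [Pi.smul_apply, Finset.sum_apply, smul_eq_mul]
    have h6 : ∑ i : Fin t, ((-((-1) ^ ((i : ℕ) + 1) * D i.succ)) • k i) c =
        - ∑ i : Fin t, (-1) ^ ((i : ℕ) + 1) * k i c * D i.succ := by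
      rw [← Finset.sum_neg_distrib]
      apply Finset.sum_congr rfl
      intro i _
      rw [Pi.smul_apply, smul_eq_mul]
      ring
    rw [h6]
    linear_combination h4
  rw [h3]
  exact Submodule.sum_mem _ fun i _ => Submodule.smul_mem _ _ (Submodule.subset_span ⟨i, rfl⟩)

theorem _root_.Pool.Agent.Helper947.Hil.eq_of_le_FR {A : Type} [CommRing A] {s : Type} [Fintype s] {K K' : Submodule A (s → A)}
    {r : ℕ} (h : FR K r) (h' : FR K' r) (hle : K ≤ K') : K = K' := by
  apply le_antisymm hle
  intro v hv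
  have h1 : Fit K (Fintype.card s - r) ≤
      (K.comap (LinearMap.toSpanSingleton A (s → A) v) : Ideal A) := by
    unfold Fit
    rw [Ideal.span_le]
    rintro _ ⟨k, e, hk, rfl⟩
    show (LinearMap.toSpanSingleton A (s → A) v) _ ∈ K
    rw [LinearMap.toSpanSingleton_apply]
    have h2 := eq_of_le_FR_cramer k v e (by
      intro e'
      have h3 : (Matrix.of fun i j => (Fin.cons v k : Fin (Fintype.card s - r + 1) → s → A) i
          (e' j)).det ∈ Fit K' (Fintype.card s - r + 1) := by
        apply Ideal.subset_span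
        refine ⟨_, e', ?_, rfl⟩
        intro i
        refine Fin.cases ?_ ?_ i
        · exact hv
        · intro i
          exact hle (hk i)
      rw [h'.2.2] at h3
      exact h3)
    refine Submodule.span_le.2 ?_ h2
    rintro _ ⟨i, rfl⟩
    exact hk i
  rw [h.2.1] at h1
  have h4 : (LinearMap.toSpanSingleton A (s → A) v) 1 ∈ K := h1 (Submodule.mem_top (x := (1 : A)))
  rwa [LinearMap.toSpanSingleton_apply, one_smul] at h4

theorem _root_.Pool.Agent.Helper947.Hil.FR_of_local {A : Type} [CommRing A] {s : Type} [Fintype s] (K : Submodule A (s → A))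
    (r : ℕ) (hr : r ≤ Fintype.card s)
    (h : ∀ p : PrimeSpectrum A, ∃ (B : Type) (_ : CommRing B) (φ : A →+* B),
      (∀ z, φ z = 0 → ∃ a ∉ p.asIdeal, a * z = 0) ∧ (∃ q : PrimeSpectrum B,
        q.asIdeal.comap φ = p.asIdeal) ∧ FR (bcK φ K) r) : FR K r := by
  refine ⟨hr, ?_, ?_⟩
  · by_contra hne
    obtain ⟨m, hm, hle⟩ := Ideal.exists_le_maximal _ hne
    obtain ⟨B, _, φ, _, ⟨q, hq⟩, hF⟩ := h ⟨m, hm.isPrime⟩
    have h1 := hF.2.1
    rw [Fit_bcK] at h1
    have h2 : (Fit K (Fintype.card s - r)).map φ ≤ q.asIdeal := by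
      rw [Ideal.map_le_iff_le_comap, hq]
      exact hle
    rw [h1] at h2
    exact q.isPrime.ne_top (top_le_iff.1 h2)
  · rw [eq_bot_iff]
    intro z hz
    have h0 : ∀ p : PrimeSpectrum A, ∃ a ∉ p.asIdeal, a * z = 0 := by
      intro p
      obtain ⟨B, _, φ, h1, _, hF⟩ := h p
      apply h1
      have h2 := hF.2.2
      rw [Fit_bcK] at h2
      have h3 := Ideal.mem_map_of_mem φ hz
      rw [h2] at h3
      exact h3
    have h1 : (LinearMap.ker (LinearMap.mulRight A z) : Ideal A) = ⊤ := by
      by_contra hne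
      obtain ⟨m, hm, hle⟩ := Ideal.exists_le_maximal _ hne
      obtain ⟨a, ha, haz⟩ := h0 ⟨m, hm.isPrime⟩
      exact ha (hle haz)
    have h2 : (1 : A) ∈ (LinearMap.ker (LinearMap.mulRight A z) : Ideal A) := by
      rw [h1]
      exact Submodule.mem_top
    have h3 : (1 : A) * z = 0 := h2
    rw [one_mul] at h3
    exact h3

end Pool.Agent.Helper947.Hil.La6

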