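import Mathlib
import Pool.Agent.Helper947.Hil.Defs

set_option autoImplicit false

open MvPolynomial CategoryTheory CategoryTheory.Limits AlgebraicGeometry

namespace Pool.Agent.Helper947.Hil.La7

open Pool.Agent.Helper947.Crv

section h845
variable {A : Type} [CommRing A] {s : Type} [Fintype s] [DecidableEq s]

/-- generators of the graph -/
def gg_h845 (B : Finset s) (c : {i : s // i ∉ B} × {i : s // i ∈ B} → A) (i : {i : s // i ∉ B}) :
    s → A :=
  (Pi.single i.1 1 - ∑ b : {i : s // i ∈ B}, Pi.single b.1 (c (i, b)) : s → A)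

theorem gg_out_h845 (B : Finset s) (c : {i : s // i ∉ B} × {i : s // i ∈ B} → A)
    (i : {i : s // i ∉ B}) (j : {i : s // i ∉ B}) : gg_h845 B c i j.1 = if i = j then 1 else 0 := by
  unfold gg_h845
  rw [Pi.sub_apply, Finset.sum_apply]
  have h1 : ∑ b : {i : s // i ∈ B}, (Pi.single b.1 (c (i, b)) : s → A) j.1 = 0 := by
    refine Finset.sum_eq_zero fun b _ => ?_
    rw [Pi.single_apply, if_neg]
    intro h
    exact j.2 (h ▸ b.2)
  rw [h1, sub_zero, Pi.single_apply]
  by_cases h : i = j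
  · rw [if_pos h, if_pos (by rw [h])]
  · rw [if_neg h, if_neg (fun h' => h (Subtype.ext h'.symm))]

theorem gg_in_h845 (B : Finset s) (c : {i : s // i ∉ B} × {i : s // i ∈ B} → A)
    (i : {i : s // i ∉ B}) (j : {i : s // i ∈ B}) : gg_h845 B c i j.1 = - c (i, j) := by
  unfold gg_h845
  rw [Pi.sub_apply, Finset.sum_apply]
  have h1 : ∑ b : {i : s // i ∈ B}, (Pi.single b.1 (c (i, b)) : s → A) j.1 = c (i, j) := by
    rw [Finset.sum_eq_single j]
    · rw [Pi.single_eq_same]
    · intro b _ hb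
      rw [Pi.single_apply, if_neg]
      intro h
      exact hb (Subtype.ext h.symm)
    · intro h; exact absurd (Finset.mem_univ j) h
  rw [h1, Pi.single_apply, if_neg, zero_sub]
  intro h
  exact i.2 (h ▸ j.2)

theorem gr_char_h845 (B : Finset s) (c : {i : s // i ∉ B} × {i : s // i ∈ B} → A) {v : s → A}
    (hv : v ∈ gr B c) (b : {i : s // i ∈ B}) :
    v b.1 = - ∑ i : {i : s // i ∉ B}, v i.1 * c (i, b) := by
  unfold gr at hv
  induction hv using Submodule.span_induction with
  | mem v hv =>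
    obtain ⟨i, rfl⟩ := hv
    show gg_h845 B c i b.1 = - ∑ j : {i : s // i ∉ B}, gg_h845 B c i j.1 * c (j, b)
    rw [gg_in_h845]
    congr 1
    rw [Finset.sum_eq_single i]
    · rw [gg_out_h845, if_pos rfl, one_mul]
    · intro j _ hj
      rw [gg_out_h845, if_neg (Ne.symm hj), zero_mul]
    · intro h; exact absurd (Finset.mem_univ i) h
  | zero => simp
  | add x y _ _ hx hy =>
    rw [Pi.add_apply, hx, hy]
    simp only [Pi.add_apply, add_mul, Finset.sum_add_distrib]
    ring
  | smul a x _ hx =>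
    rw [Pi.smul_apply, hx]
    simp only [Pi.smul_apply, smul_eq_mul, mul_assoc, ← Finset.mul_sum]
    ring

theorem gr_sum_h845 (B : Finset s) (c : {i : s // i ∉ B} × {i : s // i ∈ B} → A) {v : s → A}
    (hv : ∀ b : {i : s // i ∈ B}, v b.1 = - ∑ i : {i : s // i ∉ B}, v i.1 * c (i, b)) :
    v = ∑ i : {i : s // i ∉ B}, v i.1 • gg_h845 B c i := by
  funext j
  rw [Finset.sum_apply]
  by_cases hj : j ∈ B
  · rw [hv ⟨j, hj⟩, ← Finset.sum_neg_distrib]
    refine Finset.sum_congr rfl fun i _ => ?_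
    rw [Pi.smul_apply, gg_in_h845 B c i ⟨j, hj⟩, smul_eq_mul]
    ring
  · rw [Finset.sum_eq_single ⟨j, hj⟩]
    · rw [Pi.smul_apply, gg_out_h845 B c ⟨j, hj⟩ ⟨j, hj⟩, if_pos rfl, smul_eq_mul, mul_one]
    · intro i _ hi
      rw [Pi.smul_apply, gg_out_h845 B c i ⟨j, hj⟩, if_neg hi, smul_zero]
    · intro h; exact absurd (Finset.mem_univ _) h

theorem gg_mem_h845 (B : Finset s) (c : {i : s // i ∉ B} × {i : s // i ∈ B} → A)
    (i : {i : s // i ∉ B}) : gg_h845 B c i ∈ gr B c := Submodule.subset_span ⟨i, rfl⟩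

theorem gr_of_char_h845 (B : Finset s) (c : {i : s // i ∉ B} × {i : s // i ∈ B} → A) {v : s → A}
    (hv : ∀ b : {i : s // i ∈ B}, v b.1 = - ∑ i : {i : s // i ∉ B}, v i.1 * c (i, b)) :
    v ∈ gr B c := by
  rw [gr_sum_h845 B c hv]
  exact Submodule.sum_mem _ fun i _ => Submodule.smul_mem _ _ (gg_mem_h845 B c i)

theorem det_mul_zero_h845 {t : ℕ} {X : Type} [Fintype X] [DecidableEq X] (hX : Fintype.card X = t)
    (P : Matrix (Fin (t + 1)) X A) (Q : Matrix X (Fin (t + 1)) A) : (P * Q).det = 0 := by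
  have hc : Fintype.card (Fin (t + 1)) = Fintype.card (Option X) := by
    rw [Fintype.card_fin, Fintype.card_option, hX]
  let f : Fin (t + 1) ≃ Option X := Fintype.equivOfCardEq hc
  let P' : Matrix (Fin (t + 1)) (Fin (t + 1)) A := fun i j => Option.elim (f j) 0 (fun x => P i x)
  let Q' : Matrix (Fin (t + 1)) (Fin (t + 1)) A := fun i j => Option.elim (f i) 0 (fun x => Q x j)
  have h1 : P * Q = P' * Q' := by
    ext i j
    rw [Matrix.mul_apply, Matrix.mul_apply]
    rw [Fintype.sum_equiv f (fun k => P' i k * Q' k j)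
      (fun o : Option X => Option.elim o 0 (fun x => P i x) * Option.elim o 0 (fun x => Q x j))
      (fun k => rfl)]
    rw [Fintype.sum_option]
    simp
  rw [h1, Matrix.det_mul]
  have h2 : P'.det = 0 := by
    apply Matrix.det_eq_zero_of_column_eq_zero (f.symm none)
    intro i
    show Option.elim (f (f.symm none)) 0 (fun x => P i x) = 0
    rw [f.apply_symm_apply]
    rfl
  rw [h2, zero_mul]

end h845

theorem _root_.Pool.Agent.Helper947.Hil.bcK_gr {A A' : Type} [CommRing A] [CommRing A'] {s : Type} [Fintype s] [DecidableEq s]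
    (φ : A →+* A') (B : Finset s) (c : {i : s // i ∉ B} × {i : s // i ∈ B} → A) :
    bcK φ (gr B c) = gr B (fun x => φ (c x)) := by
  apply le_antisymm
  · unfold bcK
    rw [Submodule.span_le]
    rintro w ⟨v, hv, rfl⟩
    apply gr_of_char_h845
    intro b
    show φ (v b.1) = - ∑ i : {i : s // i ∉ B}, φ (v i.1) * φ (c (i, b))
    rw [gr_char_h845 B c hv b, map_neg, map_sum]
    simp only [map_mul]
  · unfold gr
    rw [Submodule.span_le]
    rintro w ⟨i, rfl⟩
    refine Submodule.subset_span ⟨gg_h845 B c i, gg_mem_h845 B c i, ?_⟩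
    show gg_h845 B (fun x => φ (c x)) i = _
    funext j
    by_cases hj : j ∈ B
    · rw [gg_in_h845 B (fun x => φ (c x)) i ⟨j, hj⟩, gg_in_h845 B c i ⟨j, hj⟩, map_neg]
    · rw [gg_out_h845 B (fun x => φ (c x)) i ⟨j, hj⟩, gg_out_h845 B c i ⟨j, hj⟩]
      split_ifs
      · rw [map_one]
      · rw [map_zero]

theorem _root_.Pool.Agent.Helper947.Hil.gr_inj {A : Type} [CommRing A] {s : Type} [Fintype s] [DecidableEq s] (B : Finset s)
    (c c' : {i : s // i ∉ B} × {i : s // i ∈ B} → A) (h : gr B c ≤ gr B c') : c = c' := by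
  funext x
  obtain ⟨i, b⟩ := x
  have h1 := gr_char_h845 B c' (h (gg_mem_h845 B c i)) b
  rw [gg_in_h845, Finset.sum_eq_single i] at h1
  · rw [gg_out_h845, if_pos rfl, one_mul] at h1
    exact neg_injective h1
  · intro j _ hj
    rw [gg_out_h845, if_neg (Ne.symm hj), zero_mul]
  · intro h; exact absurd (Finset.mem_univ i) h

theorem _root_.Pool.Agent.Helper947.Hil.gr_ind {A : Type} [CommRing A] {s : Type} [Fintype s] [DecidableEq s] (B : Finset s)
    (c : {i : s // i ∉ B} × {i : s // i ∈ B} → A) (v : s → A) (hv : v ∈ gr B c)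
    (h : ∀ i ∉ B, v i = 0) : v = 0 := by
  funext j
  by_cases hj : j ∈ B
  · rw [gr_char_h845 B c hv ⟨j, hj⟩, Finset.sum_eq_zero, neg_zero]
    · rfl
    · intro i _
      rw [h i.1 i.2, zero_mul]
  · exact h j hj

theorem _root_.Pool.Agent.Helper947.Hil.FR_gr {A : Type} [CommRing A] {s : Type} [Fintype s] [DecidableEq s] (B : Finset s)
    (c : {i : s // i ∉ B} × {i : s // i ∈ B} → A) : FR (gr B c) B.card := by
  have hcard : Fintype.card {i : s // i ∉ B} = Fintype.card s - B.card := by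
    rw [Fintype.card_subtype_compl, Fintype.card_coe]
  refine ⟨Finset.card_le_univ B, ?_, ?_⟩
  · rw [Ideal.eq_top_iff_one]
    let e : Fin (Fintype.card s - B.card) ≃ {i : s // i ∉ B} :=
      (Fintype.equivFinOfCardEq hcard).symm
    refine Ideal.subset_span ⟨fun i => gg_h845 B c (e i), fun j => (e j).1, fun i => gg_mem_h845 B c _, ?_⟩
    have h1 : (Matrix.of fun i j => gg_h845 B c (e i) (e j).1) = (1 : Matrix _ _ A) := by
      ext i j
      rw [Matrix.of_apply, gg_out_h845, Matrix.one_apply]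
      by_cases h : i = j
      · rw [if_pos h, if_pos (by rw [h])]
      · rw [if_neg h, if_neg (fun h' => h (e.injective h'))]
    rw [h1, Matrix.det_one]
  · unfold Fit
    rw [Ideal.span_eq_bot]
    rintro δ ⟨k, e, hk, rfl⟩
    have h1 : (Matrix.of fun i j => k i (e j)) =
        (Matrix.of fun (i : Fin (Fintype.card s - B.card + 1)) (x : {i : s // i ∉ B}) => k i x.1) *
        (Matrix.of fun (x : {i : s // i ∉ B}) (j : Fin (Fintype.card s - B.card + 1)) => gg_h845 B c x (e j)) := by
      ext i j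
      rw [Matrix.mul_apply, Matrix.of_apply]
      have h2 := congrFun (gr_sum_h845 B c (gr_char_h845 B c (hk i))) (e j)
      rw [Finset.sum_apply] at h2
      rw [h2]
      rfl
    rw [h1]
    exact det_mul_zero_h845 hcard _ _

end Pool.Agent.Helper947.Hil.La7

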