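import Mathlib
import Pool.Agent.Helper947.Hil.Defs
import Pool.Agent.Helper947.Hil.A1
import Pool.Agent.Helper947.Hil.A5

set_option autoImplicit false

open MvPolynomial CategoryTheory CategoryTheory.Limits AlgebraicGeometry

namespace Pool.Agent.Helper947.Hil.La8

open Pool.Agent.Helper947.Crv

theorem chart_open_minor {A : Type} [CommRing A] {s : Type} [Fintype s] [DecidableEq s]
    (K : Submodule A (s → A)) (r : ℕ) (hK : FR K r) (B : Finset s)
    {L : Type} [Field L] (φ : A →+* L)
    (hind : ∀ v ∈ bcK φ K, (∀ i ∉ B, v i = 0) → v = 0) {t : ℕ} (e : Fin t ≃ {i : s // i ∉ B})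
    (hcard : Fintype.card s = t + r) :
    ∃ k : Fin t → s → A, (∀ i, k i ∈ K) ∧
      φ (Matrix.of fun i j => k i (e j).1).det ≠ 0 := by
  classical
  let π : (s → L) →ₗ[L] (Fin t → L) := LinearMap.funLeft L L (fun j => (e j).1)
  have hfr : Module.finrank L (bcK φ K) = t := by
    have h1 := (FR_iff_field _ _).1 (FR_bcK φ hK)
    have h2 := Submodule.finrank_quotient_add_finrank (bcK φ K)
    rw [Module.finrank_fintype_fun_eq_card] at h2
    omega
  have hinj : Function.Injective (π.domRestrict (bcK φ K)) := by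
    rw [← LinearMap.ker_eq_bot, LinearMap.ker_eq_bot']
    rintro ⟨v, hv⟩ h0
    have h1 : v = 0 := by
      refine hind v hv fun i hi => ?_
      have h2 := congrFun h0 (e.symm ⟨i, hi⟩)
      have h3 : v (e (e.symm ⟨i, hi⟩)).1 = 0 := h2
      rwa [e.apply_symm_apply] at h3
    exact Subtype.ext h1
  have hsurj : Function.Surjective (π.domRestrict (bcK φ K)) :=
    (LinearMap.injective_iff_surjective_of_finrank_eq_finrank
      (by rw [hfr, Module.finrank_fin_fun])).1 hinj
  have hspan : Submodule.span L {w : Fin t → L | ∃ v ∈ K, w = fun j => φ (v (e j).1)} = ⊤ := by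
    have h1 : Submodule.span L {w : Fin t → L | ∃ v ∈ K, w = fun j => φ (v (e j).1)} =
        (bcK φ K).map π := by
      unfold bcK
      rw [Submodule.map_span]
      congr 1
      ext w
      constructor
      · rintro ⟨v, hv, rfl⟩
        exact ⟨fun i => φ (v i), ⟨v, hv, rfl⟩, rfl⟩
      · rintro ⟨_, ⟨v, hv, rfl⟩, rfl⟩
        exact ⟨v, hv, rfl⟩
    rw [h1, eq_top_iff]
    intro w _
    obtain ⟨⟨v, hv⟩, h⟩ := hsurj w
    exact ⟨v, hv, h⟩
  obtain ⟨b, hb1, hb2, hb3⟩ := exists_linearIndependent L
    {w : Fin t → L | ∃ v ∈ K, w = fun j => φ (v (e j).1)}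
  let bas : Module.Basis b L (Fin t → L) := Module.Basis.mk hb3 (by
    rw [Subtype.range_coe, hb2, hspan])
  let eb : b ≃ Fin t := bas.indexEquiv (Pi.basisFun L (Fin t))
  have hex : ∀ i : Fin t, ∃ v ∈ K, ((eb.symm i : b) : Fin t → L) = fun j => φ (v (e j).1) :=
    fun i => hb1 (eb.symm i).2
  choose k hk1 hk2 using hex
  refine ⟨k, hk1, ?_⟩
  have hli : LinearIndependent L (fun i : Fin t => ((eb.symm i : b) : Fin t → L)) :=
    hb3.comp _ eb.symm.injective
  have hU : IsUnit (Matrix.of fun (i j : Fin t) => φ (k i (e j).1)) := by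
    rw [← Matrix.linearIndependent_rows_iff_isUnit]
    convert hli using 1
    funext i
    rw [hk2 i]
    rfl
  rw [Matrix.isUnit_iff_isUnit_det] at hU
  rw [RingHom.map_det]
  exact hU.ne_zero

theorem chart_open_loc {A : Type} [CommRing A] {s : Type} [Fintype s] [DecidableEq s]
    (K : Submodule A (s → A)) (B : Finset s) {t : ℕ} (e : Fin t ≃ {i : s // i ∉ B})
    (hK : Fit K (t + 1) = ⊥) (w : Fin t → s → A) (hw : ∀ i, w i ∈ K)
    (hwe : ∀ i j, w i (e j).1 = if i = j then 1 else 0) :
    K = gr B (fun x => - w (e.symm x.1) x.2.1) := by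
  classical
  have hgen : ∀ i : {i : s // i ∉ B},
      (Pi.single i.1 1 - ∑ b : {i : s // i ∈ B}, Pi.single b.1 (- w (e.symm i) b.1) : s → A) =
        w (e.symm i) := by
    intro i
    funext l
    rw [Pi.sub_apply, Finset.sum_apply]
    by_cases hl : l ∈ B
    · have hil : l ≠ i.1 := fun h => i.2 (h ▸ hl)
      rw [Pi.single_eq_of_ne hil, Finset.sum_eq_single (⟨l, hl⟩ : {i : s // i ∈ B})]
      · rw [Pi.single_eq_same]; ring
      · intro b _ hb
        exact Pi.single_eq_of_ne (fun h => hb (Subtype.ext h.symm)) _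
      · intro h; exact absurd (Finset.mem_univ _) h
    · rw [Finset.sum_eq_zero, sub_zero]
      · have h1 := hwe (e.symm i) (e.symm ⟨l, hl⟩)
        rw [e.apply_symm_apply] at h1
        rw [h1]
        by_cases hil : l = i.1
        · subst hil
          rw [Pi.single_eq_same, if_pos rfl]
        · rw [Pi.single_eq_of_ne hil, if_neg]
          intro h
          exact hil (congrArg Subtype.val (e.symm.injective h)).symm
      · intro b _
        exact Pi.single_eq_of_ne (fun h : l = b.1 => hl (h ▸ b.2)) _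
  have hmem : ∀ i : Fin t, w i ∈ gr B (fun x => - w (e.symm x.1) x.2.1) := by
    intro i
    have h1 := hgen (e i)
    rw [e.symm_apply_apply] at h1
    unfold gr
    rw [← h1]
    refine Submodule.subset_span ⟨e i, ?_⟩
    simp only [e.symm_apply_apply]
  apply le_antisymm
  · intro v hv
    set u : s → A := v - ∑ i : Fin t, v (e i).1 • w i with hu
    have huK : u ∈ K := K.sub_mem hv (K.sum_mem fun i _ => K.smul_mem _ (hw i))
    have hue : ∀ j : Fin t, u (e j).1 = 0 := by
      intro j
      rw [hu, Pi.sub_apply, Finset.sum_apply, Finset.sum_eq_single j]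
      · rw [Pi.smul_apply, hwe, if_pos rfl, smul_eq_mul, mul_one, sub_self]
      · intro i _ hij
        rw [Pi.smul_apply, hwe, if_neg hij, smul_zero]
      · intro h; exact absurd (Finset.mem_univ _) h
    have hub : ∀ b : s, u b = 0 := by
      intro b
      let k' : Fin (t + 1) → s → A := Fin.cons u w
      let e' : Fin (t + 1) → s := Fin.cons b (fun j => (e j).1)
      have h1 : (Matrix.of fun i j => k' i (e' j)).det ∈ Fit K (t + 1) := by
        refine Ideal.subset_span ⟨k', e', ?_, rfl⟩
        intro i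
        refine Fin.cases ?_ ?_ i
        · exact huK
        · intro i; exact hw i
      rw [hK, Ideal.mem_bot, Matrix.det_succ_row_zero, Fin.sum_univ_succ,
        Finset.sum_eq_zero, add_zero] at h1
      · have h2 : (Matrix.of fun i j => k' i (e' j)).submatrix Fin.succ (Fin.succAbove 0) =
            (1 : Matrix (Fin t) (Fin t) A) := by
          ext i j
          rw [Matrix.submatrix_apply, Matrix.of_apply, Fin.succAbove_zero, Matrix.one_apply]
          exact hwe i j
        rw [h2, Matrix.det_one] at h1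
        simpa [k', e'] using h1
      · intro j _
        have h3 : (Matrix.of fun i j => k' i (e' j)) 0 j.succ = 0 := hue j
        rw [h3]; ring
    have hu0 : u = 0 := funext hub
    have hv' : v = ∑ i : Fin t, v (e i).1 • w i := by
      rw [hu, sub_eq_zero] at hu0
      exact hu0
    rw [hv']
    exact Submodule.sum_mem _ fun i _ => Submodule.smul_mem _ _ (hmem i)
  · unfold gr
    rw [Submodule.span_le]
    rintro _ ⟨i, rfl⟩
    show (Pi.single i.1 1 - ∑ b : {i : s // i ∈ B}, Pi.single b.1 (- w (e.symm i) b.1) : s → A) ∈ K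
    rw [hgen i]
    exact hw _

theorem _root_.Pool.Agent.Helper947.Hil.chart_open {A : Type} [CommRing A] {s : Type} [Fintype s] [DecidableEq s]
    (K : Submodule A (s → A)) (r : ℕ) (hK : FR K r) (B : Finset s) (hB : B.card = r)
    (p : PrimeSpectrum A) {L : Type} [Field L] (φ : A →+* L) (hφ : RingHom.ker φ = p.asIdeal)
    (hind : ∀ v ∈ bcK φ K, (∀ i ∉ B, v i = 0) → v = 0) :
    ∃ a ∉ p.asIdeal, ∃ c : {i : s // i ∉ B} × {i : s // i ∈ B} → Localization.Away a,
      bcK (algebraMap A (Localization.Away a)) K = gr B c := by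
  classical
  have hc1 : Fintype.card {i : s // i ∉ B} = Fintype.card s - r := by
    rw [Fintype.card_subtype_compl, Fintype.card_coe, hB]
  let e : Fin (Fintype.card s - r) ≃ {i : s // i ∉ B} := (Fintype.equivFinOfCardEq hc1).symm
  obtain ⟨k, hk, hdet⟩ := chart_open_minor K r hK B φ hind e (by have := hK.1; omega)
  set a := (Matrix.of fun i j => k i (e j).1).det with ha
  refine ⟨a, fun h => hdet ?_, ?_⟩
  · rw [← hφ] at h
    exact h
  · set ψ := algebraMap A (Localization.Away a) with hψ
    let M : Matrix (Fin (Fintype.card s - r)) (Fin (Fintype.card s - r)) (Localization.Away a) :=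
      Matrix.of fun i j => ψ (k i (e j).1)
    have hMdet : IsUnit M.det := by
      have h1 : M.det = ψ a := (RingHom.map_det ψ (Matrix.of fun i j => k i (e j).1)).symm
      rw [h1]
      exact IsLocalization.Away.algebraMap_isUnit a
    have hmem : ∀ i, (∑ j, M⁻¹ i j • (fun l => ψ (k j l)) : s → Localization.Away a) ∈ bcK ψ K :=
      fun i => Submodule.sum_mem _ fun j _ => Submodule.smul_mem _ _
        (Submodule.subset_span ⟨k j, hk j, rfl⟩)
    refine ⟨_, chart_open_loc (bcK ψ K) B e (FR_bcK ψ hK).2.2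
      (fun i => ∑ j, M⁻¹ i j • (fun l => ψ (k j l))) hmem ?_⟩
    intro i j
    have h1 : (M⁻¹ * M) i j = (1 : Matrix _ _ _) i j := by rw [Matrix.nonsing_inv_mul M hMdet]
    rw [Matrix.mul_apply, Matrix.one_apply] at h1
    rw [← h1, Finset.sum_apply]
    rfl

end Pool.Agent.Helper947.Hil.La8

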