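import Mathlib
import Pool.Agent.Helper947.Hil.Defs

set_option autoImplicit false

open MvPolynomial CategoryTheory CategoryTheory.Limits AlgebraicGeometry

namespace Pool.Agent.Helper947.Hil.La9

open Pool.Agent.Helper947.Crv

/-- auxiliary injection -/
noncomputable def gMon (n : ℕ) (p : Fin n × Fin n) : Fin 4 →₀ ℕ :=
  Finsupp.equivFunOnFinite.symm
    (if p.1.1 + p.2.1 ≤ n then ![p.1.1, p.2.1, 0, n - p.1.1 - p.2.1]
      else ![n - p.1.1, n - p.2.1, 1, n - (n - p.1.1) - (n - p.2.1) - 1])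

theorem gMon_mem (n : ℕ) (p : Fin n × Fin n) :
    gMon n p ∈ Finset.finsuppAntidiag (Finset.univ : Finset (Fin 4)) n := by
  rw [Finset.mem_finsuppAntidiag]
  refine ⟨?_, Finset.subset_univ _⟩
  have h1 := p.1.2
  have h2 := p.2.2
  unfold gMon
  split_ifs with h
  · simp only [Finsupp.equivFunOnFinite_symm_apply_apply, Fin.sum_univ_four]
    simp
    omega
  · simp only [Finsupp.equivFunOnFinite_symm_apply_apply, Fin.sum_univ_four]
    simp
    omega

theorem gMon_inj (n : ℕ) : Function.Injective (gMon n) := by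
  rintro ⟨a, b⟩ ⟨a', b'⟩ h
  have h1 := a.2
  have h2 := b.2
  have h3 := a'.2
  have h4 := b'.2
  have e0 := DFunLike.congr_fun h 0
  have e1 := DFunLike.congr_fun h 1
  have e2 := DFunLike.congr_fun h 2
  have e3 := DFunLike.congr_fun h 3
  unfold gMon at e0 e1 e2 e3
  simp only [Finsupp.equivFunOnFinite_symm_apply_apply] at e0 e1 e2 e3
  have key : (a : ℕ) = a' ∧ (b : ℕ) = b' := by
    split_ifs at e0 e1 e2 e3 with hh hh'
    all_goals simp at e0 e1 e2 e3
    all_goals omega
  exact Prod.ext (Fin.ext key.1) (Fin.ext key.2)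

theorem _root_.Pool.Agent.Helper947.Hil.card_Mon (d c n : ℕ) (hn : mst d c ≤ n) : d * n + c ≤ Fintype.card (Mon n) := by
  have h1 : Fintype.card (Fin n × Fin n) ≤ Fintype.card (Mon n) :=
    Fintype.card_le_of_injective (fun p => (⟨gMon n p, gMon_mem n p⟩ : Mon n))
      (fun p q h => gMon_inj n (congrArg Subtype.val h))
  rw [Fintype.card_prod, Fintype.card_fin] at h1
  refine le_trans ?_ h1
  unfold mst at hn
  obtain ⟨k, rfl⟩ := Nat.exists_eq_add_of_le hn
  nlinarith [Nat.zero_le (d * k), Nat.zero_le (c * k), Nat.zero_le (k * k), Nat.zero_le (d * d), Nat.zero_le (d * c), Nat.zero_le (d * d * k), Nat.zero_le (d * d * c), Nat.zero_le (d*d*d), Nat.zero_le (d * d * d * d), Nat.zero_le (c * c)]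

end Pool.Agent.Helper947.Hil.La9

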