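import Mathlib
import Pool.Agent.Helper947.Hil.Defs

set_option autoImplicit false

open MvPolynomial CategoryTheory CategoryTheory.Limits AlgebraicGeometry

namespace Pool.Agent.Helper947.Hil.Lb1

open Pool.Agent.Helper947.Crv

theorem hb1_pol_apply {A : Type} [CommRing A] (n : ℕ) (v : Mon n → A) :
    pol n v = ∑ u : Mon n, (monomial u.1 (v u) : Pl A) := by
  unfold pol
  rw [Fintype.linearCombination_apply]
  apply Finset.sum_congr rfl
  intro u _
  rw [smul_monomial, smul_eq_mul, mul_one]

theorem hb1_degree {n : ℕ} (u : Mon n) : u.1.degree = n := by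
  have h := u.2
  rw [Finset.mem_finsuppAntidiag] at h
  rw [Finsupp.degree_eq_sum]
  exact h.1

theorem hb1_mem {n : ℕ} (m : Fin 4 →₀ ℕ) (h : m.degree = n) :
    m ∈ Finset.finsuppAntidiag (Finset.univ : Finset (Fin 4)) n := by
  rw [Finset.mem_finsuppAntidiag]
  rw [Finsupp.degree_eq_sum] at h
  exact ⟨h, Finset.subset_univ _⟩

theorem _root_.Pool.Agent.Helper947.Hil.pol_mem {A : Type} [CommRing A] (n : ℕ) (v : Mon n → A) : pol n v ∈ Fm A n := by
  rw [hb1_pol_apply]
  apply Submodule.sum_mem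
  intro u _
  rw [mem_homogeneousSubmodule]
  exact isHomogeneous_monomial _ (hb1_degree u)

theorem hb1_coeff {A : Type} [CommRing A] (n : ℕ) (v : Mon n → A) (u : Mon n) :
    coeff u.1 (pol n v) = v u := by
  classical
  rw [hb1_pol_apply, coeff_sum]
  rw [Finset.sum_eq_single u]
  · rw [coeff_monomial, if_pos rfl]
  · intro w _ hw
    rw [coeff_monomial, if_neg]
    intro h
    exact hw (Subtype.ext h)
  · intro h
    exact absurd (Finset.mem_univ _) h

theorem _root_.Pool.Agent.Helper947.Hil.exists_pol {A : Type} [CommRing A] (n : ℕ) (f : Pl A) (hf : f ∈ Fm A n) :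
    ∃ v : Mon n → A, pol n v = f := by
  refine ⟨fun u => coeff u.1 f, ?_⟩
  ext m
  by_cases h : m.degree = n
  · exact hb1_coeff n (fun u => coeff u.1 f) ⟨m, hb1_mem m h⟩
  · have h1 := pol_mem n (fun u : Mon n => coeff u.1 f)
    rw [mem_homogeneousSubmodule] at h1 hf
    rw [h1.coeff_eq_zero h, hf.coeff_eq_zero h]

theorem _root_.Pool.Agent.Helper947.Hil.coeff_pol {A : Type} [CommRing A] (n : ℕ) (v : Mon n → A) (u : Mon n) :
    coeff u.1 (pol n v) = v u :=
  hb1_coeff n v u

theorem _root_.Pool.Agent.Helper947.Hil.pol_injective {A : Type} [CommRing A] (n : ℕ) :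
    Function.Injective (pol n : (Mon n → A) →ₗ[A] Pl A) := by
  intro v w h
  funext u
  rw [← coeff_pol n v u, ← coeff_pol n w u, h]

theorem _root_.Pool.Agent.Helper947.Hil.map_pol {A B : Type} [CommRing A] [CommRing B] (φ : A →+* B) (n : ℕ) (v : Mon n → A) :
    MvPolynomial.map φ (pol n v) = pol n (fun u => φ (v u)) := by
  rw [hb1_pol_apply, hb1_pol_apply, map_sum]
  apply Finset.sum_congr rfl
  intro u _
  rw [map_monomial]

theorem _root_.Pool.Agent.Helper947.Hil.Qm_equiv {A : Type} [CommRing A] (I : Ideal (Pl A)) (n : ℕ) :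
    Nonempty (Qm I n ≃ₗ[A] ((Mon n → A) ⧸ Kn I n)) := by
  let f : (Mon n → A) →ₗ[A] Fm A n := (pol n).codRestrict (Fm A n) (pol_mem n)
  have hf : Function.Bijective f := by
    constructor
    · intro v w h
      apply pol_injective n
      exact congrArg Subtype.val h
    · intro g
      obtain ⟨v, hv⟩ := exists_pol n g.1 g.2
      exact ⟨v, Subtype.ext hv⟩
  let e : (Mon n → A) ≃ₗ[A] Fm A n := LinearEquiv.ofBijective f hf
  have he : ∀ v, (e v : Pl A) = pol n v := fun v => rfl
  refine ⟨(Submodule.Quotient.equiv (Kn I n) ((I.restrictScalars A).comap (Fm A n).subtype) e ?_).symm⟩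
  ext g
  rw [Submodule.mem_map]
  constructor
  · rintro ⟨v, hv, rfl⟩
    exact hv
  · intro hg
    refine ⟨e.symm g, ?_, e.apply_symm_apply g⟩
    show pol n (e.symm g) ∈ I
    rw [← he, e.apply_symm_apply]
    exact hg

end Pool.Agent.Helper947.Hil.Lb1

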