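import Mathlib
import Pool.Agent.Helper947.Hil.Defs
import Pool.Agent.Helper947.Hil.A5
import Pool.Agent.Helper947.Hil.B1

set_option autoImplicit false

open MvPolynomial CategoryTheory CategoryTheory.Limits AlgebraicGeometry

namespace Pool.Agent.Helper947.Hil.Lb2

open Pool.Agent.Helper947.Crv

theorem _root_.Pool.Agent.Helper947.Hil.PR_iff {A : Type} [CommRing A] (I : Ideal (Pl A)) (n r : ℕ) :
    PR (Kn I n) r ↔ (Module.Finite A (Qm I n) ∧ Module.Projective A (Qm I n) ∧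
      ∀ 𝔭 : PrimeSpectrum A, Module.rankAtStalk (R := A) (Qm I n) 𝔭 = r) := by
  obtain ⟨e⟩ := Qm_equiv I n
  unfold PR
  constructor
  · rintro ⟨h1, h2⟩
    haveI := h1
    have hfin : Module.Finite A (Qm I n) := Module.Finite.equiv e.symm
    refine ⟨hfin, Module.Projective.of_equiv e.symm, fun 𝔭 => ?_⟩
    rw [Module.rankAtStalk_eq_of_equiv e]
    exact h2 𝔭
  · rintro ⟨h1, h2, h3⟩
    haveI := h2
    refine ⟨Module.Projective.of_equiv e, fun 𝔭 => ?_⟩
    rw [← Module.rankAtStalk_eq_of_equiv e]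
    exact h3 𝔭

theorem _root_.Pool.Agent.Helper947.Hil.FR_iff_hf {k : Type} [Field k] (I : Ideal (Pl k)) (n r : ℕ) :
    FR (Kn I n) r ↔ hf I n = r := by
  obtain ⟨e⟩ := Qm_equiv I n
  rw [FR_iff_field]
  unfold hf
  rw [e.finrank_eq]

theorem _root_.Pool.Agent.Helper947.Hil.Kn_mono {A : Type} [CommRing A] {I J : Ideal (Pl A)} (h : I ≤ J) (n : ℕ) :
    Kn I n ≤ Kn J n := by
  intro v hv
  exact h hv

theorem _root_.Pool.Agent.Helper947.Hil.Kn_le_iff {A : Type} [CommRing A] (I J : Ideal (Pl A)) (n : ℕ) :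
    Kn I n ≤ Kn J n ↔ ∀ f ∈ Fm A n, f ∈ I → f ∈ J := by
  constructor
  · intro h f hf hfI
    obtain ⟨v, rfl⟩ := exists_pol n f hf
    exact h (show v ∈ Kn I n from hfI)
  · intro h v hv
    exact h _ (pol_mem n v) hv

end Pool.Agent.Helper947.Hil.Lb2

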