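import Mathlib
import Pool.Agent.Helper947.Hil.Defs
import Pool.Agent.Helper947.Hil.B1

set_option autoImplicit false

open MvPolynomial CategoryTheory CategoryTheory.Limits AlgebraicGeometry

namespace Pool.Agent.Helper947.Hil.Lb3

open Pool.Agent.Helper947.Crv

theorem comp_map_11891 {A B : Type} [CommRing A] [CommRing B] (φ : A →+* B) (n : ℕ) (g : Pl A) :
    homogeneousComponent n (MvPolynomial.map φ g) =
      MvPolynomial.map φ (homogeneousComponent n g) := by
  ext d
  rw [coeff_homogeneousComponent, coeff_map, coeff_map, coeff_homogeneousComponent]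
  split_ifs
  · rfl
  · rw [map_zero]

theorem comp_X_mul_11891 {B : Type} [CommRing B] (i : Fin 4) (n : ℕ) (f : Pl B) :
    homogeneousComponent (n + 1) (X i * f) = X i * homogeneousComponent n f := by
  ext d
  rw [coeff_homogeneousComponent, coeff_X_mul', coeff_X_mul', coeff_homogeneousComponent]
  by_cases hi : i ∈ d.support
  · rw [if_pos hi, if_pos hi]
    have hle : Finsupp.single i 1 ≤ d := by
      rw [Finsupp.single_le_iff]
      have := Finsupp.mem_support_iff.1 hi
      omega
    have h1 : d - Finsupp.single i 1 + Finsupp.single i 1 = d := tsub_add_cancel_of_le hle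
    have h2 := congrArg Finsupp.degree h1
    rw [map_add, Finsupp.degree_single] at h2
    have h3 : (d.degree = n + 1) ↔ ((d - Finsupp.single i 1).degree = n) := by omega
    by_cases h4 : d.degree = n + 1
    · rw [if_pos h4, if_pos (h3.1 h4)]
    · rw [if_neg h4, if_neg (fun h => h4 (h3.2 h))]
  · rw [if_neg hi, if_neg hi, ite_self]

theorem comp_zero_X_mul_11891 {B : Type} [CommRing B] (i : Fin 4) (f : Pl B) :
    homogeneousComponent 0 (X i * f) = 0 := by
  ext d
  rw [coeff_homogeneousComponent, coeff_X_mul', coeff_zero]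
  by_cases h : d.degree = 0
  · rw [if_pos h]
    have hd : d = 0 := by
      rw [Finsupp.degree_eq_zero_iff] at h
      exact h
    subst hd
    simp
  · rw [if_neg h]

/-- the span of the images of the degree `n` part -/
noncomputable def Sn_11891 {A B : Type} [CommRing A] [CommRing B] (φ : A →+* B)
    (I : Ideal (Pl A)) (n : ℕ) : Submodule B (Pl B) :=
  Submodule.span B ((MvPolynomial.map φ) '' {g | g ∈ I ∧ g ∈ Fm A n})

theorem X_mul_Sn_11891 {A B : Type} [CommRing A] [CommRing B] (φ : A →+* B)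
    (I : Ideal (Pl A)) (n : ℕ) (i : Fin 4) {f : Pl B} (hf : f ∈ Sn_11891 φ I n) :
    X i * f ∈ Sn_11891 φ I (n + 1) := by
  unfold Sn_11891 at hf
  induction hf using Submodule.span_induction with
  | mem x hx =>
    obtain ⟨g, ⟨hg, hgn⟩, rfl⟩ := hx
    apply Submodule.subset_span
    refine ⟨X i * g, ⟨I.mul_mem_left _ hg, ?_⟩, by rw [map_mul, map_X]⟩
    rw [mem_homogeneousSubmodule] at hgn ⊢
    rw [add_comm]
    exact (isHomogeneous_X A i).mul hgn
  | zero => rw [mul_zero]; exact Submodule.zero_mem _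
  | add x y _ _ hx hy => rw [mul_add]; exact Submodule.add_mem _ hx hy
  | smul c x _ hx => rw [mul_smul_comm]; exact Submodule.smul_mem _ c hx

theorem mul_comp_11891 {A B : Type} [CommRing A] [CommRing B] (φ : A →+* B)
    (I : Ideal (Pl A)) (q : Pl B) : ∀ f : Pl B,
    (∀ n, homogeneousComponent n f ∈ Sn_11891 φ I n) →
      ∀ n, homogeneousComponent n (q * f) ∈ Sn_11891 φ I n := by
  induction q using MvPolynomial.induction_on with
  | C b =>
    intro f hf n
    rw [← smul_eq_C_mul, map_smul]
    exact Submodule.smul_mem _ b (hf n)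
  | add p q hp hq =>
    intro f hf n
    rw [add_mul, map_add]
    exact Submodule.add_mem _ (hp f hf n) (hq f hf n)
  | mul_X p i hp =>
    intro f hf n
    rw [mul_assoc]
    apply hp
    intro m
    cases m with
    | zero => rw [comp_zero_X_mul_11891]; exact Submodule.zero_mem _
    | succ m =>
      rw [comp_X_mul_11891]
      exact X_mul_Sn_11891 φ I m i (hf m)

theorem comp_mem_11891 {A B : Type} [CommRing A] [CommRing B] (φ : A →+* B) {I : Ideal (Pl A)}
    (hI : Hom I) {f : Pl B} (hf : f ∈ ext φ I) :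
    ∀ n, homogeneousComponent n f ∈ Sn_11891 φ I n := by
  have hf' : f ∈ Submodule.span (Pl B) ((MvPolynomial.map φ) '' (I : Set (Pl A))) := hf
  induction hf' using Submodule.span_induction with
  | mem x hx =>
    obtain ⟨g, hg, rfl⟩ := hx
    intro n
    rw [comp_map_11891]
    apply Submodule.subset_span
    refine ⟨homogeneousComponent n g, ⟨hI g hg n, ?_⟩, rfl⟩
    exact homogeneousComponent_mem n g
  | zero => intro n; rw [map_zero]; exact Submodule.zero_mem _
  | add x y hx' hy' hx hy =>
    intro n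
    rw [map_add]
    exact Submodule.add_mem _ (hx hx' n) (hy hy' n)
  | smul c x hx' hx =>
    exact mul_comp_11891 φ I c x (hx hx')

theorem Sn_le_11891 {A B : Type} [CommRing A] [CommRing B] (φ : A →+* B) (I : Ideal (Pl A))
    (n : ℕ) {f : Pl B} (hf : f ∈ Sn_11891 φ I n) : f ∈ ext φ I := by
  unfold Sn_11891 at hf
  induction hf using Submodule.span_induction with
  | mem x hx =>
    obtain ⟨g, ⟨hg, hgn⟩, rfl⟩ := hx
    exact Ideal.mem_map_of_mem _ hg
  | zero => exact Ideal.zero_mem _
  | add x y _ _ hx hy => exact Ideal.add_mem _ hx hy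
  | smul c x _ hx =>
    rw [smul_eq_C_mul]
    exact Ideal.mul_mem_left _ _ hx

theorem _root_.Pool.Agent.Helper947.Hil.Hom_ext {A B : Type} [CommRing A] [CommRing B] (φ : A →+* B) {I : Ideal (Pl A)}
    (hI : Hom I) : Hom (ext φ I) := by
  intro p hp m
  exact Sn_le_11891 φ I m (comp_mem_11891 φ hI hp m)

theorem comp_self_11891 {A : Type} [CommRing A] (n : ℕ) {f : Pl A} (hf : f ∈ Fm A n) :
    homogeneousComponent n f = f := by
  rw [homogeneousComponent_of_mem hf, if_pos rfl]

theorem _root_.Pool.Agent.Helper947.Hil.Kn_ext {A B : Type} [CommRing A] [CommRing B] (φ : A →+* B) {I : Ideal (Pl A)}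
    (hI : Hom I) (n : ℕ) : Kn (ext φ I) n = bcK φ (Kn I n) := by
  apply le_antisymm
  · intro w hw
    have hw' : pol n w ∈ ext φ I := hw
    have h1 := comp_mem_11891 φ hI hw' n
    rw [comp_self_11891 n (pol_mem n w)] at h1
    have h2 : Sn_11891 φ I n ≤ Submodule.map (pol n) (bcK φ (Kn I n)) := by
      unfold Sn_11891
      rw [Submodule.span_le]
      rintro _ ⟨g, ⟨hg, hgn⟩, rfl⟩
      obtain ⟨v, rfl⟩ := exists_pol n g hgn
      refine ⟨fun u => φ (v u), Submodule.subset_span ⟨v, hg, rfl⟩, ?_⟩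
      rw [map_pol]
    obtain ⟨w', hw1, hw2⟩ := h2 h1
    rw [← pol_injective n hw2]
    exact hw1
  · unfold bcK
    rw [Submodule.span_le]
    rintro _ ⟨v, hv, rfl⟩
    show pol n (fun u => φ (v u)) ∈ ext φ I
    rw [← map_pol]
    exact Ideal.mem_map_of_mem _ hv

theorem _root_.Pool.Agent.Helper947.Hil.ext_ext {A B C : Type} [CommRing A] [CommRing B] [CommRing C] (φ : A →+* B) (ψ : B →+* C)
    (I : Ideal (Pl A)) : ext ψ (ext φ I) = ext (ψ.comp φ) I := by
  unfold ext
  rw [Ideal.map_map]
  congr 1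
  exact RingHom.ext fun p => MvPolynomial.map_map φ ψ p

theorem _root_.Pool.Agent.Helper947.Hil.lift_hom {A B : Type} [CommRing A] [CommRing B] (φ : A →+* B)
    (hφ : Function.Surjective φ) {I : Ideal (Pl A)} (hI : Hom I) (n : ℕ) (f : Pl B)
    (hf : f ∈ Fm B n) (hfI : f ∈ ext φ I) : ∃ g ∈ I, g ∈ Fm A n ∧ MvPolynomial.map φ g = f := by
  obtain ⟨g, hg, rfl⟩ := (Ideal.mem_map_iff_of_surjective (MvPolynomial.map φ)
    (MvPolynomial.map_surjective φ hφ)).1 hfI
  refine ⟨homogeneousComponent n g, hI g hg n, homogeneousComponent_mem n g, ?_⟩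
  rw [← comp_map_11891, comp_self_11891 n hf]

end Pool.Agent.Helper947.Hil.Lb3

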