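import Mathlib
import Pool.Agent.Helper947.Hil.Defs

set_option autoImplicit false

open MvPolynomial CategoryTheory CategoryTheory.Limits AlgebraicGeometry

namespace Pool.Agent.Helper947.Hil.Lb4

open Pool.Agent.Helper947.Crv

theorem _root_.Pool.Agent.Helper947.Hil.mem_ext_local {A B : Type} [CommRing A] [CommRing B] [Algebra A B] (M : Submonoid A)
    [IsLocalization M B] (I : Ideal (Pl A)) (f : Pl A)
    (hf : MvPolynomial.map (algebraMap A B) f ∈ ext (algebraMap A B) I) :
    ∃ a ∈ M, C a * f ∈ I := by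
  let := MvPolynomial.algebraMvPolynomial (σ := Fin 4) (R := A) (S := B)
  have hloc : IsLocalization (M.map (C : A →+* MvPolynomial (Fin 4) A)) (MvPolynomial (Fin 4) B) :=
    MvPolynomial.isLocalization M B
  have h1 := (IsLocalization.algebraMap_mem_map_algebraMap_iff
    (M.map (C : A →+* MvPolynomial (Fin 4) A)) (MvPolynomial (Fin 4) B) I f).1 hf
  obtain ⟨m, hm, hmf⟩ := h1
  obtain ⟨a, ha, rfl⟩ := Submonoid.mem_map.1 hm
  exact ⟨a, ha, hmf⟩

theorem Hil_b4_comp_mul {A : Type} [CommRing A] (p f : Pl A) (n m : ℕ) (hp : p ∈ Fm A n) :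
    homogeneousComponent (n + m) (p * f) = p * homogeneousComponent m f := by
  have h1 : p * f = ∑ k ∈ Finset.range (f.totalDegree + 1), p * homogeneousComponent k f := by
    rw [← Finset.mul_sum, sum_homogeneousComponent]
  have h2 : ∀ k, homogeneousComponent (n + m) (p * homogeneousComponent k f) =
      if m = k then p * homogeneousComponent k f else 0 := by
    intro k
    have h3 : p * homogeneousComponent k f ∈ homogeneousSubmodule (Fin 4) A (n + k) := by
      rw [mem_homogeneousSubmodule]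
      exact IsHomogeneous.mul hp (homogeneousComponent_isHomogeneous k f)
    rw [homogeneousComponent_of_mem h3]
    by_cases hmk : m = k
    · rw [if_pos hmk, if_pos (by rw [hmk])]
    · rw [if_neg hmk, if_neg (by omega)]
  conv_lhs => rw [h1]
  rw [map_sum]
  simp only [h2]
  rw [Finset.sum_ite_eq]
  split_ifs with h
  · rfl
  · rw [homogeneousComponent_eq_zero, mul_zero]
    rw [Finset.mem_range] at h
    omega

theorem _root_.Pool.Agent.Helper947.Hil.Hom_sup_span {A : Type} [CommRing A] {I : Ideal (Pl A)} (hI : Hom I) (x : Pl A) (n : ℕ)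
    (hx : x ∈ Fm A n) : Hom (I ⊔ Ideal.span {x}) := by
  intro p hp m
  obtain ⟨a, ha, b, hb, rfl⟩ := Submodule.mem_sup.1 hp
  obtain ⟨c, rfl⟩ := Ideal.mem_span_singleton.1 hb
  rw [map_add]
  refine Ideal.add_mem _ ((le_sup_left : I ≤ I ⊔ Ideal.span {x}) (hI a ha m))
    ((le_sup_right : Ideal.span {x} ≤ I ⊔ Ideal.span {x}) ?_)
  have h1 : x * c = ∑ k ∈ Finset.range (c.totalDegree + 1), x * homogeneousComponent k c := by
    rw [← Finset.mul_sum, sum_homogeneousComponent]
  rw [h1, map_sum]
  refine Ideal.sum_mem _ fun k _ => ?_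
  have h3 : x * homogeneousComponent k c ∈ homogeneousSubmodule (Fin 4) A (n + k) := by
    rw [mem_homogeneousSubmodule]
    exact IsHomogeneous.mul hx (homogeneousComponent_isHomogeneous k c)
  rw [homogeneousComponent_of_mem h3]
  split_ifs
  · exact Ideal.mul_mem_right _ _ (Ideal.mem_span_singleton_self x)
  · exact Ideal.zero_mem _

theorem _root_.Pool.Agent.Helper947.Hil.Hom_satI {A : Type} [CommRing A] {I : Ideal (Pl A)} (hI : Hom I) : Hom (satI I) := by
  intro f hf m
  obtain ⟨n, hn⟩ := hf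
  refine ⟨n, fun p hp => ?_⟩
  rw [← Hil_b4_comp_mul p f n m hp]
  exact hI _ (hn p hp) _

theorem _root_.Pool.Agent.Helper947.Hil.le_satI {A : Type} [CommRing A] (I : Ideal (Pl A)) : I ≤ satI I := by
  intro f hf
  exact ⟨0, fun p _ => I.mul_mem_left p hf⟩

theorem _root_.Pool.Agent.Helper947.Hil.satI_mono {A : Type} [CommRing A] {I J : Ideal (Pl A)} (h : I ≤ J) :
    satI I ≤ satI J := by
  rintro f ⟨n, hn⟩
  exact ⟨n, fun p hp => h (hn p hp)⟩

end Pool.Agent.Helper947.Hil.Lb4

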