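import Mathlib
import Pool.Agent.Helper947.Hil.Defs
import Pool.Agent.Helper947.Hil.B2
import Pool.Agent.Helper947.Hil.B4

set_option autoImplicit false

open MvPolynomial CategoryTheory CategoryTheory.Limits AlgebraicGeometry

namespace Pool.Agent.Helper947.Hil.Lb5

open Pool.Agent.Helper947.Crv

theorem satI_aux_deg {A : Type} [CommRing A] {p : Pl A} {n : ℕ} (hp : p ∈ Fm A n)
    {u : Fin 4 →₀ ℕ} (hu : u ∈ p.support) : u.degree = n := by
  have h2 := hp (mem_support_iff.1 hu)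
  have h3 := DFunLike.congr_fun (Finsupp.degree_eq_weight_one (R := ℕ) (σ := Fin 4)) u
  rw [h3]
  exact h2

theorem satI_aux_mon {A : Type} [CommRing A] {n : ℕ} {u : Fin 4 →₀ ℕ} (hu : u.degree = n) (c : A) :
    (monomial u c : Pl A) ∈ Fm A n := by
  rw [mem_homogeneousSubmodule]
  exact isHomogeneous_monomial _ hu

theorem satI_aux_Mon {n : ℕ} {u : Fin 4 →₀ ℕ} (hu : u.degree = n) :
    u ∈ Finset.finsuppAntidiag (Finset.univ : Finset (Fin 4)) n := by
  rw [Finset.mem_finsuppAntidiag]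
  refine ⟨?_, Finset.subset_univ _⟩
  rw [← hu, Finsupp.degree_eq_sum]

theorem _root_.Pool.Agent.Helper947.Hil.IsSat_satI {A : Type} [CommRing A] (I : Ideal (Pl A)) : IsSat (satI I) := by
  classical
  rintro f ⟨n, hn⟩
  have h1 : ∀ u : Fin 4 →₀ ℕ, ∃ N, u.degree = n → ∀ p ∈ Fm A N, p * ((monomial u (1 : A) : Pl A) * f) ∈ I := by
    intro u
    by_cases hu : u.degree = n
    · obtain ⟨N, hN⟩ := hn _ (satI_aux_mon hu 1)
      exact ⟨N, fun _ => hN⟩
    · exact ⟨0, fun h => absurd h hu⟩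
  choose N hN using h1
  refine ⟨(Finset.finsuppAntidiag (Finset.univ : Finset (Fin 4)) n).sup N + n, fun p hp => ?_⟩
  rw [p.as_sum, Finset.sum_mul]
  refine I.sum_mem fun u hu => ?_
  have hd := satI_aux_deg hp hu
  obtain ⟨v, hv, hvd⟩ := exists_le_degree n _ (Nat.le_add_left _ _) u hd
  have h1 : (monomial u (coeff u p) : Pl A) = monomial (u - v) (coeff u p) * monomial v 1 := by
    rw [monomial_mul, tsub_add_cancel_of_le hv, mul_one]
  rw [h1, mul_assoc]
  apply Fm_mul_step (Finset.le_sup (satI_aux_Mon hvd)) (hN v hvd)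
  apply satI_aux_mon
  have h2 := congrArg Finsupp.degree (tsub_add_cancel_of_le hv)
  rw [map_add, hd, hvd] at h2
  omega

theorem _root_.Pool.Agent.Helper947.Hil.IsSat.satI_eq {A : Type} [CommRing A] {I : Ideal (Pl A)} (h : IsSat I) : satI I = I :=
  le_antisymm (fun f hf => h f hf) (le_satI I)

theorem satI_eq_of_large_aux {A : Type} [CommRing A] {I J : Ideal (Pl A)} (hI : Hom I)
    (m0 : ℕ) (h : ∀ n ≥ m0, Kn I n ≤ Kn J n) : satI I ≤ satI J := by
  intro f hf
  rw [← MvPolynomial.sum_homogeneousComponent f]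
  refine Ideal.sum_mem _ fun e _ => ?_
  obtain ⟨N, hN⟩ := Hom_satI hI f hf e
  refine ⟨max N m0, fun p hp => ?_⟩
  have h1 : p * homogeneousComponent e f ∈ I := Fm_mul_step (le_max_left _ _) hN p hp
  have h2 : p * homogeneousComponent e f ∈ Fm A (max N m0 + e) := by
    rw [mem_homogeneousSubmodule]
    exact ((mem_homogeneousSubmodule _ _).1 hp).mul (homogeneousComponent_isHomogeneous e f)
  exact (Kn_le_iff I J _).1 (h _ (le_trans (le_max_right _ _) (Nat.le_add_right _ _))) _ h2 h1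

theorem _root_.Pool.Agent.Helper947.Hil.satI_eq_of_large {A : Type} [CommRing A] {I J : Ideal (Pl A)} (hI : Hom I) (hJ : Hom J)
    (m0 : ℕ) (h : ∀ n ≥ m0, Kn I n = Kn J n) : satI I = satI J :=
  le_antisymm (satI_eq_of_large_aux hI m0 fun n hn => (h n hn).le)
    (satI_eq_of_large_aux hJ m0 fun n hn => (h n hn).ge)

theorem _root_.Pool.Agent.Helper947.Hil.ext_satI_le {A B : Type} [CommRing A] [CommRing B] (φ : A →+* B) (I : Ideal (Pl A)) :
    ext φ (satI I) ≤ satI (ext φ I) := by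
  rw [ext, Ideal.map_le_iff_le_comap]
  rintro f ⟨n, hn⟩
  rw [Ideal.mem_comap]
  refine ⟨n, fun p hp => ?_⟩
  rw [p.as_sum, Finset.sum_mul]
  refine Ideal.sum_mem _ fun u hu => ?_
  have hd := satI_aux_deg hp hu
  have h1 : (monomial u (coeff u p) : Pl B) * MvPolynomial.map φ f =
      C (coeff u p) * MvPolynomial.map φ ((monomial u (1 : A) : Pl A) * f) := by
    rw [map_mul, map_monomial, map_one, ← mul_assoc, C_mul_monomial, mul_one]
  rw [h1]
  exact Ideal.mul_mem_left _ _ (Ideal.mem_map_of_mem _ (hn _ (satI_aux_mon hd 1)))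

end Pool.Agent.Helper947.Hil.Lb5

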