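import Mathlib
import Pool.Agent.Helper947.Hil.Defs
import Pool.Agent.Helper947.Hil.B1

set_option autoImplicit false

open MvPolynomial CategoryTheory CategoryTheory.Limits AlgebraicGeometry

namespace Pool.Agent.Helper947.Hil.Lb6

open Pool.Agent.Helper947.Crv

open TensorProduct in
theorem j11894_colon {R S : Type} [CommRing R] [CommRing S] [Algebra R S] [Module.Flat R S]
    {ι : Type} [Fintype ι] [DecidableEq ι] (u : ι → R) (I : Ideal R)
    (h : ∀ f, (∀ i, u i * f ∈ I) → f ∈ I) (g : S)
    (hg : ∀ i, algebraMap R S (u i) * g ∈ I.map (algebraMap R S)) :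
    g ∈ I.map (algebraMap R S) := by
  let F : R →ₗ[R] (ι → R ⧸ I) := LinearMap.pi fun i => (Submodule.mkQ I) ∘ₗ LinearMap.mulLeft R (u i)
  have hex : Function.Exact (LinearMap.ker F).subtype F := LinearMap.exact_subtype_ker_map F
  have hex2 := Module.Flat.lTensor_exact S hex
  -- elements of `I S` are killed
  have hkill : ∀ x : S, x ∈ I.map (algebraMap R S) →
      (x ⊗ₜ[R] (Submodule.mkQ I (1 : R)) : S ⊗[R] (R ⧸ I)) = 0 := by
    intro x hx
    refine Submodule.span_induction (p := fun x _ =>
      (x ⊗ₜ[R] (Submodule.mkQ I (1 : R)) : S ⊗[R] (R ⧸ I)) = 0) ?_ ?_ ?_ ?_ hx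
    · rintro _ ⟨a, ha, rfl⟩
      rw [Algebra.algebraMap_eq_smul_one, TensorProduct.smul_tmul, ← map_smul]
      have : Submodule.mkQ I (a • (1 : R)) = 0 := by
        rw [smul_eq_mul, mul_one]
        exact (Submodule.Quotient.mk_eq_zero I).2 ha
      rw [this, TensorProduct.tmul_zero]
    · exact TensorProduct.zero_tmul _ _
    · intro x y _ _ hx hy
      rw [TensorProduct.add_tmul, hx, hy, add_zero]
    · intro a x _ hx
      have h1 : (a • x) ⊗ₜ[R] (Submodule.mkQ I (1 : R)) =
          a • (x ⊗ₜ[R] (Submodule.mkQ I (1 : R)) : S ⊗[R] (R ⧸ I)) := by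
        rw [TensorProduct.smul_tmul']
      rw [h1, hx, smul_zero]
  have h0 : (F.lTensor S) (g ⊗ₜ[R] (1 : R)) = 0 := by
    rw [LinearMap.lTensor_tmul]
    apply (TensorProduct.piRight R S S (fun _ : ι => R ⧸ I)).injective
    rw [map_zero]
    funext i
    rw [TensorProduct.piRight_apply, TensorProduct.piRightHom_tmul]
    have h2 : F 1 i = u i • Submodule.mkQ I (1 : R) := by
      simp only [F, LinearMap.pi_apply, LinearMap.comp_apply, LinearMap.mulLeft_apply]
      rw [← map_smul, smul_eq_mul]
    show g ⊗ₜ[R] F 1 i = 0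
    rw [h2, ← TensorProduct.smul_tmul]
    apply hkill
    rw [Algebra.smul_def]
    exact hg i
  obtain ⟨t, ht⟩ := (hex2 _).1 h0
  have hrid : ∀ t : S ⊗[R] (LinearMap.ker F),
      TensorProduct.rid R S ((LinearMap.ker F).subtype.lTensor S t) ∈ I.map (algebraMap R S) := by
    intro t
    induction t using TensorProduct.induction_on with
    | zero => simp
    | tmul s a =>
      rw [LinearMap.lTensor_tmul, TensorProduct.rid_tmul, Algebra.smul_def]
      refine Ideal.mul_mem_right _ _ (Ideal.mem_map_of_mem _ ?_)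
      apply h
      intro i
      have h3 : F a.1 = 0 := a.2
      have h4 : F a.1 i = 0 := by rw [h3]; rfl
      simp only [F, LinearMap.pi_apply, LinearMap.comp_apply, LinearMap.mulLeft_apply] at h4
      exact (Submodule.Quotient.mk_eq_zero I).1 h4
    | add x y hx hy =>
      rw [map_add, map_add]
      exact Ideal.add_mem _ hx hy
  have h5 := hrid t
  rw [ht, TensorProduct.rid_tmul, one_smul] at h5
  exact h5

attribute [local instance] MvPolynomial.algebraMvPolynomial in
theorem _root_.Pool.Agent.Helper947.Hil.IsSat_ext_of_flat {A B : Type} [CommRing A] [CommRing B] (φ : A →+* B) (hφ : φ.Flat)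
    {I : Ideal (Pl A)} (hs : IsSat I) : IsSat (ext φ I) := by
  classical
  let : Algebra A B := φ.toAlgebra
  have : Module.Flat A B := hφ
  have : Module.Flat (Pl A) (Pl B) := by
    have h1 : Algebra.IsPushout A (Pl A) B (Pl B) := inferInstance
    exact Module.Flat.isBaseChange A (Pl A) B (Pl B) h1.out
  rintro f ⟨n, hn⟩
  have hmap : (algebraMap (Pl A) (Pl B)) = MvPolynomial.map φ := rfl
  have key := j11894_colon (R := Pl A) (S := Pl B) (ι := Mon n)
    (fun i => (monomial i.1 (1 : A) : Pl A)) I ?_ f ?_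
  · rwa [hmap] at key
  · intro p hp
    refine hs p ⟨n, fun q hq => ?_⟩
    obtain ⟨v, rfl⟩ := exists_pol n q hq
    have h2 : pol n v = ∑ i : Mon n, v i • (monomial i.1 (1 : A) : Pl A) := by
      unfold pol
      rw [Fintype.linearCombination_apply]
    rw [h2, Finset.sum_mul]
    refine I.sum_mem fun i _ => ?_
    rw [smul_mul_assoc, MvPolynomial.smul_eq_C_mul]
    exact I.mul_mem_left _ (hp i)
  · intro i
    rw [hmap, MvPolynomial.map_monomial, map_one]
    apply hn
    rw [mem_homogeneousSubmodule]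
    apply isHomogeneous_monomial
    have := (Finset.mem_finsuppAntidiag.1 i.2).1
    rw [Finsupp.degree_eq_sum]
    exact this

end Pool.Agent.Helper947.Hil.Lb6

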