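import Mathlib
import Pool.Agent.Helper947.Hil.Defs
import Pool.Agent.Helper947.Hil.B2
import Pool.Agent.Helper947.Hil.B4

set_option autoImplicit false

open MvPolynomial CategoryTheory CategoryTheory.Limits AlgebraicGeometry

namespace Pool.Agent.Helper947.Hil.Lb7

open Pool.Agent.Helper947.Crv

/-- `x` is of degree at most `M` modulo `I` -/
def satP {k : Type} [Field k] (I : Ideal (Pl k)) (M : ℕ) (x : Pl k) : Prop :=
  ∃ y : Pl k, y.totalDegree ≤ M ∧ x - y ∈ I

theorem satP_zero {k : Type} [Field k] (I : Ideal (Pl k)) (M : ℕ) : satP I M 0 :=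
  ⟨0, by simp, by simp⟩

theorem satP_add {k : Type} [Field k] (I : Ideal (Pl k)) (M : ℕ) (x x' : Pl k)
    (h : satP I M x) (h' : satP I M x') : satP I M (x + x') := by
  obtain ⟨y, hy, hxy⟩ := h
  obtain ⟨y', hy', hxy'⟩ := h'
  refine ⟨y + y', (totalDegree_add _ _).trans (max_le hy hy'), ?_⟩
  have : x + x' - (y + y') = (x - y) + (x' - y') := by ring
  rw [this]
  exact I.add_mem hxy hxy'

theorem satP_sum {k : Type} [Field k] {ι : Type} (I : Ideal (Pl k)) (M : ℕ) (s : Finset ι)
    (x : ι → Pl k) (h : ∀ i ∈ s, satP I M (x i)) : satP I M (∑ i ∈ s, x i) :=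
  Finset.sum_induction x (satP I M) (fun a b => satP_add I M a b) (satP_zero I M) h

theorem _root_.Pool.Agent.Helper947.Hil.exists_satI_eq {k : Type} [Field k] (I : Ideal (Pl k)) (hI : Hom I) :
    ∃ N, ∀ n ≥ N, Kn (satI I) n = Kn I n := by
  classical
  have hfg : (satI I).FG := IsNoetherian.noetherian _
  obtain ⟨S, hS⟩ := hfg
  have hex : ∀ g : Pl k, ∃ n, g ∈ satI I → ∀ p ∈ Fm k n, p * g ∈ I := by
    intro g
    by_cases hg : g ∈ satI I
    · obtain ⟨n, hn⟩ := hg
      exact ⟨n, fun _ => hn⟩
    · exact ⟨0, fun h => absurd h hg⟩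
  choose nn hnn using hex
  refine ⟨S.sup nn + S.sup totalDegree + 1, ?_⟩
  intro n hn
  apply le_antisymm
  · rw [Kn_le_iff]
    intro f hf hfs
    have hP : satP I (S.sup nn + S.sup totalDegree) f := by
      rw [← hS] at hfs
      obtain ⟨c, -, hc⟩ := (Submodule.mem_span_finset).1 hfs
      rw [← hc]
      apply satP_sum
      intro g hg
      rw [smul_eq_mul, (c g).as_sum, Finset.sum_mul]
      apply satP_sum
      intro u _
      have hgs : g ∈ satI I := by
        rw [← hS]
        exact Submodule.subset_span hg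
      by_cases hu : nn g ≤ u.degree
      · refine ⟨0, by simp, ?_⟩
        rw [sub_zero]
        apply Fm_mul_step hu (hnn g hgs)
        rw [mem_homogeneousSubmodule]
        exact isHomogeneous_monomial _ rfl
      · refine ⟨monomial u (coeff u (c g)) * g, ?_, by simp⟩
        refine (totalDegree_mul _ _).trans ?_
        apply add_le_add
        · refine (totalDegree_monomial_le _ _).trans ?_
          have h1 : (u.sum fun _ ↦ id) = u.degree := rfl
          rw [h1]
          push Not at hu
          exact hu.le.trans (Finset.le_sup (f := nn) hg)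
        · exact Finset.le_sup (f := totalDegree) hg
    obtain ⟨y, hy, hfy⟩ := hP
    have h1 := hI _ hfy n
    rw [map_sub, homogeneousComponent_of_mem hf, if_pos rfl,
      homogeneousComponent_eq_zero n y (by omega), sub_zero] at h1
    exact h1
  · rw [Kn_le_iff]
    intro f _ hfI
    exact le_satI I hfI

end Pool.Agent.Helper947.Hil.Lb7

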