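import Mathlib
import Pool.Agent.Helper947.Hil.Defs

set_option autoImplicit false

open MvPolynomial CategoryTheory CategoryTheory.Limits AlgebraicGeometry

namespace Pool.Agent.Helper947.Hil.Lc1

open Pool.Agent.Helper947.Crv

theorem _root_.Pool.Agent.Helper947.Hil.exists_nzd {k : Type} [Field k] [Infinite k] (I : Ideal (Pl k)) (hI : Hom I)
    (hs : IsSat I) : ∃ x ∈ Fm k 1, ∀ f, x * f ∈ I → f ∈ I := by
  classical
  have hfin : (associatedPrimes (Pl k) (Pl k ⧸ I)).Finite := associatedPrimes.finite _ _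
  let V : Ideal (Pl k) → Subspace k (Fm k 1) := fun P =>
    (P.restrictScalars k).comap (Fm k 1).subtype
  have hmemV : ∀ (P : Ideal (Pl k)) (x : Fm k 1), x ∈ V P ↔ (x : Pl k) ∈ P := fun P x => Iff.rfl
  have htop : (⊤ : Subspace k (Fm k 1)) ∉ hfin.toFinset.image V := by
    intro h
    obtain ⟨P, hP, hPV⟩ := Finset.mem_image.1 h
    rw [Set.Finite.mem_toFinset, AssociatedPrimes.mem_iff, isAssociatedPrime_iff] at hP
    obtain ⟨hprime, x, hx⟩ := hP
    obtain ⟨f, rfl⟩ := Ideal.Quotient.mk_surjective x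
    have h1 : ∀ p ∈ Fm k 1, p * f ∈ I := by
      intro p hp
      have h2 : (⟨p, hp⟩ : Fm k 1) ∈ V P := by rw [hPV]; trivial
      rw [hmemV, hx, Submodule.mem_colon_singleton, Submodule.mem_bot] at h2
      have h3 : Ideal.Quotient.mk I (p * f) = 0 := h2
      exact Ideal.Quotient.eq_zero_iff_mem.1 h3
    have h4 : f ∈ I := hs f ⟨1, h1⟩
    have h5 : Ideal.Quotient.mk I f = 0 := Ideal.Quotient.eq_zero_iff_mem.2 h4
    apply hprime.ne_top
    rw [hx, Ideal.eq_top_iff_one, Submodule.mem_colon_singleton, Submodule.mem_bot, h5, smul_zero]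
  have hne := Subspace.biUnion_ne_univ_of_top_notMem htop
  obtain ⟨x, hx⟩ := (Set.ne_univ_iff_exists_notMem _).1 hne
  refine ⟨x, x.2, fun f hf => ?_⟩
  by_contra hfI
  apply hx
  have h6 : (x : Pl k) ∈ {r : Pl k | ∃ m : Pl k ⧸ I, m ≠ 0 ∧ r • m = 0} := by
    refine ⟨Ideal.Quotient.mk I f, fun h => hfI (Ideal.Quotient.eq_zero_iff_mem.1 h), ?_⟩
    show Ideal.Quotient.mk I ((x : Pl k) * f) = 0
    exact Ideal.Quotient.eq_zero_iff_mem.2 hf
  rw [← biUnion_associatedPrimes_eq_zero_divisors (Pl k) (Pl k ⧸ I)] at h6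
  obtain ⟨P, hP, hxP⟩ := Set.mem_iUnion₂.1 h6
  refine Set.mem_iUnion₂.2 ⟨V P, ?_, (hmemV P x).2 hxP⟩
  exact Finset.mem_image.2 ⟨P, hfin.mem_toFinset.2 hP, rfl⟩

end Pool.Agent.Helper947.Hil.Lc1

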