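import Mathlib
import Pool.Agent.Helper947.Hil.Defs
import Pool.Agent.Helper947.Hil.B1
import Pool.Agent.Helper947.Hil.B2

set_option autoImplicit false

open MvPolynomial CategoryTheory CategoryTheory.Limits AlgebraicGeometry

namespace Pool.Agent.Helper947.Hil.Lc2

open Pool.Agent.Helper947.Crv

theorem hc_mul {k : Type} [Field k] (x : Pl k) (hx : x ∈ Fm k 1) (h : Pl k) (n : ℕ) :
    homogeneousComponent (n + 1) (x * h) = x * homogeneousComponent n h := by
  classical
  have e : ∀ i, homogeneousComponent (n + 1) (x * homogeneousComponent i h)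
      = if i = n then x * homogeneousComponent n h else 0 := by
    intro i
    have hm : x * homogeneousComponent i h ∈ homogeneousSubmodule (Fin 4) k (1 + i) :=
      IsHomogeneous.mul hx (homogeneousComponent_isHomogeneous i h)
    rw [homogeneousComponent_of_mem hm]
    by_cases hin : i = n
    · subst hin
      rw [if_pos (by omega), if_pos rfl]
    · rw [if_neg (by omega), if_neg hin]
  have e0 := sum_homogeneousComponent h
  conv_lhs => rw [← e0, Finset.mul_sum, map_sum]
  simp_rw [e]
  rw [Finset.sum_ite_eq']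
  split_ifs with hn
  · rfl
  · rw [homogeneousComponent_eq_zero, mul_zero]
    simp only [Finset.mem_range, not_lt] at hn
    omega

theorem Qm_fin {k : Type} [Field k] (I : Ideal (Pl k)) (n : ℕ) : Module.Finite k (Qm I n) := by
  obtain ⟨e⟩ := Qm_equiv I n
  exact Module.Finite.equiv e.symm

theorem hf_eq {k : Type} [Field k] (I : Ideal (Pl k)) (n : ℕ) :
    hf I n = Module.finrank k ((Mon n → k) ⧸ Kn I n) := by
  obtain ⟨e⟩ := Qm_equiv I n
  exact e.finrank_eq

theorem _root_.Pool.Agent.Helper947.Hil.hf_cut {k : Type} [Field k] (I : Ideal (Pl k)) (hI : Hom I) (x : Pl k) (hx : x ∈ Fm k 1)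
    (hnz : ∀ f, x * f ∈ I → f ∈ I) (n : ℕ) :
    hf (I ⊔ Ideal.span {x}) (n + 1) + hf I n = hf I (n + 1) := by
  classical
  have hmem : ∀ p ∈ Fm k n, x * p ∈ Fm k (n + 1) := by
    intro p hp
    have : x * p ∈ homogeneousSubmodule (Fin 4) k (1 + n) := IsHomogeneous.mul hx hp
    rwa [add_comm] at this
  let mulx : Fm k n →ₗ[k] Fm k (n + 1) :=
    { toFun := fun p => ⟨x * p.1, hmem p.1 p.2⟩
      map_add' := by
        intro a b
        ext1
        simp [mul_add]
      map_smul' := by
        intro c a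
        ext1
        simp }
  have hmulx : ∀ p : Fm k n, (mulx p : Pl k) = x * p.1 := fun p => rfl
  let K1 := (I.restrictScalars k).comap (Fm k n).subtype
  let K2 := (I.restrictScalars k).comap (Fm k (n + 1)).subtype
  let K3 := ((I ⊔ Ideal.span {x}).restrictScalars k).comap (Fm k (n + 1)).subtype
  have h12 : K1 ≤ K2.comap mulx := by
    intro p hp
    change x * p.1 ∈ I
    exact I.mul_mem_left x hp
  have h23 : K2 ≤ K3 := by
    intro p hp
    change p.1 ∈ I ⊔ Ideal.span {x}
    exact (le_sup_left : I ≤ I ⊔ Ideal.span {x}) hp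
  let μ : Qm I n →ₗ[k] Qm I (n + 1) := K1.mapQ K2 mulx h12
  let q : Qm I (n + 1) →ₗ[k] Qm (I ⊔ Ideal.span {x}) (n + 1) := K2.mapQ K3 LinearMap.id h23
  have hμ : Function.Injective μ := by
    rw [← LinearMap.ker_eq_bot, LinearMap.ker_eq_bot']
    intro a ha
    obtain ⟨p, rfl⟩ := Submodule.mkQ_surjective _ a
    have h1 : K2.mkQ (mulx p) = 0 := ha
    rw [Submodule.mkQ_apply, Submodule.Quotient.mk_eq_zero] at h1
    rw [Submodule.mkQ_apply, Submodule.Quotient.mk_eq_zero]
    exact hnz p.1 h1
  have hqs : Function.Surjective q := by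
    intro a
    obtain ⟨p, rfl⟩ := Submodule.mkQ_surjective _ a
    exact ⟨K2.mkQ p, rfl⟩
  have hker : LinearMap.ker q = LinearMap.range μ := by
    ext a
    obtain ⟨f, rfl⟩ := Submodule.mkQ_surjective _ a
    constructor
    · intro ha
      rw [LinearMap.mem_ker] at ha
      have h1 : K3.mkQ f = 0 := ha
      rw [Submodule.mkQ_apply, Submodule.Quotient.mk_eq_zero] at h1
      have h2 : f.1 ∈ I ⊔ Ideal.span {x} := h1
      obtain ⟨g, hg, r, hr, hgr⟩ := Submodule.mem_sup.1 h2
      obtain ⟨h, rfl⟩ := Ideal.mem_span_singleton.1 hr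
      have h3 : homogeneousComponent (n + 1) f.1 = f.1 := homogeneousComponent_eq_self f.2
      rw [← hgr, map_add, hc_mul x hx, hgr] at h3
      refine ⟨K1.mkQ ⟨homogeneousComponent n h, homogeneousComponent_mem n h⟩, ?_⟩
      have h4 : μ (K1.mkQ ⟨homogeneousComponent n h, homogeneousComponent_mem n h⟩)
          = K2.mkQ (mulx ⟨homogeneousComponent n h, homogeneousComponent_mem n h⟩) := rfl
      rw [h4]
      refine (Submodule.Quotient.eq _).2 ?_
      change x * homogeneousComponent n h - f.1 ∈ I
      rw [← h3]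
      have h5 : x * homogeneousComponent n h
          - (homogeneousComponent (n + 1) g + x * homogeneousComponent n h)
          = - homogeneousComponent (n + 1) g := by ring
      rw [h5]
      exact I.neg_mem (hI g hg (n + 1))
    · rintro ⟨b, hb⟩
      obtain ⟨p, rfl⟩ := Submodule.mkQ_surjective _ b
      rw [← hb, LinearMap.mem_ker]
      have h4 : q (μ (Submodule.mkQ _ p)) = K3.mkQ (mulx p) := rfl
      rw [h4, Submodule.mkQ_apply, Submodule.Quotient.mk_eq_zero]
      change x * p.1 ∈ I ⊔ Ideal.span {x}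
      exact (le_sup_right : Ideal.span {x} ≤ I ⊔ Ideal.span {x})
        (Ideal.mul_mem_right _ _ (Ideal.subset_span rfl))
  haveI := Qm_fin I (n + 1)
  have h6 := LinearMap.finrank_range_add_finrank_ker q
  rw [hker, LinearMap.finrank_range_of_inj hμ, LinearMap.range_eq_top.2 hqs, finrank_top] at h6
  exact h6

theorem _root_.Pool.Agent.Helper947.Hil.hf_eq_imp {k : Type} [Field k] {I J : Ideal (Pl k)} (hle : I ≤ J) (n : ℕ)
    (h : hf I n = hf J n) : Kn I n = Kn J n := by
  have h1 := Kn_mono hle n
  rw [hf_eq, hf_eq] at h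
  have h2 := Submodule.finrank_quotient_add_finrank (Kn I n)
  have h3 := Submodule.finrank_quotient_add_finrank (Kn J n)
  exact Submodule.eq_of_le_of_finrank_eq h1 (by omega)

end Pool.Agent.Helper947.Hil.Lc2

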