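import Mathlib
import Pool.Agent.Helper947.Hil.Defs

set_option autoImplicit false

open MvPolynomial CategoryTheory CategoryTheory.Limits AlgebraicGeometry

namespace Pool.Agent.Helper947.Hil.Lc3

open Pool.Agent.Helper947.Crv

theorem gc_hc_mul {A : Type} [CommRing A] (a g : Pl A) {n : ℕ} (hg : g ∈ Fm A n) (m : ℕ) :
    homogeneousComponent (m + n) (a * g) = homogeneousComponent m a * g := by
  have h1 : ∀ i, (homogeneousComponent i a * g) ∈ homogeneousSubmodule (Fin 4) A (i + n) := by
    intro i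
    rw [mem_homogeneousSubmodule]
    exact (homogeneousComponent_isHomogeneous i a).mul hg
  conv_lhs => rw [← sum_homogeneousComponent a, Finset.sum_mul, map_sum]
  have h2 : ∀ i ∈ Finset.range (a.totalDegree + 1),
      homogeneousComponent (m + n) (homogeneousComponent i a * g) =
      if i = m then homogeneousComponent m a * g else 0 := by
    intro i _
    rw [homogeneousComponent_of_mem (h1 i)]
    by_cases him : i = m
    · subst him
      rw [if_pos rfl, if_pos rfl]
    · rw [if_neg him, if_neg (by omega)]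
  rw [Finset.sum_congr rfl h2, Finset.sum_ite_eq']
  split_ifs with h3
  · rfl
  · rw [Finset.mem_range, not_lt] at h3
    rw [homogeneousComponent_eq_zero m a (by omega), zero_mul]

theorem gc_hc_zero {A : Type} [CommRing A] (a g : Pl A) (hg : g ∈ Fm A 1) :
    homogeneousComponent 0 (a * g) = 0 := by
  rw [homogeneousComponent_zero, ← constantCoeff_eq, map_mul]
  have h1 : constantCoeff g = 0 := by
    rw [constantCoeff_eq]
    exact hg.coeff_eq_zero (by simp)
  rw [h1, mul_zero, C_0]

/-- decomposition of the elements of degree `n` of `I ⊔ (x)` -/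
theorem gc_dec {A : Type} [CommRing A] (I : Ideal (Pl A)) (hI : Hom I) (x : Pl A)
    (hx : x ∈ Fm A 1) (n : ℕ) {g : Pl A} (hg : g ∈ I ⊔ Ideal.span {x}) (hgn : g ∈ Fm A n) :
    ∃ t u : Pl A, t ∈ I ∧ t ∈ Fm A n ∧ g = t + x * u ∧ ∀ a ∈ Fm A 1, a * u ∈ Fm A n := by
  obtain ⟨t', ht', b, hb, hgt⟩ := Submodule.mem_sup.1 hg
  obtain ⟨u', rfl⟩ := Ideal.mem_span_singleton'.1 hb
  have h1 : homogeneousComponent n g = g := homogeneousComponent_eq_self hgn
  rw [← hgt, map_add] at h1
  rcases Nat.eq_zero_or_pos n with rfl | hn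
  · rw [gc_hc_zero u' x hx, add_zero] at h1
    refine ⟨homogeneousComponent 0 t', 0, hI t' ht' 0, homogeneousComponent_mem 0 t', ?_, ?_⟩
    · rw [h1, mul_zero, add_zero, hgt]
    · intro a _
      rw [mul_zero]
      exact Submodule.zero_mem _
  · obtain ⟨m, rfl⟩ : ∃ m, n = m + 1 := ⟨n - 1, by omega⟩
    rw [gc_hc_mul u' x hx m] at h1
    refine ⟨homogeneousComponent (m+1) t', homogeneousComponent m u', hI t' ht' _,
      homogeneousComponent_mem _ _, ?_, ?_⟩
    · rw [mul_comm x, h1, hgt]
    · intro a ha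
      rw [mem_homogeneousSubmodule, add_comm m 1]
      exact IsHomogeneous.mul ha (homogeneousComponent_isHomogeneous m u')

theorem _root_.Pool.Agent.Helper947.Hil.gen_cut {A : Type} [CommRing A] (I : Ideal (Pl A)) (hI : Hom I) (x : Pl A)
    (hx : x ∈ Fm A 1) (hnz : ∀ f, x * f ∈ I → f ∈ I) (n : ℕ)
    (h : ∀ f ∈ I ⊔ Ideal.span {x}, f ∈ Fm A (n + 1) → f ∈ gen (I ⊔ Ideal.span {x}) n) :
    ∀ f ∈ I, f ∈ Fm A (n + 1) → f ∈ gen I n := by
  have key : ∀ p ∈ gen (I ⊔ Ideal.span {x}) n, ∃ q ∈ Fm A n,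
      homogeneousComponent (n + 1) p - x * q ∈ gen I n := by
    intro p hp
    unfold gen Ideal.span at hp
    induction hp using Submodule.closure_induction with
    | zero =>
      refine ⟨0, Submodule.zero_mem _, ?_⟩
      rw [map_zero, mul_zero, sub_zero]
      exact Ideal.zero_mem _
    | add p1 p2 _ _ h1 h2 =>
      obtain ⟨q1, hq1, e1⟩ := h1
      obtain ⟨q2, hq2, e2⟩ := h2
      refine ⟨q1 + q2, Submodule.add_mem _ hq1 hq2, ?_⟩
      have e3 : homogeneousComponent (n + 1) (p1 + p2) - x * (q1 + q2) =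
          (homogeneousComponent (n + 1) p1 - x * q1) +
          (homogeneousComponent (n + 1) p2 - x * q2) := by
        rw [map_add]; ring
      rw [e3]
      exact Ideal.add_mem _ e1 e2
    | smul_mem a g hg =>
      obtain ⟨t, u, ht, htn, hgt, hu⟩ := gc_dec I hI x hx n hg.1 hg.2
      have ha := homogeneousComponent_mem 1 a
      refine ⟨homogeneousComponent 1 a * u, hu _ ha, ?_⟩
      have e3 : homogeneousComponent (n + 1) (a • g) - x * (homogeneousComponent 1 a * u) =
          homogeneousComponent 1 a * t := by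
        rw [smul_eq_mul, add_comm n 1, gc_hc_mul a g hg.2 1]
        conv_lhs => rw [hgt]
        ring
      rw [e3]
      exact Ideal.mul_mem_left _ _ (Ideal.subset_span ⟨ht, htn⟩)
  have hle : gen I n ≤ I := by
    unfold gen
    rw [Ideal.span_le]
    rintro g ⟨hg, _⟩
    exact hg
  intro f hf hfn
  obtain ⟨q, hq, he⟩ := key f (h f (Ideal.mem_sup_left hf) hfn)
  rw [homogeneousComponent_eq_self hfn] at he
  have hxq : x * q ∈ I := by
    have h1 := I.sub_mem hf (hle he)
    rwa [sub_sub_cancel] at h1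
  have hqI := hnz q hxq
  have hqg : q ∈ gen I n := Ideal.subset_span ⟨hqI, hq⟩
  have h2 := Ideal.add_mem _ he (Ideal.mul_mem_left _ x hqg)
  rwa [sub_add_cancel] at h2

end Pool.Agent.Helper947.Hil.Lc3

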