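import Mathlib
import Pool.Agent.Helper947.Hil.Defs
import Pool.Agent.Helper947.Hil.B1
import Pool.Agent.Helper947.Hil.C2
import Pool.Agent.Helper947.Hil.C3

set_option autoImplicit false

open MvPolynomial CategoryTheory CategoryTheory.Limits AlgebraicGeometry

namespace Pool.Agent.Helper947.Hil.Lc4

open Pool.Agent.Helper947.Crv

theorem ub2_zero {k : Type} [Field k] (J : Ideal (Pl k)) (m : ℕ) :
    hf J m = 0 ↔ ∀ f ∈ Fm k m, f ∈ J := by
  obtain ⟨e⟩ := Qm_equiv J m
  haveI : Module.Finite k (Qm J m) := Module.Finite.equiv e.symm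
  unfold hf
  rw [Module.finrank_zero_iff, Submodule.Quotient.subsingleton_iff]
  constructor
  · intro h f hf
    have h1 : (⟨f, hf⟩ : Fm k m) ∈ (J.restrictScalars k).comap (Fm k m).subtype := by
      rw [h]; trivial
    exact h1
  · intro h
    rw [eq_top_iff]
    rintro ⟨f, hf⟩ _
    exact h f hf

theorem ub2_step {k : Type} [Field k] (J : Ideal (Pl k)) {m m' : ℕ} (hm : m ≤ m')
    (h : ∀ f ∈ Fm k m, f ∈ J) : ∀ f ∈ Fm k m', f ∈ J := by
  intro f hf
  have h1 := Fm_mul_step (I := J) (f := 1) hm (fun p hp => by rw [mul_one]; exact h p hp) f hf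
  rwa [mul_one] at h1

theorem _root_.Pool.Agent.Helper947.Hil.ub2 {k : Type} [Field k] (I : Ideal (Pl k)) (hI : Hom I) (hs : IsSat I) (y : Pl k)
    (hy : y ∈ Fm k 1) (hnz : ∀ f, y * f ∈ I → f ∈ I) (d : ℕ) (hd : ∃ N, ∀ n ≥ N, hf I n = d) :
    (∀ n ≥ d, hf I n = d) ∧ (∀ n ≥ d, ∀ f ∈ Fm k n, f ∈ I ⊔ Ideal.span {y}) ∧
      (∀ n ≥ d, ∀ f ∈ I, f ∈ Fm k (n + 1) → f ∈ gen I n) := by
  set J := I ⊔ Ideal.span {y} with hJ
  have hcut : ∀ n, hf J (n + 1) + hf I n = hf I (n + 1) := hf_cut I hI y hy hnz
  have hmono : Monotone (hf I) := monotone_nat_of_le_succ fun n => by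
    have := hcut n; omega
  obtain ⟨N, hN⟩ := hd
  have hle : ∀ n, hf I n ≤ d := by
    intro n
    rw [← hN (max n N) (le_max_right _ _)]
    exact hmono (le_max_left _ _)
  have hconst : ∀ n, hf I (n + 1) = hf I n → hf I n = d := by
    intro n hn
    have h0 : hf J (n + 1) = 0 := by have := hcut n; omega
    have h1 : ∀ m, n + 1 ≤ m → hf J m = 0 := fun m hm =>
      (ub2_zero J m).2 (ub2_step J hm ((ub2_zero J (n + 1)).1 h0))
    have h2 : ∀ m, n ≤ m → hf I m = hf I n := by
      intro m hm
      induction m, hm using Nat.le_induction with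
      | base => rfl
      | succ m hm ih =>
        have := hcut m
        have := h1 (m + 1) (by omega)
        omega
    rw [← hN (max n N) (le_max_right _ _), h2 _ (le_max_left _ _)]
  have hgrow : ∀ n, min n d ≤ hf I n := by
    intro n
    induction n with
    | zero => simp
    | succ n ih =>
      have h1 := hmono (Nat.le_succ n)
      by_cases he : hf I (n + 1) = hf I n
      · have := hconst n he
        rw [he, this]
        exact min_le_right _ _
      · have h2 : hf I n < hf I (n + 1) := lt_of_le_of_ne h1 (Ne.symm he)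
        omega
  have hA : ∀ n ≥ d, hf I n = d := by
    intro n hn
    have h1 := hgrow n
    have h2 := hle n
    rw [min_eq_right hn] at h1
    omega
  have hB : ∀ n ≥ d, ∀ f ∈ Fm k n, f ∈ J := by
    rcases Nat.eq_zero_or_pos d with h0 | hpos
    · intro n _
      have h1 : hf I 0 = 0 := by rw [hA 0 (by omega), h0]
      have h2 := ub2_step I (Nat.zero_le n) ((ub2_zero I 0).1 h1)
      exact fun f hf => (le_sup_left : I ≤ J) (h2 f hf)
    · have h00 : 1 ≤ hf I 0 := by
        by_contra hcon
        have h1 : hf I 0 = 0 := by omega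
        have h2 := (ub2_zero I N).2 (ub2_step I (Nat.zero_le N) ((ub2_zero I 0).1 h1))
        rw [hN N le_rfl] at h2
        omega
      have hgrow' : ∀ n, min (n + 1) d ≤ hf I n := by
        intro n
        induction n with
        | zero => exact (min_le_left _ _).trans h00
        | succ n ih =>
          have h1 := hmono (Nat.le_succ n)
          by_cases he : hf I (n + 1) = hf I n
          · have := hconst n he
            rw [he, this]
            exact min_le_right _ _
          · have h2 : hf I n < hf I (n + 1) := lt_of_le_of_ne h1 (Ne.symm he)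
            omega
      have h3 : hf I (d - 1) = d := by
        have h1 := hgrow' (d - 1)
        have h2 := hle (d - 1)
        rw [Nat.sub_add_cancel hpos, min_self] at h1
        omega
      have h4 : hf J d = 0 := by
        have h5 := hcut (d - 1)
        rw [Nat.sub_add_cancel hpos] at h5
        have h6 := hA d le_rfl
        omega
      intro n hn
      exact ub2_step J hn ((ub2_zero J d).1 h4)
  refine ⟨hA, hB, ?_⟩
  intro n hn
  apply gen_cut I hI y hy hnz n
  intro f _ hf
  refine ub2_step (gen (I ⊔ Ideal.span {y}) n) (Nat.le_succ n) ?_ f hf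
  intro g hg
  exact Ideal.subset_span ⟨hB n hn g hg, hg⟩

end Pool.Agent.Helper947.Hil.Lc4

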