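import Mathlib
import Pool.Agent.Helper947.Hil.Defs
import Pool.Agent.Helper947.Hil.B2
import Pool.Agent.Helper947.Hil.B4
import Pool.Agent.Helper947.Hil.B5
import Pool.Agent.Helper947.Hil.B7
import Pool.Agent.Helper947.Hil.C1
import Pool.Agent.Helper947.Hil.C2
import Pool.Agent.Helper947.Hil.C3
import Pool.Agent.Helper947.Hil.C4

set_option autoImplicit false

open MvPolynomial CategoryTheory CategoryTheory.Limits AlgebraicGeometry

namespace Pool.Agent.Helper947.Hil.Lc5

open Pool.Agent.Helper947.Crv

theorem aux_hf_congr {k : Type} [Field k] {I J : Ideal (Pl k)} (n : ℕ) (h : Kn I n = Kn J n) :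
    hf I n = hf J n := by
  rw [← FR_iff_hf, h, FR_iff_hf]

theorem aux_fin {k : Type} [Field k] (n : ℕ) : Module.Finite k (Fm k n) := by
  have h1 : Fm k n ≤ Submodule.span k
      (Set.range fun u : Mon n => (monomial u.1 (1 : k) : Pl k)) := by
    intro p hp
    rw [p.as_sum]
    refine Submodule.sum_mem _ fun u hu => ?_
    have hd : u.degree = n := by
      have h2 := hp (mem_support_iff.1 hu)
      have h3 := DFunLike.congr_fun (Finsupp.degree_eq_weight_one (R := ℕ) (σ := Fin 4)) u
      rw [h3]
      exact h2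
    have hm : u ∈ Finset.finsuppAntidiag (Finset.univ : Finset (Fin 4)) n := by
      rw [Finset.mem_finsuppAntidiag']
      refine ⟨?_, Finset.subset_univ _⟩
      rw [← hd]
      rfl
    have h4 : (monomial u (coeff u p) : Pl k) = coeff u p • (monomial u (1 : k)) := by
      rw [smul_monomial, smul_eq_mul, mul_one]
    rw [h4]
    exact Submodule.smul_mem _ _ (Submodule.subset_span ⟨⟨u, hm⟩, rfl⟩)
  have h2 : Module.Finite k (Submodule.span k
      (Set.range fun u : Mon n => (monomial u.1 (1 : k) : Pl k))) :=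
    Module.Finite.span_of_finite k (Set.finite_range _)
  exact Module.Finite.of_injective (Submodule.inclusion h1) (Submodule.inclusion_injective h1)

theorem aux_hf_le {k : Type} [Field k] {I J : Ideal (Pl k)} (hle : I ≤ J) (n : ℕ) :
    hf J n ≤ hf I n := by
  have h0 := aux_fin (k := k) n
  unfold hf
  have hc : (I.restrictScalars k).comap (Fm k n).subtype ≤
      (J.restrictScalars k).comap (Fm k n).subtype := by
    intro x hx
    exact hle hx
  have hs : Function.Surjective (Submodule.factor hc) := Submodule.factor_surjective hc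
  exact LinearMap.finrank_le_finrank_of_surjective hs

theorem _root_.Pool.Agent.Helper947.Hil.ub1 {k : Type} [Field k] [Infinite k] (I : Ideal (Pl k)) (hI : Hom I) (hs : IsSat I)
    (x : Pl k) (hx : x ∈ Fm k 1) (hnz : ∀ f, x * f ∈ I → f ∈ I) (d c : ℕ)
    (hP : ∃ N, ∀ n ≥ N, hf I n = d * n + c) :
    (∃ N, ∀ n ≥ N, hf (satI (I ⊔ Ideal.span {x})) n = d) ∧
      (∀ n ≥ mst d c, hf I n = d * n + c) ∧
      (∀ n ≥ mst d c, ∀ f ∈ satI (I ⊔ Ideal.span {x}), f ∈ Fm k n → f ∈ I ⊔ Ideal.span {x}) ∧
      (∀ n ≥ mst d c, ∀ f ∈ I, f ∈ Fm k (n + 1) → f ∈ gen I n) := by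
  obtain ⟨N, hN⟩ := hP
  have hcut := hf_cut I hI x hx hnz
  have hgc := gen_cut I hI x hx hnz
  have hH1 : Hom (I ⊔ Ideal.span {x}) := Hom_sup_span hI x 1 hx
  generalize hI1 : I ⊔ Ideal.span {x} = I1 at *
  have hH2 : Hom (satI I1) := Hom_satI hH1
  have hS2 : IsSat (satI I1) := IsSat_satI I1
  have hle : I1 ≤ satI I1 := le_satI I1
  obtain ⟨N', hN'⟩ := exists_satI_eq I1 hH1
  generalize hI2 : satI I1 = I2 at *
  have h1 : ∃ N, ∀ n ≥ N, hf I2 n = d := by
    refine ⟨max (N + 1) N', fun n hn => ?_⟩
    have hn1 : N + 1 ≤ n := le_trans (le_max_left _ _) hn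
    have hn2 : N' ≤ n := le_trans (le_max_right _ _) hn
    rw [aux_hf_congr n (hN' n hn2)]
    obtain ⟨m, rfl⟩ : ∃ m, n = m + 1 := ⟨n - 1, by omega⟩
    have e1 := hcut m
    have e2 := hN m (by omega)
    have e3 := hN (m + 1) (by omega)
    rw [e2, e3] at e1
    have e4 : d * (m + 1) = d * m + d := by ring
    omega
  obtain ⟨y, hy, hynz⟩ := exists_nzd I2 hH2 hS2
  obtain ⟨u1, u2, u3⟩ := ub2 I2 hH2 hS2 y hy hynz d h1
  -- the difference
  have hstep : ∀ n ≥ d, hf I (n + 1) = hf I n + hf I1 (n + 1) := by
    intro n hn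
    have := hcut n
    omega
  have hge : ∀ n ≥ d, d ≤ hf I1 (n + 1) := by
    intro n hn
    have := aux_hf_le hle (n + 1)
    rw [u1 (n + 1) (by omega)] at this
    exact this
  -- eventually equal
  have hmono : ∀ n ≥ d, ∀ j, hf I n + d * j ≤ hf I (n + j) := by
    intro n hn j
    induction j with
    | zero => simp
    | succ j ih =>
      have a1 := hstep (n + j) (by omega)
      have a2 := hge (n + j) (by omega)
      have a3 : d * (j + 1) = d * j + d := by ring
      have a4 : n + (j + 1) = n + j + 1 := by ring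
      rw [a4]
      omega
  have hupper : ∀ n ≥ d, hf I n ≤ d * n + c := by
    intro n hn
    have a1 := hmono n hn N
    have a2 := hN (n + N) (by omega)
    have a3 : d * (n + N) = d * n + d * N := by ring
    omega
  -- generation
  have hgen : ∀ n, n + 1 ≥ d → (∀ f ∈ Fm k (n + 1), f ∈ I2 → f ∈ I1) →
      ∀ j, (∀ f ∈ Fm k (n + 1 + j), f ∈ I2 → f ∈ I1) := by
    intro n hn h j
    induction j with
    | zero => exact h
    | succ j ih =>
      intro f hf1 hf2
      have b1 := u3 (n + 1 + j) (by omega) f hf2 hf1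
      have b2 : gen I2 (n + 1 + j) ≤ I1 := by
        refine Ideal.span_le.2 ?_
        rintro g ⟨g1, g2⟩
        exact ih g g2 g1
      exact b2 b1
  have hstat : ∀ n ≥ d, hf I1 (n + 1) = d → hf I n = d * n + c := by
    intro n hn h
    have b1 : Kn I1 (n + 1) = Kn I2 (n + 1) := by
      refine hf_eq_imp hle (n + 1) ?_
      rw [h, u1 (n + 1) (by omega)]
    have b2 := (Kn_le_iff I2 I1 (n + 1)).1 b1.ge
    have b3 := hgen n (by omega) b2
    have b4 : ∀ j, hf I1 (n + 1 + j) = d := by
      intro j
      have c1 : Kn I1 (n + 1 + j) = Kn I2 (n + 1 + j) :=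
        le_antisymm (Kn_mono hle _) ((Kn_le_iff I2 I1 (n + 1 + j)).2 (b3 j))
      rw [aux_hf_congr _ c1, u1 _ (by omega)]
    have b5 : ∀ j, hf I (n + j) = hf I n + d * j := by
      intro j
      induction j with
      | zero => simp
      | succ j ih =>
        have a1 := hstep (n + j) (by omega)
        have a2 := b4 j
        have a3 : d * (j + 1) = d * j + d := by ring
        have a4 : n + (j + 1) = n + j + 1 := by ring
        have a5 : n + 1 + j = n + j + 1 := by ring
        rw [a5] at a2
        rw [a4]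
        omega
    have b6 := b5 N
    have b7 := hN (n + N) (by omega)
    have b8 : d * (n + N) = d * n + d * N := by ring
    omega
  have hkey : ∀ j, hf I (d + j) = d * (d + j) + c ∨ d * j + j ≤ hf I (d + j) := by
    intro j
    induction j with
    | zero => right; simp
    | succ j ih =>
      have a1 := hstep (d + j) (by omega)
      have a2 := hge (d + j) (by omega)
      have a3 : d * (j + 1) = d * j + d := by ring
      have a4 : d + (j + 1) = d + j + 1 := by ring
      have a5 : d * (d + j + 1) = d * (d + j) + d := by ring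
      have a6 := hupper (d + j + 1) (by omega)
      rw [a4]
      rcases ih with ih | ih
      · left
        omega
      · rcases Nat.lt_or_ge d (hf I1 (d + j + 1)) with h | h
        · right
          omega
        · have := hstat (d + j) (by omega) (le_antisymm h a2)
          left
          omega
  have hn0 : hf I (d + (d * d + c)) = d * (d + (d * d + c)) + c := by
    rcases hkey (d * d + c) with h | h
    · exact h
    · have a1 := hupper (d + (d * d + c)) (by omega)
      have a2 : d * (d + (d * d + c)) = d * d + d * (d * d + c) := by ring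
      omega
  have hall : ∀ j, hf I (d + (d * d + c) + j) = d * (d + (d * d + c) + j) + c := by
    intro j
    have a1 := hmono (d + (d * d + c)) (by omega) j
    have a2 := hupper (d + (d * d + c) + j) (by omega)
    have a3 : d * (d + (d * d + c) + j) = d * (d + (d * d + c)) + d * j := by ring
    omega
  have hfin : ∀ n ≥ mst d c, hf I1 n = d := by
    intro n hn
    unfold mst at hn
    obtain ⟨j, rfl⟩ : ∃ j, n = d + (d * d + c) + j + 1 :=
      ⟨n - (d + (d * d + c) + 1), by omega⟩
    have a1 := hall j
    have a2 := hall (j + 1)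
    have a3 := hstep (d + (d * d + c) + j) (by omega)
    have a4 : d + (d * d + c) + (j + 1) = d + (d * d + c) + j + 1 := by ring
    rw [a4] at a2
    have a5 : d * (d + (d * d + c) + j + 1) = d * (d + (d * d + c) + j) + d := by ring
    omega
  have hmd : d ≤ mst d c := by unfold mst; omega
  have hK : ∀ n ≥ mst d c, ∀ f ∈ I2, f ∈ Fm k n → f ∈ I1 := by
    intro n hn f hf2 hf1
    have b1 : Kn I1 n = Kn I2 n := by
      refine hf_eq_imp hle n ?_
      rw [hfin n hn, u1 n (le_trans hmd hn)]
    exact (Kn_le_iff I2 I1 n).1 b1.ge f hf1 hf2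
  refine ⟨h1, ?_, hK, ?_⟩
  · intro n hn
    unfold mst at hn
    obtain ⟨j, rfl⟩ : ∃ j, n = d + (d * d + c) + j :=
      ⟨n - (d + (d * d + c)), by omega⟩
    exact hall j
  · intro n hn
    refine hgc n ?_
    intro f hf1 hf2
    have b1 := u3 n (le_trans hmd hn) f (hle hf1) hf2
    have b2 : gen I2 n ≤ gen I1 n := by
      refine Ideal.span_mono ?_
      rintro g ⟨g1, g2⟩
      exact ⟨hK n hn g g1 g2, g2⟩
    exact b2 b1

end Pool.Agent.Helper947.Hil.Lc5

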