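import Mathlib
import Pool.Agent.Helper947.Hil.Defs
import Pool.Agent.Helper947.Hil.A1
import Pool.Agent.Helper947.Hil.A6
import Pool.Agent.Helper947.Hil.B2
import Pool.Agent.Helper947.Hil.B3
import Pool.Agent.Helper947.Hil.B6
import Pool.Agent.Helper947.Hil.C1
import Pool.Agent.Helper947.Hil.C5

set_option autoImplicit false

open MvPolynomial CategoryTheory CategoryTheory.Limits AlgebraicGeometry

namespace Pool.Agent.Helper947.Hil.Lc6

open Pool.Agent.Helper947.Crv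

theorem comp_mul_ub {k : Type} [CommRing k] (J : Ideal (Pl k)) (a p : Pl k) (i : ℕ)
    (ha : a ∈ Fm k i) (hp : ∀ m, homogeneousComponent m p ∈ J) (m : ℕ) :
    homogeneousComponent m (a * p) ∈ J := by
  classical
  have h1 : a * p = ∑ j ∈ Finset.range (p.totalDegree + 1), a * homogeneousComponent j p := by
    rw [← Finset.mul_sum, sum_homogeneousComponent]
  rw [h1, map_sum]
  refine J.sum_mem fun j _ => ?_
  have h2 : a * homogeneousComponent j p ∈ Fm k (i + j) :=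
    IsHomogeneous.mul ha (homogeneousComponent_isHomogeneous j p)
  rw [homogeneousComponent_of_mem h2]
  split_ifs
  · exact J.mul_mem_left _ (hp j)
  · exact J.zero_mem

theorem Hom_gen_ub {k : Type} [CommRing k] (I : Ideal (Pl k)) (n : ℕ) : Hom (gen I n) := by
  classical
  intro p hp
  unfold gen at hp
  refine Submodule.span_induction (p := fun p _ => ∀ m, homogeneousComponent m p ∈ gen I n)
    ?_ ?_ ?_ ?_ hp
  · rintro g ⟨hg, hgn⟩ m
    rw [homogeneousComponent_of_mem hgn]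
    split_ifs
    · exact Ideal.subset_span ⟨hg, hgn⟩
    · exact (gen I n).zero_mem
  · intro m
    rw [map_zero]
    exact (gen I n).zero_mem
  · intro x y _ _ hx hy m
    rw [map_add]
    exact (gen I n).add_mem (hx m) (hy m)
  · intro a x _ hx m
    rw [smul_eq_mul, ← sum_homogeneousComponent a, Finset.sum_mul, map_sum]
    refine (gen I n).sum_mem fun i _ => ?_
    exact comp_mul_ub (gen I n) _ x i (homogeneousComponent_isHomogeneous i a) hx m

theorem gen_le_ub {k : Type} [CommRing k] (I : Ideal (Pl k)) (n : ℕ) : gen I n ≤ I :=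
  Ideal.span_le.2 fun _ hg => hg.1

theorem bcK_mono_ub {A B : Type} [CommRing A] [CommRing B] {s : Type} (φ : A →+* B)
    {K K' : Submodule A (s → A)} (h : K ≤ K') : bcK φ K ≤ bcK φ K' := by
  refine Submodule.span_mono ?_
  rintro w ⟨v, hv, rfl⟩
  exact ⟨v, h hv, rfl⟩

theorem _root_.Pool.Agent.Helper947.Hil.ub {k : Type} [Field k] (I : Ideal (Pl k)) (hI : Hom I) (hs : IsSat I) (d c : ℕ)
    (hP : ∃ N, ∀ n ≥ N, hf I n = d * n + c) :
    (∀ n ≥ mst d c, hf I n = d * n + c) ∧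
      (∀ n ≥ mst d c, ∀ f ∈ I, f ∈ Fm k (n + 1) → f ∈ gen I n) := by
  obtain ⟨φ, hφ⟩ : ∃ φ : k →+* AlgebraicClosure k, φ = algebraMap k (AlgebraicClosure k) := ⟨_, rfl⟩
  have hflat : φ.Flat := by
    rw [hφ, RingHom.flat_algebraMap_iff]
    infer_instance
  haveI : Infinite (AlgebraicClosure k) := IsAlgClosed.instInfinite
  have hhf : ∀ J : Ideal (Pl k), Hom J → ∀ n, hf (ext φ J) n = hf J n := by
    intro J hJ n
    have h1 : FR (Kn J n) (hf J n) := (FR_iff_hf J n _).2 rfl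
    have h2 := FR_bcK φ h1
    rw [← Kn_ext φ hJ] at h2
    exact (FR_iff_hf _ n _).1 h2
  have hI' : Hom (ext φ I) := Hom_ext φ hI
  have hs' : IsSat (ext φ I) := IsSat_ext_of_flat φ hflat hs
  obtain ⟨x, hx, hnz⟩ := exists_nzd (ext φ I) hI' hs'
  obtain ⟨-, h2, -, h4⟩ := ub1 (ext φ I) hI' hs' x hx hnz d c (by
    obtain ⟨N, hN⟩ := hP
    exact ⟨N, fun n hn => by rw [hhf I hI, hN n hn]⟩)
  refine ⟨fun n hn => by rw [← hhf I hI, h2 n hn], fun n hn f hfI hfn => ?_⟩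
  have hG : Hom (gen I n) := Hom_gen_ub I n
  have hle1 : gen (ext φ I) n ≤ ext φ (gen I n) := by
    refine Ideal.span_le.2 ?_
    rintro g ⟨hg, hgn⟩
    refine (Kn_le_iff (ext φ I) (ext φ (gen I n)) n).1 ?_ g hgn hg
    rw [Kn_ext φ hI, Kn_ext φ hG]
    refine bcK_mono_ub φ ((Kn_le_iff I (gen I n) n).2 fun g hg1 hg2 => ?_)
    exact Ideal.subset_span ⟨hg2, hg1⟩
  have hle2 : Kn (ext φ I) (n + 1) ≤ Kn (ext φ (gen I n)) (n + 1) :=
    (Kn_le_iff _ _ _).2 fun g hg1 hg2 => hle1 (h4 n hn g hg2 hg1)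
  have hle3 : Kn (ext φ (gen I n)) (n + 1) ≤ Kn (ext φ I) (n + 1) :=
    Kn_mono (Ideal.map_mono (gen_le_ub I n)) _
  have heq := le_antisymm hle3 hle2
  have e1 : hf (gen I n) (n + 1) = hf I (n + 1) := by
    rw [← hhf (gen I n) hG, ← hhf I hI]
    have h5 : FR (Kn (ext φ I) (n + 1)) (hf (ext φ I) (n + 1)) := (FR_iff_hf _ _ _).2 rfl
    rw [← heq] at h5
    exact (FR_iff_hf _ _ _).1 h5
  have h6 : FR (Kn (gen I n) (n + 1)) (hf I (n + 1)) := (FR_iff_hf _ _ _).2 e1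
  have h7 : FR (Kn I (n + 1)) (hf I (n + 1)) := (FR_iff_hf _ _ _).2 rfl
  have h8 := eq_of_le_FR h6 h7 (Kn_mono (gen_le_ub I n) _)
  exact (Kn_le_iff I (gen I n) (n + 1)).1 h8.ge f hfn hfI

end Pool.Agent.Helper947.Hil.Lc6

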