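import Mathlib
import Pool.Agent.Helper947.Hil.Defs

set_option autoImplicit false

open MvPolynomial CategoryTheory CategoryTheory.Limits AlgebraicGeometry

namespace Pool.Agent.Helper947.Hil.Ld1

open Pool.Agent.Helper947.Crv

theorem _root_.Pool.Agent.Helper947.Hil.free_of_inj {A : Type} [CommRing A] [IsLocalRing A] {M F : Type} [AddCommGroup M]
    [Module A M] [AddCommGroup F] [Module A F] [Module.Finite A M] [Module.Free A F]
    [Module.Finite A F] (u : M →ₗ[A] F)
    (h : Function.Injective (u.lTensor (IsLocalRing.ResidueField A))) :
    Module.Free A M ∧ Function.Injective u ∧ Module.Free A (F ⧸ LinearMap.range u) := by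
  obtain ⟨l', hl'⟩ := (IsLocalRing.split_injective_iff_lTensor_residueField_injective u).mpr h
  have hinj : Function.Injective u := by
    apply Function.HasLeftInverse.injective
    exact ⟨l', LinearMap.congr_fun hl'⟩
  refine ⟨?_, hinj, ?_⟩
  · have : Module.Projective A M := Module.Projective.of_split u l' hl'
    exact Module.free_of_flat_of_isLocalRing
  · exact Module.free_of_lTensor_residueField_injective (f := u) (g := (LinearMap.range u).mkQ)
      (Submodule.mkQ_surjective _) (LinearMap.exact_map_mkQ_range u) h

end Pool.Agent.Helper947.Hil.Ld1

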