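import Mathlib
import Pool.Agent.Helper947.Hil.Defs
import Pool.Agent.Helper947.Hil.A3
import Pool.Agent.Helper947.Hil.B1
import Pool.Agent.Helper947.Hil.B3
import Pool.Agent.Helper947.Hil.D1

set_option autoImplicit false

open MvPolynomial CategoryTheory CategoryTheory.Limits AlgebraicGeometry

namespace Pool.Agent.Helper947.Hil.Ld4

open Pool.Agent.Helper947.Crv

open TensorProduct in
theorem sat_local_inj {A : Type} [CommRing A] [IsLocalRing A] {M F : Type} [AddCommGroup M]
    [Module A M] [AddCommGroup F] [Module A F] (u : M →ₗ[A] F)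
    (h : ∀ m, u m ∈ (IsLocalRing.maximalIdeal A • (⊤ : Submodule A F)) →
      m ∈ (IsLocalRing.maximalIdeal A • (⊤ : Submodule A M))) :
    Function.Injective (u.lTensor (IsLocalRing.ResidueField A)) := by
  show Function.Injective (u.lTensor (A ⧸ IsLocalRing.maximalIdeal A))
  rw [injective_iff_map_eq_zero]
  intro t ht
  obtain ⟨m, hm⟩ := Submodule.Quotient.mk_surjective _
    (quotTensorEquivQuotSMul M (IsLocalRing.maximalIdeal A) t)
  have ht2 : t = (1 : A ⧸ IsLocalRing.maximalIdeal A) ⊗ₜ[A] m := by
    apply (quotTensorEquivQuotSMul M (IsLocalRing.maximalIdeal A)).injective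
    rw [quotTensorEquivQuotSMul_mk_one_tmul, hm]
  rw [ht2, LinearMap.lTensor_tmul] at ht
  have h1 := congrArg (quotTensorEquivQuotSMul F (IsLocalRing.maximalIdeal A)) ht
  rw [quotTensorEquivQuotSMul_mk_one_tmul, map_zero, Submodule.Quotient.mk_eq_zero] at h1
  have h2 := h m h1
  apply (quotTensorEquivQuotSMul M (IsLocalRing.maximalIdeal A)).injective
  rw [← hm, map_zero, Submodule.Quotient.mk_eq_zero]
  exact h2

theorem sat_local_coef {A : Type} [CommRing A] {s : Type} (I : Ideal A) (w : s → A)
    (hw : w ∈ I • (⊤ : Submodule A (s → A))) (i : s) : w i ∈ I := by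
  refine Submodule.smul_induction_on hw ?_ ?_
  · intro r hr v _
    rw [Pi.smul_apply, smul_eq_mul]
    exact I.mul_mem_right _ hr
  · intro x y hx hy
    rw [Pi.add_apply]
    exact I.add_mem hx hy

theorem sat_local_coef' {A : Type} [CommRing A] {s : Type} [Fintype s] (I : Ideal A) (w : s → A)
    (hw : ∀ i, w i ∈ I) : w ∈ I • (⊤ : Submodule A (s → A)) := by
  classical
  rw [pi_eq_sum_univ' w]
  refine Submodule.sum_mem _ (fun i _ => ?_)
  exact Submodule.smul_mem_smul (hw i) Submodule.mem_top

/-- multiplication by a variable on coefficient vectors -/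
noncomputable def sat_local_mulX {A : Type} [CommRing A] (n : ℕ) (i : Fin 4) :
    (Mon n → A) →ₗ[A] (Mon (n + 1) → A) where
  toFun v := fun u => coeff u.1 (X i * pol n v)
  map_add' v w := by
    funext u
    rw [map_add, mul_add, coeff_add]
    rfl
  map_smul' a v := by
    funext u
    rw [map_smul, mul_smul_comm, coeff_smul]
    rfl

theorem sat_local_X_mem {A : Type} [CommRing A] {n : ℕ} (i : Fin 4) {f : Pl A}
    (hf : f ∈ Fm A n) : X i * f ∈ Fm A (n + 1) := by
  rw [mem_homogeneousSubmodule] at hf ⊢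
  rw [add_comm]
  exact (isHomogeneous_X A i).mul hf

theorem sat_local_pol_mulX {A : Type} [CommRing A] (n : ℕ) (i : Fin 4) (v : Mon n → A) :
    pol (n + 1) (sat_local_mulX n i v) = X i * pol n v := by
  obtain ⟨w, hw⟩ := exists_pol (n + 1) (X i * pol n v) (sat_local_X_mem i (pol_mem n v))
  have : sat_local_mulX n i v = w := by
    funext u
    show coeff u.1 (X i * pol n v) = w u
    rw [← hw, coeff_pol]
  rw [this, hw]

theorem sat_local_mem_Kn {A : Type} [CommRing A] (J : Ideal (Pl A)) (n : ℕ) (v : Mon n → A) :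
    v ∈ Kn J n ↔ pol n v ∈ J := Iff.rfl

theorem sat_local_deg_one {K : Type} [CommRing K] (I : Ideal (Pl K)) (g : Pl K)
    (hg : ∀ i, X i * g ∈ I) : g ∈ satI I := by
  refine ⟨1, fun p hp => ?_⟩
  rw [p.as_sum, Finset.sum_mul]
  refine I.sum_mem fun u hu => ?_
  have hd : u.degree = 1 := by
    have h2 := hp (mem_support_iff.1 hu)
    have h3 := DFunLike.congr_fun (Finsupp.degree_eq_weight_one (R := ℕ) (σ := Fin 4)) u
    rw [h3]
    exact h2
  have hne : ∃ i, u i ≠ 0 := by
    by_contra hcon
    push Not at hcon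
    have : u = 0 := Finsupp.ext hcon
    rw [this, map_zero] at hd
    omega
  obtain ⟨i, hi⟩ := hne
  have hle : Finsupp.single i 1 ≤ u := by
    rw [Finsupp.single_le_iff]
    omega
  have h1 : (monomial u (coeff u p) : Pl K) =
      monomial (u - Finsupp.single i 1) (coeff u p) * X i := by
    rw [X, monomial_mul, tsub_add_cancel_of_le hle, mul_one]
  rw [h1, mul_assoc]
  exact I.mul_mem_left _ (hg i)

theorem sat_local_key {A : Type} [CommRing A] [IsLocalRing A] (J : Ideal (Pl A)) (hJ : Hom J)
    (n : ℕ) (r : ℕ) (hr : FR (Kn J (n + 1)) r)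
    (hs : ∀ f ∈ Fm (IsLocalRing.ResidueField A) n, f ∈ satI (Ir J) → f ∈ Ir J) (g : Pl A)
    (hg : g ∈ Fm A n) (hgX : ∀ i, X i * g ∈ J) : g ∈ J := by
  classical
  have hfree := ((FR_iff_free_local _ _).1 hr).1
  let Q := (Mon (n + 1) → A) ⧸ Kn J (n + 1)
  have hcomap : ∀ i, Kn J n ≤ (Kn J (n + 1)).comap (sat_local_mulX n i) := by
    intro i v hv
    rw [Submodule.mem_comap, sat_local_mem_Kn, sat_local_pol_mulX]
    exact J.mul_mem_left _ hv
  let u : ((Mon n → A) ⧸ Kn J n) →ₗ[A] (Fin 4 → Q) :=
    LinearMap.pi (fun i => (Kn J n).mapQ (Kn J (n + 1)) (sat_local_mulX n i) (hcomap i))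
  have hu : ∀ v i, u (Submodule.Quotient.mk v) i =
      Submodule.Quotient.mk (sat_local_mulX n i v) := fun v i => rfl
  have hinj : Function.Injective (u.lTensor (IsLocalRing.ResidueField A)) := by
    apply sat_local_inj
    intro m hm
    obtain ⟨v, rfl⟩ := Submodule.Quotient.mk_surjective _ m
    -- components
    have h1 : ∀ i, (Submodule.Quotient.mk (sat_local_mulX n i v) : Q) ∈
        IsLocalRing.maximalIdeal A • (⊤ : Submodule A Q) := by
      intro i
      have h2 : u (Submodule.Quotient.mk v) i ∈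
          (IsLocalRing.maximalIdeal A • (⊤ : Submodule A (Fin 4 → Q))).map
            (LinearMap.proj i) := ⟨_, hm, rfl⟩
      rw [Submodule.map_smul''] at h2
      rw [← hu]
      exact Submodule.smul_mono le_rfl le_top h2
    -- the reduction
    have h3 : ∀ i, MvPolynomial.map (IsLocalRing.residue A) (X i * pol n v) ∈ Ir J := by
      intro i
      have h4 : (Submodule.Quotient.mk (sat_local_mulX n i v) : Q) ∈
          (IsLocalRing.maximalIdeal A • (⊤ : Submodule A (Mon (n + 1) → A))).map
            (Kn J (n + 1)).mkQ := by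
        rw [Submodule.map_smul'', Submodule.map_top, Submodule.range_mkQ]
        exact h1 i
      obtain ⟨w, hw, hwe⟩ := h4
      have h5 : sat_local_mulX n i v - w ∈ Kn J (n + 1) := by
        rw [← Submodule.Quotient.eq]
        exact hwe.symm
      rw [sat_local_mem_Kn, map_sub, sat_local_pol_mulX] at h5
      have h6 : MvPolynomial.map (IsLocalRing.residue A) (pol (n + 1) w) = 0 := by
        rw [map_pol]
        have : (fun u => IsLocalRing.residue A (w u)) = 0 := by
          funext u
          exact (IsLocalRing.residue_eq_zero_iff _).2 (sat_local_coef _ w hw u)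
        rw [this, map_zero]
      have h7 := Ideal.mem_map_of_mem (MvPolynomial.map (IsLocalRing.residue A)) h5
      rw [map_sub, h6, sub_zero] at h7
      exact h7
    have h8 : MvPolynomial.map (IsLocalRing.residue A) (pol n v) ∈ Ir J := by
      apply hs
      · rw [map_pol]
        exact pol_mem n _
      · apply sat_local_deg_one
        intro i
        have := h3 i
        rwa [map_mul, map_X] at this
    obtain ⟨g', hg'J, hg'n, hg'e⟩ := lift_hom (IsLocalRing.residue A)
      IsLocalRing.residue_surjective hJ n _ (by rw [map_pol]; exact pol_mem n _) h8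
    obtain ⟨v', rfl⟩ := exists_pol n g' hg'n
    rw [map_pol, map_pol] at hg'e
    have h9 := pol_injective n hg'e
    have h10 : v - v' ∈ IsLocalRing.maximalIdeal A • (⊤ : Submodule A (Mon n → A)) := by
      apply sat_local_coef'
      intro u
      have h11 := congrFun h9 u
      rw [Pi.sub_apply, ← IsLocalRing.residue_eq_zero_iff, map_sub, sub_eq_zero]
      exact h11.symm
    have h12 : (Submodule.Quotient.mk v : (Mon n → A) ⧸ Kn J n) =
        (Kn J n).mkQ (v - v') := by
      rw [Submodule.mkQ_apply, Submodule.Quotient.eq]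
      have : v - (v - v') = v' := by abel
      rw [this, sat_local_mem_Kn]
      exact hg'J
    rw [h12]
    have h13 : (Kn J n).mkQ (v - v') ∈
        (IsLocalRing.maximalIdeal A • (⊤ : Submodule A (Mon n → A))).map (Kn J n).mkQ :=
      ⟨_, h10, rfl⟩
    rw [Submodule.map_smul''] at h13
    exact Submodule.smul_mono le_rfl le_top h13
  obtain ⟨-, huinj, -⟩ := free_of_inj u hinj
  obtain ⟨v, rfl⟩ := exists_pol n g hg
  have h14 : u (Submodule.Quotient.mk v) = 0 := by
    funext i
    rw [hu]
    show _ = (0 : Q)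
    rw [Submodule.Quotient.mk_eq_zero, sat_local_mem_Kn, sat_local_pol_mulX]
    exact hgX i
  have h15 := huinj (h14.trans (map_zero u).symm)
  rw [Submodule.Quotient.mk_eq_zero] at h15
  exact h15

/-- saturation in large degrees can be checked on the closed fibre -/
theorem _root_.Pool.Agent.Helper947.Hil.sat_local {A : Type} [CommRing A] [IsLocalRing A] (J : Ideal (Pl A)) (hJ : Hom J) (N : ℕ)
    (r : ℕ → ℕ) (hr : ∀ n ≥ N, FR (Kn J n) (r n))
    (hs : ∀ n ≥ N, ∀ f ∈ Fm (IsLocalRing.ResidueField A) n, f ∈ satI (Ir J) → f ∈ Ir J) :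
    ∀ n ≥ N, ∀ f ∈ Fm A n, f ∈ satI J → f ∈ J := by
  have key : ∀ n ≥ N, ∀ g ∈ Fm A n, (∀ i, X i * g ∈ J) → g ∈ J := by
    intro n hn g hg hgX
    exact sat_local_key J hJ n (r (n + 1)) (hr (n + 1) (by omega)) (hs n hn) g hg hgX
  have main : ∀ m n, n ≥ N → ∀ f ∈ Fm A n, (∀ p ∈ Fm A m, p * f ∈ J) → f ∈ J := by
    intro m
    induction m with
    | zero =>
      intro n hn f hf h
      have := h 1 (by
        rw [mem_homogeneousSubmodule]
        exact isHomogeneous_one _ _)
      rwa [one_mul] at this
    | succ m ih =>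
      intro n hn f hf h
      apply ih n hn f hf
      intro p hp
      apply key (m + n) (by omega) (p * f)
      · rw [mem_homogeneousSubmodule] at hp hf ⊢
        exact hp.mul hf
      · intro i
        rw [← mul_assoc]
        exact h _ (sat_local_X_mem i hp)
  intro n hn f hf hfs
  obtain ⟨m, hm⟩ := hfs
  exact main m n hn f hf hm

end Pool.Agent.Helper947.Hil.Ld4

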