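import Mathlib
import Pool.Agent.Helper947.Hil.Defs
import Pool.Agent.Helper947.Hil.A1
import Pool.Agent.Helper947.Hil.B2
import Pool.Agent.Helper947.Hil.B3
import Pool.Agent.Helper947.Hil.B4
import Pool.Agent.Helper947.Hil.B5
import Pool.Agent.Helper947.Hil.B7
import Pool.Agent.Helper947.Hil.C2
import Pool.Agent.Helper947.Hil.C6
import Pool.Agent.Helper947.Hil.D4

set_option autoImplicit false

open MvPolynomial CategoryTheory CategoryTheory.Limits AlgebraicGeometry

namespace Pool.Agent.Helper947.Hil.Ld10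

open Pool.Agent.Helper947.Crv

theorem sat_big_field {k : Type} [Field k] (I : Ideal (Pl k)) (hI : Hom I) (d c : ℕ)
    (hr : ∀ n ≥ mst d c, FR (Kn I n) (d * n + c)) :
    ∀ n ≥ mst d c, ∀ f ∈ Fm k n, f ∈ satI I → f ∈ I := by
  obtain ⟨N', hN'⟩ := exists_satI_eq I hI
  have h1 : ∃ N, ∀ n ≥ N, hf (satI I) n = d * n + c := by
    refine ⟨max N' (mst d c), fun n hn => ?_⟩
    rw [← FR_iff_hf, hN' n (le_trans (le_max_left _ _) hn)]
    exact hr n (le_trans (le_max_right _ _) hn)
  have h2 := (ub (satI I) (Hom_satI hI) (IsSat_satI I) d c h1).1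
  intro n hn
  have h3 : hf I n = hf (satI I) n := by
    rw [h2 n hn]
    exact (FR_iff_hf I n _).1 (hr n hn)
  have h4 := hf_eq_imp (le_satI I) n h3
  exact (Kn_le_iff (satI I) I n).1 h4.symm.le

theorem _root_.Pool.Agent.Helper947.Hil.sat_big {A : Type} [CommRing A] (J : Ideal (Pl A)) (hJ : Hom J) (d c : ℕ)
    (hr : ∀ n ≥ mst d c, FR (Kn J n) (d * n + c)) :
    ∀ n ≥ mst d c, Kn (satI J) n = Kn J n := by
  intro n hn
  refine le_antisymm ?_ (Kn_mono (le_satI J) n)
  rw [Kn_le_iff]
  intro f hf hfs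
  let 𝔞 : Ideal A :=
    { carrier := {a | C a * f ∈ J}
      add_mem' := by
        intro a b ha hb
        simp only [Set.mem_setOf_eq] at ha hb ⊢
        rw [C_add, add_mul]
        exact J.add_mem ha hb
      zero_mem' := by
        simp only [Set.mem_setOf_eq, C_0, zero_mul]
        exact J.zero_mem
      smul_mem' := by
        intro a b hb
        simp only [Set.mem_setOf_eq] at hb ⊢
        rw [smul_eq_mul, C_mul, mul_assoc]
        exact J.mul_mem_left _ hb }
  have hmem : ∀ a, a ∈ 𝔞 ↔ C a * f ∈ J := fun a => Iff.rfl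
  by_cases htop : 𝔞 = ⊤
  · have h1 : (1 : A) ∈ 𝔞 := by rw [htop]; trivial
    rw [hmem, C_1, one_mul] at h1
    exact h1
  · exfalso
    obtain ⟨p, hp, hle⟩ := Ideal.exists_le_maximal 𝔞 htop
    have hpp : p.IsPrime := hp.isPrime
    let φ : A →+* Localization.AtPrime p := algebraMap A (Localization.AtPrime p)
    have hJp : Hom (ext φ J) := Hom_ext φ hJ
    have hrp : ∀ n ≥ mst d c, FR (Kn (ext φ J) n) (d * n + c) := by
      intro n hn
      rw [Kn_ext φ hJ]
      exact FR_bcK φ (hr n hn)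
    have hrk : ∀ n ≥ mst d c, FR (Kn (Ir (ext φ J)) n) (d * n + c) := by
      intro n hn
      show FR (Kn (ext (IsLocalRing.residue (Localization.AtPrime p)) (ext φ J)) n) (d * n + c)
      rw [Kn_ext _ hJp]
      exact FR_bcK _ (hrp n hn)
    have hs := sat_big_field (Ir (ext φ J)) (Hom_ext _ hJp) d c hrk
    have hloc := sat_local (ext φ J) hJp (mst d c) (fun n => d * n + c) hrp hs
    have hfm : MvPolynomial.map φ f ∈ Fm (Localization.AtPrime p) n := by
      rw [mem_homogeneousSubmodule] at hf ⊢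
      exact hf.map φ
    have hfs' : MvPolynomial.map φ f ∈ satI (ext φ J) :=
      ext_satI_le φ J (Ideal.mem_map_of_mem _ hfs)
    obtain ⟨a, ha, haf⟩ := mem_ext_local p.primeCompl J f (hloc n hn _ hfm hfs')
    exact ha (hle ((hmem a).2 haf))

end Pool.Agent.Helper947.Hil.Ld10

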