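import Mathlib
import Pool.Agent.Helper947.Hil.Defs
import Pool.Agent.Helper947.Hil.A1
import Pool.Agent.Helper947.Hil.A4
import Pool.Agent.Helper947.Hil.B1
import Pool.Agent.Helper947.Hil.B2
import Pool.Agent.Helper947.Hil.B3
import Pool.Agent.Helper947.Hil.B4
import Pool.Agent.Helper947.Hil.B5
import Pool.Agent.Helper947.Hil.B7
import Pool.Agent.Helper947.Hil.C2
import Pool.Agent.Helper947.Hil.C6

set_option autoImplicit false

open MvPolynomial CategoryTheory CategoryTheory.Limits AlgebraicGeometry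

namespace Pool.Agent.Helper947.Hil.Ld11

open Pool.Agent.Helper947.Crv

theorem gen_big_FR {A : Type} [CommRing A] [IsLocalRing A] {s : Type} [Fintype s]
    {K : Submodule A (s → A)} {r : ℕ} (h : FR K r) (v : s → A) (hv : v ∈ K)
    (hm : ∀ i, v i ∈ IsLocalRing.maximalIdeal A) : v ∈ IsLocalRing.maximalIdeal A • K := by
  classical
  obtain ⟨-, h1, h2⟩ := h
  obtain ⟨t, ht⟩ : ∃ t, t = Fintype.card s - r := ⟨_, rfl⟩
  rw [← ht] at h1 h2
  obtain ⟨k, e, hk, hdet⟩ : ∃ (k : Fin t → s → A) (e : Fin t → s), (∀ i, k i ∈ K) ∧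
      IsUnit (Matrix.of fun i j => k i (e j)).det := by
    by_contra hcon
    push Not at hcon
    have hle : Fit K t ≤ IsLocalRing.maximalIdeal A := by
      unfold Fit
      rw [Ideal.span_le]
      rintro δ ⟨k, e, hk, rfl⟩
      exact (IsLocalRing.mem_maximalIdeal _).2 (hcon k e hk)
    rw [h1, top_le_iff] at hle
    exact Ideal.IsPrime.ne_top' hle
  obtain ⟨M, hM⟩ : ∃ M : Matrix (Fin t) (Fin t) A, M = Matrix.of fun i j => k i (e j) := ⟨_, rfl⟩
  rw [← hM] at hdet
  obtain ⟨c, hc⟩ : ∃ c : Fin t → A, c = Matrix.vecMul (fun j => v (e j)) M⁻¹ := ⟨_, rfl⟩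
  have hcM : ∀ j, ∑ i, c i * k i (e j) = v (e j) := by
    intro j
    have h3 : Matrix.vecMul c M = fun j => v (e j) := by
      rw [hc, Matrix.vecMul_vecMul, Matrix.nonsing_inv_mul _ hdet, Matrix.vecMul_one]
    have h4 := congrFun h3 j
    rw [← h4, hM]
    rfl
  obtain ⟨u, hu⟩ : ∃ u : s → A, u = v - ∑ i, c i • k i := ⟨_, rfl⟩
  have hsK : ∑ i, c i • k i ∈ K := K.sum_mem fun i _ => K.smul_mem _ (hk i)
  have huK : u ∈ K := by rw [hu]; exact K.sub_mem hv hsK
  have hue : ∀ j, u (e j) = 0 := by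
    intro j
    rw [hu, Pi.sub_apply, Finset.sum_apply, ← hcM j]
    simp [Pi.smul_apply, smul_eq_mul]
  have hu0 : u = 0 := by
    funext x
    have h3 : (Matrix.of fun i j => (Fin.snoc (α := fun _ => s → A) k u i)
        ((Fin.snoc (α := fun _ => s) e x) j)).det ∈ Fit K (t + 1) := by
      refine Ideal.subset_span ⟨_, _, fun i => ?_, rfl⟩
      refine Fin.lastCases ?_ (fun i => ?_) i
      · rw [Fin.snoc_last]; exact huK
      · rw [Fin.snoc_castSucc]; exact hk i
    rw [h2, Ideal.mem_bot, Matrix.det_succ_row _ (Fin.last t),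
      Fin.sum_univ_castSucc] at h3
    have h4 : ∀ j : Fin t, (Matrix.of fun i j => (Fin.snoc (α := fun _ => s → A) k u i)
        ((Fin.snoc (α := fun _ => s) e x) j)) (Fin.last t) (Fin.castSucc j) = 0 := by
      intro j
      rw [Matrix.of_apply, Fin.snoc_last, Fin.snoc_castSucc]
      exact hue j
    have h5 : (Matrix.of fun i j => (Fin.snoc (α := fun _ => s → A) k u i)
        ((Fin.snoc (α := fun _ => s) e x) j)) (Fin.last t) (Fin.last t) = u x := by
      rw [Matrix.of_apply, Fin.snoc_last, Fin.snoc_last]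
    have h6 : (Matrix.of fun i j => (Fin.snoc (α := fun _ => s → A) k u i)
        ((Fin.snoc (α := fun _ => s) e x) j)).submatrix (Fin.last t).succAbove
        (Fin.last t).succAbove = M := by
      rw [hM]
      ext i j
      rw [Matrix.submatrix_apply, Matrix.of_apply, Matrix.of_apply, Fin.succAbove_last,
        Fin.snoc_castSucc, Fin.snoc_castSucc]
    simp only [h4, mul_zero, zero_mul, Finset.sum_const_zero, zero_add, h5, h6] at h3
    rw [← two_mul, pow_mul, neg_one_sq, one_pow, one_mul] at h3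
    exact (hdet.mul_left_eq_zero).1 h3
  have hv' : v = ∑ i, c i • k i := by
    rw [hu, sub_eq_zero] at hu0
    exact hu0
  rw [hv']
  refine Submodule.sum_mem _ fun i _ => Submodule.smul_mem_smul ?_ (hk i)
  rw [hc]
  show ∑ j, v (e j) * M⁻¹ j i ∈ _
  exact Ideal.sum_mem _ fun j _ => Ideal.mul_mem_right _ _ (hm _)

theorem gen_big_ext {A B : Type} [CommRing A] [CommRing B] (φ : A →+* B) {J : Ideal (Pl A)}
    (hJ : Hom J) (n : ℕ) : gen (ext φ J) n ≤ ext φ (gen J n) := by
  unfold gen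
  rw [Ideal.span_le]
  rintro g ⟨hg, hgn⟩
  obtain ⟨v, rfl⟩ := exists_pol n g hgn
  have hv : v ∈ Kn (ext φ J) n := hg
  rw [Kn_ext φ hJ] at hv
  have hle : bcK φ (Kn J n) ≤ Kn (ext φ (gen J n)) n := by
    unfold bcK
    rw [Submodule.span_le]
    rintro w ⟨v', hv', rfl⟩
    show pol n (fun i => φ (v' i)) ∈ ext φ (gen J n)
    rw [← map_pol]
    exact Ideal.mem_map_of_mem _ (Ideal.subset_span ⟨hv', pol_mem n v'⟩)
  exact hle hv

theorem gen_big_Hom {A : Type} [CommRing A] (J : Ideal (Pl A)) (n : ℕ) : Hom (gen J n) := by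
  intro p hp m
  let _ : GradedAlgebra (homogeneousSubmodule (Fin 4) A) := MvPolynomial.gradedAlgebra
  have h1 : (gen J n).IsHomogeneous (homogeneousSubmodule (Fin 4) A) := by
    unfold gen
    apply Ideal.homogeneous_span
    rintro x ⟨_, hx⟩
    exact ⟨n, hx⟩
  have h2 := h1 m hp
  have h3 : (DirectSum.decompose (homogeneousSubmodule (Fin 4) A) p m : Pl A) =
      homogeneousComponent m p := by
    exact MvPolynomial.decomposition.decompose'_apply p m
  rw [h3] at h2
  exact h2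

theorem gen_big_loc {A : Type} [CommRing A] [IsLocalRing A] (J : Ideal (Pl A)) (hJ : Hom J)
    (d c : ℕ) (hr : ∀ n ≥ mst d c, FR (Kn J n) (d * n + c)) :
    ∀ n ≥ mst d c, ∀ f ∈ J, f ∈ Fm A (n + 1) → f ∈ gen J n := by
  have hIr : Hom (Ir J) := Hom_ext _ hJ
  have hFRk : ∀ n ≥ mst d c, hf (Ir J) n = d * n + c := fun n hn =>
    (FR_iff_hf _ _ _).1 (by rw [Kn_ext _ hJ]; exact FR_bcK _ (hr n hn))
  have hS : Hom (satI (Ir J)) := Hom_satI hIr
  obtain ⟨N, hN⟩ := exists_satI_eq (Ir J) hIr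
  obtain ⟨u1, u2⟩ := ub (satI (Ir J)) hS (IsSat_satI _) d c ⟨max N (mst d c), fun n hn =>
    (FR_iff_hf _ _ _).1 (by
      rw [hN n ((le_max_left _ _).trans hn)]
      exact (FR_iff_hf _ _ _).2 (hFRk n ((le_max_right _ _).trans hn)))⟩
  intro n hn
  have hKeq : Kn (Ir J) n = Kn (satI (Ir J)) n :=
    hf_eq_imp (le_satI _) n (by rw [hFRk n hn, u1 n hn])
  have hgen : gen (satI (Ir J)) n ≤ gen (Ir J) n := by
    refine Ideal.span_mono ?_
    rintro g ⟨hg, hgn⟩
    exact ⟨(Kn_le_iff _ _ _).1 hKeq.ge g hgn hg, hgn⟩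
  have hgJ : gen J n ≤ J := by
    unfold gen
    rw [Ideal.span_le]
    exact fun g hg => hg.1
  have hN12 : Kn J (n + 1) ≤ Kn (gen J n) (n + 1) := by
    refine Submodule.le_of_le_smul_of_le_jacobson_bot (FR_fg (hr (n + 1) (by omega)))
      (IsLocalRing.maximalIdeal_le_jacobson ⊥) ?_
    intro v hv
    have hfJ : pol (n + 1) v ∈ J := hv
    have h1 : MvPolynomial.map (IsLocalRing.residue A) (pol (n + 1) v) ∈ Ir J :=
      Ideal.mem_map_of_mem _ hfJ
    have h2 : MvPolynomial.map (IsLocalRing.residue A) (pol (n + 1) v) ∈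
        Fm (IsLocalRing.ResidueField A) (n + 1) := by
      rw [map_pol]; exact pol_mem _ _
    have h3 := gen_big_ext (IsLocalRing.residue A) hJ n (hgen (u2 n hn _ (le_satI _ h1) h2))
    obtain ⟨G, hG, hGn, hGm⟩ := lift_hom (IsLocalRing.residue A) IsLocalRing.residue_surjective
      (gen_big_Hom J n) (n + 1) _ h2 h3
    obtain ⟨w, rfl⟩ := exists_pol (n + 1) G hGn
    have hw : w ∈ Kn (gen J n) (n + 1) := hG
    have hwJ : w ∈ Kn J (n + 1) := hgJ hG
    have h4 : v - w ∈ IsLocalRing.maximalIdeal A • Kn J (n + 1) := by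
      refine gen_big_FR (hr (n + 1) (by omega)) _ (Submodule.sub_mem _ hv hwJ) fun i => ?_
      rw [map_pol, map_pol] at hGm
      have h5 := congrFun (pol_injective _ hGm) i
      have h6 : IsLocalRing.residue A (w i) = IsLocalRing.residue A (v i) := h5
      rw [← IsLocalRing.residue_eq_zero_iff, Pi.sub_apply, map_sub, h6, sub_self]
    have h5 : v = w + (v - w) := by abel
    rw [h5]
    exact Submodule.add_mem_sup hw h4
  intro f hf hfn
  obtain ⟨v, rfl⟩ := exists_pol (n + 1) f hfn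
  exact hN12 (show v ∈ Kn J (n + 1) from hf)

theorem _root_.Pool.Agent.Helper947.Hil.gen_big {A : Type} [CommRing A] (J : Ideal (Pl A)) (hJ : Hom J) (d c : ℕ)
    (hr : ∀ n ≥ mst d c, FR (Kn J n) (d * n + c)) :
    ∀ n ≥ mst d c, ∀ f ∈ J, f ∈ Fm A (n + 1) → f ∈ gen J n := by
  intro n hn f hf hfn
  obtain ⟨I, hI⟩ : ∃ I : Ideal A, ∀ a, a ∈ I ↔ C a * f ∈ gen J n := by
    refine ⟨{
      carrier := {a | C a * f ∈ gen J n}
      add_mem' := fun {a b} ha hb => ?_
      zero_mem' := ?_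
      smul_mem' := fun r a ha => ?_ }, fun a => Iff.rfl⟩
    · show C (a + b) * f ∈ gen J n
      rw [map_add, add_mul]
      exact Ideal.add_mem _ ha hb
    · show C 0 * f ∈ gen J n
      rw [map_zero, zero_mul]
      exact Ideal.zero_mem _
    · show C (r * a) * f ∈ gen J n
      rw [map_mul, mul_assoc]
      exact Ideal.mul_mem_left _ _ ha
  by_contra hcon
  have hne : I ≠ ⊤ := by
    intro h
    have h1 : (1 : A) ∈ I := by rw [h]; exact Submodule.mem_top
    rw [hI, map_one, one_mul] at h1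
    exact hcon h1
  obtain ⟨p, hp, hIp⟩ := Ideal.exists_le_maximal I hne
  have hpp : p.IsPrime := hp.isPrime
  have hJB : Hom (ext (algebraMap A (Localization.AtPrime p)) J) := Hom_ext _ hJ
  have h1 := gen_big_loc (ext (algebraMap A (Localization.AtPrime p)) J) hJB d c (fun m hm => by
    rw [Kn_ext _ hJ]; exact FR_bcK _ (hr m hm)) n hn
    (MvPolynomial.map (algebraMap A (Localization.AtPrime p)) f) (Ideal.mem_map_of_mem _ hf) (by
      rw [mem_homogeneousSubmodule] at hfn ⊢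
      exact hfn.map _)
  have h2 := gen_big_ext (algebraMap A (Localization.AtPrime p)) hJ n h1
  obtain ⟨a, ha, ha'⟩ := mem_ext_local p.primeCompl (gen J n) f h2
  exact ha (hIp ((hI a).2 ha'))

end Pool.Agent.Helper947.Hil.Ld11

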