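import Mathlib
import Pool.Agent.Helper947.Hil.Defs
import Pool.Agent.Helper947.Hil.A3
import Pool.Agent.Helper947.Hil.A5
import Pool.Agent.Helper947.Hil.B1
import Pool.Agent.Helper947.Hil.B2
import Pool.Agent.Helper947.Hil.B3
import Pool.Agent.Helper947.Hil.D1

set_option autoImplicit false

open MvPolynomial CategoryTheory CategoryTheory.Limits AlgebraicGeometry

namespace Pool.Agent.Helper947.Hil.Ld2

open Pool.Agent.Helper947.Crv

open scoped TensorProduct in
theorem FR_down_bcK {A B : Type} [CommRing A] [CommRing B] {s : Type} (φ : A →+* B)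
    (hφ : Function.Surjective φ) (K : Submodule A (s → A)) (w : s → B) :
    w ∈ bcK φ K ↔ ∃ v ∈ K, w = fun i => φ (v i) := by
  constructor
  · intro h
    unfold bcK at h
    induction h using Submodule.span_induction with
    | mem x hx => exact hx
    | zero => exact ⟨0, K.zero_mem, by funext i; simp⟩
    | add x y _ _ hx hy =>
      obtain ⟨v, hv, rfl⟩ := hx
      obtain ⟨v', hv', rfl⟩ := hy
      exact ⟨v + v', K.add_mem hv hv', by funext i; simp⟩
    | smul a x _ hx =>
      obtain ⟨v, hv, rfl⟩ := hx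
      obtain ⟨b, rfl⟩ := hφ a
      exact ⟨b • v, K.smul_mem b hv, by funext i; simp⟩
  · rintro ⟨v, hv, rfl⟩
    exact Submodule.subset_span ⟨v, hv, rfl⟩

/-- the reduction map -/
noncomputable def FR_down_psi0 {A : Type} [CommRing A] [IsLocalRing A] {s : Type}
    (K : Submodule A (s → A)) : (s → A) →ₗ[A]
      ((s → IsLocalRing.ResidueField A) ⧸ bcK (IsLocalRing.residue A) K) where
  toFun w := Submodule.Quotient.mk (fun i => IsLocalRing.residue A (w i))
  map_add' v w := by
    rw [← Submodule.Quotient.mk_add]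
    rfl
  map_smul' a v := by
    rw [RingHom.id_apply, ← Submodule.Quotient.mk_smul]
    rfl

theorem FR_down_psi_le {A : Type} [CommRing A] [IsLocalRing A] {s : Type}
    (K : Submodule A (s → A)) : K ≤ LinearMap.ker (FR_down_psi0 K) := by
  intro v hv
  rw [LinearMap.mem_ker]
  change Submodule.Quotient.mk (fun i => IsLocalRing.residue A (v i)) = 0
  rw [Submodule.Quotient.mk_eq_zero]
  exact Submodule.subset_span ⟨v, hv, rfl⟩

/-- the reduction map on the quotient -/
noncomputable def FR_down_psi {A : Type} [CommRing A] [IsLocalRing A] {s : Type}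
    (K : Submodule A (s → A)) : ((s → A) ⧸ K) →ₗ[A]
      ((s → IsLocalRing.ResidueField A) ⧸ bcK (IsLocalRing.residue A) K) :=
  K.liftQ (FR_down_psi0 K) (FR_down_psi_le K)

open scoped TensorProduct in
theorem FR_down_vanish {A : Type} [CommRing A] [IsLocalRing A] {s : Type} [Fintype s]
    (K : Submodule A (s → A)) (w : s → A)
    (h : (fun i => IsLocalRing.residue A (w i)) ∈ bcK (IsLocalRing.residue A) K) :
    ((1 : IsLocalRing.ResidueField A) ⊗ₜ[A] (Submodule.Quotient.mk w : (s → A) ⧸ K)) = 0 := by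
  classical
  rw [FR_down_bcK _ IsLocalRing.residue_surjective] at h
  obtain ⟨v, hv, hw⟩ := h
  have h1 : (Submodule.Quotient.mk w : (s → A) ⧸ K) =
      ∑ i, (w i - v i) • (Submodule.Quotient.mk (Pi.single i 1) : (s → A) ⧸ K) := by
    have h2 : (Submodule.Quotient.mk w : (s → A) ⧸ K) = Submodule.Quotient.mk (w - v) := by
      rw [Submodule.Quotient.eq]
      simpa using hv
    rw [h2]
    have h3 : w - v = ∑ i, (w i - v i) • (Pi.single i 1 : s → A) := by
      funext j
      simp [Finset.sum_apply, Pi.single_apply]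
    conv_lhs => rw [h3]
    rw [← Submodule.mkQ_apply, map_sum]
    simp only [map_smul, Submodule.mkQ_apply]
  rw [h1, TensorProduct.tmul_sum]
  apply Finset.sum_eq_zero
  intro i _
  rw [TensorProduct.tmul_smul, TensorProduct.smul_tmul']
  have h5 : (w i - v i) • (1 : IsLocalRing.ResidueField A) = 0 := by
    rw [Algebra.smul_def, mul_one]
    change IsLocalRing.residue A (w i - v i) = 0
    rw [map_sub, congrFun hw i, sub_self]
  rw [h5, TensorProduct.zero_tmul]

open scoped TensorProduct in
theorem FR_down_TL {A : Type} [CommRing A] [IsLocalRing A] {s : Type} [Fintype s]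
    (K : Submodule A (s → A)) :
    ∃ e : (IsLocalRing.ResidueField A ⊗[A] ((s → A) ⧸ K)) ≃ₗ[IsLocalRing.ResidueField A]
      ((s → IsLocalRing.ResidueField A) ⧸ bcK (IsLocalRing.residue A) K),
      ∀ w : s → A, e ((1 : IsLocalRing.ResidueField A) ⊗ₜ[A] (Submodule.Quotient.mk w)) =
        Submodule.Quotient.mk (fun i => IsLocalRing.residue A (w i)) := by
  have key : ∀ w : s → A, LinearMap.liftBaseChange (IsLocalRing.ResidueField A) (FR_down_psi K)
      ((1 : IsLocalRing.ResidueField A) ⊗ₜ[A] (Submodule.Quotient.mk w)) =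
        Submodule.Quotient.mk (fun i => IsLocalRing.residue A (w i)) := by
    intro w
    rw [LinearMap.liftBaseChange_one_tmul]
    rfl
  refine ⟨LinearEquiv.ofBijective
    (LinearMap.liftBaseChange (IsLocalRing.ResidueField A) (FR_down_psi K)) ⟨?_, ?_⟩, key⟩
  · rw [injective_iff_map_eq_zero]
    intro t ht
    obtain ⟨m, rfl⟩ := TensorProduct.mk_surjective A ((s → A) ⧸ K) (IsLocalRing.ResidueField A)
      IsLocalRing.residue_surjective t
    obtain ⟨w, rfl⟩ := Submodule.Quotient.mk_surjective K m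
    rw [TensorProduct.mk_apply] at ht ⊢
    rw [key, Submodule.Quotient.mk_eq_zero] at ht
    exact FR_down_vanish K w ht
  · intro y
    obtain ⟨v, rfl⟩ := Submodule.Quotient.mk_surjective _ y
    choose w hw using fun i => IsLocalRing.residue_surjective (v i)
    refine ⟨(1 : IsLocalRing.ResidueField A) ⊗ₜ[A] (Submodule.Quotient.mk w), ?_⟩
    rw [key]
    congr 1
    funext i
    exact hw i

theorem FR_down_hc {A : Type} [CommRing A] (x b : Pl A) (hx : x ∈ Fm A 1) (n : ℕ) :
    homogeneousComponent (n + 1) (x * b) = x * homogeneousComponent n b := by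
  conv_lhs => rw [← sum_homogeneousComponent b]
  rw [Finset.mul_sum, map_sum]
  have h1 : ∀ i ∈ Finset.range (b.totalDegree + 1),
      homogeneousComponent (n + 1) (x * homogeneousComponent i b) =
      if n = i then x * homogeneousComponent i b else 0 := by
    intro i _
    have h2 : x * homogeneousComponent i b ∈ homogeneousSubmodule (Fin 4) A (1 + i) :=
      IsHomogeneous.mul hx (homogeneousComponent_isHomogeneous i b)
    rw [homogeneousComponent_of_mem h2]
    by_cases h : n = i
    · rw [if_pos h, if_pos (by omega)]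
    · rw [if_neg h, if_neg (by omega)]
  rw [Finset.sum_congr rfl h1, Finset.sum_ite_eq]
  split_ifs with h
  · rfl
  · rw [Finset.mem_range, not_lt] at h
    rw [homogeneousComponent_eq_zero n b (by omega), mul_zero]

/-- multiplication by `x` on the coefficient vectors -/
noncomputable def FR_down_X {A : Type} [CommRing A] (x : Pl A) (n : ℕ) :
    (Mon n → A) →ₗ[A] (Mon (n + 1) → A) where
  toFun v := fun w => coeff w.1 (x * pol n v)
  map_add' v w := by
    funext u
    rw [map_add, mul_add, coeff_add]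
    rfl
  map_smul' a v := by
    funext u
    rw [map_smul, mul_smul_comm, coeff_smul]
    rfl

theorem FR_down_polX {A : Type} [CommRing A] (x : Pl A) (hx : x ∈ Fm A 1) (n : ℕ)
    (v : Mon n → A) : pol (n + 1) (FR_down_X x n v) = x * pol n v := by
  have h1 : x * pol n v ∈ Fm A (n + 1) := by
    have h2 : x * pol n v ∈ homogeneousSubmodule (Fin 4) A (1 + n) :=
      IsHomogeneous.mul hx (pol_mem n v)
    rw [Nat.add_comm] at h2
    exact h2
  obtain ⟨v', hv'⟩ := exists_pol (n + 1) _ h1
  have h3 : v' = FR_down_X x n v := by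
    funext w
    rw [← coeff_pol (n + 1) v' w, hv']
    rfl
  rw [← h3, hv']

theorem FR_down_mem_Kn {A : Type} [CommRing A] (I : Ideal (Pl A)) (n : ℕ) (v : Mon n → A) :
    v ∈ Kn I n ↔ pol n v ∈ I := Iff.rfl

/-- the map induced by multiplication by `x` -/
noncomputable def FR_down_u {A : Type} [CommRing A] (I : Ideal (Pl A)) (x : Pl A)
    (hx : x ∈ Fm A 1) (n : ℕ) : ((Mon n → A) ⧸ Kn I n) →ₗ[A] ((Mon (n + 1) → A) ⧸ Kn I (n + 1)) :=
  (Kn I n).mapQ (Kn I (n + 1)) (FR_down_X x n) (by
    intro v hv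
    rw [Submodule.mem_comap, FR_down_mem_Kn, FR_down_polX x hx]
    exact I.mul_mem_left _ hv)

theorem FR_down_u_mk {A : Type} [CommRing A] (I : Ideal (Pl A)) (x : Pl A)
    (hx : x ∈ Fm A 1) (n : ℕ) (v : Mon n → A) :
    FR_down_u I x hx n (Submodule.Quotient.mk v) = Submodule.Quotient.mk (FR_down_X x n v) := rfl

theorem FR_down_Kn_sup {A : Type} [CommRing A] {I : Ideal (Pl A)} (hI : Hom I) (x : Pl A)
    (hx : x ∈ Fm A 1) (n : ℕ) (w : Mon (n + 1) → A) :
    w ∈ Kn (I ⊔ Ideal.span {x}) (n + 1) ↔ ∃ v : Mon n → A, w - FR_down_X x n v ∈ Kn I (n + 1) := by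
  rw [FR_down_mem_Kn]
  constructor
  · intro h
    rw [Submodule.mem_sup] at h
    obtain ⟨a, ha, c, hc, hac⟩ := h
    rw [Ideal.mem_span_singleton'] at hc
    obtain ⟨b, rfl⟩ := hc
    have h1 := congrArg (homogeneousComponent (n + 1)) hac
    have h2 : homogeneousComponent (n + 1) (pol (n + 1) w) = pol (n + 1) w := by
      rw [homogeneousComponent_of_mem (pol_mem (n + 1) w), if_pos rfl]
    rw [map_add, h2, mul_comm b x, FR_down_hc x b hx n] at h1
    obtain ⟨v, hv⟩ := exists_pol n (homogeneousComponent n b) (homogeneousComponent_mem n b)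
    refine ⟨v, ?_⟩
    rw [FR_down_mem_Kn, map_sub, FR_down_polX x hx, hv, ← h1, add_sub_cancel_right]
    exact hI a ha (n + 1)
  · rintro ⟨v, hv⟩
    rw [FR_down_mem_Kn, map_sub, FR_down_polX x hx] at hv
    have h1 : pol (n + 1) w = (pol (n + 1) w - x * pol n v) + x * pol n v := by ring
    rw [h1]
    exact Ideal.add_mem _ (Ideal.mem_sup_left hv)
      (Ideal.mem_sup_right (Ideal.mul_mem_right _ _ (Ideal.mem_span_singleton_self x)))

theorem _root_.Pool.Agent.Helper947.Hil.FR_down {A : Type} [CommRing A] [IsLocalRing A] (I : Ideal (Pl A)) (hI : Hom I) (x : Pl A)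
    (hx : x ∈ Fm A 1) (n r r' : ℕ) (h1 : FR (Kn I (n + 1)) r')
    (hnz : ∀ f ∈ Fm (IsLocalRing.ResidueField A) n,
      MvPolynomial.map (IsLocalRing.residue A) x * f ∈ Ir I → f ∈ Ir I)
    (hr : hf (Ir I) n = r) :
    FR (Kn I n) r ∧ (∀ f ∈ Fm A n, x * f ∈ I → f ∈ I) ∧ r ≤ r' ∧
      FR (Kn (I ⊔ Ideal.span {x}) (n + 1)) (r' - r) := by
  obtain ⟨hFfree, hFr⟩ := (FR_iff_free_local (Kn I (n + 1)) r').1 h1
  have hu : Function.Injective
      ((FR_down_u I x hx n).lTensor (IsLocalRing.ResidueField A)) := by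
    rw [injective_iff_map_eq_zero]
    intro t ht
    obtain ⟨m, rfl⟩ := TensorProduct.mk_surjective A ((Mon n → A) ⧸ Kn I n)
      (IsLocalRing.ResidueField A) IsLocalRing.residue_surjective t
    obtain ⟨v, rfl⟩ := Submodule.Quotient.mk_surjective _ m
    rw [TensorProduct.mk_apply] at ht ⊢
    rw [LinearMap.lTensor_tmul, FR_down_u_mk] at ht
    obtain ⟨e, he⟩ := FR_down_TL (Kn I (n + 1))
    have h2 := congrArg e ht
    rw [he, map_zero, Submodule.Quotient.mk_eq_zero, ← Kn_ext _ hI, FR_down_mem_Kn,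
      ← map_pol, FR_down_polX x hx, map_mul] at h2
    have h3 := hnz _ (by rw [map_pol]; exact pol_mem _ _) h2
    apply FR_down_vanish
    rw [← Kn_ext _ hI, FR_down_mem_Kn, ← map_pol]
    exact h3
  obtain ⟨hMfree, hinj, hQfree⟩ := free_of_inj (FR_down_u I x hx n) hu
  have hMr : Module.finrank A ((Mon n → A) ⧸ Kn I n) = r := by
    obtain ⟨e, he⟩ := FR_down_TL (Kn I n)
    rw [← Module.finrank_baseChange (R := IsLocalRing.ResidueField A), e.finrank_eq,
      ← Kn_ext _ hI]
    exact (FR_iff_field _ _).1 ((FR_iff_hf _ _ _).2 hr)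
  have hsplit : Module.finrank A ((Mon (n + 1) → A) ⧸ Kn I (n + 1)) =
      Module.finrank A ((Mon n → A) ⧸ Kn I n) + Module.finrank A
        (((Mon (n + 1) → A) ⧸ Kn I (n + 1)) ⧸ LinearMap.range (FR_down_u I x hx n)) := by
    obtain ⟨σ, hσ⟩ := Module.projective_lifting_property
      (LinearMap.range (FR_down_u I x hx n)).mkQ LinearMap.id
      (Submodule.mkQ_surjective _)
    have hσ' : ∀ y, (LinearMap.range (FR_down_u I x hx n)).mkQ (σ y) = y := fun y => by
      have := LinearMap.congr_fun hσ y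
      simpa using this
    have hqu : ∀ m, (LinearMap.range (FR_down_u I x hx n)).mkQ (FR_down_u I x hx n m) = 0 :=
      fun m => by
        rw [Submodule.mkQ_apply, Submodule.Quotient.mk_eq_zero]
        exact LinearMap.mem_range_self _ m
    have hbij : Function.Bijective ((FR_down_u I x hx n).coprod σ) := by
      constructor
      · rw [injective_iff_map_eq_zero]
        rintro ⟨m, y⟩ h
        rw [LinearMap.coprod_apply] at h
        have h2 := congrArg (LinearMap.range (FR_down_u I x hx n)).mkQ h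
        rw [map_add, hσ', hqu, zero_add, map_zero] at h2
        simp only at h2 h
        subst h2
        rw [map_zero, add_zero] at h
        have h3 : m = 0 := hinj (by rw [h, map_zero])
        rw [h3]
        rfl
      · intro f
        have h2 : f - σ ((LinearMap.range (FR_down_u I x hx n)).mkQ f) ∈
            LinearMap.range (FR_down_u I x hx n) := by
          rw [← Submodule.Quotient.mk_eq_zero, ← Submodule.mkQ_apply, map_sub, hσ', sub_self]
        obtain ⟨m, hm⟩ := h2
        refine ⟨(m, (LinearMap.range (FR_down_u I x hx n)).mkQ f), ?_⟩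
        rw [LinearMap.coprod_apply, hm, sub_add_cancel]
    rw [← (LinearEquiv.ofBijective _ hbij).finrank_eq, Module.finrank_prod]
  refine ⟨(FR_iff_free_local _ _).2 ⟨hMfree, hMr⟩, ?_, ?_, ?_⟩
  · intro f hf hxf
    obtain ⟨v, rfl⟩ := exists_pol n f hf
    have h2 : FR_down_u I x hx n (Submodule.Quotient.mk v) = 0 := by
      rw [FR_down_u_mk, Submodule.Quotient.mk_eq_zero, FR_down_mem_Kn, FR_down_polX x hx]
      exact hxf
    have h3 : (Submodule.Quotient.mk v : (Mon n → A) ⧸ Kn I n) = 0 := hinj (by rw [h2, map_zero])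
    rw [Submodule.Quotient.mk_eq_zero] at h3
    exact h3
  · omega
  · -- the quotient
    obtain ⟨π, hπ⟩ : ∃ π : (Mon (n + 1) → A) →ₗ[A]
        (((Mon (n + 1) → A) ⧸ Kn I (n + 1)) ⧸ LinearMap.range (FR_down_u I x hx n)),
        π = (LinearMap.range (FR_down_u I x hx n)).mkQ ∘ₗ (Kn I (n + 1)).mkQ := ⟨_, rfl⟩
    have hπs : Function.Surjective π := by
      rw [hπ]
      exact (Submodule.mkQ_surjective _).comp (Submodule.mkQ_surjective _)
    have hker : LinearMap.ker π = Kn (I ⊔ Ideal.span {x}) (n + 1) := by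
      ext w
      rw [FR_down_Kn_sup hI x hx, LinearMap.mem_ker, hπ, LinearMap.comp_apply,
        Submodule.mkQ_apply, Submodule.mkQ_apply, Submodule.Quotient.mk_eq_zero]
      constructor
      · rintro ⟨m, hm⟩
        obtain ⟨v, rfl⟩ := Submodule.Quotient.mk_surjective _ m
        rw [FR_down_u_mk] at hm
        exact ⟨v, (Submodule.Quotient.eq _).1 hm.symm⟩
      · rintro ⟨v, hv⟩
        refine ⟨Submodule.Quotient.mk v, ?_⟩
        rw [FR_down_u_mk]
        exact ((Submodule.Quotient.eq _).2 hv).symm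
    have e : ((Mon (n + 1) → A) ⧸ Kn (I ⊔ Ideal.span {x}) (n + 1)) ≃ₗ[A]
        (((Mon (n + 1) → A) ⧸ Kn I (n + 1)) ⧸ LinearMap.range (FR_down_u I x hx n)) :=
      (Submodule.quotEquivOfEq _ _ hker.symm).trans (LinearMap.quotKerEquivOfSurjective π hπs)
    refine (FR_iff_free_local _ _).2 ⟨Module.Free.of_equiv e.symm, ?_⟩
    rw [e.finrank_eq]
    omega

end Pool.Agent.Helper947.Hil.Ld2

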