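import Mathlib
import Pool.Agent.Helper947.Hil.Defs
import Pool.Agent.Helper947.Hil.A3
import Pool.Agent.Helper947.Hil.A4
import Pool.Agent.Helper947.Hil.B1
import Pool.Agent.Helper947.Hil.B3

set_option autoImplicit false

open MvPolynomial CategoryTheory CategoryTheory.Limits AlgebraicGeometry

namespace Pool.Agent.Helper947.Hil.Ld3

open Pool.Agent.Helper947.Crv

theorem hd3_map_zero {A : Type} [CommRing A] [IsLocalRing A] (n : ℕ) (v : Mon n → A)
    (h : MvPolynomial.map (IsLocalRing.residue A) (pol n v) = 0) (u : Mon n) :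
    v u ∈ IsLocalRing.maximalIdeal A := by
  have h1 := congrArg (coeff u.1) h
  rw [coeff_map, coeff_pol, coeff_zero] at h1
  exact (IsLocalRing.residue_eq_zero_iff _).1 h1

theorem hd3_split {A : Type} [CommRing A] [IsLocalRing A] {s : Type} [Fintype s]
    (K : Submodule A (s → A)) [Module.Free A ((s → A) ⧸ K)] (v : s → A) (hv : v ∈ K)
    (hm : ∀ i, v i ∈ IsLocalRing.maximalIdeal A) : v ∈ IsLocalRing.maximalIdeal A • K := by
  classical
  obtain ⟨σ, hσ⟩ := Module.projective_lifting_property K.mkQ (LinearMap.id)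
    K.mkQ_surjective
  have hπ : ∀ w : s → A, w - σ (K.mkQ w) ∈ K := by
    intro w
    rw [← Submodule.Quotient.mk_eq_zero, ← Submodule.mkQ_apply, map_sub]
    have := LinearMap.congr_fun hσ (K.mkQ w)
    rw [LinearMap.comp_apply, LinearMap.id_apply] at this
    rw [this, sub_self]
  have hv0 : K.mkQ v = 0 := by
    rw [Submodule.mkQ_apply, Submodule.Quotient.mk_eq_zero]; exact hv
  have hsum : v = ∑ i, v i • ((Pi.single i 1 : s → A) - σ (K.mkQ (Pi.single i 1))) := by
    have h1 : v = ∑ i, v i • (Pi.single i 1 : s → A) := by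
      exact pi_eq_sum_univ' v |>.trans (by
        refine Finset.sum_congr rfl fun i _ => ?_
        congr 1)
    have h2 : v = v - σ (K.mkQ v) := by rw [hv0, map_zero, sub_zero]
    conv_lhs => rw [h2]
    conv_lhs => rw [h1]
    rw [map_sum, map_sum, ← Finset.sum_sub_distrib]
    refine Finset.sum_congr rfl fun i _ => ?_
    rw [map_smul, map_smul, smul_sub]
  rw [hsum]
  exact Submodule.sum_mem _ fun i _ => Submodule.smul_mem_smul (hm i) (hπ _)

theorem hd3_comp {k : Type} [Field k] (y X : Pl k) (hX : X ∈ Fm k 1) (n : ℕ) :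
    homogeneousComponent (n + 1) (y * X) = homogeneousComponent n y * X := by
  conv_lhs => rw [← sum_homogeneousComponent y]
  rw [Finset.sum_mul, map_sum]
  have h1 : ∀ i, homogeneousComponent (n + 1) (homogeneousComponent i y * X)
      = if n = i then homogeneousComponent n y * X else 0 := by
    intro i
    have h2 : homogeneousComponent i y * X ∈ Fm k (i + 1) :=
      (homogeneousComponent_isHomogeneous i y).mul hX
    rw [homogeneousComponent_of_mem h2]
    by_cases h : n = i
    · subst h; simp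
    · rw [if_neg (by omega), if_neg h]
  simp_rw [h1]
  rw [Finset.sum_ite_eq]
  split_ifs with h
  · rfl
  · rw [Finset.mem_range, not_lt] at h
    rw [homogeneousComponent_eq_zero _ _ (by omega), zero_mul]

theorem hd3_lift {A : Type} [CommRing A] [IsLocalRing A] (n : ℕ)
    (f : Pl (IsLocalRing.ResidueField A)) (hf : f ∈ Fm (IsLocalRing.ResidueField A) n) :
    ∃ g ∈ Fm A n, MvPolynomial.map (IsLocalRing.residue A) g = f := by
  obtain ⟨v, hv⟩ := exists_pol n f hf
  choose w hw using fun u => IsLocalRing.residue_surjective (v u)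
  refine ⟨pol n w, pol_mem n w, ?_⟩
  rw [map_pol, ← hv]
  congr 1
  funext u
  exact hw u

theorem _root_.Pool.Agent.Helper947.Hil.surj_down {A : Type} [CommRing A] [IsLocalRing A] (I I2 : Ideal (Pl A)) (hI : Hom I)
    (h2 : Hom I2) (hle : I ≤ I2) (x : Pl A) (hx : x ∈ Fm A 1) (hx2 : x ∈ I2)
    (hnz : ∀ f, x * f ∈ I → f ∈ I) (Ib : Ideal (Pl (IsLocalRing.ResidueField A)))
    (hIb : Hom Ib) (n r : ℕ) (hF2 : FR (Kn I2 (n + 1)) r)
    (hgen : ∀ f ∈ Fm (IsLocalRing.ResidueField A) (n + 1), f ∈ Ir I2 →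
      f ∈ Ib ⊔ Ideal.span {MvPolynomial.map (IsLocalRing.residue A) x})
    (hsurj : ∀ f ∈ Fm (IsLocalRing.ResidueField A) (n + 1), f ∈ Ib → f ∈ Ir I) :
    ∀ f ∈ Fm (IsLocalRing.ResidueField A) n, f ∈ Ib → f ∈ Ir I := by
  have : Module.Free A ((Mon (n + 1) → A) ⧸ Kn I2 (n + 1)) := ((FR_iff_free_local _ r).1 hF2).1
  have hfg : (Kn I2 (n + 1)).FG := FR_fg hF2
  set MP := MvPolynomial.map (σ := Fin 4) (IsLocalRing.residue A) with hMP
  have hMPF : ∀ (m : ℕ) (f : Pl A), f ∈ Fm A m → MP f ∈ Fm (IsLocalRing.ResidueField A) m :=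
    fun m f hf => IsHomogeneous.map hf _
  -- key: elements of I2 of degree n+1 with zero residue
  have key : ∀ v : Mon (n + 1) → A, v ∈ Kn I2 (n + 1) → MP (pol (n + 1) v) = 0 →
      v ∈ IsLocalRing.maximalIdeal A • Kn I2 (n + 1) := fun v hv h0 =>
    hd3_split _ v hv (hd3_map_zero _ v h0)
  let N : Submodule A (Mon (n + 1) → A) :=
    ((I.restrictScalars A) ⊔ (Fm A n).map (LinearMap.mulLeft A x)).comap (pol (n + 1))
  have hxm : ∀ (m : ℕ) (f : Pl A), f ∈ Fm A m → x * f ∈ Fm A (m + 1) := by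
    intro m f hf
    have := IsHomogeneous.mul (show IsHomogeneous x 1 from hx) hf
    rw [add_comm] at this
    exact this
  have hK2N : Kn I2 (n + 1) ≤ N := by
    refine Submodule.le_of_le_smul_of_le_jacobson_bot hfg
      (IsLocalRing.maximalIdeal_le_jacobson _) ?_
    intro v hv
    have hvI2 : pol (n + 1) v ∈ I2 := hv
    have hmem : MP (pol (n + 1) v) ∈ Ib ⊔ Ideal.span {MP x} :=
      hgen _ (hMPF _ _ (pol_mem _ _)) (Ideal.mem_map_of_mem _ hvI2)
    obtain ⟨g, hg, z, hz, hgz⟩ := Submodule.mem_sup.1 hmem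
    obtain ⟨y, rfl⟩ := Ideal.mem_span_singleton'.1 hz
    have hcomp := congrArg (homogeneousComponent (n + 1)) hgz
    rw [map_add, hd3_comp y (MP x) (hMPF _ _ hx) n,
      homogeneousComponent_of_mem (hMPF _ _ (pol_mem (n + 1) v)), if_pos rfl] at hcomp
    have hgI : homogeneousComponent (n + 1) g ∈ Ir I :=
      hsurj _ (homogeneousComponent_isHomogeneous _ _) (hIb g hg _)
    obtain ⟨G, hG, hGF, hGm⟩ := lift_hom (IsLocalRing.residue A) IsLocalRing.residue_surjective
      hI (n + 1) _ (homogeneousComponent_isHomogeneous _ _) hgI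
    obtain ⟨H, hHF, hHm⟩ := hd3_lift (A := A) n (homogeneousComponent n y)
      (homogeneousComponent_isHomogeneous _ _)
    obtain ⟨vG, hvG⟩ := exists_pol (n + 1) G hGF
    obtain ⟨vH, hvH⟩ := exists_pol (n + 1) (x * H) (hxm n H hHF)
    have hv' : v - (vG + vH) ∈ IsLocalRing.maximalIdeal A • Kn I2 (n + 1) := by
      apply key
      · change pol (n + 1) (v - (vG + vH)) ∈ I2
        rw [map_sub, map_add, hvG, hvH]
        exact I2.sub_mem hvI2 (I2.add_mem (hle hG) (I2.mul_mem_right _ hx2))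
      · rw [map_sub, map_add, hvG, hvH, map_sub, map_add, map_mul]
        change MP (pol (n + 1) v) - (MP G + MP x * MP H) = 0
        rw [← hcomp, show MP G = homogeneousComponent (n + 1) g from hGm,
          show MP H = homogeneousComponent n y from hHm]
        ring
    have hvN : vG + vH ∈ N := by
      change pol (n + 1) (vG + vH) ∈
        (I.restrictScalars A) ⊔ (Fm A n).map (LinearMap.mulLeft A x)
      rw [map_add, hvG, hvH]
      exact Submodule.add_mem_sup hG ⟨H, hHF, rfl⟩
    have : v = (vG + vH) + (v - (vG + vH)) := by abel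
    rw [this]
    exact Submodule.add_mem_sup hvN hv'
  have hmN : ∀ v ∈ IsLocalRing.maximalIdeal A • N, ∃ T ∈ I, ∃ U : Pl A, MP U = 0 ∧
      pol (n + 1) v = T + x * U := by
    intro v hv
    refine Submodule.smul_induction_on (p := fun v => ∃ T ∈ I, ∃ U : Pl A, MP U = 0 ∧
      pol (n + 1) v = T + x * U) hv ?_ ?_
    · intro a ha w hw
      obtain ⟨t, ht, z, ⟨u, hu, rfl⟩, htz⟩ := Submodule.mem_sup.1 (show pol (n + 1) w ∈
        (I.restrictScalars A) ⊔ (Fm A n).map (LinearMap.mulLeft A x) from hw)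
      have hat : a • t ∈ I := (I.restrictScalars A).smul_mem a ht
      refine ⟨a • t, hat, a • u, ?_, ?_⟩
      · rw [MvPolynomial.smul_eq_C_mul, map_mul, hMP, MvPolynomial.map_C,
          (IsLocalRing.residue_eq_zero_iff _).2 ha, C_0, zero_mul]
      · rw [map_smul, ← htz, smul_add, LinearMap.mulLeft_apply, mul_smul_comm]
    · rintro w1 w2 ⟨T1, hT1, U1, hU1, e1⟩ ⟨T2, hT2, U2, hU2, e2⟩
      refine ⟨T1 + T2, I.add_mem hT1 hT2, U1 + U2, by rw [map_add, hU1, hU2, add_zero], ?_⟩
      rw [map_add, e1, e2]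
      ring
  intro f hf hfI
  have h1 : MP x * f ∈ Ir I := by
    apply hsurj
    · have := IsHomogeneous.mul (show IsHomogeneous (MP x) 1 from hMPF _ _ hx) hf
      rw [add_comm] at this
      exact this
    · exact Ib.mul_mem_left _ hfI
  obtain ⟨F, hF, hFF, hFm⟩ := lift_hom (IsLocalRing.residue A) IsLocalRing.residue_surjective
      hI (n + 1) _ (by
        have := IsHomogeneous.mul (show IsHomogeneous (MP x) 1 from hMPF _ _ hx) hf
        rw [add_comm] at this
        exact this) h1
  obtain ⟨g, hgF, hgm⟩ := hd3_lift (A := A) n f hf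
  obtain ⟨vF, hvF⟩ := exists_pol (n + 1) F hFF
  obtain ⟨vg, hvg⟩ := exists_pol (n + 1) (x * g) (hxm n g hgF)
  have hv : vF - vg ∈ IsLocalRing.maximalIdeal A • Kn I2 (n + 1) := by
    apply key
    · change pol (n + 1) (vF - vg) ∈ I2
      rw [map_sub, hvF, hvg]
      exact I2.sub_mem (hle hF) (I2.mul_mem_right _ hx2)
    · rw [map_sub, hvF, hvg, map_sub, map_mul]
      rw [show MP F = MP x * f from hFm, show MP g = f from hgm]
      ring
  obtain ⟨T, hT, U, hU, e⟩ := hmN _ (Submodule.smul_mono le_rfl hK2N hv)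
  rw [map_sub, hvF, hvg] at e
  have hgU : g + U ∈ I := by
    apply hnz
    have : x * (g + U) = F - T := by
      linear_combination -e
    rw [this]
    exact I.sub_mem hF hT
  have hres : MP (g + U) = f := by
    rw [map_add, hU, add_zero]
    exact hgm
  rw [← hres]
  exact Ideal.mem_map_of_mem _ hgU

end Pool.Agent.Helper947.Hil.Ld3

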