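import Mathlib
import Pool.Agent.Helper947.Hil.Defs
import Pool.Agent.Helper947.Hil.A1
import Pool.Agent.Helper947.Hil.B1
import Pool.Agent.Helper947.Hil.B2
import Pool.Agent.Helper947.Hil.B3
import Pool.Agent.Helper947.Hil.B4
import Pool.Agent.Helper947.Hil.B5
import Pool.Agent.Helper947.Hil.B7
import Pool.Agent.Helper947.Hil.C1
import Pool.Agent.Helper947.Hil.D2
import Pool.Agent.Helper947.Hil.D4

set_option autoImplicit false

open MvPolynomial CategoryTheory CategoryTheory.Limits AlgebraicGeometry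

namespace Pool.Agent.Helper947.Hil.Ld5

open Pool.Agent.Helper947.Crv

theorem hc_mul' {A : Type} [CommRing A] {x : Pl A} (hx : x ∈ Fm A 1) (f : Pl A) (m : ℕ) :
    homogeneousComponent (m + 1) (x * f) = x * homogeneousComponent m f := by
  conv_lhs => rw [← sum_homogeneousComponent f, Finset.mul_sum, map_sum]
  have h1 : ∀ i, homogeneousComponent (m + 1) (x * homogeneousComponent i f) =
      if i = m then x * homogeneousComponent i f else 0 := by
    intro i
    have h2 : x * homogeneousComponent i f ∈ homogeneousSubmodule (Fin 4) A (1 + i) := by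
      rw [mem_homogeneousSubmodule] at hx ⊢
      exact hx.mul (homogeneousComponent_isHomogeneous i f)
    rw [homogeneousComponent_of_mem h2]
    by_cases hi : i = m
    · subst hi
      rw [if_pos (by omega), if_pos rfl]
    · rw [if_neg (by omega), if_neg hi]
  simp only [h1]
  rw [Finset.sum_ite_eq']
  split_ifs with hm
  · rfl
  · rw [homogeneousComponent_eq_zero m f (by
      rw [Finset.mem_range] at hm; omega), mul_zero]

theorem _root_.Pool.Agent.Helper947.Hil.cut {A : Type} [CommRing A] [IsLocalRing A] [Infinite (IsLocalRing.ResidueField A)]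
    (I : Ideal (Pl A)) (hI : Hom I) (hs : IsSat I) (r q : ℕ → ℕ)
    (hr : ∃ m0, ∀ n ≥ m0, FR (Kn I n) (r n)) (hq : ∃ m0, ∀ n ≥ m0, r (n + 1) = r n + q (n + 1)) :
    ∃ x ∈ Fm A 1, (∀ f, x * f ∈ I → f ∈ I) ∧
      (∀ f, MvPolynomial.map (IsLocalRing.residue A) x * f ∈ satI (Ir I) → f ∈ satI (Ir I)) ∧
      (∃ m0, ∀ n ≥ m0, FR (Kn (satI (I ⊔ Ideal.span {x})) n) (q n)) ∧
      satI (Ir (satI (I ⊔ Ideal.span {x}))) =
        satI (satI (Ir I) ⊔ Ideal.span {MvPolynomial.map (IsLocalRing.residue A) x}) := by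
  obtain ⟨m0, hr⟩ := hr
  obtain ⟨m1, hq⟩ := hq
  have hIr : Hom (Ir I) := Hom_ext _ hI
  obtain ⟨xb, hxb, hnz⟩ := exists_nzd (satI (Ir I)) (Hom_satI hIr) (IsSat_satI _)
  obtain ⟨v, hv⟩ := exists_pol 1 xb hxb
  obtain ⟨w, hw⟩ : ∃ w : Mon 1 → A, ∀ u, IsLocalRing.residue A (w u) = v u :=
    ⟨fun u => (IsLocalRing.residue_surjective (v u)).choose,
      fun u => (IsLocalRing.residue_surjective (v u)).choose_spec⟩
  obtain ⟨x, hx, hxx⟩ : ∃ x ∈ Fm A 1, MvPolynomial.map (IsLocalRing.residue A) x = xb := by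
    refine ⟨pol 1 w, pol_mem 1 w, ?_⟩
    rw [map_pol, ← hv]
    congr 1
    funext u
    exact hw u
  obtain ⟨N1, hN1⟩ := exists_satI_eq (Ir I) hIr
  have hhf : ∀ n ≥ m0, hf (Ir I) n = r n := by
    intro n hn
    rw [← FR_iff_hf]
    have h := FR_bcK (IsLocalRing.residue A) (hr n hn)
    rw [← Kn_ext _ hI] at h
    exact h
  have hdown : ∀ n ≥ max N1 (max m0 m1), (∀ f ∈ Fm A n, x * f ∈ I → f ∈ I) ∧
      FR (Kn (I ⊔ Ideal.span {x}) (n + 1)) (q (n + 1)) := by
    intro n hn
    have hn1 : N1 ≤ n := le_trans (le_max_left _ _) hn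
    have hn2 : m0 ≤ n := le_trans (le_trans (le_max_left _ _) (le_max_right _ _)) hn
    have hn3 : m1 ≤ n := le_trans (le_trans (le_max_right _ _) (le_max_right _ _)) hn
    obtain ⟨_, h2, _, h4⟩ := FR_down I hI x hx n (r n) (r (n + 1)) (hr (n + 1) (by omega)) (by
      intro f hf hxf
      rw [hxx] at hxf
      have h1 : f ∈ satI (Ir I) := hnz f (le_satI _ hxf)
      exact (Kn_le_iff _ _ n).mp (hN1 n hn1).le f hf h1) (hhf n hn2)
    refine ⟨h2, ?_⟩
    have e : r (n + 1) - r n = q (n + 1) := by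
      have := hq n hn3
      omega
    rw [e] at h4
    exact h4
  have hHom1 : Hom (I ⊔ Ideal.span {x}) := Hom_sup_span hI x 1 hx
  have hIr1 : Hom (Ir (I ⊔ Ideal.span {x})) := Hom_ext _ hHom1
  obtain ⟨N3, hN3⟩ := exists_satI_eq (Ir (I ⊔ Ideal.span {x})) hIr1
  have hFR1 : ∀ n ≥ max (max N1 (max m0 m1) + 1) N3, FR (Kn (I ⊔ Ideal.span {x}) n) (q n) := by
    intro n hn
    have hn1 : max N1 (max m0 m1) + 1 ≤ n := le_trans (le_max_left _ _) hn
    obtain ⟨n', rfl⟩ : ∃ n', n = n' + 1 := ⟨n - 1, by omega⟩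
    exact (hdown n' (by omega)).2
  have hloc := sat_local (I ⊔ Ideal.span {x}) hHom1 (max (max N1 (max m0 m1) + 1) N3) q hFR1 (by
    intro n hn f hf hfs
    have hn1 : N3 ≤ n := le_trans (le_max_right _ _) hn
    exact (Kn_le_iff _ _ n).mp (hN3 n hn1).le f hf hfs)
  have hKn : ∀ n ≥ max (max N1 (max m0 m1) + 1) N3,
      Kn (satI (I ⊔ Ideal.span {x})) n = Kn (I ⊔ Ideal.span {x}) n := by
    intro n hn
    apply le_antisymm
    · rw [Kn_le_iff]
      exact hloc n hn
    · exact Kn_mono (le_satI _) n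
  refine ⟨x, hx, ?_, ?_, ?_, ?_⟩
  · intro f hf
    apply hs
    refine ⟨max N1 (max m0 m1), ?_⟩
    intro p hp
    rw [← sum_homogeneousComponent f, Finset.mul_sum]
    apply I.sum_mem
    intro i _
    have h1 : x * homogeneousComponent i f ∈ I := by
      rw [← hc_mul' hx]
      exact hI _ hf _
    have h2 : p * homogeneousComponent i f ∈ Fm A (max N1 (max m0 m1) + i) := by
      rw [mem_homogeneousSubmodule] at hp ⊢
      exact hp.mul (homogeneousComponent_isHomogeneous i f)
    apply (hdown (max N1 (max m0 m1) + i) (Nat.le_add_right _ _)).1 _ h2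
    rw [mul_left_comm]
    exact I.mul_mem_left _ h1
  · rw [hxx]
    exact hnz
  · refine ⟨max (max N1 (max m0 m1) + 1) N3, ?_⟩
    intro n hn
    rw [hKn n hn]
    exact hFR1 n hn
  · have h1 : satI (Ir (satI (I ⊔ Ideal.span {x}))) = satI (Ir (I ⊔ Ideal.span {x})) := by
      apply satI_eq_of_large (Hom_ext _ (Hom_satI hHom1)) hIr1 (max (max N1 (max m0 m1) + 1) N3)
      intro n hn
      rw [Kn_ext _ (Hom_satI hHom1), Kn_ext _ hHom1, hKn n hn]
    rw [h1]
    have h2 : Ir (I ⊔ Ideal.span {x}) = Ir I ⊔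
        Ideal.span {MvPolynomial.map (IsLocalRing.residue A) x} := by
      unfold Ir ext
      rw [Ideal.map_sup, Ideal.map_span, Set.image_singleton]
    rw [h2]
    apply le_antisymm
    · exact satI_mono (sup_le_sup_right (le_satI _) _)
    · conv_rhs => rw [← (IsSat_satI (Ir I ⊔ Ideal.span {MvPolynomial.map (IsLocalRing.residue A) x})).satI_eq]
      apply satI_mono
      apply sup_le
      · exact satI_mono le_sup_left
      · exact le_sup_right.trans (le_satI _)

end Pool.Agent.Helper947.Hil.Ld5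

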