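import Mathlib
import Pool.Agent.Helper947.Hil.Defs
import Pool.Agent.Helper947.Hil.B2
import Pool.Agent.Helper947.Hil.B3
import Pool.Agent.Helper947.Hil.B4
import Pool.Agent.Helper947.Hil.B7
import Pool.Agent.Helper947.Hil.D2
import Pool.Agent.Helper947.Hil.D3

set_option autoImplicit false

open MvPolynomial CategoryTheory CategoryTheory.Limits AlgebraicGeometry

namespace Pool.Agent.Helper947.Hil.Ld6

open Pool.Agent.Helper947.Crv

/-- one level of the descending induction -/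
theorem _root_.Pool.Agent.Helper947.Hil.level {A : Type} [CommRing A] [IsLocalRing A] (I I2 : Ideal (Pl A)) (hI : Hom I)
    (h2 : Hom I2) (hle : I ≤ I2) (x : Pl A) (hx : x ∈ Fm A 1) (hx2 : x ∈ I2)
    (hnz : ∀ f, x * f ∈ I → f ∈ I)
    (hnzb : ∀ f, MvPolynomial.map (IsLocalRing.residue A) x * f ∈ satI (Ir I) → f ∈ satI (Ir I))
    (r r2 : ℕ → ℕ) (N : ℕ) (hr : ∃ m0, ∀ n ≥ m0, FR (Kn I n) (r n))
    (hF2 : ∀ n ≥ N, FR (Kn I2 n) (r2 n))
    (hgen : ∀ n ≥ N, ∀ f ∈ Fm (IsLocalRing.ResidueField A) n, f ∈ Ir I2 →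
      f ∈ satI (Ir I) ⊔ Ideal.span {MvPolynomial.map (IsLocalRing.residue A) x})
    (hhf : ∀ n ≥ N, hf (satI (Ir I)) n = r n) :
    ∀ n ≥ N, FR (Kn I n) (r n) := by
  have hIr : Hom (Ir I) := Hom_ext _ hI
  obtain ⟨N1, hN1⟩ := exists_satI_eq (Ir I) hIr
  have surj : ∀ d : ℕ, ∀ n ≥ N, N1 ≤ n + d →
      ∀ f ∈ Fm (IsLocalRing.ResidueField A) n, f ∈ satI (Ir I) → f ∈ Ir I := by
    intro d
    induction d with
    | zero =>
      intro n _ hn
      exact (Kn_le_iff _ _ n).1 (le_of_eq (hN1 n (by omega)))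
    | succ d ih =>
      intro n hn hd
      exact surj_down I I2 hI h2 hle x hx hx2 hnz (satI (Ir I)) (Hom_satI hIr) n (r2 (n + 1))
        (hF2 (n + 1) (by omega)) (hgen (n + 1) (by omega)) (ih (n + 1) (by omega) (by omega))
  have surj' : ∀ n ≥ N, ∀ f ∈ Fm (IsLocalRing.ResidueField A) n, f ∈ satI (Ir I) → f ∈ Ir I :=
    fun n hn => surj N1 n hn (by omega)
  obtain ⟨m0, hm0⟩ := hr
  have main : ∀ d : ℕ, ∀ n ≥ N, m0 ≤ n + d → FR (Kn I n) (r n) := by
    intro d
    induction d with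
    | zero =>
      intro n _ hn
      exact hm0 n (by omega)
    | succ d ih =>
      intro n hn hd
      have hK : Kn (satI (Ir I)) n = Kn (Ir I) n :=
        le_antisymm ((Kn_le_iff _ _ n).2 (surj' n hn)) (Kn_mono (le_satI _) n)
      have hr' : hf (Ir I) n = r n := by
        rw [← FR_iff_hf, ← hK, FR_iff_hf]
        exact hhf n hn
      exact (FR_down I hI x hx n (r n) (r (n + 1)) (ih (n + 1) (by omega) (by omega))
        (fun f hf h => surj' n hn f hf (hnzb f (le_satI _ h))) hr').1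
  exact fun n hn => main m0 n hn (by omega)

end Pool.Agent.Helper947.Hil.Ld6

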