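import Mathlib
import Pool.Agent.Helper947.Hil.Defs
import Pool.Agent.Helper947.Hil.A1
import Pool.Agent.Helper947.Hil.A3
import Pool.Agent.Helper947.Hil.B2
import Pool.Agent.Helper947.Hil.B3
import Pool.Agent.Helper947.Hil.B4
import Pool.Agent.Helper947.Hil.B5
import Pool.Agent.Helper947.Hil.B7
import Pool.Agent.Helper947.Hil.C4
import Pool.Agent.Helper947.Hil.C5
import Pool.Agent.Helper947.Hil.D5
import Pool.Agent.Helper947.Hil.D6

set_option autoImplicit false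

open MvPolynomial CategoryTheory CategoryTheory.Limits AlgebraicGeometry

namespace Pool.Agent.Helper947.Hil.Ld7

open Pool.Agent.Helper947.Crv

theorem hl836_hf {A : Type} [CommRing A] [IsLocalRing A] (I : Ideal (Pl A)) (hI : Hom I)
    (r : ℕ → ℕ) (hr : ∃ m0, ∀ n ≥ m0, FR (Kn I n) (r n)) :
    ∃ N, ∀ n ≥ N, hf (satI (Ir I)) n = r n := by
  obtain ⟨m0, h0⟩ := hr
  obtain ⟨N, hN⟩ := exists_satI_eq (Ir I) (Hom_ext (IsLocalRing.residue A) hI)
  refine ⟨max m0 N, fun n hn => ?_⟩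
  rw [← FR_iff_hf, hN n (le_trans (le_max_right _ _) hn), Kn_ext (IsLocalRing.residue A) hI n]
  exact FR_bcK _ (h0 n (le_trans (le_max_left _ _) hn))

theorem hl836_top {A : Type} [CommRing A] [IsLocalRing A] (n : ℕ) :
    FR (Kn (⊤ : Ideal (Pl A)) n) 0 := by
  have h1 : Kn (⊤ : Ideal (Pl A)) n = ⊤ := by
    unfold Kn
    rw [Submodule.restrictScalars_top, Submodule.comap_top]
  rw [h1, FR_iff_free_local]
  haveI : Subsingleton ((Mon n → A) ⧸ (⊤ : Submodule A (Mon n → A))) :=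
    Submodule.Quotient.subsingleton_iff.mpr rfl
  exact ⟨Module.Free.of_subsingleton _ _, Module.finrank_zero_of_subsingleton⟩

theorem hl836_Hom_top {A : Type} [CommRing A] : Hom (⊤ : Ideal (Pl A)) := by
  intro p _ m
  exact Submodule.mem_top

theorem hl836_map_mem {A B : Type} [CommRing A] [CommRing B] (φ : A →+* B) {x : Pl A} {n : ℕ}
    (hx : x ∈ Fm A n) : MvPolynomial.map φ x ∈ Fm B n := by
  rw [mem_homogeneousSubmodule] at hx ⊢
  exact hx.map φ

theorem _root_.Pool.Agent.Helper947.Hil.local_main {A : Type} [CommRing A] [IsLocalRing A]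
    [Infinite (IsLocalRing.ResidueField A)] (I : Ideal (Pl A)) (hI : Hom I) (hs : IsSat I)
    (d c : ℕ) (hr : ∃ m0, ∀ n ≥ m0, FR (Kn I n) (d * n + c)) :
    ∀ n ≥ mst d c, FR (Kn I n) (d * n + c) := by
  obtain ⟨x, hx, hnz, hnzb, hF2, hE⟩ := cut I hI hs (fun n => d * n + c) (fun _ => d) hr
    ⟨0, fun n _ => by ring⟩
  have hI2 : Hom (satI (I ⊔ Ideal.span {x})) := Hom_satI (Hom_sup_span hI x 1 hx)
  have hs2 : IsSat (satI (I ⊔ Ideal.span {x})) := IsSat_satI _
  have hle : I ≤ satI (I ⊔ Ideal.span {x}) := le_sup_left.trans (le_satI _)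
  have hx2 : x ∈ satI (I ⊔ Ideal.span {x}) :=
    le_satI _ (Ideal.mem_sup_right (Ideal.mem_span_singleton_self x))
  set I2 : Ideal (Pl A) := satI (I ⊔ Ideal.span {x}) with hI2def
  obtain ⟨y, hy, hnzy, hnzyb, -, -⟩ := cut I2 hI2 hs2 (fun _ => d) (fun _ => 0) hF2
    ⟨0, fun n _ => rfl⟩
  have hIb := hl836_hf I hI (fun n => d * n + c) hr
  have hIb2 := hl836_hf I2 hI2 (fun _ => d) hF2
  have hHb : Hom (satI (Ir I)) := Hom_satI (Hom_ext _ hI)
  have hHb2 : Hom (satI (Ir I2)) := Hom_satI (Hom_ext _ hI2)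
  obtain ⟨u1, u2, -⟩ := ub2 (satI (Ir I2)) hHb2 (IsSat_satI _)
    (MvPolynomial.map (IsLocalRing.residue A) y) (hl836_map_mem _ hy) hnzyb d hIb2
  have hF2' : ∀ n ≥ d, FR (Kn I2 n) d :=
    level I2 ⊤ hI2 hl836_Hom_top le_top y hy Submodule.mem_top hnzy hnzyb (fun _ => d)
      (fun _ => 0) d hF2 (fun n _ => hl836_top n) (fun n hn f hf _ => u2 n hn f hf) u1
  obtain ⟨-, v1, v2, -⟩ := ub1 (satI (Ir I)) hHb (IsSat_satI _)
    (MvPolynomial.map (IsLocalRing.residue A) x) (hl836_map_mem _ hx) hnzb d c hIb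
  have hdm : d ≤ mst d c := by unfold mst; nlinarith
  exact level I I2 hI hI2 hle x hx hx2 hnz hnzb (fun n => d * n + c) (fun _ => d) (mst d c) hr
    (fun n hn => hF2' n (hdm.trans hn))
    (fun n hn f hf hfI => v2 n hn f (by rw [← hE]; exact le_satI _ hfI) hf) v1

end Pool.Agent.Helper947.Hil.Ld7

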