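import Mathlib
import Pool.Agent.Helper947.Hil.Defs

set_option autoImplicit false

open MvPolynomial CategoryTheory CategoryTheory.Limits AlgebraicGeometry

namespace Pool.Agent.Helper947.Hil.Ld8

open Pool.Agent.Helper947.Crv

theorem _root_.Pool.Agent.Helper947.Hil.exists_local {A : Type} [CommRing A] (p : PrimeSpectrum A) :
    ∃ (B : Type) (_ : CommRing B) (_ : IsLocalRing B) (φ : A →+* B), φ.Flat ∧
      Infinite (IsLocalRing.ResidueField B) ∧
      (IsLocalRing.maximalIdeal B).comap φ = p.asIdeal ∧
      (∀ z, φ z = 0 → ∃ a ∉ p.asIdeal, a * z = 0) := by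
  haveI hp := p.isPrime
  haveI hq : (p.asIdeal.map (Polynomial.C : A →+* Polynomial A)).IsPrime :=
    Ideal.isPrime_map_C_of_isPrime
  set q : Ideal (Polynomial A) := p.asIdeal.map (Polynomial.C : A →+* Polynomial A) with hqdef
  have hmax : ∀ f : Polynomial A, algebraMap (Polynomial A) (Localization.AtPrime q) f ∈
      IsLocalRing.maximalIdeal (Localization.AtPrime q) ↔ f ∈ q := fun f =>
    IsLocalization.AtPrime.to_map_mem_maximal_iff (Localization.AtPrime q) q f
  refine ⟨Localization.AtPrime q, inferInstance, inferInstance,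
    (algebraMap (Polynomial A) (Localization.AtPrime q)).comp Polynomial.C, ?_, ?_, ?_, ?_⟩
  · refine RingHom.Flat.comp ?_ ?_
    · rw [← Polynomial.algebraMap_eq, RingHom.flat_algebraMap_iff]
      infer_instance
    · rw [RingHom.flat_algebraMap_iff]
      exact IsLocalization.flat _ q.primeCompl
  · refine Infinite.of_injective (fun i : ℕ => IsLocalRing.residue (Localization.AtPrime q)
      (algebraMap (Polynomial A) (Localization.AtPrime q) (Polynomial.X ^ i))) ?_
    intro i j hij
    by_contra hne
    have h1 : IsLocalRing.residue (Localization.AtPrime q)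
        (algebraMap (Polynomial A) (Localization.AtPrime q)
          (Polynomial.X ^ i - Polynomial.X ^ j)) = 0 := by
      rw [map_sub, map_sub]
      exact sub_eq_zero.2 hij
    rw [IsLocalRing.residue_eq_zero_iff, hmax, hqdef, Ideal.mem_map_C_iff] at h1
    have h2 := h1 i
    rw [Polynomial.coeff_sub, Polynomial.coeff_X_pow, Polynomial.coeff_X_pow, if_pos rfl,
      if_neg hne, sub_zero] at h2
    exact hp.ne_top ((Ideal.eq_top_iff_one _).2 h2)
  · ext a
    rw [Ideal.mem_comap, RingHom.comp_apply, hmax, hqdef, Ideal.mem_map_C_iff]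
    constructor
    · intro h
      have := h 0
      rwa [Polynomial.coeff_C_zero] at this
    · intro h n
      rw [Polynomial.coeff_C]
      split_ifs
      · exact h
      · exact Ideal.zero_mem _
  · intro z hz
    rw [RingHom.comp_apply,
      IsLocalization.map_eq_zero_iff q.primeCompl (Localization.AtPrime q)] at hz
    obtain ⟨⟨s, hs⟩, hsz⟩ := hz
    have hs' : s ∉ q := hs
    rw [hqdef, Ideal.mem_map_C_iff] at hs'
    push Not at hs'
    obtain ⟨n, hn⟩ := hs'
    refine ⟨s.coeff n, hn, ?_⟩
    have := congrArg (fun f => Polynomial.coeff f n) hsz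
    simpa using this

end Pool.Agent.Helper947.Hil.Ld8

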