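import Mathlib
import Pool.Agent.Helper947.Hil.Defs
import Pool.Agent.Helper947.Hil.A1
import Pool.Agent.Helper947.Hil.A6
import Pool.Agent.Helper947.Hil.A9
import Pool.Agent.Helper947.Hil.B3
import Pool.Agent.Helper947.Hil.B6
import Pool.Agent.Helper947.Hil.D7
import Pool.Agent.Helper947.Hil.D8

set_option autoImplicit false

open MvPolynomial CategoryTheory CategoryTheory.Limits AlgebraicGeometry

namespace Pool.Agent.Helper947.Hil.Ld9

open Pool.Agent.Helper947.Crv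

theorem _root_.Pool.Agent.Helper947.Hil.main_FR {A : Type} [CommRing A] (I : Ideal (Pl A)) (hI : Hom I) (hs : IsSat I)
    (d c : ℕ) (hr : ∃ m0, ∀ n ≥ m0, FR (Kn I n) (d * n + c)) :
    ∀ n ≥ mst d c, FR (Kn I n) (d * n + c) := by
  intro n hn
  refine FR_of_local (Kn I n) (d * n + c) (card_Mon d c n hn) fun p => ?_
  obtain ⟨B, hB, hBl, φ, hflat, hinf, hcomap, hker⟩ := exists_local p
  refine ⟨B, hB, φ, hker, ⟨IsLocalRing.closedPoint B, hcomap⟩, ?_⟩
  rw [← Kn_ext φ hI n]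
  refine local_main (ext φ I) (Hom_ext φ hI) (IsSat_ext_of_flat φ hflat hs) d c ?_ n hn
  obtain ⟨m0, hm0⟩ := hr
  refine ⟨m0, fun k hk => ?_⟩
  rw [Kn_ext φ hI k]
  exact FR_bcK φ (hm0 k hk)

end Pool.Agent.Helper947.Hil.Ld9

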