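import Mathlib
import Pool.Agent.Helper947.Hil.Defs
import Pool.Agent.Helper947.Hil.A2
import Pool.Agent.Helper947.Hil.A4
import Pool.Agent.Helper947.Hil.A9
import Pool.Agent.Helper947.Hil.B2
import Pool.Agent.Helper947.Hil.D10
import Pool.Agent.Helper947.Hil.D9

set_option autoImplicit false

open MvPolynomial CategoryTheory CategoryTheory.Limits AlgebraicGeometry

namespace Pool.Agent.Helper947.Hil.Lf1

open Pool.Agent.Helper947.Crv

theorem _root_.Pool.Agent.Helper947.Hil.pt_FR {d c : ℕ} {A : Type} [CommRing A] (x : HilbPt (d : ℤ) (1 - (c : ℤ)) A) :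
    ∀ n ≥ mst d c, FR (Kn x.I n) (d * n + c) := by
  apply main_FR x.I x.hom x.sat d c
  obtain ⟨m0, h⟩ := x.flat
  refine ⟨max m0 (mst d c), fun n hn => ?_⟩
  have hn1 : m0 ≤ n := (le_max_left _ _).trans hn
  have hn2 : mst d c ≤ n := (le_max_right _ _).trans hn
  refine FR_of_PR ((PR_iff x.I n _).2 ⟨(h n hn1).1, (h n hn1).2.1, fun 𝔭 => ?_⟩)
    (card_Mon d c n hn2)
  have h1 := (h n hn1).2.2 𝔭
  have h2 : (Module.rankAtStalk (R := A) (Qm x.I n) 𝔭 : ℤ) = ((d * n + c : ℕ) : ℤ) := by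
    rw [h1]
    push_cast
    ring
  exact_mod_cast h2

theorem _root_.Pool.Agent.Helper947.Hil.mkPt_flat (d c : ℕ) {A : Type} [CommRing A] (J : Ideal (Pl A)) (hJ : Hom J)
    (hr : ∀ n ≥ mst d c, FR (Kn J n) (d * n + c)) :
    ∃ m0 : ℕ, ∀ m ≥ m0, Module.Finite A (Qm (satI J) m) ∧ Module.Projective A (Qm (satI J) m) ∧
      ∀ 𝔭 : PrimeSpectrum A, (Module.rankAtStalk (R := A) (Qm (satI J) m) 𝔭 : ℤ) =
        (d : ℤ) * m + 1 - (1 - (c : ℤ)) := by
  refine ⟨mst d c, fun m hm => ?_⟩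
  have hF := hr m hm
  rw [← sat_big J hJ d c hr m hm] at hF
  have hP := (PR_iff _ _ _).1 (PR_of_FR hF)
  refine ⟨hP.1, hP.2.1, fun 𝔭 => ?_⟩
  rw [hP.2.2 𝔭]
  push_cast
  ring

end Pool.Agent.Helper947.Hil.Lf1

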