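import Mathlib
import Pool.Agent.Helper947.Hil.B3
import Pool.Agent.Helper947.Hil.B4
import Pool.Agent.Helper947.Hil.B5
import Pool.Agent.Helper947.Hil.A1
import Pool.Agent.Helper947.Hil.F1

set_option autoImplicit false

open MvPolynomial
open Pool.Agent.Helper947.Crv

namespace Pool.Agent.Helper947.Hil

theorem HilbPt_ext {d g : ℤ} {A : Type} [CommRing A] {x y : HilbPt d g A} (h : x.I = y.I) :
    x = y := by
  cases x; cases y; cases h; rfl

/-- the point of the Hilbert functor given by a homogeneous ideal with the right quotients -/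
noncomputable def mkPt (d c : ℕ) {A : Type} [CommRing A] (J : Ideal (Pl A)) (hJ : Hom J)
    (hr : ∀ n ≥ mst d c, FR (Kn J n) (d * n + c)) : HilbPt (d : ℤ) (1 - (c : ℤ)) A where
  I := satI J
  hom := Hom_satI hJ
  sat := IsSat_satI J
  flat := mkPt_flat d c J hJ hr

/-- base change of points of the Hilbert functor -/
noncomputable def bcP {d c : ℕ} {A B : Type} [CommRing A] [CommRing B] (φ : A →+* B)
    (x : HilbPt (d : ℤ) (1 - (c : ℤ)) A) : HilbPt (d : ℤ) (1 - (c : ℤ)) B :=
  mkPt d c (ext φ x.I) (Hom_ext φ x.hom) (fun n hn => by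
    rw [Kn_ext φ x.hom]; exact FR_bcK φ (pt_FR x n hn))

end Pool.Agent.Helper947.Hil
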