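import Mathlib
import Pool.Agent.Helper947.Hil.Defs
import Pool.Agent.Helper947.Hil.PtDef
import Pool.Agent.Helper947.Hil.D10
import Pool.Agent.Helper947.Hil.D11
import Pool.Agent.Helper947.Hil.B2
import Pool.Agent.Helper947.Hil.B5

set_option autoImplicit false

open MvPolynomial
open Pool.Agent.Helper947.Crv

namespace Pool.Agent.Helper947.Hil

theorem Kn_mkPt (d c : ℕ) {A : Type} [CommRing A] (J : Ideal (Pl A)) (hJ : Hom J)
    (hr : ∀ n ≥ mst d c, FR (Kn J n) (d * n + c)) :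
    ∀ n ≥ mst d c, Kn (mkPt d c J hJ hr).I n = Kn J n :=
  sat_big J hJ d c hr

theorem Kn_bcP {d c : ℕ} {A B : Type} [CommRing A] [CommRing B] (φ : A →+* B)
    (x : HilbPt (d : ℤ) (1 - (c : ℤ)) A) :
    ∀ n ≥ mst d c, Kn (bcP φ x).I n = bcK φ (Kn x.I n) := fun n hn =>
  (Kn_mkPt d c (ext φ x.I) _ _ n hn).trans (Kn_ext φ x.hom n)

theorem gen_pt {d c : ℕ} {A : Type} [CommRing A] (x : HilbPt (d : ℤ) (1 - (c : ℤ)) A) :
    ∀ n ≥ mst d c, ∀ f ∈ x.I, f ∈ Fm A n → f ∈ gen x.I (mst d c) := by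
  intro n hn
  induction n, hn using Nat.le_induction with
  | base => exact fun f hf hfn => Ideal.subset_span ⟨hf, hfn⟩
  | succ n hn ih =>
    intro f hf hfn
    have h1 := gen_big x.I x.hom d c (pt_FR x) n hn f hf hfn
    have h2 : gen x.I n ≤ gen x.I (mst d c) := by
      refine Ideal.span_le.2 ?_
      rintro g ⟨hg, hgn⟩
      exact ih g hg hgn
    exact h2 h1

theorem pt_eq {d c : ℕ} {A : Type} [CommRing A] (x y : HilbPt (d : ℤ) (1 - (c : ℤ)) A)
    (h : Kn x.I (mst d c) = Kn y.I (mst d c)) : x = y := by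
  have key : ∀ x y : HilbPt (d : ℤ) (1 - (c : ℤ)) A, Kn x.I (mst d c) = Kn y.I (mst d c) →
      ∀ n ≥ mst d c, Kn x.I n ≤ Kn y.I n := by
    intro x y h n hn
    rw [Kn_le_iff]
    intro f hfn hf
    have h1 := gen_pt x n hn f hf hfn
    have h2 : gen x.I (mst d c) ≤ y.I := by
      refine Ideal.span_le.2 ?_
      rintro g ⟨hg, hgn⟩
      exact (Kn_le_iff _ _ _).1 h.le g hgn hg
    exact h2 h1
  apply HilbPt_ext
  have h1 := satI_eq_of_large x.hom y.hom (mst d c)
    (fun n hn => le_antisymm (key x y h n hn) (key y x h.symm n hn))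
  have hx : satI x.I = x.I := IsSat.satI_eq (fun f hf => x.sat f hf)
  have hy : satI y.I = y.I := IsSat.satI_eq (fun f hf => y.sat f hf)
  rw [← hx, ← hy, h1]

end Pool.Agent.Helper947.Hil
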