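import Mathlib
import Pool.Agent.Helper947.Hil.Defs
import Pool.Agent.Helper947.Hil.A1
import Pool.Agent.Helper947.Hil.B5
import Pool.Agent.Helper947.Hil.B6
import Pool.Agent.Helper947.Hil.F2
import Pool.Agent.Helper947.Hil.PtDef

set_option autoImplicit false

open MvPolynomial CategoryTheory CategoryTheory.Limits AlgebraicGeometry

namespace Pool.Agent.Helper947.Hil.Lf3

open Pool.Agent.Helper947.Crv

theorem bcK_id {A : Type} [CommRing A] {s : Type} (K : Submodule A (s → A)) :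
    bcK (RingHom.id A) K = K := by
  unfold bcK
  have h : {w : s → A | ∃ v ∈ K, w = fun i => (RingHom.id A) (v i)} = (K : Set (s → A)) := by
    ext w
    constructor
    · rintro ⟨v, hv, rfl⟩
      exact hv
    · intro hw
      exact ⟨w, hw, rfl⟩
  rw [h, Submodule.span_eq]

theorem _root_.Pool.Agent.Helper947.Hil.bcP_id {d c : ℕ} {A : Type} [CommRing A] (x : HilbPt (d : ℤ) (1 - (c : ℤ)) A) :
    bcP (RingHom.id A) x = x := by
  refine pt_eq _ _ ?_
  rw [Kn_bcP _ _ _ le_rfl]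
  exact bcK_id _

theorem _root_.Pool.Agent.Helper947.Hil.bcP_comp {d c : ℕ} {A B C : Type} [CommRing A] [CommRing B] [CommRing C] (φ : A →+* B)
    (ψ : B →+* C) (x : HilbPt (d : ℤ) (1 - (c : ℤ)) A) :
    bcP (ψ.comp φ) x = bcP ψ (bcP φ x) := by
  refine pt_eq _ _ ?_
  rw [Kn_bcP _ _ _ le_rfl, Kn_bcP _ _ _ le_rfl, Kn_bcP _ _ _ le_rfl, bcK_bcK]

theorem _root_.Pool.Agent.Helper947.Hil.bcP_flat {d c : ℕ} {A B : Type} [CommRing A] [CommRing B] (φ : A →+* B) (hφ : φ.Flat)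
    (x : HilbPt (d : ℤ) (1 - (c : ℤ)) A) : (bcP φ x).I = ext φ x.I := by
  have h : IsSat (ext φ x.I) := IsSat_ext_of_flat φ hφ x.sat
  exact h.satI_eq

end Pool.Agent.Helper947.Hil.Lf3

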