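import Mathlib
import Pool.Agent.Helper947.Hil.Defs
import Pool.Agent.Helper947.Hil.B4
import Pool.Agent.Helper947.Hil.F3
import Pool.Agent.Helper947.Hil.PtDef

set_option autoImplicit false

open MvPolynomial CategoryTheory CategoryTheory.Limits AlgebraicGeometry

namespace Pool.Agent.Helper947.Hil.Lf4

open Pool.Agent.Helper947.Crv

theorem sepP_le {d c : ℕ} {A : Type} [CommRing A] (s : Finset A) (hs : Ideal.span (s : Set A) = ⊤)
    (x y : HilbPt (d : ℤ) (1 - (c : ℤ)) A)
    (h : ∀ f ∈ s, bcP (algebraMap A (Localization.Away f)) x =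
      bcP (algebraMap A (Localization.Away f)) y) : x.I ≤ y.I := by
  intro g hg
  obtain ⟨I, hI⟩ : ∃ I : Ideal A, ∀ a, a ∈ I ↔ C a * g ∈ y.I := by
    refine ⟨{
      carrier := {a | C a * g ∈ y.I}
      add_mem' := fun {a b} ha hb => ?_
      zero_mem' := ?_
      smul_mem' := fun r a ha => ?_ }, fun a => Iff.rfl⟩
    · show C (a + b) * g ∈ y.I
      rw [map_add, add_mul]
      exact Ideal.add_mem _ ha hb
    · show C 0 * g ∈ y.I
      rw [map_zero, zero_mul]
      exact Ideal.zero_mem _
    · show C (r * a) * g ∈ y.I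
      rw [map_mul, mul_assoc]
      exact Ideal.mul_mem_left _ _ ha
  have hrad : Ideal.span (s : Set A) ≤ I.radical := by
    rw [Ideal.span_le]
    intro f hf
    have hflat : (algebraMap A (Localization.Away f)).Flat := by
      rw [RingHom.flat_algebraMap_iff]
      exact IsLocalization.flat _ (Submonoid.powers f)
    have h1 : ext (algebraMap A (Localization.Away f)) x.I =
        ext (algebraMap A (Localization.Away f)) y.I := by
      rw [← bcP_flat _ hflat x, ← bcP_flat _ hflat y, h f hf]
    have h2 : MvPolynomial.map (algebraMap A (Localization.Away f)) g ∈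
        ext (algebraMap A (Localization.Away f)) y.I := by
      rw [← h1]
      exact Ideal.mem_map_of_mem _ hg
    obtain ⟨a, ⟨k, hk⟩, ha'⟩ := mem_ext_local (Submonoid.powers f) y.I g h2
    refine ⟨k, ?_⟩
    have hk' : f ^ k = a := hk
    rw [hI, hk']
    exact ha'
  rw [hs, top_le_iff, Ideal.radical_eq_top] at hrad
  have h1 : (1 : A) ∈ I := by rw [hrad]; exact Submodule.mem_top
  rw [hI, map_one, one_mul] at h1
  exact h1

theorem _root_.Pool.Agent.Helper947.Hil.sepP {d c : ℕ} {A : Type} [CommRing A] (s : Finset A) (hs : Ideal.span (s : Set A) = ⊤)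
    (x y : HilbPt (d : ℤ) (1 - (c : ℤ)) A)
    (h : ∀ f ∈ s, bcP (algebraMap A (Localization.Away f)) x =
      bcP (algebraMap A (Localization.Away f)) y) : x = y := by
  exact HilbPt_ext (le_antisymm (sepP_le s hs x y h) (sepP_le s hs y x fun f hf => (h f hf).symm))

end Pool.Agent.Helper947.Hil.Lf4

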