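import Mathlib
import Pool.Agent.Helper947.Hil.Defs
import Pool.Agent.Helper947.Hil.A6
import Pool.Agent.Helper947.Hil.A9
import Pool.Agent.Helper947.Hil.B3
import Pool.Agent.Helper947.Hil.B4
import Pool.Agent.Helper947.Hil.B5
import Pool.Agent.Helper947.Hil.F1
import Pool.Agent.Helper947.Hil.F3
import Pool.Agent.Helper947.Hil.PtDef

set_option autoImplicit false

open MvPolynomial CategoryTheory CategoryTheory.Limits AlgebraicGeometry

namespace Pool.Agent.Helper947.Hil.Lf5b

open Pool.Agent.Helper947.Crv

theorem glueP_hc_map {A B : Type} [CommRing A] [CommRing B] (φ : A →+* B) (m : ℕ) (p : Pl A) :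
    homogeneousComponent m (MvPolynomial.map φ p) = MvPolynomial.map φ (homogeneousComponent m p) := by
  ext d
  rw [coeff_homogeneousComponent, coeff_map, coeff_map, coeff_homogeneousComponent]
  split_ifs
  · rfl
  · rw [map_zero]

theorem glueP_clear {A : Type} [CommRing A] (f : A) (p : Pl (Localization.Away f)) :
    ∃ (k : ℕ) (P : Pl A), MvPolynomial.map (algebraMap A (Localization.Away f)) P =
      C (algebraMap A (Localization.Away f) (f ^ k)) * p := by
  classical
  obtain ⟨⟨b, k, hk⟩, hb⟩ := IsLocalization.exist_integer_multiples (Submonoid.powers f) p.support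
    (fun u => coeff u p)
  have hb' : ∀ u, ∃ a : A, u ∈ p.support → algebraMap A (Localization.Away f) a = b • coeff u p := by
    intro u
    by_cases hu : u ∈ p.support
    · obtain ⟨a, ha⟩ := hb u hu
      exact ⟨a, fun _ => ha⟩
    · exact ⟨0, fun h => absurd h hu⟩
  choose g hg using hb'
  refine ⟨k, ∑ u ∈ p.support, monomial u (g u), ?_⟩
  rw [map_sum]
  conv_rhs => rw [p.as_sum, Finset.mul_sum]
  apply Finset.sum_congr rfl
  intro u hu
  rw [map_monomial, hg u hu, C_mul_monomial, Algebra.smul_def]
  have hk' : f ^ k = b := hk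
  rw [hk']

theorem glueP_flat {A : Type} [CommRing A] (f : A) :
    (algebraMap A (Localization.Away f)).Flat := by
  rw [RingHom.flat_algebraMap_iff]
  exact IsLocalization.flat _ (Submonoid.powers f)

theorem glueP_key {d c : ℕ} {A : Type} [CommRing A] (s : Finset A)
    (x : ∀ f : A, f ∈ s → HilbPt (d : ℤ) (1 - (c : ℤ)) (Localization.Away f))
    (h : ∀ (f : A) (hf : f ∈ s) (g : A) (hg : g ∈ s) (B : Type) [CommRing B]
      (φ : Localization.Away f →+* B) (ψ : Localization.Away g →+* B),
      φ.comp (algebraMap A (Localization.Away f)) = ψ.comp (algebraMap A (Localization.Away g)) →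
      bcP φ (x f hf) = bcP ψ (x g hg)) (f : A) (hf : f ∈ s) (P : Pl A)
    (hP : MvPolynomial.map (algebraMap A (Localization.Away f)) P ∈ (x f hf).I) (g : A)
    (hg : g ∈ s) :
    ∃ k : ℕ, MvPolynomial.map (algebraMap A (Localization.Away g)) (C (f ^ k) * P) ∈
      (x g hg).I := by
  let r : Localization.Away g := algebraMap A (Localization.Away g) f
  let ψ : Localization.Away g →+* Localization.Away r := algebraMap _ _
  have hu : IsUnit ((ψ.comp (algebraMap A (Localization.Away g))) f) :=
    IsLocalization.Away.algebraMap_isUnit r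
  let φ : Localization.Away f →+* Localization.Away r := IsLocalization.Away.lift f hu
  have hcomp : φ.comp (algebraMap A (Localization.Away f)) =
      ψ.comp (algebraMap A (Localization.Away g)) := IsLocalization.Away.lift_comp f hu
  have hb := h f hf g hg (Localization.Away r) φ ψ hcomp
  have h1 : MvPolynomial.map φ (MvPolynomial.map (algebraMap A (Localization.Away f)) P) ∈
      (bcP φ (x f hf)).I := by
    show _ ∈ satI (ext φ (x f hf).I)
    exact ⟨0, fun q _ => Ideal.mul_mem_left _ _ (Ideal.mem_map_of_mem _ hP)⟩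
  rw [hb, bcP_flat ψ (glueP_flat r)] at h1
  have h2 : MvPolynomial.map φ (MvPolynomial.map (algebraMap A (Localization.Away f)) P) =
      MvPolynomial.map ψ (MvPolynomial.map (algebraMap A (Localization.Away g)) P) := by
    rw [MvPolynomial.map_map, MvPolynomial.map_map, hcomp]
  rw [h2] at h1
  obtain ⟨a, ha, hmem⟩ := mem_ext_local (Submonoid.powers r) (x g hg).I
    (MvPolynomial.map (algebraMap A (Localization.Away g)) P) h1
  obtain ⟨k, hk⟩ := ha
  refine ⟨k, ?_⟩
  rw [map_mul, map_C, map_pow]
  have hk' : r ^ k = a := hk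
  rw [show algebraMap A (Localization.Away g) f = r from rfl, hk']
  exact hmem

theorem glueP_deg {A : Type} [CommRing A] {n : ℕ} {p : Pl A} (hp : p ∈ Fm A n) {u : Fin 4 →₀ ℕ}
    (hu : u ∈ p.support) : u.degree = n := by
  have h2 := hp (mem_support_iff.1 hu)
  have h3 := DFunLike.congr_fun (Finsupp.degree_eq_weight_one (R := ℕ) (σ := Fin 4)) u
  rw [h3]
  exact h2

theorem _root_.Pool.Agent.Helper947.Hil.glueP {d c : ℕ} {A : Type} [CommRing A] (s : Finset A)
    (hs : Ideal.span (s : Set A) = ⊤)
    (x : ∀ f : A, f ∈ s → HilbPt (d : ℤ) (1 - (c : ℤ)) (Localization.Away f))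
    (h : ∀ (f : A) (hf : f ∈ s) (g : A) (hg : g ∈ s) (B : Type) [CommRing B]
      (φ : Localization.Away f →+* B) (ψ : Localization.Away g →+* B),
      φ.comp (algebraMap A (Localization.Away f)) = ψ.comp (algebraMap A (Localization.Away g)) →
      bcP φ (x f hf) = bcP ψ (x g hg)) :
    ∃ y : HilbPt (d : ℤ) (1 - (c : ℤ)) A,
      ∀ (f : A) (hf : f ∈ s), bcP (algebraMap A (Localization.Away f)) y = x f hf := by
  classical
  let I : Ideal (Pl A) := ⨅ (f : A) (hf : f ∈ s),
    (x f hf).I.comap (MvPolynomial.map (algebraMap A (Localization.Away f)))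
  have hI : ∀ p, p ∈ I ↔ ∀ (f : A) (hf : f ∈ s),
      MvPolynomial.map (algebraMap A (Localization.Away f)) p ∈ (x f hf).I := by
    intro p
    simp only [I, Submodule.mem_iInf, Ideal.mem_comap]
  have hom : Hom I := by
    intro p hp m
    rw [hI] at hp ⊢
    intro f hf
    rw [← glueP_hc_map]
    exact (x f hf).hom _ (hp f hf) m
  have hsat : IsSat I := by
    rintro p ⟨n, hn⟩
    rw [hI]
    intro f hf
    apply (x f hf).sat
    refine ⟨n, fun q hq => ?_⟩
    rw [q.as_sum, Finset.sum_mul]
    refine Ideal.sum_mem _ fun u hu => ?_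
    have hd : u.degree = n := glueP_deg hq hu
    have h1 : (monomial u (1 : A) : Pl A) ∈ Fm A n := by
      rw [mem_homogeneousSubmodule]
      exact isHomogeneous_monomial _ hd
    have h2 := (hI _).mp (hn _ h1) f hf
    rw [map_mul, map_monomial, map_one] at h2
    have h3 : (monomial u (coeff u q) : Pl (Localization.Away f)) =
        C (coeff u q) * monomial u 1 := by
      rw [C_mul_monomial, mul_one]
    rw [h3, mul_assoc]
    exact Ideal.mul_mem_left _ _ h2
  have hext : ∀ (f : A) (hf : f ∈ s), ext (algebraMap A (Localization.Away f)) I = (x f hf).I := by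
    intro f hf
    apply le_antisymm
    · rw [Ideal.map_le_iff_le_comap]
      intro p hp
      exact (hI p).mp hp f hf
    · intro p hp
      obtain ⟨k, P, hkP⟩ := glueP_clear f p
      have hP : MvPolynomial.map (algebraMap A (Localization.Away f)) P ∈ (x f hf).I := by
        rw [hkP]
        exact Ideal.mul_mem_left _ _ hp
      have hkey := glueP_key s x h f hf P hP
      choose k' hk' using hkey
      let N : ℕ := ∑ g ∈ s.attach, k' g.1 g.2
      have hmem : C (f ^ N) * P ∈ I := by
        rw [hI]
        intro g hg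
        have hle : k' g hg ≤ N :=
          Finset.single_le_sum (f := fun g : {g // g ∈ s} => k' g.1 g.2) (fun _ _ => Nat.zero_le _)
            (Finset.mem_attach s ⟨g, hg⟩)
        have e1 : C (f ^ N) * P = C (f ^ (N - k' g hg)) * (C (f ^ (k' g hg)) * P) := by
          rw [← mul_assoc, ← C_mul, ← pow_add, Nat.sub_add_cancel hle]
        rw [e1, map_mul]
        exact Ideal.mul_mem_left _ _ (hk' g hg)
      have h1 := Ideal.mem_map_of_mem (MvPolynomial.map (algebraMap A (Localization.Away f))) hmem
      rw [map_mul, map_C, hkP, ← mul_assoc, ← C_mul, ← map_mul, ← pow_add] at h1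
      have hu : IsUnit (algebraMap A (Localization.Away f) (f ^ (N + k))) := by
        rw [map_pow]
        exact (IsLocalization.Away.algebraMap_isUnit f).pow _
      have hu2 : IsUnit (C (algebraMap A (Localization.Away f) (f ^ (N + k))) :
          Pl (Localization.Away f)) := hu.map C
      exact (Ideal.unit_mul_mem_iff_mem _ hu2).mp h1
  have hFR : ∀ n ≥ mst d c, FR (Kn I n) (d * n + c) := by
    intro n hn
    apply FR_of_local (Kn I n) (d * n + c) (card_Mon d c n hn)
    intro p
    have hex : ∃ f ∈ s, f ∉ p.asIdeal := by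
      by_contra hcon
      push Not at hcon
      have : Ideal.span (s : Set A) ≤ p.asIdeal := Ideal.span_le.mpr (fun f hf => hcon f hf)
      rw [hs] at this
      exact p.isPrime.ne_top (top_le_iff.mp this)
    obtain ⟨f, hf, hfp⟩ := hex
    have hdisj : Disjoint ((Submonoid.powers f : Submonoid A) : Set A) (p.asIdeal : Set A) := by
      rw [Set.disjoint_left]
      rintro _ ⟨k, rfl⟩ hk
      exact hfp (p.isPrime.mem_of_pow_mem k hk)
    refine ⟨Localization.Away f, inferInstance, algebraMap A (Localization.Away f), ?_, ?_, ?_⟩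
    · intro z hz
      obtain ⟨⟨m, k, hk⟩, hm⟩ := (IsLocalization.map_eq_zero_iff (Submonoid.powers f)
        (Localization.Away f) z).mp hz
      refine ⟨m, ?_, hm⟩
      intro hmp
      have hk' : f ^ k = m := hk
      rw [← hk'] at hmp
      exact hfp (p.isPrime.mem_of_pow_mem k hmp)
    · refine ⟨⟨Ideal.map (algebraMap A (Localization.Away f)) p.asIdeal,
        IsLocalization.isPrime_of_isPrime_disjoint (Submonoid.powers f) (Localization.Away f)
          p.asIdeal p.isPrime hdisj⟩, ?_⟩
      exact IsLocalization.under_map_of_isPrime_disjoint (Submonoid.powers f)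
        (Localization.Away f) p.isPrime hdisj
    · rw [← Kn_ext (algebraMap A (Localization.Away f)) hom n, hext f hf]
      exact pt_FR (x f hf) n hn
  refine ⟨mkPt d c I hom hFR, ?_⟩
  intro f hf
  apply HilbPt_ext
  rw [bcP_flat _ (glueP_flat f)]
  show ext (algebraMap A (Localization.Away f)) (satI I) = _
  rw [hsat.satI_eq, hext f hf]

end Pool.Agent.Helper947.Hil.Lf5b

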