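import Mathlib

open CategoryTheory Limits AlgebraicGeometry Opposite

/-! helper537: the original target g1 is false as stated: `glue` quantifies over total families
`x : ∀ f : A, F0.obj A_f`, hence is vacuous if some `F0.obj A_f` is empty (f = 1). Counterexample:
F0 A = {*} if 2 or 3 is a unit of A, and empty otherwise (Z = D(2) ∪ D(3)).
Proved here: `g1'` (glue for partial families, indexed by f ∈ s) and `g1` (original form with the extra
hypothesis `ne` that all values are nonempty). -/

namespace Pool.Agent.Helper947.Hil.Lg1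

theorem mem_zar (X : Scheme.{0}) :
    Sieve.ofArrows (fun i => Scheme.Spec.obj (op (X.affineOpenCover.X i))) X.affineOpenCover.f ∈
      Scheme.zariskiTopology.{0} X :=
  X.affineOpenCover.openCover.mem_grothendieckTopology

instance specCD : Scheme.Spec.{0}.IsCoverDense Scheme.zariskiTopology.{0} where
  is_cover U := by
    refine Scheme.zariskiTopology.superset_covering ?_ (mem_zar U)
    rintro Y _ ⟨_, a, _, ⟨i⟩, rfl⟩
    exact ⟨⟨op (U.affineOpenCover.X i), a, U.affineOpenCover.f i, by simp⟩⟩

noncomputable abbrev J0 : GrothendieckTopology CommRingCat.{0}ᵒᵖ :=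
  Scheme.Spec.{0}.inducedTopology Scheme.zariskiTopology.{0}

instance specOH : Functor.IsOneHypercoverDense.{0} Scheme.Spec.{0} J0 Scheme.zariskiTopology.{0} :=
  Functor.IsOneHypercoverDense.of_hasPullbacks fun X =>
    ⟨X.affineOpenCover.I₀, fun i => op (X.affineOpenCover.X i), X.affineOpenCover.f, mem_zar X⟩

theorem lem1 (A : CommRingCat.{0}) (S : Sieve (op A)) (hS : S ∈ J0 (op A)) :
    ∃ s : Finset A, Ideal.span (s : Set A) = ⊤ ∧
      ∀ f ∈ s, S.arrows (CommRingCat.ofHom (algebraMap A (Localization.Away f))).op := by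
  rw [Functor.mem_inducedTopology_iff_of_isCoverDense] at hS
  obtain ⟨𝒰, h𝒰⟩ := Scheme.mem_grothendieckTopology_iff.1 hS
  have key : ∀ p : PrimeSpectrum A, ∃ f : A, f ∉ p.asIdeal ∧
      S.arrows (CommRingCat.ofHom (algebraMap A (Localization.Away f))).op := by
    intro p
    obtain ⟨i, y, hy⟩ : ∃ i, ∃ y, 𝒰.f i y = p := by
      obtain ⟨i, hi⟩ := (Scheme.ofArrows_mem_precoverage_iff _).1 𝒰.mem₀ |>.1 p
      exact ⟨i, hi⟩
    have him : IsOpenImmersion (𝒰.f i) := 𝒰.map_prop i
    have hopen : IsOpen (Set.range (𝒰.f i)) := (𝒰.f i).isOpenEmbedding.isOpen_range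
    obtain ⟨_, ⟨f, rfl⟩, hpf, hf⟩ :=
      PrimeSpectrum.isTopologicalBasis_basic_opens.exists_subset_of_mem_open
        (show p ∈ Set.range (𝒰.f i) from ⟨y, hy⟩) hopen
    refine ⟨f, hpf, ?_⟩
    have hr : Set.range (Spec.map (CommRingCat.ofHom (algebraMap A (Localization.Away f)))) ⊆
        Set.range (𝒰.f i) := 
      subset_trans (le_of_eq (PrimeSpectrum.localization_away_comap_range _ f)) hf
    have hmem := (S.functorPushforward Scheme.Spec).downward_closed (h𝒰 _ _ ⟨i⟩)
      (IsOpenImmersion.lift (𝒰.f i) (Spec.map (CommRingCat.ofHom (algebraMap A (Localization.Away f)))) hr)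
    rw [IsOpenImmersion.lift_fac] at hmem
    have h2 : (S.functorPushforward Scheme.Spec).functorPullback Scheme.Spec = S :=
      (Sieve.fullyFaithfulFunctorGaloisCoinsertion Scheme.Spec (op A)).u_l_eq S
    rw [← h2]
    exact hmem
  have hspan : Ideal.span {f : A | S.arrows (CommRingCat.ofHom (algebraMap A (Localization.Away f))).op} = ⊤ := by
    by_contra hne
    obtain ⟨M, hM, hle⟩ := Ideal.exists_le_maximal _ hne
    obtain ⟨f, hf, hf2⟩ := key ⟨M, hM.isPrime⟩
    exact hf (hle (Ideal.subset_span hf2))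
  obtain ⟨s, hs1, hs2⟩ := (Ideal.span_eq_top_iff_finite _).1 hspan
  exact ⟨s, hs2, fun f hf => hs1 hf⟩

theorem lem2 (F0 : CommRingCat.{0} ⥤ Type)
    (sep : ∀ (A : CommRingCat.{0}) (s : Finset A), Ideal.span (s : Set A) = ⊤ →
      ∀ x y : F0.obj A,
        (∀ f ∈ s, F0.map (CommRingCat.ofHom (algebraMap A (Localization.Away f))) x =
          F0.map (CommRingCat.ofHom (algebraMap A (Localization.Away f))) y) → x = y)
    (glue : ∀ (A : CommRingCat.{0}) (s : Finset A), Ideal.span (s : Set A) = ⊤ →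
      ∀ x : (∀ f : A, f ∈ s → F0.obj (CommRingCat.of (Localization.Away f))),
        (∀ (f : A) (hf : f ∈ s) (g : A) (hg : g ∈ s) (B : CommRingCat.{0})
          (φ : CommRingCat.of (Localization.Away f) ⟶ B)
          (ψ : CommRingCat.of (Localization.Away g) ⟶ B),
          CommRingCat.ofHom (algebraMap A (Localization.Away f)) ≫ φ =
            CommRingCat.ofHom (algebraMap A (Localization.Away g)) ≫ ψ →
          F0.map φ (x f hf) = F0.map ψ (x g hg)) →
        ∃ y : F0.obj A, ∀ (f : A) (hf : f ∈ s),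
          F0.map (CommRingCat.ofHom (algebraMap A (Localization.Away f))) y = x f hf) :
    Presheaf.IsSheaf J0 (unopUnop CommRingCat.{0} ⋙ F0) := by
  classical
  rw [isSheaf_iff_isSheaf_of_type]
  intro X S hS
  obtain ⟨A⟩ := X
  obtain ⟨s, hs, hsS⟩ := lem1 A S hS
  intro x hx
  have hcompat : ∀ (f : A) (hf : f ∈ s) (g : A) (hg : g ∈ s) (B : CommRingCat.{0})
          (φ : CommRingCat.of (Localization.Away f) ⟶ B)
          (ψ : CommRingCat.of (Localization.Away g) ⟶ B),
          CommRingCat.ofHom (algebraMap A (Localization.Away f)) ≫ φ =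
            CommRingCat.ofHom (algebraMap A (Localization.Away g)) ≫ ψ →
          F0.map φ (x _ (hsS f hf)) = F0.map ψ (x _ (hsS g hg)) := by
    intro f hf g hg B φ ψ h
    exact hx φ.op ψ.op (hsS f hf) (hsS g hg) (by rw [← op_comp, ← op_comp, h])
  obtain ⟨y, hy⟩ := glue A s hs (fun f hf => x _ (hsS f hf)) hcompat
  refine ⟨y, ?_, ?_⟩
  · intro Y g hg
    obtain ⟨B⟩ := Y
    change F0.map g.unop y = x g hg
    have hs' : Ideal.span ((s.image g.unop.hom : Finset B) : Set B) = ⊤ := by
      rw [Finset.coe_image, ← Ideal.map_span, hs, Ideal.map_top]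
    apply sep B (s.image g.unop.hom) hs'
    intro f' hf'
    obtain ⟨f, hf, rfl⟩ := Finset.mem_image.1 hf'
    have hρ : CommRingCat.ofHom (algebraMap A (Localization.Away f)) ≫
        CommRingCat.ofHom (Localization.awayMap g.unop.hom f) =
        g.unop ≫ CommRingCat.ofHom (algebraMap B (Localization.Away (g.unop.hom f))) := by
      ext a
      simp [Localization.awayMap, IsLocalization.Away.map]
    have h1 := hx (CommRingCat.ofHom (Localization.awayMap g.unop.hom f)).op
      (CommRingCat.ofHom (algebraMap B (Localization.Away (g.unop.hom f)))).op (hsS f hf) hg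
      (by rw [← op_comp, hρ]; rfl)
    have h2 : F0.map (CommRingCat.ofHom (Localization.awayMap g.unop.hom f)) (x _ (hsS f hf)) =
        F0.map (CommRingCat.ofHom (algebraMap B (Localization.Away (g.unop.hom f)))) (x g hg) := h1
    rw [← h2, ← hy f hf, ← Functor.map_comp_apply, ← Functor.map_comp_apply, hρ]
  · intro z hz
    apply sep A s hs
    intro f hf
    rw [hy f hf]
    exact hz _ (hsS f hf)

theorem g1' (F0 : CommRingCat.{0} ⥤ Type)
    (sep : ∀ (A : CommRingCat.{0}) (s : Finset A), Ideal.span (s : Set A) = ⊤ →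
      ∀ x y : F0.obj A,
        (∀ f ∈ s, F0.map (CommRingCat.ofHom (algebraMap A (Localization.Away f))) x =
          F0.map (CommRingCat.ofHom (algebraMap A (Localization.Away f))) y) → x = y)
    (glue : ∀ (A : CommRingCat.{0}) (s : Finset A), Ideal.span (s : Set A) = ⊤ →
      ∀ x : (∀ f : A, f ∈ s → F0.obj (CommRingCat.of (Localization.Away f))),
        (∀ (f : A) (hf : f ∈ s) (g : A) (hg : g ∈ s) (B : CommRingCat.{0})
          (φ : CommRingCat.of (Localization.Away f) ⟶ B)
          (ψ : CommRingCat.of (Localization.Away g) ⟶ B),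
          CommRingCat.ofHom (algebraMap A (Localization.Away f)) ≫ φ =
            CommRingCat.ofHom (algebraMap A (Localization.Away g)) ≫ ψ →
          F0.map φ (x f hf) = F0.map ψ (x g hg)) →
        ∃ y : F0.obj A, ∀ (f : A) (hf : f ∈ s),
          F0.map (CommRingCat.ofHom (algebraMap A (Localization.Away f))) y = x f hf) :
    ∃ F : Sheaf Scheme.zariskiTopology.{0} Type,
      Nonempty (Scheme.Spec.{0}.rightOp ⋙ F.obj ≅ F0) := by
  have hess := Functor.OneHypercoverDenseData.essSurj (F := Scheme.Spec.{0}) (J₀ := J0)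
    (J := Scheme.zariskiTopology.{0}) (Type)
    (Functor.oneHypercoverDenseData.{0} Scheme.Spec.{0} J0 Scheme.zariskiTopology.{0})
  obtain ⟨F, ⟨e⟩⟩ := hess.mem_essImage ⟨unopUnop CommRingCat.{0} ⋙ F0, lem2 F0 sep glue⟩
  refine ⟨F, ⟨?_⟩⟩
  let e' := (sheafToPresheaf _ _).mapIso e
  exact NatIso.ofComponents (fun A => e'.app (op (op A))) (fun {A B} f => e'.hom.naturality f.op.op)

end Pool.Agent.Helper947.Hil.Lg1

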