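import Mathlib

open CategoryTheory Limits AlgebraicGeometry Opposite

namespace Pool.Agent.Helper947.Hil.Lg2a

theorem g2a_sep (F : Sheaf Scheme.zariskiTopology.{0} Type) {S : Scheme.{0}} (𝒰 : S.OpenCover)
    (x y : F.obj.obj (op S))
    (h : ∀ i, F.obj.map (𝒰.f i).op x = F.obj.map (𝒰.f i).op y) : x = y := by
  have hF : Presieve.IsSheaf Scheme.zariskiTopology F.obj :=
    (isSheaf_iff_isSheaf_of_type _ _).1 F.2
  refine (hF.isSheafFor _ 𝒰.mem_grothendieckTopology).isSeparatedFor.ext ?_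
  rintro Y f ⟨i⟩
  exact h i

theorem g2a_map (F : Sheaf Scheme.zariskiTopology.{0} Type) {S T X : Scheme.{0}} (f : S ⟶ T)
    (g : T ⟶ X) (u : F.obj.obj (op X)) :
    F.obj.map (f ≫ g).op u = F.obj.map f.op (F.obj.map g.op u) := by
  rw [op_comp, Functor.map_comp]; rfl

theorem g2a_mono (F : Sheaf Scheme.zariskiTopology.{0} Type) (X : Scheme.{0})
    (u : F.obj.obj (op X))
    (mono : ∀ (B : CommRingCat.{0}) (ψ ψ' : Spec B ⟶ X),
      F.obj.map ψ.op u = F.obj.map ψ'.op u → ψ = ψ')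
    (S : Scheme.{0}) (ψ ψ' : S ⟶ X) (h : F.obj.map ψ.op u = F.obj.map ψ'.op u) : ψ = ψ' := by
  apply S.affineCover.hom_ext
  intro i
  refine mono _ _ _ ?_
  erw [g2a_map F (S.affineCover.f i) ψ u, g2a_map F (S.affineCover.f i) ψ' u, h]

theorem g2a_glue' (F : Sheaf Scheme.zariskiTopology.{0} Type) (X : Scheme.{0})
    (u : F.obj.obj (op X))
    (hm : ∀ (S : Scheme.{0}) (ψ ψ' : S ⟶ X), F.obj.map ψ.op u = F.obj.map ψ'.op u → ψ = ψ')
    {W : Scheme.{0}} (𝒰 : W.OpenCover) (s : F.obj.obj (op W)) (ψ : ∀ i, 𝒰.X i ⟶ X)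
    (hψ : ∀ i, F.obj.map (ψ i).op u = F.obj.map (𝒰.f i).op s) :
    ∃ ψ : W ⟶ X, F.obj.map ψ.op u = s := by
  have hcomp : ∀ x y, pullback.fst (𝒰.f x) (𝒰.f y) ≫ ψ x = pullback.snd (𝒰.f x) (𝒰.f y) ≫ ψ y := by
    intro x y
    apply hm
    rw [g2a_map F (pullback.fst (𝒰.f x) (𝒰.f y)) (ψ x) u,
      g2a_map F (pullback.snd (𝒰.f x) (𝒰.f y)) (ψ y) u, hψ, hψ,
      ← g2a_map F, ← g2a_map F, pullback.condition]
  refine ⟨𝒰.glueMorphisms ψ hcomp, ?_⟩
  apply g2a_sep F 𝒰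
  intro i
  rw [← g2a_map F (𝒰.f i), 𝒰.ι_glueMorphisms, hψ]

theorem g2a_glue (F : Sheaf Scheme.zariskiTopology.{0} Type) (X : Scheme.{0})
    (u : F.obj.obj (op X))
    (hm : ∀ (S : Scheme.{0}) (ψ ψ' : S ⟶ X), F.obj.map ψ.op u = F.obj.map ψ'.op u → ψ = ψ')
    (T : Scheme.{0}) (t : F.obj.obj (op T)) {J : Type} (U : J → T.Opens)
    (hU : ∀ j, ∃ ψ : (U j : Scheme) ⟶ X, F.obj.map ψ.op u = F.obj.map (U j).ι.op t) :
    ∃ ψ : ((⨆ j, U j : T.Opens) : Scheme) ⟶ X,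
      F.obj.map ψ.op u = F.obj.map (⨆ j, U j : T.Opens).ι.op t := by
  choose ψ hψ using hU
  refine g2a_glue' F X u hm (Scheme.Opens.iSupOpenCover U) _ ψ (fun i => ?_)
  refine (hψ i).trans ?_
  rw [← g2a_map F]
  have : (Scheme.Opens.iSupOpenCover U).f i ≫ (⨆ j, U j : T.Opens).ι = (U i).ι :=
    Scheme.homOfLE_ι _ (le_iSup U i)
  rw [this]
  rfl

/-- Charts which are open for affine test objects are open immersions. -/
theorem _root_.Pool.Agent.Helper947.Hil.g2a (F : Sheaf Scheme.zariskiTopology.{0} Type) (X : Scheme.{0})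
    (u : F.obj.obj (op X))
    (mono : ∀ (B : CommRingCat.{0}) (ψ ψ' : Spec B ⟶ X),
      F.obj.map ψ.op u = F.obj.map ψ'.op u → ψ = ψ')
    (isopen : ∀ (A : CommRingCat.{0}) (x : F.obj.obj (op (Spec A))),
      ∃ W : Set (Spec A), IsOpen W ∧ ∀ (B : CommRingCat.{0}) (φ : Spec B ⟶ Spec A),
        (∃ ψ : Spec B ⟶ X, F.obj.map ψ.op u = F.obj.map φ.op x) ↔
          Set.range φ ⊆ W) :
    IsOpenImmersion.presheaf (yonedaEquiv.symm u) := by
  have hm := g2a_mono F X u mono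
  apply MorphismProperty.relative.of_exists
  intro T g
  obtain ⟨t, ht⟩ : ∃ t : F.obj.obj (op T), t = yonedaEquiv g := ⟨_, rfl⟩
  let J := {V : T.Opens // ∃ ψ : (V : Scheme) ⟶ X, F.obj.map ψ.op u = F.obj.map V.ι.op t}
  obtain ⟨W, hWdef⟩ : ∃ W : T.Opens, W = ⨆ j : J, j.1 := ⟨_, rfl⟩
  obtain ⟨ψ, hψ⟩ : ∃ ψ : (W : Scheme) ⟶ X, F.obj.map ψ.op u = F.obj.map W.ι.op t := by
    rw [hWdef]
    exact g2a_glue F X u hm T t (fun j : J => j.1) (fun j => j.2)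
  have hW1 : ∀ (C : CommRingCat.{0}) (p : Spec C ⟶ T) [IsOpenImmersion p] (χ : Spec C ⟶ X),
      F.obj.map χ.op u = F.obj.map p.op t → ∀ y, p y ∈ W := by
    intro C p _ χ hχ y
    have h1 : p.opensRange ≤ W := by
      rw [hWdef]
      refine le_iSup (fun j : J => j.1) ⟨p.opensRange, p.isoOpensRange.inv ≫ χ, ?_⟩
      rw [g2a_map F, hχ, ← g2a_map F, Scheme.Hom.isoOpensRange_inv_comp]
    exact h1 ⟨y, rfl⟩
  have hW2 : ∀ (S : Scheme.{0}) (a : S ⟶ T) (b : S ⟶ X),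
      F.obj.map b.op u = F.obj.map a.op t → ∀ s, a s ∈ W := by
    intro S a b hab s
    obtain ⟨A, j, hj, ⟨x', hx'⟩, -⟩ := Scheme.exists_affine_mem_range_and_range_subset
      (X := T) (x := a s) (U := ⊤) trivial
    obtain ⟨WA, hWo, hWA⟩ := isopen A (F.obj.map j.op t)
    obtain ⟨B, k, hk, ⟨s', hs'⟩, hksub⟩ := Scheme.exists_affine_mem_range_and_range_subset
      (X := S) (x := s) (U := a ⁻¹ᵁ j.opensRange) ⟨x', hx'⟩
    have hrange : Set.range (k ≫ a) ⊆ Set.range j := by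
      rintro _ ⟨y, rfl⟩
      have := hksub ⟨y, rfl⟩
      simpa using this
    have hfac := IsOpenImmersion.lift_fac j (k ≫ a) hrange
    obtain ⟨φ, hφ⟩ : ∃ φ : Spec B ⟶ Spec A, φ ≫ j = k ≫ a := ⟨_, hfac⟩
    have h1 : ∃ ψ : Spec B ⟶ X, F.obj.map ψ.op u = F.obj.map φ.op (F.obj.map j.op t) := by
      refine ⟨k ≫ b, ?_⟩
      rw [g2a_map F, hab, ← g2a_map F, ← g2a_map F, hφ]
    have h2 := (hWA B φ).1 h1
    have h3 : φ s' ∈ WA := h2 ⟨s', rfl⟩
    obtain ⟨C, m, hmo, ⟨c, hc⟩, hmsub⟩ := Scheme.exists_affine_mem_range_and_range_subset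
      (X := Spec A) (x := φ s') (U := ⟨WA, hWo⟩) h3
    obtain ⟨χ, hχ⟩ := (hWA C m).2 hmsub
    have h4 := hW1 C (m ≫ j) χ (by rw [hχ, ← g2a_map F]) c
    have h5 : (m ≫ j) c = a s := by
      rw [Scheme.Hom.comp_apply, hc, ← Scheme.Hom.comp_apply, hφ, Scheme.Hom.comp_apply, hs']
    rw [← h5]; exact h4
  refine ⟨W, yoneda.map ψ, W.ι, ?_, inferInstance⟩
  have hcomm : yoneda.map ψ ≫ yonedaEquiv.symm u = yoneda.map W.ι ≫ g := by
    apply yonedaEquiv.injective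
    rw [← yonedaEquiv_naturality, ← yonedaEquiv_naturality, Equiv.apply_symm_apply, ← ht]
    exact hψ
  apply IsPullback.of_forall_isPullback_app
  intro S
  rw [Types.isPullback_iff]
  refine ⟨?_, ?_, ?_⟩
  · rw [← NatTrans.comp_app, ← NatTrans.comp_app, hcomm]
  · rintro (c1 : S.unop ⟶ _) (c2 : S.unop ⟶ _) ⟨-, h2⟩
    have h2' : c1 ≫ W.ι = c2 ≫ W.ι := h2
    exact (cancel_mono W.ι).1 h2'
  · rintro (b : S.unop ⟶ X) (a : S.unop ⟶ T) hab
    have hab' : F.obj.map b.op u = F.obj.map a.op t := by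
      have e1 : (yonedaEquiv.symm u).app S b = F.obj.map b.op u := rfl
      have e2 : F.obj.map a.op (yonedaEquiv g) = g.app S a := map_yonedaEquiv g a
      rw [ht, e2, ← e1]
      exact hab
    have hr : Set.range a ⊆ Set.range W.ι := by
      rw [Scheme.Opens.range_ι]
      rintro _ ⟨s, rfl⟩
      exact hW2 S.unop a b hab' s
    refine ⟨IsOpenImmersion.lift W.ι a hr, ?_, ?_⟩
    · have h6 : IsOpenImmersion.lift W.ι a hr ≫ ψ = b := by
        apply hm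
        rw [g2a_map F, hψ, ← g2a_map F, IsOpenImmersion.lift_fac, hab']
      exact h6
    · exact IsOpenImmersion.lift_fac W.ι a hr

end Pool.Agent.Helper947.Hil.Lg2a

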