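import Mathlib

open CategoryTheory Limits AlgebraicGeometry Opposite

namespace Pool.Agent.Helper947.Hil.Lg2b

theorem g2b_affine (F : Sheaf Scheme.zariskiTopology.{0} Type) {ι : Type} (X : ι → Scheme.{0})
    (u : ∀ i, F.obj.obj (op (X i)))
    (cover : ∀ (A : CommRingCat.{0}) (x : F.obj.obj (op (Spec A))) (p : Spec A),
      ∃ (i : ι) (B : CommRingCat.{0}) (φ : Spec B ⟶ Spec A) (ψ : Spec B ⟶ X i),
        IsOpenImmersion φ ∧ p ∈ Set.range φ ∧ F.obj.map ψ.op (u i) = F.obj.map φ.op x)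
    (A : CommRingCat.{0}) (x : F.obj.obj (op (Spec A))) :
    Presheaf.imageSieve (Sigma.desc (fun i => yonedaEquiv.symm (u i))) x ∈
      Scheme.zariskiTopology.{0} (Spec A) := by
  choose i B φ ψ hφ hp he using cover A x
  let 𝒰 : (Spec A).OpenCover := Scheme.Cover.mkOfCovers (Spec A) (fun p => Spec (B p))
    (fun p => φ p) (fun p => ⟨p, hp p⟩) (fun p => hφ p)
  refine Scheme.zariskiTopology.superset_covering ?_ 𝒰.mem_grothendieckTopology
  rintro W _ ⟨_, g, _, ⟨p⟩, rfl⟩
  apply Sieve.downward_closed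
  refine ⟨(Sigma.ι (fun i => yoneda.obj (X i)) (i p)).app (op (Spec (B p))) (ψ p), ?_⟩
  have h1 := Sigma.ι_desc (fun i => yonedaEquiv.symm (u i)) (i p)
  have h2 := congrArg (fun α => α.app (op (Spec (B p))) (ψ p)) h1
  refine Eq.trans ?_ (he p)
  exact h2

/-- Local representability with affine test objects. -/
theorem _root_.Pool.Agent.Helper947.Hil.g2b (F : Sheaf Scheme.zariskiTopology.{0} Type) {ι : Type} (X : ι → Scheme.{0})
    (u : ∀ i, F.obj.obj (op (X i)))
    (hop : ∀ i, IsOpenImmersion.presheaf (yonedaEquiv.symm (u i)))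
    (cover : ∀ (A : CommRingCat.{0}) (x : F.obj.obj (op (Spec A))) (p : Spec A),
      ∃ (i : ι) (B : CommRingCat.{0}) (φ : Spec B ⟶ Spec A) (ψ : Spec B ⟶ X i),
        IsOpenImmersion φ ∧ p ∈ Set.range φ ∧ F.obj.map ψ.op (u i) = F.obj.map φ.op x) :
    ∃ H : Scheme.{0}, Nonempty (F.obj.RepresentableBy H) := by
  haveI hls : Presheaf.IsLocallySurjective Scheme.zariskiTopology.{0}
      (Sigma.desc (fun i => yonedaEquiv.symm (u i))) := by
    constructor
    intro T s
    refine Scheme.zariskiTopology.transitive (T.affineCover.mem_grothendieckTopology) _ ?_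
    rintro Y _ ⟨W, g, _, ⟨j⟩, rfl⟩
    rw [Sieve.pullback_comp]
    apply Scheme.zariskiTopology.pullback_stable
    rw [Presheaf.pullback_imageSieve]
    exact g2b_affine F X u cover _ _
  exact ⟨_, ⟨Scheme.LocalRepresentability.representableBy hop⟩⟩

end Pool.Agent.Helper947.Hil.Lg2b

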