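import Mathlib
import Pool.Agent.Helper947.Hil.G1
import Pool.Agent.Helper947.Hil.G2A
import Pool.Agent.Helper947.Hil.G2B

open CategoryTheory Limits AlgebraicGeometry Opposite

namespace Pool.Agent.Helper947.Hil.Lg3

/-- Local representability for functors on rings. -/
theorem _root_.Pool.Agent.Helper947.Hil.g3 (F0 : CommRingCat.{0} ⥤ Type)
    (sep : ∀ (A : CommRingCat.{0}) (s : Finset A), Ideal.span (s : Set A) = ⊤ →
      ∀ x y : F0.obj A,
        (∀ f ∈ s, F0.map (CommRingCat.ofHom (algebraMap A (Localization.Away f))) x =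
          F0.map (CommRingCat.ofHom (algebraMap A (Localization.Away f))) y) → x = y)
    (glue : ∀ (A : CommRingCat.{0}) (s : Finset A), Ideal.span (s : Set A) = ⊤ →
      ∀ x : (∀ f : A, f ∈ s → F0.obj (CommRingCat.of (Localization.Away f))),
        (∀ (f : A) (hf : f ∈ s) (g : A) (hg : g ∈ s) (B : CommRingCat.{0})
          (φ : CommRingCat.of (Localization.Away f) ⟶ B)
          (ψ : CommRingCat.of (Localization.Away g) ⟶ B),
          CommRingCat.ofHom (algebraMap A (Localization.Away f)) ≫ φ =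
            CommRingCat.ofHom (algebraMap A (Localization.Away g)) ≫ ψ →
          F0.map φ (x f hf) = F0.map ψ (x g hg)) →
        ∃ y : F0.obj A, ∀ (f : A) (hf : f ∈ s),
          F0.map (CommRingCat.ofHom (algebraMap A (Localization.Away f))) y = x f hf)
    {ι : Type} (R : ι → CommRingCat.{0}) (u : ∀ i, F0.obj (R i))
    (mono : ∀ i (B : CommRingCat.{0}) (ψ ψ' : R i ⟶ B),
      F0.map ψ (u i) = F0.map ψ' (u i) → ψ = ψ')
    (isopen : ∀ i (A : CommRingCat.{0}) (x : F0.obj A),
      ∃ W : Set (PrimeSpectrum A), IsOpen W ∧ ∀ (B : CommRingCat.{0}) (φ : A ⟶ B),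
        (∃ ψ : R i ⟶ B, F0.map ψ (u i) = F0.map φ x) ↔
          ∀ q : PrimeSpectrum B, PrimeSpectrum.comap φ.hom q ∈ W)
    (cover : ∀ (A : CommRingCat.{0}) (x : F0.obj A) (p : PrimeSpectrum A),
      ∃ (i : ι) (a : A), a ∉ p.asIdeal ∧ ∃ ψ : R i ⟶ CommRingCat.of (Localization.Away a),
        F0.map ψ (u i) = F0.map (CommRingCat.ofHom (algebraMap A (Localization.Away a))) x) :
    ∃ (H : Scheme.{0}) (e : ∀ A : CommRingCat.{0}, (Spec A ⟶ H) ≃ F0.obj A),
      ∀ (A B : CommRingCat.{0}) (φ : A ⟶ B) (f : Spec A ⟶ H),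
        e B (Spec.map φ ≫ f) = F0.map φ (e A f) := by
  obtain ⟨F, ⟨α⟩⟩ := Lg1.g1' F0 sep glue
  let E : ∀ A : CommRingCat.{0}, F.obj.obj (op (Spec A)) ≃ F0.obj A := fun A => (α.app A).toEquiv
  have nat : ∀ (A B : CommRingCat.{0}) (φ : A ⟶ B) (x : F.obj.obj (op (Spec A))),
      E B (F.obj.map (Spec.map φ).op x) = F0.map φ (E A x) := by
    intro A B φ x
    exact α.hom.naturality_apply φ x
  have nat' : ∀ (A B : CommRingCat.{0}) (φ : A ⟶ B) (y : F0.obj A),
      F.obj.map (Spec.map φ).op ((E A).symm y) = (E B).symm (F0.map φ y) := by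
    intro A B φ y
    apply (E B).injective
    rw [nat, Equiv.apply_symm_apply, Equiv.apply_symm_apply]
  have hX : ∀ (i : ι) (A B : CommRingCat.{0}) (ψ : R i ⟶ B) (φ : A ⟶ B) (x : F.obj.obj (op (Spec A))),
      F.obj.map (Spec.map ψ).op ((E (R i)).symm (u i)) = F.obj.map (Spec.map φ).op x ↔
        F0.map ψ (u i) = F0.map φ (E A x) := by
    intro i A B ψ φ x
    rw [nat', ← nat, Equiv.symm_apply_eq]
  have h1 : ∀ i, IsOpenImmersion.presheaf (yonedaEquiv.symm ((E (R i)).symm (u i)) : yoneda.obj (Spec (R i)) ⟶ F.obj) := by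
    intro i
    refine g2a F (Spec (R i)) ((E (R i)).symm (u i)) ?_ ?_
    · intro B ψ ψ' h
      rw [← Spec.map_preimage ψ, ← Spec.map_preimage ψ'] at h ⊢
      rw [nat', nat'] at h
      rw [mono i B _ _ ((E B).symm.injective h)]
    · intro A x
      obtain ⟨W, hW, hW'⟩ := isopen i A (E A x)
      refine ⟨W, hW, ?_⟩
      intro B φ
      have h2 := hW' B (Spec.preimage φ)
      constructor
      · rintro ⟨ψ, hψ⟩
        rw [← Spec.map_preimage ψ, ← Spec.map_preimage φ, hX] at hψ
        have h3 := h2.1 ⟨_, hψ⟩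
        rintro _ ⟨q, rfl⟩
        have h4 := h3 q
        have h5 : φ q = PrimeSpectrum.comap (Spec.preimage φ).hom q := by
          conv_lhs => rw [← Spec.map_preimage φ]
          rfl
        rw [h5]; exact h4
      · intro hr
        obtain ⟨ψ, hψ⟩ := h2.2 (by
          intro q
          have h5 : φ q = PrimeSpectrum.comap (Spec.preimage φ).hom q := by
            conv_lhs => rw [← Spec.map_preimage φ]
            rfl
          rw [← h5]
          exact hr ⟨q, rfl⟩)
        refine ⟨Spec.map ψ, ?_⟩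
        rw [← Spec.map_preimage φ, hX]
        exact hψ
  obtain ⟨H, ⟨rep⟩⟩ := g2b F (fun i => Spec (R i)) (fun i => (E (R i)).symm (u i)) h1 (by
    intro A x p
    obtain ⟨i, a, ha, ψ, hψ⟩ := cover A (E A x) p
    refine ⟨i, CommRingCat.of (Localization.Away a),
      Spec.map (CommRingCat.ofHom (algebraMap A (Localization.Away a))), Spec.map ψ, ?_, ?_, ?_⟩
    · infer_instance
    · have hr := PrimeSpectrum.localization_away_comap_range (Localization.Away a) a
      have hp : p ∈ Set.range (PrimeSpectrum.comap (algebraMap A (Localization.Away a))) := by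
        rw [hr]
        exact ha
      obtain ⟨q, hq⟩ := hp
      exact ⟨q, hq⟩
    · exact (hX i A _ ψ _ x).2 hψ)
  refine ⟨H, fun A => rep.homEquiv.trans (E A), ?_⟩
  intro A B φ f
  show E B (rep.homEquiv (Spec.map φ ≫ f)) = F0.map φ (E A (rep.homEquiv f))
  rw [rep.homEquiv_comp, nat]

end Pool.Agent.Helper947.Hil.Lg3

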