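import Mathlib
import Pool.Agent.Helper947.Hil.Defs
import Pool.Agent.Helper947.Hil.B1

set_option autoImplicit false

open MvPolynomial CategoryTheory CategoryTheory.Limits AlgebraicGeometry

namespace Pool.Agent.Helper947.Hil.Lh1

open Pool.Agent.Helper947.Crv

theorem pol_single {A : Type} [CommRing A] (n : ℕ) (u : Mon n) (a : A) :
    pol n (Pi.single u a) = (monomial u.1 a : Pl A) := by
  classical
  rw [pol, Fintype.linearCombination_apply_single, smul_monomial, smul_eq_mul, mul_one]

/-- the coefficient vector of a generator -/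
noncomputable def gv {A : Type} [CommRing A] {m : ℕ} (B : Finset (Mon m))
    (c : {r : Mon m // r ∉ B} × {b : Mon m // b ∈ B} → A) (r : {r : Mon m // r ∉ B}) : Mon m → A :=
  Pi.single r.1 1 - ∑ b : {b : Mon m // b ∈ B}, Pi.single b.1 (c (r, b))

theorem pol_gv {A : Type} [CommRing A] {m : ℕ} (B : Finset (Mon m))
    (c : {r : Mon m // r ∉ B} × {b : Mon m // b ∈ B} → A) (r : {r : Mon m // r ∉ B}) :
    pol m (gv B c r) =
      (monomial r.1.1 (1 : A) - ∑ b : {b : Mon m // b ∈ B}, monomial b.1.1 (c (r, b)) : Pl A) := by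
  rw [gv, map_sub, pol_single, map_sum]
  congr 1
  refine Finset.sum_congr rfl fun b _ => ?_
  rw [pol_single]

theorem JB_eq {A : Type} [CommRing A] {m : ℕ} (B : Finset (Mon m))
    (c : {r : Mon m // r ∉ B} × {b : Mon m // b ∈ B} → A) :
    JB B c = Ideal.span (Set.range fun r => pol m (gv B c r)) := by
  rw [JB]
  congr 2
  funext r
  exact (pol_gv B c r).symm

/-- the component of degree `m` of the product with a form of degree `m` -/
theorem hc_mul {A : Type} [CommRing A] {m : ℕ} {g : Pl A} (hg : g ∈ Fm A m) (q : Pl A) :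
    homogeneousComponent m (q * g) = (constantCoeff q) • g := by
  induction q using MvPolynomial.induction_on' with
  | monomial u a =>
    have h1 : (monomial u a * g : Pl A) ∈ Fm A (u.degree + m) := by
      rw [mem_homogeneousSubmodule]
      exact (isHomogeneous_monomial a rfl).mul hg
    rw [homogeneousComponent_of_mem h1]
    by_cases hu : u = 0
    · subst hu
      rw [map_zero, zero_add, if_pos rfl]
      rw [show (monomial (0 : Fin 4 →₀ ℕ) a : Pl A) = C a from rfl, constantCoeff_C, C_mul']
    · have hd : u.degree ≠ 0 := by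
        intro h
        exact hu ((Finsupp.degree_eq_zero_iff u).mp h)
      rw [if_neg (by omega), constantCoeff_monomial, if_neg hu, zero_smul]
  | add p q hp hq =>
    rw [add_mul, map_add, hp, hq, map_add, add_smul]

theorem _root_.Pool.Agent.Helper947.Hil.JB_ext {A A' : Type} [CommRing A] [CommRing A'] (φ : A →+* A') {m : ℕ}
    (B : Finset (Mon m)) (c : {r : Mon m // r ∉ B} × {b : Mon m // b ∈ B} → A) :
    ext φ (JB B c) = JB B (fun i => φ (c i)) := by
  rw [ext, JB, JB, Ideal.map_span, ← Set.range_comp]
  congr 2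
  funext r
  simp only [Function.comp_apply, map_sub, map_sum, map_monomial, map_one]

theorem _root_.Pool.Agent.Helper947.Hil.Hom_JB {A : Type} [CommRing A] {m : ℕ} (B : Finset (Mon m))
    (c : {r : Mon m // r ∉ B} × {b : Mon m // b ∈ B} → A) : Hom (JB B c) := by
  classical
  letI := MvPolynomial.gradedAlgebra (σ := Fin 4) (R := A)
  have h1 : (JB B c).IsHomogeneous (homogeneousSubmodule (Fin 4) A) := by
    rw [JB_eq]
    apply Ideal.homogeneous_span
    rintro x ⟨r, rfl⟩
    exact ⟨m, pol_mem m _⟩
  intro p hp k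
  have h2 := h1 k hp
  have h3 : ((DirectSum.decompose (homogeneousSubmodule (Fin 4) A) p) k : Pl A) =
      homogeneousComponent k p := MvPolynomial.decomposition.decompose'_apply p k
  rwa [h3] at h2

theorem _root_.Pool.Agent.Helper947.Hil.Kn_JB {A : Type} [CommRing A] {m : ℕ} (B : Finset (Mon m))
    (c : {r : Mon m // r ∉ B} × {b : Mon m // b ∈ B} → A) : Kn (JB B c) m = gr B c := by
  classical
  have hgr : gr B c = Submodule.span A (Set.range (gv B c)) := by
    rw [gr]
    rfl
  rw [hgr]
  apply le_antisymm
  · intro v hv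
    have h1 : pol m v ∈ JB B c := hv
    rw [JB_eq, Ideal.mem_span_range_iff_exists_fun] at h1
    obtain ⟨q, hq⟩ := h1
    have h2 := congrArg (homogeneousComponent m) hq
    rw [map_sum, homogeneousComponent_of_mem (pol_mem m v), if_pos rfl] at h2
    have h3 : pol m v = pol m (∑ r, constantCoeff (q r) • gv B c r) := by
      rw [← h2, map_sum]
      refine Finset.sum_congr rfl fun r _ => ?_
      rw [hc_mul (pol_mem m _), map_smul]
    rw [pol_injective m h3]
    exact Submodule.sum_mem _ fun r _ => Submodule.smul_mem _ _ (Submodule.subset_span ⟨r, rfl⟩)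
  · rw [Submodule.span_le]
    rintro _ ⟨r, rfl⟩
    show pol m (gv B c r) ∈ JB B c
    rw [JB_eq]
    exact Ideal.subset_span ⟨r, rfl⟩

end Pool.Agent.Helper947.Hil.Lh1

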