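import Mathlib
import Pool.Agent.Helper947.Hil.Defs
import Pool.Agent.Helper947.Hil.A5
import Pool.Agent.Helper947.Hil.B1
import Pool.Agent.Helper947.Hil.B2
import Pool.Agent.Helper947.Hil.B3

set_option autoImplicit false

open MvPolynomial CategoryTheory CategoryTheory.Limits AlgebraicGeometry

namespace Pool.Agent.Helper947.Hil.Lh2

open Pool.Agent.Helper947.Crv

/-- leading monomials modulo a prime -/
def GD {R : Type} [CommRing R] (J : Ideal (Pl R)) (p : Ideal R) (u : Fin 4 →₀ ℕ) : Prop :=
  ∃ f ∈ J, f ∈ Fm R u.degree ∧ coeff u f ∉ p ∧ ∀ w, toLex u < toLex w → coeff w f ∈ p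

theorem Mon_degree {n : ℕ} (u : Mon n) : u.1.degree = n := by
  have h := (Finset.mem_finsuppAntidiag.mp u.2).1
  rw [Finsupp.degree_eq_sum]
  exact h

theorem exists_good {R : Type} [CommRing R] (J : Ideal (Pl R)) (p : Ideal R) [hp : p.IsPrime] :
    ∃ a ∉ p, ∀ w : Fin 4 →₀ ℕ, GD J p w → ∃ f ∈ J, f ∈ Fm R w.degree ∧
      (∀ q : Ideal R, q.IsPrime → a ∉ q → coeff w f ∉ q) ∧
      ∀ w', toLex w < toLex w' → coeff w' f ∈ p := by
  classical
  let M : Set (Fin 4 →₀ ℕ) := {u | Minimal (GD J p) u}
  have hM : M.Finite := by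
    refine WellQuasiOrderedLE.finite_of_isAntichain ?_
    intro u hu v hv huv hle
    exact huv (le_antisymm hle (hv.2 hu.1 hle))
  have hMG : ∀ u ∈ M, GD J p u := fun u hu => hu.1
  choose! F hFJ hFd hFc hFw using hMG
  let c : (Fin 4 →₀ ℕ) → R := fun u => coeff u (F u)
  refine ⟨∏ u ∈ hM.toFinset, c u, ?_, ?_⟩
  · intro h
    rw [hp.prod_mem_iff] at h
    obtain ⟨u, hu, hu'⟩ := h
    exact hFc u (hM.mem_toFinset.mp hu) hu'
  · intro w hw
    obtain ⟨m, hmw, hm⟩ := exists_minimal_le_of_wellFoundedLT (GD J p) w hw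
    obtain ⟨s, rfl⟩ : ∃ s, w = s + m := ⟨w - m, (tsub_add_cancel_of_le hmw).symm⟩
    refine ⟨monomial s 1 * F m, J.mul_mem_left _ (hFJ m hm), ?_, ?_, ?_⟩
    · rw [map_add]
      have h1 : (monomial s (1 : R)).IsHomogeneous s.degree := isHomogeneous_monomial _ rfl
      have h2 : (F m).IsHomogeneous m.degree := hFd m hm
      exact h1.mul h2
    · intro q hq haq hcq
      rw [coeff_monomial_mul, one_mul] at hcq
      exact haq (q.mem_of_dvd (Finset.dvd_prod_of_mem c (hM.mem_toFinset.mpr hm)) hcq)
    · intro w' hw'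
      rw [coeff_monomial_mul']
      split_ifs with hs
      · rw [one_mul]
        obtain ⟨t, rfl⟩ : ∃ t, w' = s + t := ⟨w' - s, (add_tsub_cancel_of_le hs).symm⟩
        rw [add_tsub_cancel_left]
        refine hFw m hm t ?_
        have h3 : toLex s + toLex m < toLex s + toLex t := hw'
        exact (add_lt_add_iff_left _).mp h3
      · exact p.zero_mem

theorem _root_.Pool.Agent.Helper947.Hil.generic_hf {R : Type} [CommRing R] (J : Ideal (Pl R)) (hJ : Hom J)
    (p : PrimeSpectrum R) : ∃ a ∉ p.asIdeal, ∃ h : ℕ → ℕ, ∀ q : PrimeSpectrum R,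
      p.asIdeal ≤ q.asIdeal → a ∉ q.asIdeal → ∀ n, hf (fib q J) n = h n := by
  classical
  obtain ⟨a, ha, H⟩ := exists_good J p.asIdeal
  refine ⟨a, ha, fun n => Fintype.card (Mon n) -
    Fintype.card {u : Mon n // GD J p.asIdeal u.1}, ?_⟩
  intro q hpq haq n
  rw [← FR_iff_hf, FR_iff_field]
  set k := q.asIdeal.ResidueField
  let φ : R →+* k := algebraMap R k
  have hφ : ∀ x, φ x = 0 ↔ x ∈ q.asIdeal := fun x => Ideal.algebraMap_residueField_eq_zero
  -- the vectors
  have hv : ∀ u : {u : Mon n // GD J p.asIdeal u.1}, ∃ v ∈ Kn J n, v u.1 ∉ q.asIdeal ∧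
      ∀ w : Mon n, toLex u.1.1 < toLex w.1 → v w ∈ p.asIdeal := by
    rintro ⟨u, hu⟩
    obtain ⟨f, hfJ, hfd, hfc, hfw⟩ := H u.1 hu
    rw [Mon_degree u] at hfd
    obtain ⟨v, hvf⟩ := exists_pol n f hfd
    refine ⟨v, ?_, ?_, ?_⟩
    · change pol n v ∈ J
      rw [hvf]
      exact hfJ
    · rw [← coeff_pol n v u, hvf]
      exact hfc q.asIdeal q.isPrime haq
    · intro w hw
      rw [← coeff_pol n v w, hvf]
      exact hfw w.1 hw
  choose V hVK hVu hVw using hv
  let gv : {u : Mon n // GD J p.asIdeal u.1} → (Mon n → k) := fun u w => φ (V u w)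
  -- converse: leading monomials are good
  have hgood : ∀ (v : Mon n → R) (u : Mon n), v ∈ Kn J n → v u ∉ p.asIdeal →
      (∀ w : Mon n, toLex u.1 < toLex w.1 → v w ∈ p.asIdeal) → GD J p.asIdeal u.1 := by
    intro v u hvK hvu hvw
    refine ⟨pol n v, hvK, ?_, ?_, ?_⟩
    · rw [Mon_degree u]
      exact pol_mem n v
    · rw [coeff_pol]
      exact hvu
    · intro w hw
      by_cases hd : w.degree = n
      · have hwm : w ∈ Finset.finsuppAntidiag (Finset.univ : Finset (Fin 4)) n := by
          rw [Finset.mem_finsuppAntidiag]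
          refine ⟨?_, Finset.subset_univ _⟩
          rw [← hd, Finsupp.degree_eq_sum]
        have := hvw ⟨w, hwm⟩ hw
        rw [← coeff_pol n v ⟨w, hwm⟩] at this
        exact this
      · have h1 : (pol n v).IsHomogeneous n := pol_mem n v
        have h2 : coeff w (pol n v) = 0 := h1.coeff_eq_zero hd
        rw [h2]
        exact p.asIdeal.zero_mem
  -- linear independence
  have hli : LinearIndependent k gv := by
    rw [linearIndependent_iff']
    intro s g hsum
    by_contra hcon
    push Not at hcon
    obtain ⟨i0, hi0, hgi0⟩ := hcon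
    obtain ⟨u, hu, hmax⟩ := Finset.exists_max_image (s.filter (fun i => g i ≠ 0))
      (fun i => toLex i.1.1) ⟨i0, Finset.mem_filter.mpr ⟨hi0, hgi0⟩⟩
    rw [Finset.mem_filter] at hu
    have h1 := congrFun hsum u.1
    rw [Finset.sum_apply, Pi.zero_apply] at h1
    rw [Finset.sum_eq_single u] at h1
    · simp only [Pi.smul_apply, smul_eq_mul, mul_eq_zero] at h1
      rcases h1 with h1 | h1
      · exact hu.2 h1
      · exact hVu u ((hφ _).mp h1)
    · intro b hb hbu
      simp only [Pi.smul_apply, smul_eq_mul]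
      by_cases hgb : g b = 0
      · rw [hgb, zero_mul]
      · have h2 := hmax b (Finset.mem_filter.mpr ⟨hb, hgb⟩)
        have h3 : toLex b.1.1 < toLex u.1.1 := by
          refine lt_of_le_of_ne h2 ?_
          intro h
          exact hbu (Subtype.ext (Subtype.ext (toLex.injective h)))
        have h4 : φ (V b u.1) = 0 := (hφ _).mpr (hpq (hVw b u.1 h3))
        change g b * φ (V b u.1) = 0
        rw [h4, mul_zero]
    · intro h
      exact absurd hu.1 h
  -- the span
  let rk : Mon n → ℕ := fun w =>
    ((Finset.univ : Finset (Mon n)).filter (fun w' => toLex w'.1 < toLex w.1)).card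
  have hrk : ∀ w w' : Mon n, toLex w.1 < toLex w'.1 → rk w < rk w' := by
    intro w w' h
    refine Finset.card_lt_card ?_
    rw [Finset.ssubset_iff_of_subset]
    · exact ⟨w, by simp [h], by simp⟩
    · intro x hx
      simp only [Finset.mem_filter, Finset.mem_univ, true_and] at hx ⊢
      exact hx.trans h
  have hspan : ∀ (N : ℕ) (v : Mon n → R), v ∈ Kn J n → (∀ w, v w ∉ p.asIdeal → rk w < N) →
      (fun w => φ (v w)) ∈ Submodule.span k (Set.range gv) := by
    intro N
    induction N with
    | zero =>
      intro v _ hvw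
      have h1 : (fun w => φ (v w)) = 0 := by
        funext w
        refine (hφ _).mpr (hpq ?_)
        by_contra h
        exact Nat.not_lt_zero _ (hvw w h)
      rw [h1]
      exact Submodule.zero_mem _
    | succ N ih =>
      intro v hvK hvw
      by_cases h0 : ∃ w0, v w0 ∉ p.asIdeal ∧ rk w0 = N
      · obtain ⟨w0, hw0, hr0⟩ := h0
        have hlt : ∀ w : Mon n, toLex w0.1 < toLex w.1 → v w ∈ p.asIdeal := by
          intro w hw
          by_contra h
          have h1 := hvw w h
          have h2 := hrk w0 w hw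
          omega
        have hG := hgood v w0 hvK hw0 hlt
        let u0 : {u : Mon n // GD J p.asIdeal u.1} := ⟨w0, hG⟩
        let v' : Mon n → R := (V u0 w0) • v - (v w0) • V u0
        have hv'K : v' ∈ Kn J n :=
          (Kn J n).sub_mem ((Kn J n).smul_mem _ hvK) ((Kn J n).smul_mem _ (hVK u0))
        have hv'w : ∀ w, v' w = V u0 w0 * v w - v w0 * V u0 w := fun w => rfl
        have h1 := ih v' hv'K (by
          intro w hw
          have h2 : rk w ≤ N := by
            by_cases h3 : v w ∈ p.asIdeal
            · have h4 : V u0 w ∉ p.asIdeal := by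
                intro h5
                apply hw
                rw [hv'w]
                exact p.asIdeal.sub_mem (p.asIdeal.mul_mem_left _ h3) (p.asIdeal.mul_mem_left _ h5)
              have h6 : ¬ toLex w0.1 < toLex w.1 := fun h7 => h4 (hVw u0 w h7)
              rw [not_lt] at h6
              rcases h6.lt_or_eq with h7 | h7
              · have := hrk w w0 h7
                omega
              · have h8 : w = w0 := Subtype.ext (toLex.injective h7)
                rw [h8]
                omega
            · have := hvw w h3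
              omega
          refine lt_of_le_of_ne h2 ?_
          intro h3
          have h4 : w = w0 := by
            rcases lt_trichotomy (toLex w.1) (toLex w0.1) with h5 | h5 | h5
            · have := hrk w w0 h5; omega
            · exact Subtype.ext (toLex.injective h5)
            · have := hrk w0 w h5; omega
          apply hw
          rw [hv'w, h4, mul_comm, sub_self]
          exact p.asIdeal.zero_mem)
        have hc : φ (V u0 w0) ≠ 0 := fun h => hVu u0 ((hφ _).mp h)
        have h2 : (fun w => φ (v w)) = (φ (V u0 w0))⁻¹ •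
            ((fun w => φ (v' w)) + φ (v w0) • gv u0) := by
          funext w
          simp only [Pi.smul_apply, Pi.add_apply, smul_eq_mul, hv'w, map_sub, map_mul]
          change φ (v w) = (φ (V u0 w0))⁻¹ * (φ (V u0 w0) * φ (v w) - φ (v w0) * φ (V u0 w) +
            φ (v w0) * φ (V u0 w))
          rw [sub_add_cancel, inv_mul_cancel_left₀ hc]
        rw [h2]
        exact Submodule.smul_mem _ _ (Submodule.add_mem _ h1
          (Submodule.smul_mem _ _ (Submodule.subset_span ⟨u0, rfl⟩)))
      · refine ih v hvK ?_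
        intro w hw
        have h1 := hvw w hw
        refine lt_of_le_of_ne (by omega) ?_
        intro h2
        exact h0 ⟨w, hw, h2⟩
  have hK : Kn (fib q J) n = Submodule.span k (Set.range gv) := by
    rw [Kn_ext _ hJ]
    apply le_antisymm
    · unfold bcK
      rw [Submodule.span_le]
      rintro _ ⟨v, hv, rfl⟩
      refine hspan (Fintype.card (Mon n) + 1) v hv ?_
      intro w _
      have h1 : rk w ≤ Fintype.card (Mon n) := Finset.card_le_univ _
      omega
    · rw [Submodule.span_le]
      rintro _ ⟨u, rfl⟩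
      exact Submodule.subset_span ⟨V u, hVK u, rfl⟩
  rw [Submodule.finrank_quotient, hK, finrank_span_eq_card hli, Module.finrank_fintype_fun_eq_card]

end Pool.Agent.Helper947.Hil.Lh2

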