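import Mathlib
import Pool.Agent.Helper947.Hil.Defs
import Pool.Agent.Helper947.Hil.H2

set_option autoImplicit false

open MvPolynomial CategoryTheory CategoryTheory.Limits AlgebraicGeometry

namespace Pool.Agent.Helper947.Hil.Lh3

open Pool.Agent.Helper947.Crv

theorem finite_hf_aux {R : Type} [CommRing R] [IsNoetherianRing R] (J : Ideal (Pl R)) (hJ : Hom J) :
    ∀ 𝔟 : Ideal R, ((fun (p : PrimeSpectrum R) (n : ℕ) => hf (fib p J) n) ''
      {p : PrimeSpectrum R | 𝔟 ≤ p.asIdeal}).Finite := by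
  intro 𝔟
  refine IsNoetherian.induction (R := R) (M := R) (P := fun 𝔟 : Ideal R =>
    ((fun (p : PrimeSpectrum R) (n : ℕ) => hf (fib p J) n) ''
      {p : PrimeSpectrum R | 𝔟 ≤ p.asIdeal}).Finite) ?_ 𝔟
  intro 𝔟 ih
  have hlt : ∀ x : R, x ∉ 𝔟 → 𝔟 < 𝔟 ⊔ Ideal.span {x} := by
    intro x hx
    refine lt_of_le_of_ne le_sup_left fun h => hx ?_
    rw [h]
    exact Ideal.mem_sup_right (Ideal.mem_span_singleton_self x)
  have hsup : ∀ (x : R) (p : PrimeSpectrum R), 𝔟 ≤ p.asIdeal → x ∈ p.asIdeal →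
      𝔟 ⊔ Ideal.span {x} ≤ p.asIdeal := by
    intro x p h1 h2
    exact sup_le h1 ((Ideal.span_singleton_le_iff_mem _).2 h2)
  by_cases htop : 𝔟 = ⊤
  · have h : {p : PrimeSpectrum R | 𝔟 ≤ p.asIdeal} = ∅ := by
      ext p
      constructor
      · intro hp
        have hp' : 𝔟 ≤ p.asIdeal := hp
        rw [htop, top_le_iff] at hp'
        exact absurd hp' p.isPrime.ne_top
      · intro hp
        exact absurd hp (Set.notMem_empty p)
    rw [h, Set.image_empty]
    exact Set.finite_empty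
  by_cases hprime : Ideal.IsPrime 𝔟
  · obtain ⟨a, ha, h, hh⟩ := generic_hf J hJ ⟨𝔟, hprime⟩
    refine ((Set.finite_singleton h).union (ih _ (hlt a ha))).subset ?_
    rintro _ ⟨q, hq, rfl⟩
    by_cases haq : a ∈ q.asIdeal
    · right
      exact ⟨q, hsup a q hq haq, rfl⟩
    · left
      rw [Set.mem_singleton_iff]
      funext n
      exact hh q hq haq n
  · have hxy : ∃ x y : R, x * y ∈ 𝔟 ∧ x ∉ 𝔟 ∧ y ∉ 𝔟 := by
      by_contra hcon
      apply hprime
      rw [Ideal.isPrime_iff]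
      refine ⟨htop, fun {x y} hxy => ?_⟩
      by_contra hn
      push Not at hn
      exact hcon ⟨x, y, hxy, hn.1, hn.2⟩
    obtain ⟨x, y, hxy, hx, hy⟩ := hxy
    refine ((ih _ (hlt x hx)).union (ih _ (hlt y hy))).subset ?_
    rintro _ ⟨q, hq, rfl⟩
    rcases q.isPrime.mem_or_mem (hq hxy) with h | h
    · left
      exact ⟨q, hsup x q hq h, rfl⟩
    · right
      exact ⟨q, hsup y q hq h, rfl⟩

theorem _root_.Pool.Agent.Helper947.Hil.finite_hf {R : Type} [CommRing R] [IsNoetherianRing R] (J : Ideal (Pl R)) (hJ : Hom J) :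
    (Set.range fun (p : PrimeSpectrum R) (n : ℕ) => hf (fib p J) n).Finite := by
  refine (finite_hf_aux J hJ ⊥).subset ?_
  rintro _ ⟨p, rfl⟩
  exact ⟨p, (bot_le : ⊥ ≤ p.asIdeal), rfl⟩

end Pool.Agent.Helper947.Hil.Lh3

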