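import Mathlib
import Pool.Agent.Helper947.Hil.Defs
import Pool.Agent.Helper947.Hil.A1
import Pool.Agent.Helper947.Hil.B2
import Pool.Agent.Helper947.Hil.B3
import Pool.Agent.Helper947.Hil.H3

set_option autoImplicit false

open MvPolynomial CategoryTheory CategoryTheory.Limits AlgebraicGeometry

namespace Pool.Agent.Helper947.Hil.Lh4

open Pool.Agent.Helper947.Crv

theorem fit_repr_finset {R : Type} [CommRing R] [IsNoetherianRing R] (J : Ideal (Pl R)) (hJ : Hom J)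
    (N : ℕ) (r : ℕ → ℕ) : ∃ D : Finset ℕ, (∀ m ∈ D, N ≤ m) ∧ ∀ p : PrimeSpectrum R,
      (∀ m ∈ D, hf (fib p J) m = r m) → ∀ n ≥ N, hf (fib p J) n = r n := by
  classical
  have hfin := finite_hf J hJ
  let ch : (ℕ → ℕ) → ℕ := fun h => if hh : ∃ n, N ≤ n ∧ h n ≠ r n then hh.choose else N
  have hch : ∀ h, N ≤ ch h := by
    intro h
    by_cases hh : ∃ n, N ≤ n ∧ h n ≠ r n
    · simp only [ch, dif_pos hh]
      exact hh.choose_spec.1
    · simp only [ch, dif_neg hh]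
      exact le_rfl
  refine ⟨hfin.toFinset.image ch, ?_, ?_⟩
  · intro m hm
    obtain ⟨h, -, rfl⟩ := Finset.mem_image.1 hm
    exact hch h
  · intro p hp n hn
    by_contra hne
    have hh : ∃ n, N ≤ n ∧ (fun n : ℕ => hf (fib p J) n) n ≠ r n := ⟨n, hn, hne⟩
    have h1 : ch (fun n : ℕ => hf (fib p J) n) ∈ hfin.toFinset.image ch := by
      refine Finset.mem_image.2 ⟨_, ?_, rfl⟩
      rw [Set.Finite.mem_toFinset]
      exact ⟨p, rfl⟩
    have h2 := hp _ h1
    have h3 : ch (fun n : ℕ => hf (fib p J) n) = hh.choose := by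
      simp only [ch]
      exact dif_pos hh
    rw [h3] at h2
    exact hh.choose_spec.2 h2

theorem fit_repr_map_top_iff {R : Type} [CommRing R] (p : PrimeSpectrum R) (I : Ideal R) :
    I.map (algebraMap R p.asIdeal.ResidueField) = ⊤ ↔ ¬ I ≤ p.asIdeal := by
  constructor
  · intro h hle
    have h1 : I.map (algebraMap R p.asIdeal.ResidueField) ≤ ⊥ := by
      rw [Ideal.map_le_iff_le_comap]
      intro x hx
      rw [Ideal.mem_comap, Ideal.mem_bot]
      exact (Ideal.algebraMap_residueField_eq_zero (I := p.asIdeal)).2 (hle hx)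
    rw [h] at h1
    exact bot_ne_top (le_bot_iff.1 h1).symm
  · intro h
    obtain ⟨x, hx, hxp⟩ := SetLike.not_le_iff_exists.1 h
    have h0 : algebraMap R p.asIdeal.ResidueField x ≠ 0 := fun h0 =>
      hxp ((Ideal.algebraMap_residueField_eq_zero (I := p.asIdeal)).1 h0)
    exact Ideal.eq_top_of_isUnit_mem _ (Ideal.mem_map_of_mem _ hx) (IsUnit.mk0 _ h0)

theorem fit_repr_map_bot {R : Type} [CommRing R] (p : PrimeSpectrum R) (I : Ideal R)
    (h : I ≤ p.asIdeal) : I.map (algebraMap R p.asIdeal.ResidueField) = ⊥ := by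
  rw [← le_bot_iff, Ideal.map_le_iff_le_comap]
  intro x hx
  rw [Ideal.mem_comap, Ideal.mem_bot]
  exact (Ideal.algebraMap_residueField_eq_zero (I := p.asIdeal)).2 (h hx)

theorem fit_repr_FR {R A : Type} [CommRing R] [CommRing A] (φ : R →+* A) (J : Ideal (Pl R))
    (hJ : Hom J) (n r : ℕ) (hr : r ≤ Fintype.card (Mon n)) :
    FR (Kn (ext φ J) n) r ↔ ((Fit (Kn J n) (Fintype.card (Mon n) - r)).map φ = ⊤ ∧
      (Fit (Kn J n) (Fintype.card (Mon n) - r + 1)).map φ = ⊥) := by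
  unfold FR
  rw [Kn_ext φ hJ, Fit_bcK, Fit_bcK]
  exact ⟨fun h => h.2, fun h => ⟨hr, h⟩⟩

theorem fit_repr_map_prod {R A : Type} [CommRing R] [CommRing A] (φ : R →+* A) (D : Finset ℕ)
    (f : ℕ → Ideal R) : (∏ n ∈ D, f n).map φ = ∏ n ∈ D, (f n).map φ := by
  classical
  induction D using Finset.induction_on with
  | empty => simp [Ideal.map_top, Ideal.one_eq_top]
  | insert a s ha ih => rw [Finset.prod_insert ha, Finset.prod_insert ha, Ideal.map_mul, ih]

theorem _root_.Pool.Agent.Helper947.Hil.fit_repr {R : Type} [CommRing R] [IsNoetherianRing R] (J : Ideal (Pl R)) (hJ : Hom J)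
    (N : ℕ) (r : ℕ → ℕ) (hr : ∀ n ≥ N, r n ≤ Fintype.card (Mon n)) :
    ∃ 𝔞 𝔟 : Ideal R, ∀ (A : Type) [CommRing A] (φ : R →+* A),
      (∀ n ≥ N, FR (Kn (ext φ J) n) (r n)) ↔ (𝔞.map φ = ⊥ ∧ 𝔟.map φ = ⊤) := by
  classical
  obtain ⟨D, hDN, hD⟩ := fit_repr_finset J hJ N r
  refine ⟨⨆ n : {n : ℕ // N ≤ n}, Fit (Kn J n.1) (Fintype.card (Mon n.1) - r n.1 + 1),
    ∏ n ∈ D, Fit (Kn J n) (Fintype.card (Mon n) - r n), ?_⟩
  intro A _ φ
  constructor
  · intro h
    have h1 : ∀ n ≥ N, ((Fit (Kn J n) (Fintype.card (Mon n) - r n)).map φ = ⊤ ∧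
      (Fit (Kn J n) (Fintype.card (Mon n) - r n + 1)).map φ = ⊥) := fun n hn =>
      (fit_repr_FR φ J hJ n (r n) (hr n hn)).1 (h n hn)
    constructor
    · rw [Ideal.map_iSup, iSup_eq_bot]
      exact fun n => (h1 n.1 n.2).2
    · rw [fit_repr_map_prod, Finset.prod_congr rfl (fun n hn => (h1 n (hDN n hn)).1),
        Finset.prod_const, ← Ideal.one_eq_top, one_pow]
  · rintro ⟨ha, hb⟩ n hn
    rw [Ideal.map_iSup, iSup_eq_bot] at ha
    rw [fit_repr_FR φ J hJ n (r n) (hr n hn)]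
    refine ⟨?_, ha ⟨n, hn⟩⟩
    by_contra hne
    obtain ⟨P, hP, hle⟩ := Ideal.exists_le_maximal _ hne
    have hPp : (P.comap φ).IsPrime := Ideal.comap_isPrime φ P
    let p : PrimeSpectrum R := ⟨P.comap φ, hPp⟩
    have hmem : ∀ m ∈ D, ¬ Fit (Kn J m) (Fintype.card (Mon m) - r m) ≤ p.asIdeal := by
      intro m hm hcon
      have h2 : ∏ n ∈ D, Fit (Kn J n) (Fintype.card (Mon n) - r n) ≤ p.asIdeal :=
        (Ideal.prod_le_inf.trans (Finset.inf_le hm)).trans hcon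
      have h3 : (∏ n ∈ D, Fit (Kn J n) (Fintype.card (Mon n) - r n)).map φ ≤ P :=
        Ideal.map_le_iff_le_comap.2 h2
      rw [hb] at h3
      exact hP.ne_top (top_le_iff.1 h3)
    have hbot : ∀ m ≥ N, Fit (Kn J m) (Fintype.card (Mon m) - r m + 1) ≤ p.asIdeal := by
      intro m hm
      have h2 : (Fit (Kn J m) (Fintype.card (Mon m) - r m + 1)).map φ ≤ P := by
        rw [ha ⟨m, hm⟩]
        exact bot_le
      exact Ideal.map_le_iff_le_comap.1 h2
    have h4 : ∀ m ∈ D, hf (fib p J) m = r m := by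
      intro m hm
      rw [← FR_iff_hf, fit_repr_FR _ J hJ m (r m) (hr m (hDN m hm))]
      exact ⟨(fit_repr_map_top_iff p _).2 (hmem m hm), fit_repr_map_bot p _ (hbot m (hDN m hm))⟩
    have h5 := hD p h4 n hn
    rw [← FR_iff_hf, fit_repr_FR _ J hJ n (r n) (hr n hn)] at h5
    exact (fit_repr_map_top_iff p _).1 h5.1 (Ideal.map_le_iff_le_comap.1 hle)

end Pool.Agent.Helper947.Hil.Lh4

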