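import Mathlib
import Pool.Agent.Helper947.Hil.Defs
import Pool.Agent.Helper947.Hil.A1
import Pool.Agent.Helper947.Hil.A9
import Pool.Agent.Helper947.Hil.B3
import Pool.Agent.Helper947.Hil.H1
import Pool.Agent.Helper947.Hil.H4

set_option autoImplicit false

open MvPolynomial CategoryTheory CategoryTheory.Limits AlgebraicGeometry

namespace Pool.Agent.Helper947.Hil.Lh5

open Pool.Agent.Helper947.Crv

theorem _root_.Pool.Agent.Helper947.Hil.chart_repr (d c : ℕ) (B : Finset (Mon (mst d c))) :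
    ∃ 𝔞𝔟 : Ideal (RB B) × Ideal (RB B), ∀ (A : Type) [CommRing A] (φ : RB B →+* A),
      CC d c B (fun i => φ (X i)) ↔ (𝔞𝔟.1.map φ = ⊥ ∧ 𝔞𝔟.2.map φ = ⊤) := by
  obtain ⟨𝔞, 𝔟, h⟩ := fit_repr (R := RB B) (JB B (fun i => X i)) (Hom_JB B _) (mst d c)
    (fun n => d * n + c) (fun n hn => card_Mon d c n hn)
  refine ⟨(𝔞, 𝔟), fun A _ φ => ?_⟩
  have h1 := h A φ
  rw [JB_ext] at h1
  exact h1

theorem _root_.Pool.Agent.Helper947.Hil.CC_map (d c : ℕ) {A A' : Type} [CommRing A] [CommRing A'] (φ : A →+* A')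
    (B : Finset (Mon (mst d c)))
    (x : {r : Mon (mst d c) // r ∉ B} × {b : Mon (mst d c) // b ∈ B} → A) (h : CC d c B x) :
    CC d c B (fun i => φ (x i)) := by
  intro n hn
  have h1 := FR_bcK φ (h n hn)
  rw [← Kn_ext φ (Hom_JB B x), JB_ext] at h1
  exact h1

end Pool.Agent.Helper947.Hil.Lh5

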