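import Mathlib
import Pool.Agent.Helper947.Hil.PtDef
import Pool.Agent.Helper947.Hil.H1

set_option autoImplicit false

open MvPolynomial
open Pool.Agent.Helper947.Crv

namespace Pool.Agent.Helper947.Hil

/-- the point of the Hilbert functor given by a matrix -/
noncomputable def ptJB {d c : ℕ} {A : Type} [CommRing A] (B : Finset (Mon (mst d c)))
    (x : {r : Mon (mst d c) // r ∉ B} × {b : Mon (mst d c) // b ∈ B} → A) (h : CC d c B x) :
    HilbPt (d : ℤ) (1 - (c : ℤ)) A := mkPt d c (JB B x) (Hom_JB B x) h

end Pool.Agent.Helper947.Hil
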