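import Mathlib
import Pool.Agent.Helper947.Hil.Defs
import Pool.Agent.Helper947.Hil.A7
import Pool.Agent.Helper947.Hil.B1
import Pool.Agent.Helper947.Hil.B2
import Pool.Agent.Helper947.Hil.F1
import Pool.Agent.Helper947.Hil.F2
import Pool.Agent.Helper947.Hil.H1
import Pool.Agent.Helper947.Hil.H5
import Pool.Agent.Helper947.Hil.PtDef
import Pool.Agent.Helper947.Hil.PtJB

set_option autoImplicit false

open MvPolynomial CategoryTheory CategoryTheory.Limits AlgebraicGeometry

namespace Pool.Agent.Helper947.Hil.Lh6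

open Pool.Agent.Helper947.Crv

theorem _root_.Pool.Agent.Helper947.Hil.Kn_ptJB {d c : ℕ} {A : Type} [CommRing A] (B : Finset (Mon (mst d c)))
    (x : {r : Mon (mst d c) // r ∉ B} × {b : Mon (mst d c) // b ∈ B} → A) (h : CC d c B x) :
    Kn (ptJB B x h).I (mst d c) = gr B x := by
  unfold ptJB
  rw [Kn_mkPt d c _ _ h _ le_rfl, Kn_JB]

theorem _root_.Pool.Agent.Helper947.Hil.bcP_ptJB {d c : ℕ} {A A' : Type} [CommRing A] [CommRing A'] (φ : A →+* A')
    (B : Finset (Mon (mst d c)))
    (x : {r : Mon (mst d c) // r ∉ B} × {b : Mon (mst d c) // b ∈ B} → A) (h : CC d c B x) :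
    bcP φ (ptJB B x h) = ptJB B (fun i => φ (x i)) (CC_map d c φ B x h) := by
  apply pt_eq
  rw [Kn_bcP φ _ _ le_rfl, Kn_ptJB, Kn_ptJB, bcK_gr]

/-- a point whose degree `mst d c` part is a graph is the point of the graph -/
theorem _root_.Pool.Agent.Helper947.Hil.pt_of_gr {d c : ℕ} {A : Type} [CommRing A] (y : HilbPt (d : ℤ) (1 - (c : ℤ)) A)
    (B : Finset (Mon (mst d c)))
    (x : {r : Mon (mst d c) // r ∉ B} × {b : Mon (mst d c) // b ∈ B} → A)
    (h : Kn y.I (mst d c) = gr B x) : ∃ hx : CC d c B x, y = ptJB B x hx := by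
  have hle : JB B x ≤ y.I := by
    unfold JB
    rw [Ideal.span_le]
    rintro _ ⟨r, rfl⟩
    have hmem : (Pi.single r.1 1 - ∑ b : {b : Mon (mst d c) // b ∈ B}, Pi.single b.1 (x (r, b)) :
        Mon (mst d c) → A) ∈ Kn y.I (mst d c) := by
      rw [h]
      exact Submodule.subset_span ⟨r, rfl⟩
    have h1 : pol (mst d c) (Pi.single r.1 1 - ∑ b : {b : Mon (mst d c) // b ∈ B},
        Pi.single b.1 (x (r, b)) : Mon (mst d c) → A) ∈ y.I := hmem
    rw [map_sub, map_sum] at h1
    have h2 : ∀ (u : Mon (mst d c)) (a : A), pol (mst d c) (Pi.single u a : Mon (mst d c) → A) =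
        (monomial u.1 a : Pl A) := by
      intro u a
      unfold pol
      rw [Fintype.linearCombination_apply_single, smul_monomial, smul_eq_mul, mul_one]
    simp only [h2] at h1
    exact h1
  have heq : ∀ n ≥ mst d c, Kn (JB B x) n = Kn y.I n := by
    intro n hn
    apply le_antisymm (Kn_mono hle n)
    rw [Kn_le_iff]
    intro f hf hfy
    have h1 := gen_pt y n hn f hfy hf
    have h2 : gen y.I (mst d c) ≤ JB B x := by
      unfold gen
      rw [Ideal.span_le]
      rintro g ⟨hg, hg'⟩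
      obtain ⟨v, rfl⟩ := exists_pol _ g hg'
      have h3 : v ∈ Kn y.I (mst d c) := hg
      rw [h, ← Kn_JB] at h3
      exact h3
    exact h2 h1
  have hCC : CC d c B x := by
    intro n hn
    rw [heq n hn]
    exact pt_FR y n hn
  refine ⟨hCC, pt_eq _ _ ?_⟩
  rw [Kn_ptJB, h]

end Pool.Agent.Helper947.Hil.Lh6

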