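import Mathlib
import Pool.Agent.Helper947.Hil.H5

set_option autoImplicit false

open MvPolynomial
open Pool.Agent.Helper947.Crv

namespace Pool.Agent.Helper947.Hil

/-- the ideal of closed conditions of a chart -/
noncomputable def aI (d c : ℕ) (B : Finset (Mon (mst d c))) : Ideal (RB B) :=
  (chart_repr d c B).choose.1

/-- the ideal of open conditions of a chart -/
noncomputable def bI (d c : ℕ) (B : Finset (Mon (mst d c))) : Ideal (RB B) :=
  (chart_repr d c B).choose.2

theorem CC_iff (d c : ℕ) (B : Finset (Mon (mst d c))) (A : Type) [CommRing A]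
    (φ : RB B →+* A) :
    CC d c B (fun i => φ (X i)) ↔ ((aI d c B).map φ = ⊥ ∧ (bI d c B).map φ = ⊤) :=
  (chart_repr d c B).choose_spec A φ

/-- the index set of the affine charts of the Hilbert scheme -/
structure Idx (d c : ℕ) where
  B : Finset (Mon (mst d c))
  hB : B.card = d * mst d c + c
  b : RB B ⧸ aI d c B
  hb : b ∈ (bI d c B).map (Ideal.Quotient.mk (aI d c B))

/-- the coordinate ring of an affine chart -/
abbrev Ri {d c : ℕ} (i : Idx d c) : Type := Localization.Away i.b

/-- the coordinates of an affine chart -/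
noncomputable def ρI {d c : ℕ} (i : Idx d c) : RB i.B →+* Ri i :=
  (algebraMap (RB i.B ⧸ aI d c i.B) (Ri i)).comp (Ideal.Quotient.mk (aI d c i.B))

end Pool.Agent.Helper947.Hil
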