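import Mathlib
import Pool.Agent.Helper947.Hil.Defs
import Pool.Agent.Helper947.Hil.IdxD

set_option autoImplicit false

open MvPolynomial CategoryTheory CategoryTheory.Limits AlgebraicGeometry

namespace Pool.Agent.Helper947.Hil.Lh7

open Pool.Agent.Helper947.Crv

theorem _root_.Pool.Agent.Helper947.Hil.CC_ρI {d c : ℕ} (i : Idx d c) : CC d c i.B (fun j => ρI i (X j)) := by
  rw [CC_iff]
  constructor
  · rw [eq_bot_iff, Ideal.map_le_iff_le_comap]
    intro a ha
    rw [Ideal.mem_comap, Ideal.mem_bot]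
    show (algebraMap (RB i.B ⧸ aI d c i.B) (Ri i)) (Ideal.Quotient.mk (aI d c i.B) a) = 0
    rw [Ideal.Quotient.eq_zero_iff_mem.2 ha, map_zero]
  · have h1 : algebraMap (RB i.B ⧸ aI d c i.B) (Ri i) i.b ∈ (bI d c i.B).map (ρI i) := by
      unfold ρI
      rw [← Ideal.map_map]
      exact Ideal.mem_map_of_mem _ i.hb
    exact Ideal.eq_top_of_isUnit_mem _ h1 (IsLocalization.Away.algebraMap_isUnit i.b)

theorem _root_.Pool.Agent.Helper947.Hil.hom_Ri_ext {d c : ℕ} (i : Idx d c) {A : Type} [CommRing A] (ψ ψ' : Ri i →+* A)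
    (h : ∀ j, ψ (ρI i (X j)) = ψ' (ρI i (X j))) : ψ = ψ' := by
  refine IsLocalization.ringHom_ext (Submonoid.powers i.b) ?_
  refine Ideal.Quotient.ringHom_ext ?_
  refine MvPolynomial.ringHom_ext (fun r => ?_) (fun j => h j)
  have h1 : (((ψ.comp (algebraMap (RB i.B ⧸ aI d c i.B) (Ri i))).comp
      (Ideal.Quotient.mk (aI d c i.B))).comp (C : ℤ →+* RB i.B)) =
      (((ψ'.comp (algebraMap (RB i.B ⧸ aI d c i.B) (Ri i))).comp
      (Ideal.Quotient.mk (aI d c i.B))).comp (C : ℤ →+* RB i.B)) := Subsingleton.elim _ _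
  exact congrArg (fun g => g r) h1

theorem _root_.Pool.Agent.Helper947.Hil.hom_Ri_exists {d c : ℕ} (i : Idx d c) {A : Type} [CommRing A] (σ : RB i.B →+* A)
    (hσ : CC d c i.B (fun j => σ (X j))) (b0 : RB i.B) (hb0 : Ideal.Quotient.mk _ b0 = i.b)
    (hu : IsUnit (σ b0)) : ∃ ψ : Ri i →+* A, ψ.comp (ρI i) = σ := by
  have h0 : (aI d c i.B).map σ = ⊥ := ((CC_iff d c i.B A σ).1 hσ).1
  have h1 : ∀ a ∈ aI d c i.B, σ a = 0 := by
    intro a ha
    have := Ideal.mem_map_of_mem σ ha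
    rw [h0, Ideal.mem_bot] at this
    exact this
  let τ : (RB i.B ⧸ aI d c i.B) →+* A := Ideal.Quotient.lift (aI d c i.B) σ h1
  have h2 : IsUnit (τ i.b) := by
    rw [← hb0]
    show IsUnit (Ideal.Quotient.lift (aI d c i.B) σ h1 (Ideal.Quotient.mk _ b0))
    rw [Ideal.Quotient.lift_mk]
    exact hu
  refine ⟨IsLocalization.Away.lift i.b h2, ?_⟩
  ext x
  · simp
  · show IsLocalization.Away.lift i.b h2
      (algebraMap (RB i.B ⧸ aI d c i.B) (Ri i) (Ideal.Quotient.mk (aI d c i.B) (X x))) = σ (X x)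
    rw [IsLocalization.Away.lift_eq]
    exact Ideal.Quotient.lift_mk _ _ _

end Pool.Agent.Helper947.Hil.Lh7

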