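import Mathlib
import Pool.Agent.Helper947.Hil.PtJB
import Pool.Agent.Helper947.Hil.H7

set_option autoImplicit false

open MvPolynomial
open Pool.Agent.Helper947.Crv

namespace Pool.Agent.Helper947.Hil

/-- the universal point over an affine chart -/
noncomputable def uI {d c : ℕ} (i : Idx d c) : HilbPt (d : ℤ) (1 - (c : ℤ)) (Ri i) :=
  ptJB i.B (fun j => ρI i (X j)) (CC_ρI i)

end Pool.Agent.Helper947.Hil
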