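import Mathlib
import Pool.Agent.Helper947.Hil.Defs
import Pool.Agent.Helper947.Hil.A1
import Pool.Agent.Helper947.Hil.A5
import Pool.Agent.Helper947.Hil.A7
import Pool.Agent.Helper947.Hil.A8
import Pool.Agent.Helper947.Hil.F1
import Pool.Agent.Helper947.Hil.H6
import Pool.Agent.Helper947.Hil.H7
import Pool.Agent.Helper947.Hil.IdxD
import Pool.Agent.Helper947.Hil.PtDef
import Pool.Agent.Helper947.Hil.PtJB
import Pool.Agent.Helper947.Hil.UI

set_option autoImplicit false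

open MvPolynomial CategoryTheory CategoryTheory.Limits AlgebraicGeometry

namespace Pool.Agent.Helper947.Hil.Lh10

open Pool.Agent.Helper947.Crv

theorem bcK_id_h {A : Type} [CommRing A] {s : Type} (φ : A →+* A) (hφ : φ = RingHom.id A)
    (K : Submodule A (s → A)) : bcK φ K = K := by
  subst hφ
  unfold bcK
  have h1 : {w : s → A | ∃ v ∈ K, w = fun i => (RingHom.id A) (v i)} = (K : Set (s → A)) := by
    ext w
    constructor
    · rintro ⟨v, hv, rfl⟩
      exact hv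
    · intro hw
      exact ⟨w, hw, rfl⟩
  rw [h1, Submodule.span_eq]

theorem ptJB_congr_h {d c : ℕ} {A : Type} [CommRing A] (B : Finset (Mon (mst d c)))
    (x x' : {r : Mon (mst d c) // r ∉ B} × {b : Mon (mst d c) // b ∈ B} → A) (h : CC d c B x)
    (h' : CC d c B x') (e : x = x') : ptJB B x h = ptJB B x' h' := by
  subst e
  rfl

theorem _root_.Pool.Agent.Helper947.Hil.field_pt {d c : ℕ} {L : Type} [Field L] (x : HilbPt (d : ℤ) (1 - (c : ℤ)) L) :
    ∃ (i : Idx d c) (ψ : Ri i →+* L), bcP ψ (uI i) = x := by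
  have hFR := pt_FR x (mst d c) le_rfl
  obtain ⟨B, hBc, hB⟩ := exists_basis_field (Kn x.I (mst d c)) _ hFR
  have hker : RingHom.ker (RingHom.id L) = (⊥ : PrimeSpectrum L).asIdeal := by
    rw [PrimeSpectrum.asIdeal_bot]
    exact (RingHom.injective_iff_ker_eq_bot _).1 Function.injective_id
  obtain ⟨a, ha, c0, hc0⟩ := chart_open (Kn x.I (mst d c)) _ hFR B hBc (⊥ : PrimeSpectrum L)
    (RingHom.id L) hker (by
      intro v hv h
      rw [bcK_id_h (RingHom.id L) rfl] at hv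
      exact hB v hv h)
  have ha' : a ≠ 0 := by
    intro h0
    apply ha
    rw [h0]
    exact Ideal.zero_mem _
  have hau : IsUnit (RingHom.id L a) := isUnit_iff_ne_zero.2 ha'
  obtain ⟨ε, hε⟩ : ∃ ε : Localization.Away a →+* L,
      ε.comp (algebraMap L (Localization.Away a)) = RingHom.id L :=
    ⟨IsLocalization.Away.lift a hau, IsLocalization.Away.lift_comp a hau⟩
  have hK : Kn x.I (mst d c) = gr B (fun j => ε (c0 j)) := by
    rw [← bcK_gr ε B c0, ← hc0, bcK_bcK, bcK_id_h _ hε]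
  obtain ⟨hx, hxeq⟩ := pt_of_gr x B _ hK
  obtain ⟨σ, hσ⟩ : ∃ σ : RB B →+* L, ∀ j, σ (X j) = ε (c0 j) :=
    ⟨MvPolynomial.eval₂Hom (Int.castRingHom L) (fun j => ε (c0 j)), fun j => by simp⟩
  have hCC : CC d c B (fun j => σ (X j)) := by
    have h1 : (fun j => σ (X j)) = (fun j => ε (c0 j)) := funext hσ
    rw [h1]
    exact hx
  have h2 := (CC_iff d c B L σ).1 hCC
  obtain ⟨b0, hb0, hb0'⟩ : ∃ b0 ∈ bI d c B, σ b0 ≠ 0 := by
    by_contra hcon
    push Not at hcon
    have h3 : (bI d c B).map σ ≤ ⊥ := by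
      rw [Ideal.map_le_iff_le_comap]
      intro b hb
      rw [Ideal.mem_comap, hcon b hb]
      exact Ideal.zero_mem _
    rw [h2.2] at h3
    have h4 : (1 : L) ∈ (⊥ : Ideal L) := h3 trivial
    exact one_ne_zero ((Ideal.mem_bot).1 h4)
  obtain ⟨ψ, hψ⟩ := hom_Ri_exists (d := d) (c := c)
    ⟨B, hBc, Ideal.Quotient.mk _ b0, Ideal.mem_map_of_mem _ hb0⟩ σ hCC b0 rfl
    (isUnit_iff_ne_zero.2 hb0')
  refine ⟨⟨B, hBc, Ideal.Quotient.mk _ b0, Ideal.mem_map_of_mem _ hb0⟩, ψ, ?_⟩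
  rw [uI, bcP_ptJB, hxeq]
  refine ptJB_congr_h B _ _ _ _ ?_
  funext j
  have h5 := congrArg (fun f => f (X j)) hψ
  rw [← hσ j]
  exact h5

end Pool.Agent.Helper947.Hil.Lh10

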