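import Mathlib
import Pool.Agent.Helper947.Hil.Defs
import Pool.Agent.Helper947.Hil.A1
import Pool.Agent.Helper947.Hil.A7
import Pool.Agent.Helper947.Hil.A8
import Pool.Agent.Helper947.Hil.F1
import Pool.Agent.Helper947.Hil.F2
import Pool.Agent.Helper947.Hil.F3
import Pool.Agent.Helper947.Hil.H5
import Pool.Agent.Helper947.Hil.H6
import Pool.Agent.Helper947.Hil.H7
import Pool.Agent.Helper947.Hil.IdxD
import Pool.Agent.Helper947.Hil.PtDef
import Pool.Agent.Helper947.Hil.PtJB
import Pool.Agent.Helper947.Hil.UI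

set_option autoImplicit false

open MvPolynomial CategoryTheory CategoryTheory.Limits AlgebraicGeometry

namespace Pool.Agent.Helper947.Hil.Lh9

open Pool.Agent.Helper947.Crv

theorem chart_at_congr {d c : ℕ} {A : Type} [CommRing A] (B : Finset (Mon (mst d c)))
    (x x' : {r : Mon (mst d c) // r ∉ B} × {b : Mon (mst d c) // b ∈ B} → A)
    (h : CC d c B x) (h' : CC d c B x') (e : x = x') : ptJB B x h = ptJB B x' h' := by
  subst e
  rfl

/-- spreading out a chart around a field valued point -/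
theorem _root_.Pool.Agent.Helper947.Hil.chart_at {d c : ℕ} {A : Type} [CommRing A] (x : HilbPt (d : ℤ) (1 - (c : ℤ)) A)
    (p : PrimeSpectrum A) {L : Type} [Field L] (φ : A →+* L) (hφ : RingHom.ker φ = p.asIdeal)
    (i : Idx d c) (ψL : Ri i →+* L) (h : bcP ψL (uI i) = bcP φ x) :
    ∃ a ∉ p.asIdeal, ∃ ψ : Ri i →+* Localization.Away a,
      bcP ψ (uI i) = bcP (algebraMap A (Localization.Away a)) x := by
  -- step 1
  have h1 : bcK φ (Kn x.I (mst d c)) = gr i.B (fun j => ψL (ρI i (X j))) := by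
    rw [← Kn_bcP φ x (mst d c) le_rfl, ← h, Kn_bcP ψL (uI i) (mst d c) le_rfl]
    unfold uI
    rw [Kn_ptJB, bcK_gr]
  -- step 2
  obtain ⟨a0, ha0, cc, hcc⟩ := chart_open (Kn x.I (mst d c)) (d * mst d c + c)
    (pt_FR x (mst d c) le_rfl) i.B i.hB p φ hφ (by
      intro v hv h0
      rw [h1] at hv
      exact gr_ind i.B _ v hv h0)
  have hK0 : Kn (bcP (algebraMap A (Localization.Away a0)) x).I (mst d c) = gr i.B cc := by
    rw [Kn_bcP _ x (mst d c) le_rfl, hcc]
  obtain ⟨hx0, hx0e⟩ := pt_of_gr (bcP (algebraMap A (Localization.Away a0)) x) i.B cc hK0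
  -- step 3
  have hφa0 : φ a0 ≠ 0 := by
    intro h0
    apply ha0
    rw [← hφ]
    exact h0
  have hua0 : IsUnit (φ a0) := IsUnit.mk0 _ hφa0
  let φ0 : Localization.Away a0 →+* L := IsLocalization.Away.lift a0 hua0
  have hφ0 : φ0.comp (algebraMap A (Localization.Away a0)) = φ :=
    IsLocalization.Away.lift_comp a0 hua0
  have hφ0a : ∀ y, φ0 (algebraMap A (Localization.Away a0) y) = φ y := fun y =>
    RingHom.congr_fun hφ0 y
  have hgr : gr i.B (fun j => φ0 (cc j)) = gr i.B (fun j => ψL (ρI i (X j))) := by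
    rw [← bcK_gr, ← hcc, bcK_bcK, hφ0, h1]
  have hccφ : (fun j => φ0 (cc j)) = fun j => ψL (ρI i (X j)) := gr_inj i.B _ _ hgr.le
  -- step 4
  let σ : RB i.B →+* Localization.Away a0 := eval₂Hom (Int.castRingHom _) cc
  have hσX : ∀ j, σ (X j) = cc j := fun j => eval₂Hom_X' _ _ j
  obtain ⟨b0, hb0⟩ := Ideal.Quotient.mk_surjective i.b
  have hcomp : φ0.comp σ = ψL.comp (ρI i) := by
    apply MvPolynomial.ringHom_ext
    · intro r
      have : (φ0.comp σ).comp (C : ℤ →+* RB i.B) = (ψL.comp (ρI i)).comp C := RingHom.ext_int _ _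
      exact RingHom.congr_fun this r
    · intro j
      have := congrFun hccφ j
      simp only [RingHom.comp_apply, hσX]
      exact this
  have hb0u : IsUnit (ρI i b0) := by
    have : ρI i b0 = algebraMap (RB i.B ⧸ aI d c i.B) (Ri i) i.b := by
      show algebraMap (RB i.B ⧸ aI d c i.B) (Ri i) (Ideal.Quotient.mk (aI d c i.B) b0) = _
      exact congrArg _ hb0
    rw [this]
    exact IsLocalization.Away.algebraMap_isUnit i.b
  have hφσ : φ0 (σ b0) ≠ 0 := by
    have h2 : φ0 (σ b0) = ψL (ρI i b0) := RingHom.congr_fun hcomp b0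
    rw [h2]
    exact (hb0u.map ψL).ne_zero
  -- step 5
  obtain ⟨n, z, hz⟩ := IsLocalization.Away.surj a0 (σ b0)
  have hφz : φ z ≠ 0 := by
    have h2 := congrArg φ0 hz
    rw [map_mul, map_pow, hφ0a, hφ0a] at h2
    rw [← h2]
    exact mul_ne_zero hφσ (pow_ne_zero _ hφa0)
  have hzp : z ∉ p.asIdeal := by
    intro h0
    rw [← hφ] at h0
    exact hφz h0
  have hap : a0 * z ∉ p.asIdeal := by
    intro h0
    rcases p.isPrime.mem_or_mem h0 with h2 | h2
    · exact ha0 h2
    · exact hzp h2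
  -- step 6
  have hua : IsUnit (algebraMap A (Localization.Away (a0 * z)) (a0 * z)) :=
    IsLocalization.Away.algebraMap_isUnit (a0 * z)
  rw [map_mul] at hua
  have hua0' : IsUnit (algebraMap A (Localization.Away (a0 * z)) a0) :=
    isUnit_of_mul_isUnit_left hua
  have huz' : IsUnit (algebraMap A (Localization.Away (a0 * z)) z) :=
    isUnit_of_mul_isUnit_right hua
  let τ : Localization.Away a0 →+* Localization.Away (a0 * z) :=
    IsLocalization.Away.lift a0 hua0'
  have hτ : τ.comp (algebraMap A (Localization.Away a0)) =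
      algebraMap A (Localization.Away (a0 * z)) := IsLocalization.Away.lift_comp a0 hua0'
  have hτa : ∀ y, τ (algebraMap A (Localization.Away a0) y) =
      algebraMap A (Localization.Away (a0 * z)) y := fun y => RingHom.congr_fun hτ y
  have hτu : IsUnit (τ (σ b0)) := by
    have h2 := congrArg τ hz
    rw [map_mul, hτa] at h2
    rw [← h2] at huz'
    exact isUnit_of_mul_isUnit_left huz'
  -- step 7
  have hCC : CC d c i.B (fun j => (τ.comp σ) (X j)) := by
    have h2 := CC_map d c τ i.B cc hx0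
    have h3 : (fun j => (τ.comp σ) (X j)) = fun j => τ (cc j) := by
      funext j
      rw [RingHom.comp_apply, hσX]
    rw [h3]
    exact h2
  obtain ⟨ψ, hψ⟩ := hom_Ri_exists i (τ.comp σ) hCC b0 hb0 hτu
  refine ⟨a0 * z, hap, ψ, ?_⟩
  -- step 8
  have e1 : bcP (algebraMap A (Localization.Away (a0 * z))) x =
      bcP τ (ptJB i.B cc hx0) := by
    rw [← hx0e, ← bcP_comp, hτ]
  rw [e1, bcP_ptJB]
  unfold uI
  rw [bcP_ptJB]
  apply chart_at_congr
  funext j
  have h2 := RingHom.congr_fun hψ (X j)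
  rw [RingHom.comp_apply, RingHom.comp_apply, hσX] at h2
  exact h2

end Pool.Agent.Helper947.Hil.Lh9

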