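import Mathlib
import Pool.Agent.Helper947.Hil.Defs
import Pool.Agent.Helper947.Hil.H10
import Pool.Agent.Helper947.Hil.H9
import Pool.Agent.Helper947.Hil.IdxD
import Pool.Agent.Helper947.Hil.PtDef
import Pool.Agent.Helper947.Hil.UI

set_option autoImplicit false

open MvPolynomial CategoryTheory CategoryTheory.Limits AlgebraicGeometry

namespace Pool.Agent.Helper947.Hil.Lh11

open Pool.Agent.Helper947.Crv

theorem _root_.Pool.Agent.Helper947.Hil.coverP {d c : ℕ} {A : Type} [CommRing A] (x : HilbPt (d : ℤ) (1 - (c : ℤ)) A)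
    (p : PrimeSpectrum A) : ∃ (i : Idx d c), ∃ a ∉ p.asIdeal,
      ∃ ψ : Ri i →+* Localization.Away a,
        bcP ψ (uI i) = bcP (algebraMap A (Localization.Away a)) x := by
  obtain ⟨i, ψL, h⟩ := field_pt (bcP (algebraMap A p.asIdeal.ResidueField) x)
  exact ⟨i, chart_at x p (algebraMap A p.asIdeal.ResidueField)
    (Ideal.ker_algebraMap_residueField p.asIdeal) i ψL h⟩

end Pool.Agent.Helper947.Hil.Lh11

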