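import Mathlib
import Pool.Agent.Helper947.Hil.Defs

set_option autoImplicit false

open MvPolynomial CategoryTheory CategoryTheory.Limits AlgebraicGeometry

namespace Pool.Agent.Helper947.Hil.Lh13

open Pool.Agent.Helper947.Crv

/-- gluing of ring homomorphisms -/
theorem _root_.Pool.Agent.Helper947.Hil.glueHom {R A : Type} [CommRing R] [CommRing A] (s : Finset A)
    (hs : Ideal.span (s : Set A) = ⊤) (ψ : ∀ f : s, R →+* Localization.Away (f : A))
    (h : ∀ (f g : s) (B : Type) [CommRing B] (α : Localization.Away (f : A) →+* B)
      (β : Localization.Away (g : A) →+* B),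
      α.comp (algebraMap A (Localization.Away (f : A))) =
        β.comp (algebraMap A (Localization.Away (g : A))) → α.comp (ψ f) = β.comp (ψ g)) :
    ∃ χ : R →+* A, ∀ f : s, (algebraMap A (Localization.Away (f : A))).comp χ = ψ f := by
  classical
  have key : ∀ r : R, ∃ a : A, ∀ f : s, algebraMap A (Localization.Away (f : A)) a = ψ f r := by
    intro r
    obtain ⟨a, ha, -⟩ := Localization.existsUnique_algebraMap_eq_of_span_eq_top (s : Set A) hs
      (fun f => ψ ⟨f.1, f.2⟩ r) (by
        intro a b
        have h1 := h ⟨a.1, a.2⟩ ⟨b.1, b.2⟩ (Localization.Away (a.1 * b.1 : A))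
          (IsLocalization.Away.awayToAwayRight (P := Localization.Away (a.1 * b.1 : A)) a.1 b.1)
          (IsLocalization.Away.awayToAwayLeft (P := Localization.Away (a.1 * b.1 : A)) b.1 a.1)
          (by
            refine RingHom.ext fun x => ?_
            rw [RingHom.comp_apply, RingHom.comp_apply]
            have e1 := IsLocalization.Away.awayToAwayRight_eq (S := Localization.Away (a.1 : A))
              (P := Localization.Away (a.1 * b.1 : A)) a.1 b.1 x
            have e2 := IsLocalization.Away.awayToAwayLeft_eq (S := Localization.Away (b.1 : A))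
              (P := Localization.Away (a.1 * b.1 : A)) b.1 a.1 x
            exact e1.trans e2.symm)
        exact RingHom.congr_fun h1 r)
    exact ⟨a, fun f => ha ⟨f.1, f.2⟩⟩
  choose χ hχ using key
  have inj : ∀ x y : A, (∀ f : s, algebraMap A (Localization.Away (f : A)) x =
      algebraMap A (Localization.Away (f : A)) y) → x = y := by
    intro x y hxy
    apply Localization.algebraMap_injective_of_span_eq_top (s : Set A) hs
    funext f
    exact hxy ⟨f.1, f.2⟩
  refine ⟨{ toFun := χ
            map_one' := inj _ _ fun f => by rw [hχ, map_one, map_one]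
            map_mul' := fun x y => inj _ _ fun f => by rw [hχ, map_mul, map_mul, hχ, hχ]
            map_zero' := inj _ _ fun f => by rw [hχ, map_zero, map_zero]
            map_add' := fun x y => inj _ _ fun f => by rw [hχ, map_add, map_add, hχ, hχ] }, ?_⟩
  intro f
  exact RingHom.ext fun r => hχ r f

end Pool.Agent.Helper947.Hil.Lh13

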