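import Mathlib
import Pool.Agent.Helper947.Hil.Defs
import Pool.Agent.Helper947.Hil.A7
import Pool.Agent.Helper947.Hil.H6
import Pool.Agent.Helper947.Hil.H7
import Pool.Agent.Helper947.Hil.IdxD
import Pool.Agent.Helper947.Hil.PtDef
import Pool.Agent.Helper947.Hil.UI

set_option autoImplicit false

open MvPolynomial CategoryTheory CategoryTheory.Limits AlgebraicGeometry

namespace Pool.Agent.Helper947.Hil.Lh8

open Pool.Agent.Helper947.Crv

theorem monoP_Kn {d c : ℕ} (i : Idx d c) {A : Type} [CommRing A] (ψ : Ri i →+* A) :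
    Kn (bcP ψ (uI i)).I (mst d c) = gr i.B (fun j => ψ (ρI i (X j))) := by
  unfold uI
  rw [bcP_ptJB, Kn_ptJB]

theorem _root_.Pool.Agent.Helper947.Hil.monoP {d c : ℕ} (i : Idx d c) {A : Type} [CommRing A] (ψ ψ' : Ri i →+* A)
    (h : bcP ψ (uI i) = bcP ψ' (uI i)) : ψ = ψ' := by
  have h1 := monoP_Kn i ψ
  have h2 := monoP_Kn i ψ'
  rw [h, h2] at h1
  exact hom_Ri_ext i ψ ψ' (fun j => congrFun (gr_inj i.B _ _ h1.ge) j)

end Pool.Agent.Helper947.Hil.Lh8

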