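import Mathlib
import Pool.Agent.Helper947.Hil.Defs
import Pool.Agent.Helper947.Hil.F3
import Pool.Agent.Helper947.Hil.F4
import Pool.Agent.Helper947.Hil.H13
import Pool.Agent.Helper947.Hil.H8
import Pool.Agent.Helper947.Hil.H9
import Pool.Agent.Helper947.Hil.IdxD
import Pool.Agent.Helper947.Hil.PtDef
import Pool.Agent.Helper947.Hil.UI

set_option autoImplicit false

open MvPolynomial CategoryTheory CategoryTheory.Limits AlgebraicGeometry

namespace Pool.Agent.Helper947.Hil.Lh14

open Pool.Agent.Helper947.Crv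

theorem _root_.Pool.Agent.Helper947.Hil.isopenP {d c : ℕ} (i : Idx d c) {A : Type} [CommRing A]
    (x : HilbPt (d : ℤ) (1 - (c : ℤ)) A) :
    ∃ W : Set (PrimeSpectrum A), IsOpen W ∧ ∀ (B : Type) [CommRing B] (φ : A →+* B),
      (∃ ψ : Ri i →+* B, bcP ψ (uI i) = bcP φ x) ↔
        ∀ q : PrimeSpectrum B, PrimeSpectrum.comap φ q ∈ W := by
  refine ⟨{p | ∃ a ∉ p.asIdeal, ∃ ψ : Ri i →+* Localization.Away a,
    bcP ψ (uI i) = bcP (algebraMap A (Localization.Away a)) x}, ?_, ?_⟩
  · rw [isOpen_iff_forall_mem_open]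
    rintro p ⟨a, ha, hψ⟩
    refine ⟨PrimeSpectrum.basicOpen a, ?_, PrimeSpectrum.isOpen_basicOpen, ha⟩
    intro p' hp'
    exact ⟨a, hp', hψ⟩
  · intro B _ φ
    constructor
    · rintro ⟨ψ, hψ⟩ q
      have hker : RingHom.ker ((algebraMap B q.asIdeal.ResidueField).comp φ) =
          (PrimeSpectrum.comap φ q).asIdeal := by
        rw [← RingHom.comap_ker, Ideal.ker_algebraMap_residueField]
        rfl
      refine chart_at x (PrimeSpectrum.comap φ q)
        ((algebraMap B q.asIdeal.ResidueField).comp φ) hker i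
        ((algebraMap B q.asIdeal.ResidueField).comp ψ) ?_
      rw [bcP_comp, bcP_comp, hψ]
    · intro hq
      let T : Set B := {f | ∃ ψ : Ri i →+* Localization.Away f,
        bcP ψ (uI i) = bcP (algebraMap B (Localization.Away f)) (bcP φ x)}
      have hT : ∀ q : PrimeSpectrum B, ∃ f ∈ T, f ∉ q.asIdeal := by
        intro q
        obtain ⟨a, ha, ψ, hψ⟩ := hq q
        have hu : IsUnit (((algebraMap B (Localization.Away (φ a))).comp φ) a) :=
          IsLocalization.Away.algebraMap_isUnit (φ a)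
        let ι : Localization.Away a →+* Localization.Away (φ a) :=
          IsLocalization.Away.lift a hu
        have hι : ι.comp (algebraMap A (Localization.Away a)) =
            (algebraMap B (Localization.Away (φ a))).comp φ :=
          IsLocalization.Away.lift_comp a hu
        refine ⟨φ a, ⟨ι.comp ψ, ?_⟩, ha⟩
        rw [bcP_comp, hψ, ← bcP_comp, ← bcP_comp, hι]
      have hspan : Ideal.span T = ⊤ := by
        by_contra hne
        obtain ⟨m, hm, hTm⟩ := Ideal.exists_le_maximal _ hne
        obtain ⟨f, hf, hfm⟩ := hT ⟨m, hm.isPrime⟩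
        exact hfm (hTm (Ideal.subset_span hf))
      obtain ⟨s, hsT, hs⟩ := (Ideal.span_eq_top_iff_finite T).1 hspan
      have hex : ∀ f : s, ∃ ψ : Ri i →+* Localization.Away (f : B),
        bcP ψ (uI i) = bcP (algebraMap B (Localization.Away (f : B))) (bcP φ x) := fun f => hsT f.2
      choose ψ hψ using hex
      obtain ⟨χ, hχ⟩ := glueHom s hs ψ (by
        intro f g C _ α β hαβ
        apply monoP
        rw [bcP_comp, bcP_comp, hψ f, hψ g, ← bcP_comp _ α, ← bcP_comp _ β, hαβ])
      refine ⟨χ, sepP s hs _ _ fun f hf => ?_⟩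
      have h1 := hψ ⟨f, hf⟩
      rw [← hχ ⟨f, hf⟩, bcP_comp] at h1
      exact h1

end Pool.Agent.Helper947.Hil.Lh14

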