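import Mathlib
import Pool.Agent.Helper947.Hil.G3
import Pool.Agent.Helper947.Hil.B2
import Pool.Agent.Helper947.Hil.B3
import Pool.Agent.Helper947.Hil.F2
import Pool.Agent.Helper947.Hil.F3
import Pool.Agent.Helper947.Hil.F4
import Pool.Agent.Helper947.Hil.F5B
import Pool.Agent.Helper947.Hil.UI
import Pool.Agent.Helper947.Hil.H8
import Pool.Agent.Helper947.Hil.H11
import Pool.Agent.Helper947.Hil.H14

set_option autoImplicit false

open CategoryTheory CategoryTheory.Limits AlgebraicGeometry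
open Pool.Agent.Helper947.Crv

namespace Pool.Agent.Helper947.Hil

/-- the Hilbert functor on rings -/
noncomputable def F0 (d c : ℕ) : CommRingCat.{0} ⥤ Type where
  obj A := HilbPt (d : ℤ) (1 - (c : ℤ)) A
  map {A B} φ := ↾(fun x => bcP φ.hom x)
  map_id A := by
    ext x
    exact bcP_id x
  map_comp φ ψ := by
    ext x
    exact bcP_comp _ _ x

theorem F0_map {d c : ℕ} {A B : CommRingCat.{0}} (φ : A ⟶ B) (x : (F0 d c).obj A) :
    (F0 d c).map φ x = bcP φ.hom x := rfl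

theorem exists_H (d c : ℕ) :
    ∃ (H : Scheme.{0}) (e : ∀ A : CommRingCat.{0}, (Spec A ⟶ H) ≃ (F0 d c).obj A),
      ∀ (A B : CommRingCat.{0}) (φ : A ⟶ B) (f : Spec A ⟶ H),
        e B (Spec.map φ ≫ f) = (F0 d c).map φ (e A f) := by
  refine g3 (F0 d c) ?_ ?_ (ι := Idx d c) (fun i => CommRingCat.of (Ri i)) (fun i => uI i)
    ?_ ?_ ?_
  · intro A s hs x y h
    exact sepP s hs x y (fun f hf => h f hf)
  · intro A s hs x h
    obtain ⟨y, hy⟩ := glueP s hs x (fun f hf g hg B _ φ ψ hc =>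
      h f hf g hg (CommRingCat.of B) (CommRingCat.ofHom φ) (CommRingCat.ofHom ψ) (by
        rw [← CommRingCat.ofHom_comp, ← CommRingCat.ofHom_comp, hc]))
    exact ⟨y, fun f hf => hy f hf⟩
  · intro i B ψ ψ' h
    apply CommRingCat.hom_ext
    exact monoP i ψ.hom ψ'.hom h
  · intro i A x
    obtain ⟨W, hW, h⟩ := isopenP i (A := A) x
    refine ⟨W, hW, fun B φ => ?_⟩
    rw [← h B φ.hom]
    constructor
    · rintro ⟨ψ, hψ⟩
      exact ⟨ψ.hom, hψ⟩
    · rintro ⟨ψ, hψ⟩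
      exact ⟨CommRingCat.ofHom ψ, hψ⟩
  · intro A x p
    obtain ⟨i, a, ha, ψ, hψ⟩ := coverP (A := A) x p
    exact ⟨i, a, ha, CommRingCat.ofHom ψ, hψ⟩

/-- Existence of the Hilbert scheme of curves of degree `d` and arithmetic genus `1 - c` in
projective 3-space. -/
theorem hilbert_scheme_exists (d c : ℕ) :
    Nonempty (HilbertScheme (d : ℤ) (1 - (c : ℤ))) := by
  obtain ⟨H, e, he⟩ := exists_H d c
  refine ⟨⟨H, fun A _ => e (CommRingCat.of A), ?_⟩⟩
  intro A B _ _ φ f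
  refine ⟨mst d c, fun m hm p hp => ?_⟩
  have key : ∀ z : HilbPt (d : ℤ) (1 - (c : ℤ)) B, z = bcP φ (e (CommRingCat.of A) f) →
      (p ∈ z.I ↔ p ∈ Ideal.map (MvPolynomial.map φ)
        (e (CommRingCat.of A) f : HilbPt (d : ℤ) (1 - (c : ℤ)) A).I) := by
    rintro z rfl
    have h2 := Kn_bcP φ (e (CommRingCat.of A) f : HilbPt (d : ℤ) (1 - (c : ℤ)) A) m hm
    have h3 := Kn_ext φ (e (CommRingCat.of A) f : HilbPt (d : ℤ) (1 - (c : ℤ)) A).hom m
    rw [← h3] at h2
    constructor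
    · exact fun h => (Kn_le_iff _ _ m).1 h2.le p hp h
    · exact fun h => (Kn_le_iff _ _ m).1 h2.ge p hp h
  exact key _ (he _ _ (CommRingCat.ofHom φ) f)

end Pool.Agent.Helper947.Hil
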